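import Pool.Agent.H.MP_427786_al.K

set_option autoImplicit false
set_option linter.unusedSectionVars false

namespace Pool.Agent.ALK

inductive Tr
  | lf (b : Bool) (l r : W)
  | nd (s t : Tr)

def Tr.get : Tr → ℕ → Rl
  | .lf b l r, _ => (b, l, r)
  | .nd s t, i => if i % 2 = 0 then s.get (i / 2) else t.get (i / 2)

def step2 (T : Tr) (n : ℕ) (b : Bool) (w : W) (s : St) : W :=
  if s.2.1 < n then step [T.get s.2.1] b w (s.1, 0, s.2.2) else w

def chain2 (T : Tr) (n : ℕ) (b : Bool) (l r : W) (s : List St) : Bool :=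
  s.foldl (step2 T n b) (fr l) == fr r

inductive I2
  | ax (i : It)
  | sym (c : ℕ) (f : Bool) (w : W) (d : ℕ) (g : Bool) (v : W) (s : List St)
  | pair (c : ℕ) (f : Bool) (w : W) (d : ℕ) (g : Bool) (v : W) (s t : List St)
  | ch (s : List St)

def ok2 (T : Tr) (n : ℕ) : I2 → Bool
  | .ax i => T.get n == out [] i
  | .sym c f w d g v s => c % 2 == 0 && d % 2 == 0 &&
      chain2 T n true (pt (pu c f) ++ w) (pt (pu d g) ++ v) s &&
      T.get n == (true, pt (pv c f) ++ w ++ lam d v, pt (pv d g) ++ v ++ lam c w)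
  | .pair c f w d g v s t => c % 2 == 0 && d % 2 == 0 &&
      chain2 T n true (pt (pu c f) ++ w) (pt (pu d g) ++ v) s &&
      chain2 T n true (pt (pv c f) ++ w) (pt (pv d g) ++ v) t &&
      T.get n == (false, lam c w, lam d v)
  | .ch s => chain2 T n (T.get n).1 (T.get n).2.1 (T.get n).2.2 s

def chk (T : Tr) : ℕ → List I2 → Bool
  | _, [] => true
  | n, i :: is => ok2 T n i && chk T (n + 1) is

variable {Γ X : Type} [Group Γ] [MulAction Γ X] {Λ : X → X → Γ} {p : ℕ → X}

theorem hd_chain2 {T : Tr} {n : ℕ} (h : ∀ j < n, Hd Λ p (T.get j)) {b : Bool} {l r : W}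
    {s : List St} (e : chain2 T n b l r s = true) : Hd Λ p (b, l, r) := by
  have : ∀ w, Hd Λ p (b, w, s.foldl (step2 T n b) w) := by
    clear e
    induction s with
    | nil => intro w; cases b <;> simp [Hd]
    | cons t s ih =>
      refine fun w => hd_trans ?_ (ih _)
      unfold step2
      split_ifs with c
      · exact hd_step (by simpa using h _ c) b w _
      · cases b <;> simp [Hd]
  have h2 := this (fr l)
  rw [beq_iff_eq.1 e] at h2
  cases b <;> simpa [Hd, ev_fr] using h2

theorem hd_ok2 (H : Sw Λ) {T : Tr} {n : ℕ} (h : ∀ j < n, Hd Λ p (T.get j)) {i : I2}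
    (e : ok2 T n i = true) : Hd Λ p (T.get n) := by
  have hv : ∀ c f, ev Λ p (pt (pv c f)) • p 0 = p (pv c f) := fun c f => ev_pt H c _
  cases i with
  | ax i =>
    rw [beq_iff_eq.1 e]; exact hd_out H (by simp) i
  | sym c f w d g v s =>
    simp only [ok2, Bool.and_eq_true, beq_iff_eq] at e
    obtain ⟨⟨⟨e1, e2⟩, e3⟩, e4⟩ := e
    have h1 := hd_chain2 h e3
    simp only [Hd, if_true, ev_app, mul_smul, ev_pt H] at h1
    simp only [e4, Hd, if_true, ev_app, mul_smul, hv, ev_lam H e1 f, ev_lam H e2 g, h1]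
    exact H.ex _ _ _
  | pair c f w d g v s t =>
    simp only [ok2, Bool.and_eq_true, beq_iff_eq] at e
    obtain ⟨⟨⟨⟨e1, e2⟩, e3⟩, e5⟩, e4⟩ := e
    have h1 := hd_chain2 h e3
    have h2 := hd_chain2 h e5
    simp only [Hd, if_true, ev_app, mul_smul, ev_pt H, hv] at h1 h2
    simp only [e4, Hd, Bool.false_eq_true, if_false, ev_lam H e1 f, ev_lam H e2 g, h1, h2]
  | ch s => exact hd_chain2 h e

theorem hd_chk (H : Sw Λ) {T : Tr} {is : List I2} {n m : ℕ} (h : ∀ j < n, Hd Λ p (T.get j))
    (e : (chk T n is && m == n + is.length) = true) : ∀ j < m, Hd Λ p (T.get j) := by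
  rw [Bool.and_eq_true, beq_iff_eq] at e
  obtain ⟨e, rfl⟩ := e
  induction is generalizing n with
  | nil => exact h
  | cons i is ih =>
    simp only [chk, Bool.and_eq_true] at e
    have := ih (n := n + 1) (fun j hj => by
      rcases Nat.lt_succ_iff_lt_or_eq.1 hj with c | rfl
      exacts [h j c, hd_ok2 H h e.1]) e.2
    intro j hj
    exact this j (by simp at hj; omega)

end Pool.Agent.ALK
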