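import Pool.Agent.H.MP_20a840_al.K2

set_option autoImplicit false
set_option maxRecDepth 100000

namespace Pool.Agent.ALK

def qt00000 : Tr :=
  .nd (.nd (.nd (.nd (.nd (.nd (.nd (.lf true [70] [8]) (.lf false [138,182,23] [182])) (.nd (.lf false [18,83,4] [4,18,83]) (.lf false [6,9,138,7] [110,71]))) (.nd (.nd (.lf true [112,7] [37]) (.lf false [83,44] [45,82])) (.nd (.lf false [16,81,5] [5,16,81]) (.lf true [14,277,208] [36,244])))) (.nd (.nd (.nd (.lf true [12,138] [8,172]) (.lf false [183,5,70] [9,182,5])) (.nd (.lf false [209,278,208,215] [215,278]) (.lf true [4,214] [4,276]))) (.nd (.nd (.lf false [13,172,12] [11,172,10]) (.lf false [12,208,49] [36,18,83])) (.lf false [311,275,310] [279,275,278])))) (.nd (.nd (.nd (.nd (.lf false [37,48,36] [81,48,80]) (.lf false [274,17] [12,211])) (.nd (.lf false [77,80,76,209] [209,80]) (.lf false [6,9,182] [37,6,22]))) (.nd (.nd (.lf false [311,18,310] [23,18,22]) (.lf false [19,13,208] [13])) (.lf false [140,146,211,141] [146,211]))) (.nd (.nd (.nd (.lf true [12,22] [214]) (.lf false [77,44,2] [37,44,12])) (.nd (.lf false [138,107,104]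 [104,138,107]) (.lf true [37,23,12] [111]))) (.nd (.nd (.lf false [2,54,23,3] [54,23]) (.lf false [276,80,277,85] [80,276,85,277])) (.lf false [211,208] [18,211]))))) (.nd (.nd (.nd (.nd (.nd (.lf false [9,4,8] [73,4,72]) (.lf false [11,3,38] [3])) (.nd (.lf false [3,50,2,19] [19,50]) (.lf false [50,179,172] [46,50,179]))) (.nd (.nd (.lf true [4,22] [86]) (.lf false [51,36,80] [49,82,16])) (.lf false [79,4,15] [4,15,79]))) (.nd (.nd (.nd (.lf false [207,244,206] [213,244,212]) (.lf false [76,208,81] [12,208,17])) (.nd (.lf false [76,45,36,44] [36,76]) (.lf true [212,208,213] [213,276]))) (.nd (.nd (.lf true [37,50] [2,274]) (.lf false [16,208,37,19] [49,82])) (.lf false [36,44,37] [4])))) (.nd (.nd (.nd (.nd (.lf false [81,84,80] [277,84,276]) (.lf false [7,4,72] [4])) (.nd (.lf false [208,12,17] [12,17,208]) (.lf true [2,173,46] [36,174]))) (.nd (.nd (.lf false [141,76,140] [73,76,72]) (.lf false [4,37,76] [2,4,211])) (.lf false [275,210,209] [210,209,275]))) (.nd (.nd (.nd (.lf true [2,48] [37]) (.lf false [77,50,211] [44,211,45])) (.nd (.lf false [208,207,240,206] [240,208])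 (.lf true [213,19] [213,18]))) (.nd (.nd (.lf false [5,6,4,71] [71,6]) (.lf false [139,22,138] [111,20,110])) (.lf false [81,2] [37,16])))))) (.nd (.nd (.nd (.nd (.nd (.nd (.lf true [16,48] [2]) (.lf false [49,4] [17,36])) (.nd (.lf false [10,22,183,11] [22,183]) (.lf false [83,79,82,147] [147,141]))) (.nd (.nd (.lf true [6,14] [110]) (.lf false [39,44,38,111] [111,174])) (.lf false [77,45,76] [37,45,36]))) (.nd (.nd (.nd (.lf true [14,172] [10,206]) (.lf false [211,36,5] [13,274,49])) (.nd (.lf false [309,310,308,343] [343,310]) (.lf true [212,211] [139]))) (.nd (.nd (.lf true [37,210] []) (.lf false [209,209,76] [76,209,209])) (.lf true [37,13,209] [274,13])))) (.nd (.nd (.nd (.nd (.lf false [5,72,4] [9,72,8]) (.lf false [12,77] [36,3])) (.nd (.lf false [117,110,116,245] [245,110]) (.lf false [23,36,110,109] [119,36]))) (.nd (.nd (.lf false [215,54,214] [45,54,44]) (.lf false [19,19] [209,209])) (.lf false [211,208,275] [208,275,211]))) (.nd (.nd (.nd (.lf true [13] [36]) (.lf false [2,45,13,4] [13,76])) (.nd (.lf false [50,45,210,44] [210,50]) (.lf true [139,19] [310])))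 (.nd (.nd (.lf false [50,19,2,18] [2,50]) (.lf true [212,2,37] [80,20])) (.lf false [139,150] [10,139]))))) (.nd (.nd (.nd (.nd (.nd (.lf false [21,14,20] [245,14,244]) (.lf false [22,139] [138,23])) (.nd (.lf false [50,83,36] [36,50,83]) (.lf true [172,139,12] [70]))) (.nd (.nd (.lf false [211,18,210] [13,18,12]) (.lf false [211,12] [17,274])) (.lf false [21,117,20] [7,117,6]))) (.nd (.nd (.nd (.lf false [275,278,274] [311,278,310]) (.lf false [77,12,2] [5,12,44])) (.nd (.lf false [44,214,55,45] [214,55]) (.lf true [36,246,36] [138,108]))) (.nd (.nd (.lf false [23,342,22] [21,342,20]) (.lf true [36,308,275] [276,13])) (.lf true [12,17,18] [18,16,208,17])))) (.nd (.nd (.nd (.nd (.lf true [22,108] [12,118]) (.lf false [138,9,139] [183])) (.nd (.lf false [214,212,343] [212,343,214]) (.lf true [48,22] [2,276]))) (.nd (.nd (.lf false [175,110,174] [107,110,106]) (.lf false [209,13,51] [17,19,3])) (.lf false [209,45,208] [49,45,48]))) (.nd (.nd (.nd (.lf true [111,343] [139]) (.lf true [74,71,182] [118])) (.nd (.lf false [83,5,82] [19,5,18]) (.lf true [213,208,208] [213]))) (.nd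 (.nd (.lf false [20,212,13,21] [212,13]) (.lf false [211,18,12] [13,18,210])) (.lf false [38,106,39] [2]))))))

def qt00001 : Tr :=
  .nd (.nd (.nd (.nd (.nd (.nd (.nd (.lf true [6,70] [4]) (.lf false [211,16,209] [19])) (.nd (.lf false [20,213,12] [12,20,213]) (.lf false [138,7,108,6] [118,138]))) (.nd (.nd (.lf true [108,13] [6]) (.lf false [83,3,50] [19,5,18])) (.lf false [37,2,5,36] [2,5]))) (.nd (.nd (.nd (.lf false [13,212,12] [21,212,20]) (.lf false [4,12,2] [2,12,44])) (.nd (.lf false [38,7,2] [2,38,7]) (.lf true [36,246,37] [108,23]))) (.nd (.nd (.lf true [36,80] [4,208]) (.lf false [13,48,45,12] [82,5])) (.lf false [83,79,82,243] [243,79])))) (.nd (.nd (.nd (.nd (.lf false [49,36,48] [81,36,80]) (.lf false [48,80,5] [80])) (.nd (.lf false [7,106,6,11] [11,106]) (.lf false [110,4,9] [4,9,12]))) (.nd (.nd (.lf true [4,48] []) (.lf false [37,274,12] [3,50,36])) (.lf false [211,12,19,210] [12,19]))) (.nd (.nd (.nd (.lf true [20,110] []) (.lf false [208,17,48] [13,44,208])) (.nd (.lf false [212,117,109] [109,212,117]) (.lf true [208,23] [311]))) (.nd (.nd (.lf false [116,21,6,20]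 [6,116]) (.lf false [343,277,277,342] [279,277,277,278])) (.lf false [38,6] [6,10]))))) (.nd (.nd (.nd (.nd (.nd (.lf false [15,12,14] [207,12,206]) (.lf false [5,44] [3,76])) (.nd (.lf false [48,44,209] [44,209,48]) (.lf false [47,2,11] [2,11,173]))) (.nd (.nd (.lf false [71,6,70] [5,6,4]) (.lf false [12,16,275] [16])) (.lf false [211,83,210] [77,83,76]))) (.nd (.nd (.nd (.lf true [18,48] [2,274]) (.lf false [18,37,17] [208,275,37])) (.nd (.lf false [54,278,49,55] [278,49]) (.lf true [208,207,111] [37,245]))) (.nd (.nd (.lf false [311,278,310] [275,278,274]) (.lf true [2,84,206] [116,36])) (.lf false [3,38,2] [10])))) (.nd (.nd (.nd (.nd (.lf true [8,38] [2,104]) (.lf false [36,3,76] [12])) (.nd (.lf false [209,206,208,241] [241,206]) (.lf true [116,212] [108]))) (.nd (.nd (.lf false [277,80,276] [85,80,84]) (.lf false [45,2,210] [36,83,50])) (.lf false [309,212,211] [212,211,309]))) (.nd (.nd (.nd (.lf true [111,116] [6]) (.lf false [76,209,4] [44,209,80])) (.nd (.lf false [274,310,279,275] [310,279]) (.lf true [309,211] [37,309]))) (.nd (.nd (.lf false [13,8,12,141] [141,8])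 (.lf false [50,275] [2,17])) (.lf false [70,142,71] [2])))))) (.nd (.nd (.nd (.nd (.nd (.nd (.lf true [22,182] [10]) (.lf false [71,6] [6,9])) (.nd (.lf false [3,42,2,11] [11,42]) (.lf false [70,78,4,9] [4,140]))) (.nd (.nd (.lf true [278,17] [139]) (.lf false [36,3,36,50] [12,36])) (.lf false [48,81,37] [37,48,81]))) (.nd (.nd (.nd (.lf false [213,210,212] [309,210,308]) (.lf false [48,13,274] [4,37,210])) (.nd (.lf false [4,3,37,2] [37,4]) (.lf true [276,18] [276,208]))) (.nd (.nd (.lf false [343,214,342] [213,214,212]) (.lf false [208,17,3,50] [13,18])) (.lf true [310,343,20] [308,22,343])))) (.nd (.nd (.nd (.nd (.lf true [22,36] [2,86]) (.lf false [36,45] [5,36])) (.nd (.lf true [6,142,111] [70]) (.lf false [2,173,3] [71]))) (.nd (.nd (.lf false [7,70,6] [5,70,4]) (.lf false [13,274,36] [37,210,12])) (.lf false [245,116,111] [116,111,245]))) (.nd (.nd (.nd (.lf true [4,71] [6]) (.lf false [51,45,76] [45])) (.nd (.lf false [214,278,209,215] [278,209]) (.lf true [215,22] [212,310]))) (.nd (.nd (.lf false [38,3,6,2] [6,38]) (.lf true [308,342,21] [139,21,18])) (.lf false [211,274]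 [12,211]))))) (.nd (.nd (.nd (.nd (.nd (.lf false [3,42,2] [11,42,10]) (.lf false [209,18] [17,210])) (.nd (.lf false [5,78,4,15] [15,78]) (.lf false [70,111] [37,70]))) (.nd (.nd (.lf false [275,16,274] [19,16,18]) (.lf false [36,50] [2,210])) (.lf false [141,8,13] [8,13,141]))) (.nd (.nd (.nd (.lf true [22,274] [16,310]) (.lf true [274,83] [36,49])) (.nd (.lf false [208,77,80] [80,208,77]) (.lf true [108,212,109] [116,109]))) (.nd (.nd (.lf false [16,278,23,17] [278,23]) (.lf true [36,114,111] [38,142])) (.lf true [20,17,6] [6,16,276,17])))) (.nd (.nd (.nd (.nd (.lf false [73,150,72] [87,150,86]) (.lf true [172,15] [2])) (.nd (.lf false [17,276,16,21] [21,276]) (.lf true [244,276] [240]))) (.nd (.nd (.lf false [13,140,12] [9,140,8]) (.lf false [44,51,209,80] [209,4])) (.lf false [139,10,9] [10,9,139]))) (.nd (.nd (.nd (.lf true [38,4] [74]) (.lf false [80,209,12] [76,16,209])) (.nd (.lf false [12,109,7] [7,12,109]) (.lf true [36,21,22] [36,342]))) (.nd (.nd (.lf false [17,12,16,209] [209,12]) (.lf false [7,111,6,183] [139,9])) (.lf false [72,71] [71,6]))))))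

def qt00010 : Tr :=
  .nd (.nd (.nd (.nd (.nd (.nd (.nd (.lf true [2,2] []) (.lf false [20,117] [110,15])) (.nd (.lf false [18,275,16] [16,18,275]) (.lf false [110,39,70,111] [39,70]))) (.nd (.nd (.lf true [38,8] [138]) (.lf false [83,77] [77,45])) (.lf false [309,21,308,19] [19,21]))) (.nd (.nd (.nd (.lf true [8,12] [140]) (.lf true [2,174] [2,104])) (.nd (.lf false [278,311,274] [274,278,311]) (.lf true [2,5,54] [86]))) (.nd (.nd (.lf false [211,172,210] [179,172,178]) (.lf false [45,2,18,51] [208,49])) (.lf false [39,37,38,71] [71,37])))) (.nd (.nd (.nd (.nd (.lf false [45,36,44] [77,36,76]) (.lf false [48,3] [4,81])) (.nd (.lf false [81,84,80,277] [277,84]) (.lf false [150,36,207] [36,207,38]))) (.nd (.nd (.lf false [19,50,18] [3,50,2]) (.lf false [82,12,19] [4,19,210])) (.lf false [183,150,139,182] [150,139]))) (.nd (.nd (.nd (.lf true [38,11] []) (.lf false [275,36,36] [19,16,208])) (.nd (.lf false [206,111,108] [108,206,111]) (.lf true [276,343,276] [343]))) (.nd (.nd (.lf false [276,21,16,20] [16,276]) (.lf false [82,210,82,19] [44,19,4,12])) (.lf false [5,70,4] [8])))))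 (.nd (.nd (.nd (.nd (.nd (.lf false [13,8,12] [141,8,140]) (.lf false [37,4,12] [4])) (.nd (.lf false [48,36,81] [36,81,48]) (.lf false [172,3,38,47] [3,38]))) (.nd (.nd (.lf true [209,22] [310]) (.lf false [51,2,275] [17])) (.lf false [77,36,45] [36,45,77]))) (.nd (.nd (.nd (.lf true [12,16] [208]) (.lf false [107,36,207] [36,207,77])) (.nd (.lf false [80,49,36,48] [36,80]) (.lf true [36,276,21] [36,17]))) (.nd (.nd (.lf true [37,212] [36,276]) (.lf false [209,77,48] [4,209,77])) (.lf false [37,112,36] [14])))) (.nd (.nd (.nd (.nd (.lf false [7,106,6] [11,106,10]) (.lf false [22,183] [138,9])) (.nd (.lf false [208,80,77] [80,77,208]) (.lf true [36,138] [214]))) (.nd (.nd (.lf false [209,76,208] [81,76,80]) (.lf false [208,13,19] [17,3,50])) (.lf false [278,343,277] [277,278,343]))) (.nd (.nd (.nd (.lf true [37,208] [36]) (.lf false [76,51,80] [45,76,48])) (.nd (.lf false [276,212,209] [212,209,276]) (.lf true [212,276] [342]))) (.nd (.nd (.lf false [7,20,6,117] [117,20]) (.lf true [14,141,140,13,138,12,141] [10,12,141,140,15,4,14,141])) (.lf false [16,36] [36,12])))))) (.nd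 (.nd (.nd (.nd (.nd (.nd (.lf true [18,274] [16]) (.lf false [49,37] [17,49])) (.nd (.lf false [23,20,22,343] [343,20]) (.lf false [9,141,8] [5,79,4]))) (.nd (.nd (.lf true [36,16] [208]) (.lf false [211,13,44] [44,211,211])) (.lf false [49,44,209] [44,209,49]))) (.nd (.nd (.nd (.lf true [20,208] [16,212]) (.lf false [17,3,80] [3,80,13])) (.nd (.lf false [5,3,4,37] [37,3]) (.lf true [310,81] [308,77]))) (.nd (.nd (.lf true [139,208] [37,214]) (.lf false [19,49,82] [3,76,209])) (.lf false [116,7,117,6] [7,116,6,117])))) (.nd (.nd (.nd (.nd (.lf true [22,4] [86]) (.lf false [76,13] [2,37])) (.nd (.lf false [76,13,4,12] [4,76]) (.lf false [108,37,23,36] [111,108]))) (.nd (.nd (.lf false [277,52,276] [49,52,48]) (.lf false [208,3,80] [12,18,37])) (.lf false [210,275,209] [209,210,275]))) (.nd (.nd (.nd (.lf true [2,37] [4]) (.lf false [37,76,36] [50])) (.nd (.lf false [274,209,210,208] [210,274]) (.lf true [36,343] [36,342]))) (.nd (.nd (.lf false [208,17,12,16] [12,208]) (.lf true [116,212,21] [36,21,6])) (.lf false [245,6] [111,20]))))) (.nd (.nd (.nd (.nd (.nd (.lf false [23,12,22]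 [215,12,214]) (.lf false [6,111,245] [111])) (.nd (.lf false [5,72,4,9] [9,72]) (.lf false [6,138,7] [36]))) (.nd (.nd (.lf false [81,4,80] [17,4,16]) (.lf false [208,19] [13,274])) (.lf false [245,117,244] [111,117,110]))) (.nd (.nd (.nd (.lf true [22,18] [310]) (.lf true [208,276] [37,308])) (.nd (.lf false [112,71,80] [80,112,71]) (.lf true [36,21,6] [108,21]))) (.nd (.nd (.lf false [4,3,36,2] [36,4]) (.lf true [2,108,77] [70,3])) (.lf true [22,13,6] [6,12,214,13])))) (.nd (.nd (.nd (.nd (.lf true [2,8] [40]) (.lf false [210,17] [16,211])) (.nd (.lf false [244,110,117] [110,117,244]) (.lf true [2,276,23] [48]))) (.nd (.nd (.lf false [207,108,206] [111,108,110]) (.lf false [80,19,274] [76,19,16])) (.lf false [77,44,37] [44,37,77]))) (.nd (.nd (.nd (.lf true [111,2] [52]) (.lf false [50,208,49] [208,49,76])) (.nd (.lf false [81,17,80] [5,17,4]) (.lf true [308,20,23] [310]))) (.nd (.nd (.lf false [13,22,12,215] [215,22]) (.lf false [139,118,138] [7,108,6])) (.lf false [2,42,3] [6]))))))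

def qt00011 : Tr :=
  .nd (.nd (.nd (.nd (.nd (.nd (.nd (.lf true [2,44] [12]) (.lf false [274,211] [12,17])) (.nd (.lf false [20,277,17] [17,20,277]) (.lf false [108,6,139,119] [6,139]))) (.nd (.nd (.lf true [209,12] [210]) (.lf false [49,275,44] [3,275,50])) (.lf false [2,19,51,18] [51,2]))) (.nd (.nd (.nd (.lf false [77,210,76] [83,210,82]) (.lf false [209,13,211] [17,13,209])) (.nd (.lf false [212,211,308,210] [308,212]) (.lf true [274,278] [310]))) (.nd (.nd (.lf true [6,212] [36,116]) (.lf false [82,209,209] [209,209,82])) (.lf false [279,277,278,343] [343,277])))) (.nd (.nd (.nd (.nd (.lf false [51,44,50] [211,44,210]) (.lf false [7,36] [36,207])) (.nd (.lf false [7,116,6,21] [21,116]) (.lf false [47,37,46] [37,37,110]))) (.nd (.nd (.lf true [6,44] [36,38]) (.lf false [49,82,5] [17,274,49])) (.lf false [209,44,49,208] [44,49]))) (.nd (.nd (.nd (.lf true [4,4] []) (.lf false [275,17,12] [19,17,208])) (.nd (.lf false [150,86,73] [86,73,150]) (.lf true [36,277] [309]))) (.nd (.nd (.lf false [210,19,12,18] [12,210]) (.lf false [212,209,213,208] [209,212,208,213])) (.lf false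 [12,5] [5,36]))))) (.nd (.nd (.nd (.nd (.nd (.lf false [19,4,18] [83,4,82]) (.lf false [150,8,151] [182])) (.nd (.lf false [48,81,36] [36,48,81]) (.lf false [2,13,172,3] [46,37]))) (.nd (.nd (.lf false [151,22,150] [9,22,8]) (.lf false [19,275] [209,13])) (.lf false [82,243,79] [79,82,243]))) (.nd (.nd (.nd (.lf true [20,208] [12,276]) (.lf true [208,20] [308])) (.nd (.lf false [46,242,51,47] [242,51]) (.lf true [213,20,309] [208,213]))) (.nd (.nd (.lf true [139,210] [36,310]) (.lf true [212,3,76] [2,84])) (.lf false [275,76,274] [81,50,80])))) (.nd (.nd (.nd (.nd (.lf true [22,104] [8,118]) (.lf false [38,3,106] [10])) (.nd (.lf false [210,275,208] [208,210,275]) (.lf true [112,276] [116]))) (.nd (.nd (.lf true [37,38] [2,112]) (.lf false [50,18,12] [2,16,208])) (.lf false [311,308,343] [308,343,311]))) (.nd (.nd (.nd (.lf true [139,150] [70]) (.lf false [81,13,16,209] [209,77])) (.nd (.lf false [279,17,278] [23,17,22]) (.lf true [210,278] [308]))) (.nd (.nd (.lf false [210,13,18,12] [18,210]) (.lf false [18,37] [37,208])) (.lf false [4,76] [2,4])))))) (.nd (.nd (.nd (.nd (.nd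 (.nd (.lf false [3,18,2] [51,18,50]) (.lf false [71,4,8] [4])) (.nd (.lf false [3,48,2,17] [17,48]) (.lf false [173,3,36] [3,36,47]))) (.nd (.nd (.lf true [212,21] [36]) (.lf false [50,81] [80,51])) (.lf false [53,48,277] [48,277,53]))) (.nd (.nd (.nd (.lf true [8,14] [142]) (.lf false [7,3,36] [36,207,77])) (.nd (.lf false [70,39,36,38] [36,70]) (.lf true [310,13] [308,17]))) (.nd (.nd (.lf false [213,244,212] [207,244,206]) (.lf true [278,12,211] [214])) (.lf false [4,3,5,2] [3,4,2,5])))) (.nd (.nd (.nd (.nd (.lf false [77,82,76] [211,82,210]) (.lf false [7,2] [2,43])) (.nd (.lf false [172,10,13] [10,13,172]) (.lf false [142,37,110] [2,173,46]))) (.nd (.nd (.lf true [4,46] [2,78]) (.lf false [210,36,18] [36,18,12])) (.lf false [19,275,18] [17,275,16]))) (.nd (.nd (.nd (.lf true [6,110] [14]) (.lf false [76,51,76] [50])) (.nd (.lf false [47,14,3,46] [14,3]) (.lf true [139,37,20] [37]))) (.nd (.nd (.lf false [50,3,18,2] [18,50]) (.lf true [80,276,12] [212,82])) (.lf false [37,112,36] [14]))))) (.nd (.nd (.nd (.nd (.nd (.lf true [20,2] [52]) (.lf false [210,275] [16,13])) (.nd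 (.lf false [48,37,80,36] [80,48]) (.lf false [110,37] [36,111]))) (.nd (.nd (.lf false [309,18,308] [21,18,20]) (.lf false [211,13] [37,37])) (.lf false [23,151,22] [9,151,8]))) (.nd (.nd (.nd (.lf true [22,20] [342]) (.lf true [112,138] [6])) (.nd (.lf false [242,83,79] [79,242,83]) (.lf true [118,12,211] [116]))) (.nd (.nd (.lf false [8,150,23,9] [150,23]) (.lf true [139,13,274] [310,209])) (.lf false [151,138] [22,151])))) (.nd (.nd (.nd (.nd (.lf false [147,140,146] [211,140,210]) (.lf false [275,76,274] [81,50,80])) (.nd (.lf false [210,209,274,208] [274,210]) (.lf true [276,23] [36]))) (.nd (.nd (.lf true [14,138] [38,142]) (.lf false [208,49,82] [3,76,18])) (.lf false [183,118,107] [118,107,183]))) (.nd (.nd (.nd (.lf true [2,6] [38]) (.lf false [83,48] [51,80])) (.nd (.lf false [19,12,211] [12,211,19]) (.lf true [215,275] [309]))) (.nd (.nd (.lf false [17,18,16,275] [275,18]) (.lf false [110,9,139] [7,244,9])) (.lf false [151,10] [23,138]))))))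

def qt00100 : Tr :=
  .nd (.nd (.nd (.nd (.nd (.nd (.nd (.lf true [16,36] []) (.lf false [117,14,111] [21])) (.nd (.lf false [18,211,12] [12,18,211]) (.lf false [71,138,7,70] [73,110]))) (.nd (.nd (.lf true [118,7] [139]) (.lf false [83,4,3] [51])) (.nd (.lf false [275,19,274,17] [17,19]) (.lf true [139,308] [])))) (.nd (.nd (.nd (.lf false [179,172,178] [211,172,210]) (.lf false [48,2,12] [4,12,2])) (.nd (.lf false [278,274,311] [274,311,278]) (.lf true [4,276,215] [4]))) (.nd (.nd (.lf true [70,172] [36,138]) (.lf false [50,18,83] [2,18,5])) (.lf false [11,9,10,139] [139,9])))) (.nd (.nd (.nd (.nd (.lf true [8,38] [6,40]) (.lf false [113,36] [36,15])) (.nd (.lf false [81,76,80,209] [209,76]) (.lf false [6,23,36] [36,111,206]))) (.nd (.nd (.lf false [11,42,10] [3,42,2]) (.lf false [37,76,16] [2,275,36])) (.lf false [173,10,13,172] [10,13]))) (.nd (.nd (.nd (.lf true [20,22] [342]) (.lf false [12,211,19,16] [19,274])) (.nd (.lf false [174,107,111] [111,174,107]) (.lf true [276,209] [208,215]))) (.nd (.nd (.lf false [308,21,18,20] [18,308]) (.lf false [49,82,16,77] [3,50,36,81]))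 (.lf false [81,36] [16,81]))))) (.nd (.nd (.nd (.nd (.nd (.lf false [11,8,10] [139,8,138]) (.lf false [11,7] [7,39])) (.nd (.lf false [38,36,71] [36,71,38]) (.lf false [3,47,2,13] [13,173]))) (.nd (.nd (.lf true [14,22] [246]) (.lf false [50,17] [2,275])) (.lf false [83,4,19] [4,19,83]))) (.nd (.nd (.nd (.lf false [245,240,244] [277,240,276]) (.lf false [45,2,37] [37,5,80])) (.nd (.lf false [48,208,45,49] [208,45]) (.lf true [210,20,277] [210,36]))) (.nd (.nd (.lf false [83,274,82] [81,274,80]) (.lf false [83,50,44] [37,50,210])) (.lf false [36,206,37] [6])))) (.nd (.nd (.nd (.nd (.lf false [85,80,84] [277,80,276]) (.lf false [104,9] [4,71])) (.nd (.lf false [208,48,45] [48,45,208]) (.lf true [108,37,22] [37,244]))) (.nd (.nd (.lf false [211,82,210] [77,82,76]) (.lf false [209,3,36] [12,19,3])) (.lf false [279,208,215] [208,215,279]))) (.nd (.nd (.nd (.lf true [4,81] [37]) (.lf false [51,4,37] [37,77,48])) (.nd (.lf false [276,241,244] [244,276,241]) (.lf true [311,12] [213]))) (.nd (.nd (.lf false [80,5,17] [17,80,5]) (.lf false [70,143,78,142,71] [10])) (.lf false [48,36]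 [4,12])))))) (.nd (.nd (.nd (.nd (.nd (.nd (.lf true [16,208] [12]) (.lf false [36,5,37] [49])) (.nd (.lf false [23,16,22,279] [279,16]) (.lf false [78,4,13] [4,13,140]))) (.nd (.nd (.lf true [111,14] [244]) (.lf false [77,140,5,106] [140,5])) (.lf false [81,49,80] [37,49,36]))) (.nd (.nd (.nd (.lf true [22,206] [14,214]) (.lf false [48,208,45] [16,208,13])) (.nd (.lf false [2,36,5,3] [36,5]) (.lf true [212,309] [37]))) (.nd (.nd (.lf true [36,274] []) (.lf false [12,19,49] [36,209,83])) (.lf true [308,2,51] [52,51,18])))) (.nd (.nd (.nd (.nd (.lf false [5,78,4] [15,78,14]) (.lf false [16,81] [36,3])) (.nd (.lf false [9,138,8,11] [11,138]) (.lf false [108,37,22,36] [110,108]))) (.nd (.nd (.lf false [209,44,208] [49,44,48]) (.lf false [209,13,16] [3,50,19])) (.lf false [213,208,277] [208,277,213]))) (.nd (.nd (.nd (.lf true [14,71] [2]) (.lf false [76,208,48] [44,208,2])) (.nd (.lf false [208,240,207,209] [240,207]) (.lf true [111,215] [37]))) (.nd (.nd (.lf false [51,3,50,19] [19,3]) (.lf true [210,16] [210,36])) (.lf false [244,116] [116,6]))))) (.nd (.nd (.nd (.nd (.nd (.lf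 false [23,2,22] [55,2,54]) (.lf false [116,6,117] [244])) (.nd (.lf false [50,243,46] [46,50,243]) (.lf true [36,110] [2,86]))) (.nd (.nd (.lf false [79,4,78] [15,4,14]) (.lf false [76,211] [37,76])) (.lf false [207,111,206] [109,111,108]))) (.nd (.nd (.nd (.lf true [12,18] [210]) (.lf true [80,18] [4,274])) (.nd (.lf false [14,5,78,4] [78,14]) (.lf true [116,37] [14,21]))) (.nd (.nd (.lf false [14,3,46,2] [46,14]) (.lf true [2,84,17] [276,37])) (.lf true [12,23,20] [20,22,214,23])))) (.nd (.nd (.nd (.nd (.lf false [111,116,110] [245,116,244]) (.lf false [13,274,13] [275])) (.nd (.lf true [37,110,241] [6]) (.lf true [214,210] [212,36]))) (.nd (.nd (.lf true [111,108] [36,116]) (.lf false [51,16,209] [19,3,12])) (.lf false [243,47,242] [51,47,50]))) (.nd (.nd (.nd (.lf true [38,3] [6]) (.lf true [108,5] [74,105])) (.nd (.lf false [37,5,36] [3,5,2]) (.lf true [308,22,21] [310]))) (.nd (.nd (.lf false [214,13,22,12] [22,214]) (.lf false [208,37,51] [17,18,81])) (.lf false [38,42,39] [6]))))))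

def qt00101 : Tr :=
  .nd (.nd (.nd (.nd (.nd (.nd (.nd (.lf true [10,10] []) (.lf false [18,211] [208,17])) (.nd (.lf false [20,245,15] [15,20,245]) (.lf false [138,7,109,6] [119,138]))) (.nd (.nd (.lf true [14,12] [206]) (.lf false [83,18,3] [18,5,51])) (.lf false [81,5,80,17] [17,5]))) (.nd (.nd (.nd (.lf false [45,210,44] [51,210,50]) (.lf false [211,13,16] [19,13,208])) (.nd (.lf false [39,3,38] [7,3,6]) (.lf true [212,18,213] [213,276]))) (.nd (.nd (.lf true [36,86] [4,214]) (.lf false [16,209,4] [12,82,19])) (.lf false [211,209,210,275] [275,209])))) (.nd (.nd (.nd (.nd (.lf true [20,48] [16,52]) (.lf false [16,12] [36,36])) (.nd (.lf false [2,46,15,3] [46,15]) (.lf false [47,36,46] [37,110,36]))) (.nd (.nd (.lf true [111,36] [4,52]) (.lf false [51,208,13] [18,3,17])) (.lf false [209,48,45,208] [48,45]))) (.nd (.nd (.nd (.lf true [22] [139]) (.lf false [208,37,5] [17,208,45])) (.nd (.lf false [138,10,9] [10,9,138]) (.lf true [310,209] [308]))) (.nd (.nd (.lf false [274,19,16,18] [16,274]) (.lf true [86,73] [172,139])) (.lf true [46] [172]))))) (.nd (.nd (.nd (.nd (.nd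 (.lf false [17,12,16] [209,12,208]) (.lf false [37,2,12] [2])) (.nd (.lf false [54,44,215] [44,215,54]) (.lf false [46,39,36,47] [39,36]))) (.nd (.nd (.lf false [109,12,108] [7,12,6]) (.lf false [13,210] [3,50])) (.lf false [83,80,275] [80,275,83]))) (.nd (.nd (.nd (.lf false [81,274,80] [83,274,82]) (.lf true [209] [208])) (.nd (.lf false [44,210,51,45] [210,51]) (.lf true [212,210,215] [215,22]))) (.nd (.nd (.lf false [21,308,20] [19,308,18]) (.lf true [214,37,3] [139,81])) (.lf false [49,76,48] [209,50,208])))) (.nd (.nd (.nd (.nd (.lf true [12,70] [4,108]) (.lf false [70,5,104] [8])) (.nd (.lf false [209,212,208,277] [277,212]) (.lf true [214,15] [113]))) (.nd (.nd (.lf true [274,208] [208,12]) (.lf false [19,3,18] [18,3,19])) (.lf false [309,274,277] [274,277,309]))) (.nd (.nd (.nd (.lf true [14,245] [111]) (.lf false [37,3,5,36] [77,45])) (.nd (.lf false [276,342,279,277] [342,279]) (.lf true [308,343] [310]))) (.nd (.nd (.lf false [16,208,13,17] [208,13]) (.lf false [13,16] [12,211])) (.lf false [70,143] [3,70])))))) (.nd (.nd (.nd (.nd (.nd (.nd (.lf true [22,342] [20])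 (.lf false [9,5] [5,71])) (.nd (.lf false [80,17,4,16] [4,80]) (.lf false [78,37,70] [37,70,78]))) (.nd (.nd (.lf true [308,19] [111]) (.lf false [17,3,16] [12,51,13])) (.lf false [51,48,275] [48,275,51]))) (.nd (.nd (.nd (.lf false [215,212,214] [343,212,342]) (.lf false [5,36,48] [3,36,80])) (.nd (.lf false [76,37,44,36] [44,76]) (.lf true [274,22] [210,310]))) (.nd (.nd (.lf false [117,244,116] [111,244,110]) (.lf false [17,274,48,209] [19,44])) (.lf false [18,13,19,12] [13,18,12,19])))) (.nd (.nd (.nd (.nd (.lf false [73,76,72] [141,76,140]) (.lf false [107,39] [39,3])) (.nd (.lf false [146,211,140] [140,146,211]) (.lf false [71,2] [2,173]))) (.nd (.nd (.lf false [19,82,18] [5,82,4]) (.lf false [18,37,210] [12,18,37])) (.lf false [213,245,212] [207,245,206]))) (.nd (.nd (.nd (.lf true [70,138] [38]) (.lf false [208,2,49] [45,76,208])) (.nd (.lf false [276,213,208,212] [208,276]) (.lf true [309,208,278] [36]))) (.nd (.nd (.lf false [48,3,16,2] [16,48]) (.lf true [111,109,6] [108,212,109])) (.lf false [209,210] [16,209]))))) (.nd (.nd (.nd (.nd (.nd (.lf false [3,46,2] [15,46,14])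 (.lf false [210,13] [16,275])) (.nd (.lf false [38,37,70,36] [70,38]) (.lf false [139,7] [7,37]))) (.nd (.nd (.lf false [117,6,116] [21,6,20]) (.lf false [211,77] [37,3])) (.lf false [77,5,76] [13,5,12]))) (.nd (.nd (.nd (.lf true [6,20] [116]) (.lf false [82,48,275] [48,275,44])) (.nd (.lf false [208,81,77] [77,208,81]) (.lf true [6,13,22] [36,118]))) (.nd (.nd (.lf false [12,214,23,13] [214,23]) (.lf true [74,105,82] [36,114])) (.lf true [18,21,16] [16,20,308,21])))) (.nd (.nd (.nd (.nd (.lf true [12,138] [10,140]) (.lf true [2,13] [48])) (.nd (.lf false [50,49,274,48] [274,50]) (.lf true [276,37] [111]))) (.nd (.nd (.lf true [38,104] [6,138]) (.lf false [19,4,208] [18,4,209])) (.lf false [151,86,73] [86,73,151]))) (.nd (.nd (.nd (.lf true [111,4] [84]) (.lf false [274,2,49] [45,76,274])) (.nd (.lf false [17,12,209] [12,209,17]) (.lf true [212,343,23] [36]))) (.nd (.nd (.lf false [274,17,18,16] [18,274]) (.lf false [111,6,139] [6,139,23])) (.lf false [73,6] [9,70]))))))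

def qt00110 : Tr :=
  .nd (.nd (.nd (.nd (.nd (.nd (.nd (.lf true [6,6] []) (.lf false [110,244,21] [244])) (.nd (.lf false [308,19,20] [20,308,19]) (.lf false [38,110,39] [6,138,7]))) (.nd (.nd (.lf true [176,11] [37]) (.lf false [82,3,80] [37,44,16])) (.lf false [343,23,342] [21,23,20]))) (.nd (.nd (.nd (.lf false [13,208,12] [17,208,16]) (.lf false [13,4,12] [3,76,4])) (.nd (.lf false [70,7,4] [4,70,7]) (.lf true [112,23,7] [139,17]))) (.nd (.nd (.lf true [36,48] [2,208]) (.lf false [275,45,76,274] [2,49])) (.lf false [51,47,50,243] [243,47])))) (.nd (.nd (.nd (.nd (.lf true [22,44] [12,54]) (.lf false [37,81] [3,37])) (.nd (.lf false [110,15,6,14] [6,110]) (.lf false [119,36,207] [36,207,109]))) (.nd (.nd (.lf true [14,39] [4]) (.lf false [13,16,13] [3,50,275])) (.lf false [209,12,17,208] [12,17]))) (.nd (.nd (.nd (.lf true [37,17] []) (.lf false [49,16,208,13] [208,45])) (.nd (.lf false [244,111,116] [116,244,111]) (.lf true [36,278] [111]))) (.nd (.nd (.lf false [212,21,12,20] [12,212]) (.lf false [209,2,13,16] [36,19,2,211])) (.lf false [70,4] [4,8]))))) (.nd (.nd (.nd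 (.nd (.nd (.lf false [13,22,12] [215,22,214]) (.lf false [13,3] [3,37])) (.nd (.lf true [2,104,39] [70]) (.lf false [38,46,2,11] [2,172]))) (.nd (.nd (.lf false [39,6,38] [3,6,2]) (.lf false [208,210] [16,208])) (.lf false [81,76,209] [76,209,81]))) (.nd (.nd (.nd (.lf true [20,16] [276]) (.lf false [80,208,77] [16,208,13])) (.nd (.lf false [44,208,49,45] [208,49]) (.lf true [37,215,22] [215,278]))) (.nd (.nd (.lf true [14,276] [37,244]) (.lf false [18,36,209] [49,82,16])) (.lf false [111,244,110] [6])))) (.nd (.nd (.nd (.nd (.lf true [16,6] [112]) (.lf false [77,80] [13,16])) (.nd (.lf false [206,110,109] [110,109,206]) (.lf true [212,207] [6]))) (.nd (.nd (.lf false [277,84,276] [81,84,80]) (.lf false [12,2,12] [36,210,2])) (.lf false [311,214,211] [214,211,311]))) (.nd (.nd (.nd (.lf true [37,274] [209]) (.lf false [50,76,211] [76,211,76])) (.nd (.lf false [274,308,277,275] [308,277]) (.lf true [213,275] [311]))) (.nd (.nd (.lf false [11,8,10,139] [139,8]) (.lf false [49,82] [37,274])) (.lf false [38,174] [4,38])))))) (.nd (.nd (.nd (.nd (.nd (.nd (.lf true [20,244] [14])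 (.lf false [45,48] [13,16])) (.nd (.lf false [3,36,2,5] [5,36]) (.lf false [140,5,70,79] [5,70]))) (.nd (.nd (.lf true [209,16] [274]) (.lf false [50,3,13] [13,80,77])) (.lf false [55,44,215] [44,215,55]))) (.nd (.nd (.nd (.lf false [211,208,210] [275,208,274]) (.lf false [209,13,18] [17,13,210])) (.nd (.lf false [343,21,342] [23,21,22]) (.lf true [310,275] [308,211]))) (.nd (.nd (.lf true [209,214] [139,210]) (.lf false [50,18,2] [2,50,18])) (.lf true [278,209,12] [214,16,209])))) (.nd (.nd (.nd (.nd (.lf true [14,36] [2,78]) (.lf false [45,37] [37,5])) (.nd (.lf false [9,150,8,23] [23,150]) (.lf true [2,84,111] [37]))) (.nd (.nd (.lf false [243,46,242] [51,46,50]) (.lf false [210,2,37] [3,76,80])) (.lf false [215,212,343] [212,343,215]))) (.nd (.nd (.nd (.lf true [2,39] [6]) (.lf false [77,44,50] [44])) (.nd (.lf false [212,276,209,213] [276,209]) (.lf true [277,308] [213,20]))) (.nd (.nd (.lf false [36,3,4,2] [4,36]) (.lf true [6,37,6] [36,110,37])) (.lf false [244,14] [116,244]))))) (.nd (.nd (.nd (.nd (.nd (.lf true [4,2] [36]) (.lf false [21,110] [7,244])) (.nd (.lf false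 [12,206,15,13] [206,15]) (.lf false [38,110] [36,38]))) (.nd (.nd (.lf false [277,20,276] [17,20,16]) (.lf false [12,36] [36,210])) (.lf false [139,8,11] [8,11,139]))) (.nd (.nd (.nd (.lf true [22,210] [12,310]) (.lf true [37,13] [36,17])) (.nd (.lf false [140,73,76] [76,140,73]) (.lf true [36,244,36] [116,210]))) (.nd (.nd (.lf false [20,342,23,21] [342,23]) (.lf true [214,37,17] [139,37])) (.lf true [20,37,6] [6,36,212,37])))) (.nd (.nd (.nd (.nd (.lf true [12,8] [140]) (.lf false [48,81] [4,3])) (.nd (.lf false [244,206,213] [206,213,244]) (.lf true [276,215] []))) (.nd (.nd (.lf false [213,108,212] [117,108,116]) (.lf false [18,51,82] [3,4,18])) (.lf false [111,14,7] [14,7,111]))) (.nd (.nd (.nd (.lf true [2,4] [36]) (.lf false [44,209,16] [4,36,209])) (.nd (.lf false [6,71,5] [5,6,71]) (.lf true [213,274,278] [212,310]))) (.nd (.nd (.lf false [17,4,16,81] [81,4]) (.lf false [9,139,8,15] [15,111])) (.lf false [104,71] [71,4]))))))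

def qt00111 : Tr :=
  .nd (.nd (.nd (.nd (.nd (.nd (.nd (.lf true [14,174] [10]) (.lf false [274,19] [12,209])) (.nd (.lf false [342,21,23] [23,342,21]) (.lf false [146,83,79] [141,146,83]))) (.nd (.nd (.lf true [214,13] [139]) (.lf false [83,208,81] [77,208,49])) (.lf false [36,71,39,70] [39,36]))) (.nd (.nd (.nd (.lf false [109,206,108] [111,206,110]) (.lf false [209,12,209] [12,209,19])) (.nd (.lf false [308,274,277] [274,277,308]) (.lf true [308,277] [274]))) (.nd (.nd (.lf false [241,208,240] [207,208,206]) (.lf false [36,3,45,76] [12,83])) (.lf true [212,12,213] [213,20])))) (.nd (.nd (.nd (.nd (.lf false [55,44,54] [215,44,214]) (.lf false [5,3,4] [77])) (.nd (.lf false [109,110,108,207] [207,110]) (.lf false [36,173,3,46] [81,110]))) (.nd (.nd (.lf true [37,44] [36,48]) (.lf false [208,36,5] [16,18,49])) (.lf false [80,77,209,76] [209,80]))) (.nd (.nd (.nd (.lf true [70,8] []) (.lf true [14,45] [108,5])) (.nd (.lf false [172,12,11] [12,11,172]) (.lf true [208,21] [309]))) (.nd (.nd (.lf false [82,19,4,18] [4,82]) (.lf true [138,71] [71,36])) (.lf false [139,182] [8,139])))))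 (.nd (.nd (.nd (.nd (.nd (.lf false [19,22,18] [311,22,310]) (.lf false [11,150] [9,182])) (.nd (.lf false [50,48,275] [48,275,50]) (.lf true [214,12,211] [278]))) (.nd (.nd (.lf false [77,4,76] [13,4,12]) (.lf false [18,208] [208,18])) (.lf false [15,111,14] [7,111,6]))) (.nd (.nd (.nd (.lf true [20,240] [14,276]) (.lf true [37,19] [274])) (.nd (.lf false [86,55,36,54] [36,86]) (.lf true [139,37,210] [308,209]))) (.nd (.nd (.lf true [139,274] [37,310]) (.lf true [36,308,13] [276,275])) (.lf true [2,13,22] [22,12,44,13])))) (.nd (.nd (.nd (.nd (.lf false [109,110,108] [207,110,206]) (.lf false [13,17] [37,37])) (.nd (.lf false [213,210,212,309] [309,210]) (.lf true [212,37] [139]))) (.nd (.nd (.lf true [14,104] [70,110]) (.lf false [210,36,209] [36,19,274])) (.lf false [23,343,22] [21,343,20]))) (.nd (.nd (.nd (.lf true [139,214] [36]) (.lf false [37,3,48,2] [13,48])) (.nd (.lf false [309,19,308] [21,19,20]) (.lf true [210,276,19] [139]))) (.nd (.nd (.lf false [13,18,12,211] [211,18]) (.lf false [211,18,36] [37,18,210])) (.lf false [4,2] [2,44])))))) (.nd (.nd (.nd (.nd (.nd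 (.nd (.lf false [7,2,6] [39,2,38]) (.lf false [39,6,10] [6])) (.nd (.lf false [2,48,17,3] [48,17]) (.lf false [179,173,178] [51,47,50]))) (.nd (.nd (.lf true [308,21] [209]) (.lf false [82,49] [48,83])) (.lf false [50,243,47] [47,50,243]))) (.nd (.nd (.nd (.lf false [111,244,110] [117,244,116]) (.lf false [77,3,80] [5,3,48])) (.nd (.lf false [108,39,44,38] [44,108]) (.lf true [36,17,308] [210,276]))) (.nd (.nd (.lf false [277,240,276] [245,240,244]) (.lf false [17,3,50,275] [275,13])) (.lf false [2,42,3] [6])))) (.nd (.nd (.nd (.nd (.lf false [81,76,80] [209,76,208]) (.lf false [7,5,6] [105])) (.nd (.lf false [182,150,139] [150,139,182]) (.lf false [140,5] [5,38]))) (.nd (.nd (.lf true [4,54] [2,86]) (.lf false [209,17,274] [12,211,19])) (.lf false [279,16,23] [16,23,279]))) (.nd (.nd (.nd (.lf true [14,142] [70]) (.lf false [50,3,76] [37,76,12])) (.nd (.lf false [278,215,208,214] [208,278]) (.lf true [309,16] [213]))) (.nd (.nd (.lf false [70,5,6,4] [6,70]) (.lf true [212,308,21] [208,21,12])) (.lf false [80,48] [48,2]))))) (.nd (.nd (.nd (.nd (.nd (.lf true [12,36] [4,44])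 (.lf false [18,17] [208,211])) (.nd (.lf false [82,36,51] [36,51,82]) (.lf true [37,110] [2,84]))) (.nd (.nd (.lf false [151,8,150] [23,8,22]) (.lf false [208,275] [13,208])) (.lf false [151,138,183,150] [138,183]))) (.nd (.nd (.nd (.lf true [22,308] [18,342]) (.lf false [36,3,36,80] [16,16])) (.nd (.lf false [110,14,7] [14,7,110]) (.lf true [116,109] [108,117]))) (.nd (.nd (.lf false [6,118,23,7] [118,23]) (.lf false [21,19,20,18] [19,21,18,20])) (.lf false [117,110] [20,117])))) (.nd (.nd (.nd (.nd (.lf true [16,10] [176]) (.lf false [210,12,209] [16,19,274])) (.nd (.lf true [36,276,213] [37]) (.lf true [212,82] [84,12]))) (.nd (.nd (.lf true [70,182] []) (.lf false [18,49,82] [3,76,208])) (.lf false [277,209,276] [213,209,212]))) (.nd (.nd (.nd (.lf true [36,6] [108]) (.lf false [5,82] [3,50])) (.nd (.lf false [215,23,214] [13,23,12]) (.lf true [37,245,206] [213,37]))) (.nd (.nd (.lf false [276,17,21] [21,276,17]) (.lf false [6,139,7,70] [70,111])) (.lf false [139,151] [11,139]))))))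

def qt01000 : Tr :=
  .nd (.nd (.nd (.nd (.nd (.nd (.nd (.lf true [36] [12]) (.lf false [20,245,111] [245])) (.nd (.lf false [18,83,5] [5,18,83]) (.lf false [70,110,71] [6,138,7]))) (.nd (.nd (.lf true [116,7] [111]) (.lf false [76,83] [45,76])) (.nd (.lf false [16,113,7] [7,16,113]) (.lf true [213,37] [139])))) (.nd (.nd (.nd (.lf false [139,182,138] [151,182,150]) (.lf false [209,13,274] [13,209,12])) (.nd (.lf true [37,308,277] [209]) (.lf true [276,206] [116,36]))) (.nd (.nd (.lf false [111,174,110] [107,174,106]) (.lf false [211,18,83] [37,208,49])) (.lf false [343,277,342] [279,277,278])))) (.nd (.nd (.nd (.nd (.lf true [22,36] [4,54]) (.lf false [15,37] [37,113])) (.nd (.lf false [77,82,76,211] [211,82]) (.lf false [9,37,70] [5,104,111]))) (.nd (.nd (.lf false [5,36,4] [3,36,2]) (.lf false [50,13,274] [2,13,16])) (.lf false [138,150,183,139] [150,183]))) (.nd (.nd (.nd (.lf true [16,22] [278]) (.lf false [73,77,72] [5,107,4])) (.nd (.lf false [174,107,110] [110,174,107]) (.lf true [279] [212]))) (.nd (.nd (.lf false [55,3,54,23] [23,3]) (.lf false [12,18,45,209] [36,83,12,211]))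 (.lf false [274,18] [208,274]))))) (.nd (.nd (.nd (.nd (.nd (.lf false [9,22,8] [151,22,150]) (.lf false [7,42] [3,106])) (.nd (.lf true [14,37] [6]) (.lf false [46,14,13] [14,13,172]))) (.nd (.nd (.lf true [36,22] [214]) (.lf false [82,2,49] [48,83,80])) (.lf false [15,79,14] [5,79,4]))) (.nd (.nd (.nd (.lf true [20,240] [16,244]) (.lf false [49,17,12] [3,49,76])) (.nd (.lf false [208,45,48,44] [48,208]) (.lf true [213,276,13] [139,213]))) (.nd (.nd (.lf true [37,52] [2,276]) (.lf false [17,3,50,18] [208,13])) (.lf false [70,142,71] [2])))) (.nd (.nd (.nd (.nd (.lf false [83,76,82] [211,76,210]) (.lf false [70,73] [7,70])) (.nd (.lf false [210,12,19] [12,19,210]) (.lf true [112,119,36] [109,206]))) (.nd (.nd (.lf true [37,76] [36,80]) (.lf false [44,16,209] [4,36,19])) (.lf false [277,208,213] [208,213,277]))) (.nd (.nd (.nd (.lf true [2,49] [37]) (.lf false [44,51,13] [37,3,48])) (.nd (.lf false [212,207,244,206] [244,212]) (.lf true [213,13,208] [309]))) (.nd (.nd (.lf false [80,5,16] [16,80,5]) (.lf false [9,140,8] [5,78,4])) (.lf false [37,48] [4,37])))))) (.nd (.nd (.nd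 (.nd (.nd (.nd (.lf true [16,112] [6]) (.lf false [17,36,5] [49])) (.nd (.lf false [23,12,22,215] [215,12]) (.lf false [83,78,82,147] [147,140]))) (.nd (.nd (.lf true [70,14] [142]) (.lf false [140,5,107,4] [77,140])) (.lf false [49,36,81] [36,81,49]))) (.nd (.nd (.nd (.lf false [207,208,206] [241,208,240]) (.lf false [44,208,49] [12,208,17])) (.nd (.lf false [36,5,2,4] [2,36]) (.lf true [276,213] [208]))) (.nd (.nd (.lf true [274,210] [210,12]) (.lf false [76,19,49] [2,209,83])) (.lf false [81,36,36,80] [49,36,36,48])))) (.nd (.nd (.nd (.nd (.lf false [5,76,4] [13,76,12]) (.lf false [76,5] [5,2])) (.nd (.lf false [117,112,116,277] [277,112]) (.lf false [36,109,110,108] [22,36]))) (.nd (.nd (.lf false [111,38,110] [47,38,46]) (.lf false [13,274,51] [3,80,77])) (.lf false [275,211,274] [209,211,208]))) (.nd (.nd (.nd (.lf true [17] [37]) (.lf false [12,208,17,80] [76,208])) (.nd (.lf false [240,207,208,206] [208,240]) (.lf true [215,278] [208]))) (.nd (.nd (.lf false [2,50,19,3] [50,19]) (.lf true [36,174,15] [113,2])) (.lf false [150,138] [138,10]))))) (.nd (.nd (.nd (.nd (.nd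 (.lf false [21,18,20] [309,18,308]) (.lf false [14,111,20] [116])) (.nd (.lf false [50,211,44] [44,50,211]) (.lf true [139,7] [6,37]))) (.nd (.nd (.lf false [215,22,214] [13,22,12]) (.lf false [208,274] [12,208])) (.lf false [111,108,207] [108,207,111]))) (.nd (.nd (.nd (.lf false [279,274,278] [311,274,310]) (.lf false [211,80,209] [19,13,76])) (.nd (.lf false [6,5,70,4] [70,6]) (.lf true [36,246,23] [108,37]))) (.nd (.nd (.lf true [139,276] [37,342]) (.lf true [2,84,36] [212,210])) (.lf true [12,21,6] [6,20,212,21])))) (.nd (.nd (.nd (.nd (.lf false [111,108,110] [207,108,206]) (.lf false [244,7] [6,245])) (.nd (.lf false [215,212,214,343] [343,212]) (.lf true [111,37] [139,17]))) (.nd (.nd (.lf false [207,110,206] [109,110,108]) (.lf false [51,16,208] [18,3,12])) (.lf false [211,45,210] [51,45,50]))) (.nd (.nd (.nd (.lf true [36,3] [4]) (.lf true [118,139] [108,23])) (.nd (.lf false [209,13,208] [17,13,16]) (.lf true [212,310,23] [215]))) (.nd (.nd (.lf false [13,20,12,213] [213,20]) (.lf true [276,275] [212,211])) (.lf false [106,39] [39,2]))))))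

def qt01001 : Tr :=
  .nd (.nd (.nd (.nd (.nd (.nd (.nd (.lf true [4,72] [8]) (.lf false [210,19] [16,209])) (.nd (.lf false [20,245,14] [14,20,245]) (.lf false [119,138,7,108] [138,7]))) (.nd (.nd (.lf true [38,12] [172]) (.lf false [49,49,82] [3,49,50])) (.lf false [45,2,13,44] [2,13]))) (.nd (.nd (.nd (.lf true [16,44] [2,208]) (.lf true [172,42] [138,2])) (.nd (.lf false [38,7,3] [3,38,7]) (.lf true [116,109,12] [109,206]))) (.nd (.nd (.lf false [83,210,82] [77,210,76]) (.lf false [3,50,19,4] [82,19])) (.lf false [151,139,150,183] [183,139])))) (.nd (.nd (.nd (.nd (.lf true [18,48] [16,50]) (.lf false [16,3,80] [36])) (.nd (.lf false [46,15,2,14] [2,46]) (.lf false [110,142,111] [71,80,70]))) (.nd (.nd (.lf false [81,48,80] [37,48,36]) (.lf false [209,3,50] [3,50,209])) (.lf false [12,19,211,18] [211,12]))) (.nd (.nd (.nd (.lf true [111,21] []) (.lf false [210,44,208] [208,12,48])) (.nd (.lf false [244,117,110] [110,244,117]) (.lf true [212,209] [276]))) (.nd (.nd (.lf false [6,116,21,7] [116,21]) (.lf false [278,274,279,311] [274,278,311,279])) (.lf false [10,7] [7,38])))))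 (.nd (.nd (.nd (.nd (.nd (.lf false [17,4,16] [81,4,80]) (.lf false [4,77] [3,4])) (.nd (.lf false [50,44,211] [44,211,50]) (.lf false [38,47,39] [2,173,3]))) (.nd (.nd (.lf false [39,2,38] [7,2,6]) (.lf false [16,211] [12,275])) (.lf false [80,209,77] [77,80,209]))) (.nd (.nd (.nd (.lf true [20,48] [2,276]) (.lf true [76,209] [80])) (.nd (.lf false [210,51,44,50] [44,210]) (.lf true [37,244,17] [14,21]))) (.nd (.nd (.lf false [311,274,310] [279,274,278]) (.lf true [36,308,19] [276,209])) (.lf false [208,13,208,12,209] [18])))) (.nd (.nd (.nd (.nd (.lf true [16,38] [2,112]) (.lf false [5,104,73] [7])) (.nd (.lf false [209,210,208,275] [275,210]) (.lf true [2,84] [214]))) (.nd (.nd (.lf false [11,106,10] [7,106,6]) (.lf false [37,274,36] [3,50,12])) (.lf false [213,309,212] [211,309,210]))) (.nd (.nd (.nd (.lf true [111,213] [36]) (.lf false [12,208,17,45] [208,49])) (.nd (.lf false [342,279,276,278] [276,342]) (.lf true [37,309,274] [311]))) (.nd (.nd (.lf false [208,13,16,12] [16,208]) (.lf false [211,17] [13,13])) (.lf false [142,71] [71,2])))))) (.nd (.nd (.nd (.nd (.nd (.nd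 (.lf true [22,214] [12]) (.lf false [9,70] [7,72])) (.nd (.lf false [3,44,2,13] [13,44]) (.lf false [70,78,71] [4,140,5]))) (.nd (.nd (.lf true [37,18] [274]) (.lf false [275,16,208] [208,3,50])) (.lf false [48,209,45] [45,48,209]))) (.nd (.nd (.nd (.lf false [213,214,212] [343,214,342]) (.lf false [15,2,13] [37,113,2])) (.nd (.lf false [18,3,50,2] [50,18]) (.lf true [308,77] [308,3]))) (.nd (.nd (.lf false [343,212,342] [215,212,214]) (.lf false [12,18,37,51] [18,77])) (.lf false [39,36,38,37] [36,39,37,38])))) (.nd (.nd (.nd (.nd (.lf false [71,80,70] [113,80,112]) (.lf false [107,2] [3,106])) (.nd (.lf false [150,138,183] [138,183,150]) (.lf false [71,46] [37,110]))) (.nd (.nd (.lf false [13,76,12] [5,76,4]) (.lf false [210,3,5] [36,83,3])) (.lf false [245,206,213] [206,213,245]))) (.nd (.nd (.nd (.lf true [70,72] [4]) (.lf false [77,36,50] [36])) (.nd (.lf false [274,211,208,210] [208,274]) (.lf true [309,209] [311]))) (.nd (.nd (.lf false [6,38,3,7] [38,3]) (.lf true [111,37,6] [36,244,37])) (.lf false [275,12] [209,18]))))) (.nd (.nd (.nd (.nd (.nd (.lf false [3,44,2]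 [13,44,12]) (.lf false [274,209] [12,19])) (.nd (.lf false [5,82,4,19] [19,82]) (.lf false [7,37,6] [139]))) (.nd (.nd (.lf false [311,22,310] [19,22,18]) (.lf false [37,3,76] [211])) (.lf false [13,141,12] [9,141,8]))) (.nd (.nd (.nd (.lf true [22,308] [20,310]) (.lf false [50,80,275] [80,275,76])) (.nd (.lf false [208,81,76] [76,208,81]) (.lf true [212,15] [109]))) (.nd (.nd (.lf false [214,23,12,22] [12,214]) (.lf true [212,3,50] [36,308])) (.lf true [20,23,18] [18,22,342,23])))) (.nd (.nd (.nd (.nd (.lf true [14,104] [6,142]) (.lf true [6,138] [108])) (.nd (.lf false [17,278,16,23] [23,278]) (.lf true [276,85] [2]))) (.nd (.nd (.lf false [75,138,74] [73,138,72]) (.lf false [16,18,76,209] [274,80])) (.lf false [141,12,9] [12,9,141]))) (.nd (.nd (.nd (.lf true [14,4] [78]) (.lf false [45,12,209,17] [209,49])) (.nd (.lf false [209,17,208] [13,17,12]) (.lf true [342,212,343] [342,214]))) (.nd (.nd (.lf false [12,16,209,13] [16,209]) (.lf false [111,6,9,182] [6,139])) (.lf false [4,72,5] [6]))))))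

def qt01010 : Tr :=
  .nd (.nd (.nd (.nd (.nd (.nd (.nd (.lf true [2,36] [4]) (.lf false [245,117] [15,245])) (.nd (.lf false [18,275,17] [17,18,275]) (.lf false [6,11,138,7] [110,39]))) (.nd (.nd (.lf true [36,10] [172]) (.lf false [50,83] [2,5])) (.lf false [21,17,20,277] [277,17]))) (.nd (.nd (.nd (.lf true [14,12] [206]) (.lf true [4,142] [4,106])) (.nd (.lf false [278,343,276] [276,278,343]) (.lf true [36,308,311] [37]))) (.nd (.nd (.lf false [19,210,18] [13,210,12]) (.lf false [45,76,274,48] [274,2])) (.lf false [49,37,48,81] [81,37])))) (.nd (.nd (.nd (.nd (.lf false [45,48,44] [209,48,208]) (.lf false [5,48] [3,80])) (.nd (.lf false [83,78,82,243] [243,78]) (.lf false [22,36,207] [36,207,110]))) (.nd (.nd (.lf false [71,38,70] [37,38,36]) (.lf false [13,16,209] [3,50,19])) (.lf false [172,178,211,173] [178,211]))) (.nd (.nd (.nd (.lf true [16,36] []) (.lf false [208,17,17,209] [211,211])) (.nd (.lf false [206,111,109] [109,206,111]) (.lf true [208,215,55] [4]))) (.nd (.nd (.lf false [16,276,21,17] [276,21]) (.lf false [82,210,80,275] [3,4,50,76])) (.lf false [8,5] [5,70])))))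 (.nd (.nd (.nd (.nd (.nd (.lf false [13,18,12] [211,18,210]) (.lf false [36,13] [5,48])) (.nd (.lf false [39,36,38,71] [71,36]) (.lf false [3,38,46,106] [172,38]))) (.nd (.nd (.lf true [111,22] [342]) (.lf false [16,274] [12,16])) (.lf false [45,77,44] [37,77,36]))) (.nd (.nd (.nd (.lf true [18,16] [274]) (.lf false [7,3,4] [4,73,77])) (.nd (.lf false [208,49,44,48] [44,208]) (.lf true [276,208,215] [215,278]))) (.nd (.nd (.lf true [37,214] [36,278]) (.lf false [50,3,209] [209,50,3])) (.lf false [209,274,208] [12])))) (.nd (.nd (.nd (.nd (.lf true [14,6] [110]) (.lf false [18,275] [208,13])) (.nd (.lf false [210,76,83] [76,83,210]) (.lf true [6,245,206] [36,116]))) (.nd (.nd (.lf false [275,82,274] [81,82,80]) (.lf false [208,208,17] [17,208,208])) (.lf false [71,5,70] [7,5,6]))) (.nd (.nd (.nd (.lf true [36,210] [209]) (.lf false [51,44,50] [77,50,44])) (.nd (.lf false [308,277,274,276] [274,308]) (.lf true [213,211] [309]))) (.nd (.nd (.lf false [10,8,139] [8,139,10]) (.lf false [37,208,36] [18])) (.lf false [6,36] [36,206])))))) (.nd (.nd (.nd (.nd (.nd (.nd (.lf true [20,116]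 [6]) (.lf false [4,37,16] [48])) (.nd (.lf false [20,22,343,21] [22,343]) (.lf false [5,70,79,4] [141,8]))) (.nd (.nd (.lf true [14,16] [240]) (.lf false [13,13,16] [3,50,13])) (.lf false [209,49,208] [45,49,44]))) (.nd (.nd (.nd (.lf true [22,208] [16,214]) (.lf false [81,3,76] [17,81,12])) (.nd (.lf false [342,20,23] [20,23,342]) (.lf true [310,210] [310,36]))) (.nd (.nd (.lf false [275,208,274] [211,208,210]) (.lf false [274,50,3] [80,77,274])) (.lf false [210,13,211,12] [13,210,12,211])))) (.nd (.nd (.nd (.nd (.lf true [12,36] [2,76]) (.lf false [44,5] [4,45])) (.nd (.lf false [4,76,13,5] [76,13]) (.lf false [111,109,110] [37,119,36]))) (.nd (.nd (.lf false [83,36,82] [51,36,50]) (.lf false [274,12,18] [12,18,12])) (.lf false [212,309,211] [211,212,309]))) (.nd (.nd (.nd (.lf true [6,39] [2]) (.lf false [50,45] [45,76])) (.nd (.lf false [276,209,212,208] [212,276]) (.lf true [309,278] [36,342]))) (.nd (.nd (.lf false [12,208,17,13] [208,17]) (.lf true [342,214,23] [36,23,20])) (.lf false [111,116] [14,111]))))) (.nd (.nd (.nd (.nd (.nd (.lf false [23,18,22] [311,18,310])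 (.lf false [20,7,244] [110])) (.nd (.lf false [206,15,12,14] [12,206]) (.lf false [110,71] [71,36]))) (.nd (.nd (.lf false [209,12,208] [17,12,16]) (.lf false [208,211] [17,208])) (.lf false [116,245,111] [111,116,245]))) (.nd (.nd (.nd (.lf true [20,210] [12,308]) (.lf true [208,342] [139,308])) (.nd (.lf false [104,73,70] [70,104,73]) (.lf true [108,117,7] [36,117]))) (.nd (.nd (.lf false [342,23,20,22] [20,342]) (.lf true [2,112,7] [176,43])) (.lf true [22,21,18] [18,20,342,21])))) (.nd (.nd (.nd (.nd (.lf true [10,8] [138]) (.lf false [3,80,3] [81])) (.nd (.lf true [36,244,213] [14]) (.lf true [2,78,14] [212,210]))) (.nd (.nd (.lf false [245,116,244] [111,116,110]) (.lf false [51,208,208] [208,208,51])) (.lf false [243,79,242] [83,79,82]))) (.nd (.nd (.nd (.lf true [139,2] [54]) (.lf false [275,16,44] [19,48,208])) (.nd (.lf false [17,4,81] [4,81,17]) (.lf true [310,343] [308]))) (.nd (.nd (.lf false [15,4,14,79] [79,4]) (.lf false [182,7,110,6] [8,138])) (.lf false [70,104,71] [4]))))))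

def qt01011 : Tr :=
  .nd (.nd (.nd (.nd (.nd (.nd (.nd (.lf true [14,110] [6]) (.lf false [208,16,209] [210])) (.nd (.lf false [342,21,22] [22,342,21]) (.lf false [141,5,36,78] [5,36]))) (.nd (.nd (.lf true [212,13] [111]) (.lf false [77,12,208,17] [208,81])) (.lf false [39,36,71,38] [36,71]))) (.nd (.nd (.nd (.lf true [22,76] [4,214]) (.lf false [211,12,209] [12,211,19])) (.nd (.lf true [36,308,211] [111]) (.lf true [310,279] [274]))) (.nd (.nd (.lf true [38,206] [36,174]) (.lf false [2,49,275,82] [275,76])) (.lf true [38,5,70] [110,5])))) (.nd (.nd (.nd (.nd (.lf false [53,48,52] [277,48,276]) (.lf false [175,39] [39,5])) (.nd (.lf true [2,108,39] [36]) (.lf false [37,110,47] [2,173,3]))) (.nd (.nd (.lf false [107,38,106] [43,38,42]) (.lf false [12,16,208] [36,36,18])) (.lf false [209,80,77,208] [80,77]))) (.nd (.nd (.nd (.lf true [6,6] []) (.lf false [209,45,76] [2,49,209])) (.nd (.lf false [182,151,138] [138,182,151]) (.lf true [37,213] [309]))) (.nd (.nd (.lf false [12,210,19,13] [210,19]) (.lf true [138,39] [39,36])) (.lf false [139,182,138] [8]))))) (.nd (.nd (.nd (.nd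 (.nd (.lf false [19,16,18] [275,16,274]) (.lf false [11,150,9] [183])) (.nd (.lf false [48,209,44] [44,48,209]) (.lf false [17,2,18,51] [208,13]))) (.nd (.nd (.lf false [139,8,138] [11,8,10]) (.lf false [210,77] [36,51])) (.lf false [111,6,15] [6,15,111]))) (.nd (.nd (.nd (.lf true [22,208] [12,278]) (.lf true [208,211] [36])) (.nd (.lf false [276,53,48,52] [48,276]) (.lf true [36,118,23] [206,111]))) (.nd (.nd (.lf true [111,274] [37,308]) (.lf true [2,86,13] [214,37])) (.lf false [151,138,150] [22])))) (.nd (.nd (.nd (.nd (.lf false [107,110,106] [175,110,174]) (.lf false [37,3,80] [13])) (.nd (.lf false [213,208,212,277] [277,208]) (.lf true [214,53] [4]))) (.nd (.nd (.lf true [36,70] [4,108]) (.lf false [18,51,5] [208,49,3])) (.lf false [343,20,23] [20,23,343]))) (.nd (.nd (.nd (.lf true [38,183] [139]) (.lf false [208,81,13,16] [77,208])) (.nd (.lf false [215,13,214] [23,13,22]) (.lf true [342,18] [139,308]))) (.nd (.nd (.lf false [18,210,13,19] [210,13]) (.lf false [12,12,211] [16])) (.lf false [36,44] [4,36])))))) (.nd (.nd (.nd (.nd (.nd (.nd (.lf false [5,6,4] [71,6,70])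 (.lf false [71,8] [5,104])) (.nd (.lf false [48,17,2,16] [2,48]) (.lf false [178,243,47] [173,178,243]))) (.nd (.nd (.lf true [276,21] [37]) (.lf false [51,80] [49,82])) (.lf false [50,211,45] [45,50,211]))) (.nd (.nd (.nd (.lf true [20,14] [244]) (.lf false [175,2,11] [2,11,45])) (.nd (.lf false [36,70,39,37] [70,39]) (.lf true [210,278,311] [36,17]))) (.nd (.nd (.lf true [111,240] [37,244]) (.lf true [278,81] [214,77])) (.lf false [70,72,71] [6])))) (.nd (.nd (.nd (.nd (.lf true [22,76] [12,86]) (.lf false [3,106,11] [39])) (.nd (.lf false [174,106,111] [106,111,174]) (.lf false [4,140,5] [38]))) (.nd (.nd (.lf false [51,82,50] [37,82,36]) (.lf false [19,44,208] [17,274,48])) (.lf false [277,16,21] [16,21,277]))) (.nd (.nd (.nd (.lf true [14,110] [6]) (.lf false [4,36,50] [2,4,36])) (.nd (.lf false [14,3,47,2] [47,14]) (.lf true [276,276] []))) (.nd (.nd (.lf false [3,18,2,51] [51,18]) (.lf true [310,308,19] [111,19,22])) (.lf false [112,36] [36,14]))))) (.nd (.nd (.nd (.nd (.nd (.lf true [6,36] [4,38]) (.lf false [18,13,274] [208])) (.nd (.lf false [80,36,49] [36,49,80])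 (.lf false [39,36,38] [110]))) (.nd (.nd (.lf false [55,2,54] [23,2,22]) (.lf false [82,211] [4,13])) (.lf false [139,74,73] [74,73,139]))) (.nd (.nd (.nd (.lf true [22,212] [12,342]) (.lf false [12,211,18,16] [18,274])) (.nd (.lf false [276,85,80] [80,276,85]) (.lf true [118,113,7] [139,113]))) (.nd (.nd (.lf false [118,23,6,22] [6,118]) (.lf false [276,241,277,240] [241,276,240,277])) (.lf false [117,110,116] [20])))) (.nd (.nd (.nd (.nd (.lf true [12,10] [172]) (.lf false [209,82,208] [81,44,80])) (.nd (.lf false [209,274,208,211] [211,274]) (.lf true [37,310] [36,308]))) (.nd (.nd (.lf true [151] [38]) (.lf false [76,18,51] [2,208,81])) (.lf false [211,50,45] [50,45,211]))) (.nd (.nd (.nd (.lf true [4,6] [70]) (.lf false [82,37] [37,44])) (.nd (.lf false [213,21,212] [13,21,12]) (.lf true [36,23,36] [213,37]))) (.nd (.nd (.lf false [276,17,20] [20,276,17]) (.lf false [6,9,139,7] [111,71])) (.lf false [22,151] [138,11]))))))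

def qt01100 : Tr :=
  .nd (.nd (.nd (.nd (.nd (.nd (.nd (.lf true [20,110] []) (.lf false [116,21] [14,111])) (.nd (.lf false [18,211,13] [13,18,211]) (.lf false [6,11,139,7] [111,39]))) (.nd (.nd (.lf true [40,9] [2]) (.lf false [83,37,44] [37])) (.lf false [17,19,16,275] [275,19]))) (.nd (.nd (.nd (.lf true [4,12] [76]) (.lf false [275,3,80] [13,274,37])) (.nd (.lf false [276,309,274] [274,276,309]) (.lf true [44,214] [54]))) (.nd (.nd (.lf false [151,182,150] [139,182,138]) (.lf false [18,51,210] [3,12,18])) (.lf false [17,7,16,113] [113,7])))) (.nd (.nd (.nd (.nd (.lf false [39,44,38] [109,44,108]) (.lf false [80,37] [2,17])) (.nd (.lf false [81,82,80,275] [275,82]) (.lf true [108,207] [40,73]))) (.nd (.nd (.lf false [15,46,14] [3,46,2]) (.lf false [275,36] [37,274])) (.lf false [10,13,173,12] [173,10]))) (.nd (.nd (.nd (.lf true [10] [38]) (.lf false [19,12,208,17] [211,12])) (.nd (.lf false [212,109,116] [116,212,109]) (.lf true [343,277] [276,343]))) (.nd (.nd (.lf false [18,308,21,19] [308,21]) (.lf false [50,16,19,77] [76,19,36,81])) (.lf false [48,16] [36,48])))))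 (.nd (.nd (.nd (.nd (.nd (.lf false [13,4,12] [77,4,76]) (.lf false [39,2] [2,11])) (.nd (.lf false [44,36,77] [36,77,44]) (.lf false [3,38,47,2] [173,10]))) (.nd (.nd (.lf true [37,22] [278]) (.lf false [2,275,16] [50])) (.lf false [19,83,18] [5,83,4]))) (.nd (.nd (.nd (.lf true [4,16] [80]) (.lf false [275,36,5] [13,274,45])) (.nd (.lf false [39,6,3,38] [6,3]) (.lf true [139,37,274] [310,209]))) (.nd (.nd (.lf true [37,86] [4,278]) (.lf false [19,45,208] [18,45,209])) (.lf false [37,48,36] [4])))) (.nd (.nd (.nd (.nd (.lf true [4,6] [70]) (.lf false [73,5] [5,7])) (.nd (.lf false [208,44,49] [44,49,208]) (.lf true [214,3,71] [70,3]))) (.nd (.nd (.lf true [139,76] [36,86]) (.lf false [209,36,3] [12,19,77])) (.lf false [278,311,275] [275,278,311]))) (.nd (.nd (.nd (.lf true [36,208] [37]) (.lf false [51,208,2] [45,208,48])) (.nd (.lf false [276,241,245] [245,276,241]) (.lf true [276,343] [212]))) (.nd (.nd (.lf false [6,71,4] [4,6,71]) (.lf false [38,175,110,174,39] [12])) (.lf false [37,16,36] [12])))))) (.nd (.nd (.nd (.nd (.nd (.nd (.lf true [18,210] [12]) (.lf false [81,49]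 [5,81])) (.nd (.lf false [16,22,279,17] [22,279]) (.lf false [79,14,13,140] [14,13]))) (.nd (.nd (.lf true [4,16] [80]) (.lf false [210,44,211,211] [13,44])) (.lf false [38,71,37] [37,38,71]))) (.nd (.nd (.nd (.lf true [18,208] [16,210]) (.lf true [108,9] [74,71])) (.nd (.lf false [37,3,36,5] [5,3]) (.lf true [274,308] [210,20]))) (.nd (.nd (.lf true [111,208] [37,212]) (.lf false [45,18,51] [3,18,83])) (.lf false [36,3,37,2] [3,36,2,37])))) (.nd (.nd (.nd (.nd (.lf false [5,82,4] [19,82,18]) (.lf false [76,3,76] [2])) (.nd (.lf false [9,140,8,13] [13,140]) (.lf false [111,108,37,22] [108,37]))) (.nd (.nd (.lf false [275,50,274] [49,50,48]) (.lf false [275,13,16] [3,50,275])) (.lf false [277,213,276] [209,213,208]))) (.nd (.nd (.nd (.lf true [4,37] [2]) (.lf false [44,208,2,49] [76,208])) (.nd (.lf false [240,209,206,208] [206,240]) (.lf true [212,214] [208]))) (.nd (.nd (.lf false [19,3,18,51] [51,3]) (.lf true [210,12,275] [210])) (.lf false [117,244] [6,117]))))) (.nd (.nd (.nd (.nd (.nd (.lf false [23,8,22] [151,8,150]) (.lf false [116,7] [14,245])) (.nd (.lf false [5,70,4,7]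 [7,70]) (.lf true [2,86,207] [6]))) (.nd (.nd (.lf false [207,12,206] [15,12,14]) (.lf false [209,12] [12,19])) (.lf false [117,110,245] [110,245,117]))) (.nd (.nd (.nd (.lf true [20,18] [308]) (.lf true [208,212] [36,308])) (.nd (.lf false [76,44,37] [44,37,76]) (.lf true [14,21,36] [116]))) (.nd (.nd (.lf false [6,3,38,2] [38,6]) (.lf true [38,142,9] [246,183])) (.lf true [6,37,6] [6,36,108,37])))) (.nd (.nd (.nd (.nd (.lf false [117,110,116] [245,110,244]) (.lf false [16,13,274] [210])) (.nd (.lf false [244,116,111] [116,111,244]) (.lf true [118,36] [212,206]))) (.nd (.nd (.lf true [139,108] [36,118]) (.lf false [51,82,19] [19,3,4])) (.lf false [71,6,5] [6,5,71]))) (.nd (.nd (.nd (.lf true [14,2] [46]) (.lf false [82,208,81] [208,81,44])) (.nd (.lf false [5,2,37] [2,37,5]) (.lf true [310,22,21] [310,343]))) (.nd (.nd (.lf false [22,214,13,23] [214,13]) (.lf false [11,172,10] [3,46,2])) (.lf false [42,39] [39,6]))))))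

def qt01101 : Tr :=
  .nd (.nd (.nd (.nd (.nd (.nd (.nd (.lf true [10,138] [8]) (.lf false [209,211] [17,209])) (.nd (.lf false [20,277,16] [16,20,277]) (.lf false [7,109,6,139] [139,119]))) (.nd (.nd (.lf true [37,12] [208]) (.lf false [4,18,83] [2,18,51])) (.lf false [51,2,19,50] [2,19]))) (.nd (.nd (.nd (.lf true [16,76] [4,208]) (.lf false [209,16,209] [16,209,19])) (.nd (.lf false [214,211,310,210] [310,214]) (.lf true [212,215] [208]))) (.nd (.nd (.lf false [111,206,110] [109,206,108]) (.lf false [48,209,4] [44,82,19])) (.lf false [18,17,275,16] [275,18])))) (.nd (.nd (.nd (.nd (.lf false [49,54,48] [279,54,278]) (.lf false [16,37] [36,17])) (.nd (.lf false [7,110,6,15] [15,110]) (.lf false [79,4,140] [37,110,4]))) (.nd (.nd (.lf false [71,36,70] [39,36,38]) (.lf false [12,209,17] [2,19,51])) (.lf false [48,45,209,44] [209,48]))) (.nd (.nd (.nd (.lf true [2,2] []) (.lf false [209,17,48] [13,44,209])) (.nd (.lf false [140,12,9] [12,9,140]) (.lf true [111,19] [308]))) (.nd (.nd (.lf false [16,274,19,17] [274,19]) (.lf true [118,107,183] [6,150,107])) (.lf false [36,4] [4,12])))))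 (.nd (.nd (.nd (.nd (.nd (.lf false [17,20,16] [277,20,276]) (.lf false [10,139,22] [150])) (.nd (.lf false [46,79,36] [36,46,79]) (.lf false [39,36,47,37] [47,39]))) (.nd (.nd (.lf false [73,4,72] [9,4,8]) (.lf false [274,45] [210,49])) (.lf false [85,80,277] [80,277,85]))) (.nd (.nd (.nd (.lf true [22,80] [4,278]) (.lf true [208,12] [210])) (.nd (.lf false [242,51,46,50] [46,242]) (.lf true [208,215,310] [215,22]))) (.nd (.nd (.lf true [111,210] [36,308]) (.lf true [2,86,77] [214,3])) (.lf false [211,208,210] [18])))) (.nd (.nd (.nd (.nd (.lf true [14,104] [8,110]) (.lf false [3,106,43] [7])) (.nd (.lf true [36,278,209] [139]) (.lf true [113,116] [276]))) (.nd (.nd (.lf true [6,40] [2,104]) (.lf false [209,3,18] [49,3,82])) (.lf false [311,274,279] [274,279,311]))) (.nd (.nd (.nd (.lf true [37,277] [111]) (.lf false [275,16,76] [19,80,208])) (.nd (.lf false [22,21,342,20] [342,22]) (.lf true [311,20] [139,308]))) (.nd (.nd (.lf false [13,16,12,209] [209,16]) (.lf false [17,274] [3,50])) (.lf false [36,76] [2,36])))))) (.nd (.nd (.nd (.nd (.nd (.nd (.lf false [3,6,2] [39,6,38])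 (.lf false [9,7,70] [7])) (.nd (.lf false [4,80,17,5] [80,17]) (.lf false [79,37,70] [37,70,79]))) (.nd (.nd (.lf true [6,20] [116]) (.lf false [209,80,51,80] [209,50])) (.lf false [275,51,274] [49,51,48]))) (.nd (.nd (.nd (.lf true [4,14] [78]) (.lf false [208,3,76] [16,208,37])) (.nd (.lf false [80,37,48,36] [48,80]) (.lf true [310,3,80] [308]))) (.nd (.nd (.lf false [209,240,208] [207,240,206]) (.lf true [276,12,211] [212])) (.lf true [2,76,5] [2,5,2])))) (.nd (.nd (.nd (.nd (.lf true [16,76] [12,80]) (.lf false [106,7] [7,2])) (.nd (.lf false [150,183,138] [138,150,183]) (.lf false [70,36] [36,46]))) (.nd (.nd (.lf true [4,44] [2,76]) (.lf false [36,208,17] [3,76,208])) (.lf false [275,16,19] [16,19,275]))) (.nd (.nd (.nd (.lf true [38,138] [70]) (.lf false [76,4,3] [44,50,77])) (.nd (.lf false [208,276,213,209] [276,213]) (.lf true [311,209] [309]))) (.nd (.nd (.lf false [16,48,3,17] [48,3]) (.lf true [48,276,12] [212,50])) (.lf false [210,208] [208,16]))))) (.nd (.nd (.nd (.nd (.nd (.lf false [3,48,2] [17,48,16]) (.lf false [12,209,275] [209])) (.nd (.lf false [37,76,36,45]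 [45,76]) (.lf false [111,39] [39,37]))) (.nd (.nd (.lf false [245,14,244] [21,14,20]) (.lf false [211,5] [37,45])) (.lf false [151,8,23] [8,23,151]))) (.nd (.nd (.nd (.lf true [16,20] [276]) (.lf false [208,13,208,12] [18,208])) (.nd (.lf false [242,83,78] [78,242,83]) (.lf true [108,214] [118]))) (.nd (.nd (.lf false [150,23,8,22] [8,150]) (.lf true [36,114,37] [14,211])) (.lf false [151,138,150] [22])))) (.nd (.nd (.nd (.nd (.lf true [22,138] [10,150]) (.lf true [208,37] [36])) (.nd (.lf false [81,274,80,83] [83,274]) (.lf true [212,279] []))) (.nd (.nd (.lf true [70,118] [6,150]) (.lf false [51,208,49] [45,208,81])) (.lf false [173,12,11] [12,11,173]))) (.nd (.nd (.nd (.lf true [139,4] [86]) (.lf false [82,51,80] [48])) (.nd (.lf false [211,19,210] [13,19,12]) (.lf true [215,212] [342]))) (.nd (.nd (.lf false [18,274,17,19] [274,17]) (.lf false [111,6,11] [6,11,139])) (.lf false [183,139] [23,183]))))))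

def qt01110 : Tr :=
  .nd (.nd (.nd (.nd (.nd (.nd (.nd (.lf true [6,38] [2]) (.lf false [18,275,209] [275])) (.nd (.lf false [308,19,21] [21,308,19]) (.lf false [39,138,7,38] [43,110]))) (.nd (.nd (.lf true [4,12] [76]) (.lf false [45,82,211] [44,211,45])) (.lf false [23,20,343] [20,343,23]))) (.nd (.nd (.nd (.lf false [13,210,12] [19,210,18]) (.lf false [80,2,36] [2,12,76])) (.nd (.lf false [70,7,5] [5,70,7]) (.lf true [108,23,36] [36,246]))) (.nd (.nd (.lf false [51,210,50] [45,210,44]) (.lf false [82,5,13,44] [13,48])) (.lf false [44,37,77,36] [77,44])))) (.nd (.nd (.nd (.nd (.lf false [47,36,46] [79,36,78]) (.lf false [3,80,12] [36])) (.nd (.lf false [7,104,6,9] [9,104]) (.lf false [119,36,108] [23,36,110]))) (.nd (.nd (.lf false [77,44,76] [37,44,36]) (.lf false [19,48,208] [3,50,44])) (.lf false [12,17,209,16] [209,12]))) (.nd (.nd (.nd (.lf true [18] [209]) (.lf false [49,209,44] [3,209,50])) (.nd (.lf false [212,117,108] [108,212,117]) (.lf true [311,278] [36]))) (.nd (.nd (.lf false [12,212,21,13] [212,21]) (.lf false [209,36,19,37] [36,19,37,209])) (.lf true [110]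 [138]))))) (.nd (.nd (.nd (.nd (.nd (.lf false [15,4,14] [79,4,78]) (.lf false [13,5,36] [5])) (.nd (.lf false [44,77,36] [36,44,77]) (.lf false [38,46,39] [2,172,3]))) (.nd (.nd (.lf false [51,18,50] [3,18,2]) (.lf false [274,3] [16,51])) (.lf false [83,76,211] [76,211,83]))) (.nd (.nd (.nd (.lf true [22,16] [278]) (.lf true [14,7] [40,73])) (.nd (.lf false [278,49,54,48] [54,278]) (.lf true [36,278,23] [36,17]))) (.nd (.nd (.lf true [209,276] [111,274]) (.lf true [36,17,208] [36,275])) (.lf false [139,182,138] [8])))) (.nd (.nd (.nd (.nd (.lf false [7,116,6] [21,116,20]) (.lf false [44,77] [4,3])) (.nd (.lf true [36,116,213] [6]) (.lf true [206,213] [244]))) (.nd (.nd (.lf false [211,76,210] [83,76,82]) (.lf false [16,209,51] [12,19,3])) (.lf false [215,311,214] [211,311,210]))) (.nd (.nd (.nd (.lf true [37,275] [209]) (.lf false [50,83,76] [76,76,83])) (.nd (.lf false [310,279,274,278] [274,310]) (.lf true [311,16] [213,208]))) (.nd (.nd (.lf false [13,6,12,109] [109,6]) (.lf false [80,275] [37,76])) (.lf false [4,38,175] [38])))))) (.nd (.nd (.nd (.nd (.nd (.nd (.lf true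 [8,150] [22]) (.lf false [80,17] [2,37])) (.nd (.lf false [3,38,2,7] [7,38]) (.lf false [5,70,78,104] [140,70]))) (.nd (.nd (.lf true [276,17] [111]) (.lf false [80,77,12] [12,50,3])) (.lf false [46,79,37] [37,46,79]))) (.nd (.nd (.nd (.lf true [22,210] [18,214]) (.lf false [209,16,275] [13,16,209])) (.nd (.lf false [37,4,3,36] [4,3]) (.lf true [274,310] [210,22]))) (.nd (.nd (.lf false [309,210,308] [213,210,212]) (.lf false [50,4,18] [2,18,82])) (.lf false [277,17,17,276] [21,17,17,20])))) (.nd (.nd (.nd (.nd (.lf false [37,82,36] [51,82,50]) (.lf false [12,45] [36,5])) (.nd (.lf false [74,73,138,72] [138,74]) (.lf false [46,37] [37,70]))) (.nd (.nd (.lf false [87,36,86] [55,36,54]) (.lf false [210,5,3] [36,51,5])) (.lf false [343,215,342] [213,215,212]))) (.nd (.nd (.nd (.lf true [6,71] [4]) (.lf false [51,37,76] [37])) (.nd (.lf false [278,209,214,208] [214,278]) (.lf true [343] [342]))) (.nd (.nd (.lf false [4,36,3,5] [36,3]) (.lf true [108,214,13] [139,13,6])) (.lf false [274,210] [210,12]))))) (.nd (.nd (.nd (.nd (.nd (.lf true [6,2] [38]) (.lf false [244,15] [6,117]))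 (.nd (.lf false [5,76,4,13] [13,76]) (.lf false [6,138] [36,6]))) (.nd (.nd (.lf false [83,4,82] [19,4,18]) (.lf false [210,51] [3,36])) (.lf false [11,139,10] [9,139,8]))) (.nd (.nd (.nd (.lf true [20,274] [16,308]) (.lf true [210,5] [45,36])) (.nd (.lf false [140,73,77] [77,140,73]) (.lf true [116,13] [112,23]))) (.nd (.nd (.lf false [278,23,16,22] [16,278]) (.lf true [4,182,73] [36,139])) (.lf true [20,17,2] [2,16,276,17])))) (.nd (.nd (.nd (.nd (.lf false [9,150,8] [23,150,22]) (.lf false [36,3,37] [81])) (.nd (.lf false [17,274,16,19] [19,274]) (.lf true [48,276] [52]))) (.nd (.nd (.lf false [277,112,276] [117,112,116]) (.lf false [208,208,45] [45,208,208])) (.lf false [207,109,206] [111,109,110]))) (.nd (.nd (.nd (.lf true [6,4] [70]) (.lf false [76,209,16] [2,36,209])) (.nd (.lf false [10,139,9] [9,10,139]) (.lf true [215,17,17] [36,23]))) (.nd (.nd (.lf false [17,6,16,113] [113,6]) (.lf false [138,7,111] [9,182,7])) (.lf false [70,72,71] [6]))))))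

def qt01111 : Tr :=
  .nd (.nd (.nd (.nd (.nd (.nd (.nd (.lf true [16,16] []) (.lf false [81,37] [17,81])) (.nd (.lf false [23,10,22,183] [183,10]) (.lf false [147,141,146,243] [243,79]))) (.nd (.nd (.lf true [46,15] [2]) (.lf false [208,77,12] [81,16,208])) (.lf false [45,36,77] [36,77,45]))) (.nd (.nd (.nd (.lf true [20,108] [6,212]) (.lf false [49,3,4] [17,3,36])) (.nd (.lf false [310,274,279] [274,279,310]) (.lf true [276,309] [36]))) (.nd (.nd (.lf true [14,214] [139,206]) (.lf false [18,2,45,19] [83,50])) (.lf true [2,5,36] [44,5])))) (.nd (.nd (.nd (.nd (.lf true [6,4] [70]) (.lf false [77,5] [5,3])) (.nd (.lf false [111,116,110,245] [245,116]) (.lf true [38,142,111] [112]))) (.nd (.nd (.lf false [211,50,210] [45,50,44]) (.lf false [13,274,12] [37,210,36])) (.lf false [211,76,83] [76,83,211]))) (.nd (.nd (.nd (.lf true [11] [38]) (.lf false [2,13,45,36] [45,76])) (.nd (.lf false [182,118,107] [118,107,182]) (.lf true [213,276] [208]))) (.nd (.nd (.lf false [4,82,19,5] [82,19]) (.lf true [214,4,37] [48,22])) (.lf false [183,8] [139,22]))))) (.nd (.nd (.nd (.nd (.nd (.lf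 false [21,6,20] [117,6,116]) (.lf false [139,183] [9,139])) (.nd (.lf false [52,48,277] [48,277,52]) (.lf true [108,37,138] [14]))) (.nd (.nd (.lf false [141,8,140] [13,8,12]) (.lf false [36,211] [3,76])) (.lf false [117,6,21] [6,21,117]))) (.nd (.nd (.nd (.lf true [20,274] [18,276]) (.lf false [77,13,2] [5,13,44])) (.nd (.lf false [214,55,44,54] [44,214]) (.lf true [108,23,16] [116]))) (.nd (.nd (.lf true [111,310] [139,308]) (.lf true [36,308,18] [276,208])) (.lf true [4,13,20] [20,12,76,13])))) (.nd (.nd (.nd (.nd (.lf true [20,108] [12,116]) (.lf false [9,182,9] [183])) (.nd (.lf true [36,342,215] [111]) (.lf true [214,17] [276,37]))) (.nd (.nd (.lf true [139,104] [70,118]) (.lf false [50,36,209] [76,19,274])) (.lf false [71,37,70] [39,37,38]))) (.nd (.nd (.nd (.lf true [37,279] [139]) (.lf false [76,209,17] [37,76,209])) (.nd (.lf false [277,17,276] [21,17,20]) (.lf true [139,308,18] [342]))) (.nd (.nd (.lf false [212,13,20,12] [20,212]) (.lf false [208,13,82] [17,4,18])) (.lf false [44,3] [3,4])))))) (.nd (.nd (.nd (.nd (.nd (.nd (.lf false [7,12,6] [109,12,108]) (.lf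 false [6,11,38] [42])) (.nd (.lf false [49,3,48,17] [17,3]) (.lf false [242,179,173] [47,242,179]))) (.nd (.nd (.lf true [342,21] [139]) (.lf false [50,36,3] [80,51,36])) (.lf false [77,4,13] [4,13,77]))) (.nd (.nd (.nd (.lf false [207,240,206] [209,240,208]) (.lf false [16,209,76] [12,80,209])) (.nd (.lf false [106,43,38,42] [38,106]) (.lf true [36,275,22] [210,278]))) (.nd (.nd (.lf false [21,276,20] [17,276,16]) (.lf false [50,18,210] [80,208,36])) (.lf false [38,106,39] [2])))) (.nd (.nd (.nd (.nd (.lf false [81,82,80] [275,82,274]) (.lf false [7,4,6] [104])) (.nd (.lf false [178,211,172] [172,178,211]) (.lf false [141,5] [5,39]))) (.nd (.nd (.lf false [113,80,112] [71,80,70]) (.lf false [76,12,211] [37,76,274])) (.lf false [275,80,83] [80,83,275]))) (.nd (.nd (.nd (.lf true [36,206] [14]) (.lf false [211,45,76] [45,76,211])) (.nd (.lf false [208,278,215,209] [278,215]) (.lf true [309,12] [213,19]))) (.nd (.nd (.lf false [6,70,5,7] [70,5]) (.lf false [244,17,20,277] [110,244,277,17])) (.lf false [49,80] [2,49]))))) (.nd (.nd (.nd (.nd (.nd (.lf true [14,36] [4,46]) (.lf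 false [19,208] [13,274])) (.nd (.lf true [2,86,55] [4]) (.lf false [22,7,206] [138,23,36]))) (.nd (.nd (.lf false [215,12,214] [23,12,22]) (.lf false [19,17] [17,209])) (.lf false [138,183,151,182] [151,138]))) (.nd (.nd (.nd (.lf true [4,22] [86]) (.lf false [4,3,37,76] [37,44])) (.nd (.lf false [142,105,110] [110,142,105]) (.lf true [37,119,36] [109]))) (.nd (.nd (.lf false [54,23,2,22] [2,54]) (.lf false [210,49,13,16] [16,18,45,209])) (.lf false [211,208,210] [18])))) (.nd (.nd (.nd (.nd (.lf false [107,174,106] [111,174,110]) (.lf false [18,12,209] [208,19,274])) (.nd (.lf false [276,208,213] [208,213,276]) (.lf true [4,278] [4,212]))) (.nd (.nd (.lf false [211,140,210] [147,140,146]) (.lf false [208,208,3] [3,208,208])) (.lf false [277,212,209,276] [212,209]))) (.nd (.nd (.nd (.lf true [14,6] [110]) (.lf false [81,50] [49,82])) (.nd (.lf false [23,12,215] [12,215,23]) (.lf true [212,206,208] [212,240]))) (.nd (.nd (.lf false [18,51,2] [2,18,51]) (.lf false [7,244,9,138] [110,9])) (.lf false [182,151] [8,11]))))))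

def qt10000 : Tr :=
  .nd (.nd (.nd (.nd (.nd (.nd (.nd (.lf true [38] [10]) (.lf false [182,23] [8,139])) (.nd (.lf false [4,18,83,5] [18,83]) (.lf false [73,110,71] [71,138,7]))) (.nd (.nd (.lf true [111,6] [116]) (.lf false [45,36] [36,83])) (.nd (.lf false [6,16,113,7] [16,113]) (.lf true [36,240,213] [36,246])))) (.nd (.nd (.nd (.lf true [14,138] [8,174]) (.lf false [274,48,208] [208,16,44])) (.nd (.lf false [278,208,215] [208,215,278]) (.lf true [212,12] [212,36]))) (.nd (.nd (.lf true [38,86] [4,182]) (.lf false [76,208,49] [2,18,83])) (.lf false [343,277,342,279] [279,277])))) (.nd (.nd (.nd (.nd (.lf true [20,36] [4,52]) (.lf false [15,37,112] [37])) (.nd (.lf false [80,76,209] [76,209,80]) (.lf false [108,37,6] [37,6,118]))) (.nd (.nd (.lf false [343,20,342] [23,20,22]) (.lf false [19,13] [13,209])) (.lf false [146,211,141] [141,146,211]))) (.nd (.nd (.nd (.lf true [14,22] [246]) (.lf false [4,73,77,72] [107,4])) (.nd (.lf false [174,107,110,106] [110,174]) (.lf true [37,23,16] [139]))) (.nd (.nd (.lf false [54,23,3] [3,54,23]) (.lf false [13,16,44,49] [12,82,5,211]))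 (.lf false [210,18] [208,210]))))) (.nd (.nd (.nd (.nd (.nd (.lf false [9,10,8] [139,10,138]) (.lf false [11,3] [3,39])) (.nd (.lf false [50,2,19] [2,19,50]) (.lf false [46,2,13] [2,13,172]))) (.nd (.nd (.lf true [6,22] [118]) (.lf false [51,2,49] [49,82,5])) (.lf false [4,15,79,14] [79,4]))) (.nd (.nd (.nd (.lf true [22,206] [12,246]) (.lf false [76,209,81] [12,209,17])) (.nd (.lf false [76,45,36] [36,76,45]) (.lf true [213,276,21] [37,213]))) (.nd (.nd (.lf false [51,274,50] [49,274,48]) (.lf false [208,37,19] [17,49,82])) (.lf false [36,76,37] [2])))) (.nd (.nd (.nd (.nd (.lf true [22,80] [16,86]) (.lf false [7,4] [4,73])) (.nd (.lf false [13,210,12,19] [19,210]) (.lf true [2,84,15] [113]))) (.nd (.nd (.lf true [139,74] [38,86]) (.lf false [50,12,211] [2,13,274])) (.lf false [277,208,213,276] [208,213]))) (.nd (.nd (.nd (.lf true [37,48] [2]) (.lf false [44,51,2] [37,44,12])) (.nd (.lf false [240,208,207] [208,207,240]) (.lf true [342,213] [213,18]))) (.nd (.nd (.lf false [80,5,16,4] [16,80]) (.lf false [7,108,6] [139,118,138])) (.lf false [37,48,36] [4])))))) (.nd (.nd (.nd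 (.nd (.nd (.nd (.lf true [16,80] [4]) (.lf false [48,17] [4,37])) (.nd (.lf false [22,183,11] [11,22,183]) (.lf false [242,147,141] [79,242,147]))) (.nd (.nd (.lf true [110,15] [6]) (.lf false [108,111,174] [44,108,111])) (.lf false [49,36,81,48] [36,81]))) (.nd (.nd (.nd (.lf true [16,206] [14,208]) (.lf true [37,5] [36,49])) (.nd (.lf false [310,308,343] [308,343,310]) (.lf true [212,275] [111]))) (.nd (.nd (.lf true [211] [37]) (.lf false [76,19,51] [2,209,81])) (.lf true [14,7,111] [244,7])))) (.nd (.nd (.nd (.nd (.lf true [10,4] [74]) (.lf false [5,2,4] [76])) (.nd (.lf false [116,245,110] [110,116,245]) (.lf false [6,119,36] [36,109,206]))) (.nd (.nd (.lf false [79,36,78] [47,36,46]) (.lf false [16,2,19] [12,209,50])) (.lf false [208,275,211,274] [211,208]))) (.nd (.nd (.nd (.lf true [37,16] []) (.lf false [45,13,4] [3,13,76])) (.nd (.lf false [210,50,45] [50,45,210]) (.lf true [276,208] [212]))) (.nd (.nd (.lf false [50,19,2] [2,50,19]) (.lf true [172,206,15] [36,15,2])) (.lf false [183,150] [10,183]))))) (.nd (.nd (.nd (.nd (.nd (.lf false [21,16,20] [277,16,276]) (.lf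 false [23,138] [9,182])) (.nd (.lf false [51,44,50,211] [211,44]) (.lf true [172,139] [70,13]))) (.nd (.nd (.lf false [213,20,212] [13,20,12]) (.lf false [44,211] [37,44])) (.lf false [111,108,207,110] [108,207]))) (.nd (.nd (.nd (.lf false [277,274,276] [309,274,308]) (.lf false [111,106,110] [39,76,38])) (.nd (.lf false [214,55,45] [45,214,55]) (.lf true [138,108,37] [36,246]))) (.nd (.nd (.lf true [139,212] [36,342]) (.lf true [310,13,274] [36,278])) (.lf true [12,19,16] [16,18,210,19])))) (.nd (.nd (.nd (.nd (.lf false [111,106,110] [175,106,174]) (.lf false [7,244,7] [245])) (.nd (.lf false [215,208,214,279] [279,208]) (.lf true [111,17] [139,37]))) (.nd (.nd (.lf true [14,108] [36,110]) (.lf false [209,209,2] [2,209,209])) (.lf false [211,45,210,51] [51,45]))) (.nd (.nd (.nd (.lf true [4,2] [36]) (.lf true [118,9] [108,183])) (.nd (.lf false [209,13,208,17] [17,13]) (.lf true [311,19] [311,18]))) (.nd (.nd (.lf false [212,13,21] [21,212,13]) (.lf true [276,210] [212,12])) (.lf false [38,106] [2,38]))))))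

def qt10001 : Tr :=
  .nd (.nd (.nd (.nd (.nd (.nd (.nd (.lf true [8,8] []) (.lf false [211,16] [19,208])) (.nd (.lf false [21,14,20,245] [245,14]) (.lf false [118,138,7] [138,7,108]))) (.nd (.nd (.lf true [70,12] [140]) (.lf false [83,50,19] [19,2,45])) (.lf false [37,2,5] [2,5,37]))) (.nd (.nd (.nd (.lf true [22,12] [214]) (.lf false [37,3,4] [4,13,77])) (.nd (.lf false [2,38,7,3] [38,7]) (.lf true [212,117] [212,15]))) (.nd (.nd (.lf false [81,208,80] [77,208,76]) (.lf false [48,45,12] [12,82,5])) (.lf false [117,111,116,245] [245,111])))) (.nd (.nd (.nd (.nd (.lf false [49,44,48] [209,44,208]) (.lf false [80,5] [2,49])) (.nd (.lf false [106,6,11] [6,11,106]) (.lf false [110,104,111] [71,48,70]))) (.nd (.nd (.lf true [49] [4]) (.lf false [19,16,208] [3,50,12])) (.lf false [211,12,19] [12,19,211]))) (.nd (.nd (.nd (.lf true [20] [111]) (.lf false [275,44,208] [17,208,48])) (.nd (.lf false [244,117,110,116] [110,244]) (.lf true [310,18] [139]))) (.nd (.nd (.lf false [116,21,6] [6,116,21]) (.lf false [276,274,277,309] [274,276,309,277])) (.lf false [10,3] [3,38]))))) (.nd (.nd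 (.nd (.nd (.nd (.lf false [17,2,16] [49,2,48]) (.lf false [36,77] [3,36])) (.nd (.lf false [45,50,44,211] [211,50]) (.lf false [2,11,173,3] [47,39]))) (.nd (.nd (.lf false [81,16,80] [5,16,4]) (.lf false [12,210] [36,36])) (.lf false [76,80,209,77] [80,209]))) (.nd (.nd (.nd (.lf false [49,274,48] [51,274,50]) (.lf false [48,76,209] [44,209,80])) (.nd (.lf false [278,49,55] [55,278,49]) (.lf true [276,244,277] [277,240]))) (.nd (.nd (.lf false [309,274,308] [277,274,276]) (.lf true [2,86,206] [118,36])) (.lf false [5,70,4] [8])))) (.nd (.nd (.nd (.nd (.lf true [12,38] [2,108]) (.lf false [48,12] [4,36])) (.nd (.lf false [208,241,206] [206,208,241]) (.lf true [214,37] [111]))) (.nd (.nd (.lf false [9,104,8] [7,104,6]) (.lf false [18,37,77] [208,17,3])) (.lf false [212,211,309,210] [309,212]))) (.nd (.nd (.nd (.lf true [36,212] [111]) (.lf false [209,17,80] [13,76,209])) (.nd (.lf false [310,279,275] [275,310,279]) (.lf true [213,278] [139,308]))) (.nd (.nd (.lf false [12,141,8] [8,12,141]) (.lf false [80,13] [76,17])) (.lf false [70,142] [2,70])))))) (.nd (.nd (.nd (.nd (.nd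 (.nd (.lf true [12,214] [22]) (.lf false [6,9,70] [72])) (.nd (.lf false [42,2,11] [2,11,42]) (.lf false [78,4,9] [4,9,140]))) (.nd (.nd (.lf true [36,18] [210]) (.lf false [208,3,36,50] [16,208])) (.lf false [44,48,209,45] [48,209]))) (.nd (.nd (.nd (.lf true [22,212] [20,214]) (.lf false [80,13,274] [2,37,210])) (.nd (.lf false [5,37,4] [3,37,2]) (.lf true [310,36] [308,12]))) (.nd (.nd (.lf false [279,208,278] [215,208,214]) (.lf false [208,17,3] [13,18,51])) (.lf false [50,2,51,3] [2,50,3,51])))) (.nd (.nd (.nd (.nd (.lf true [10,70] [6,74]) (.lf false [7,3,6] [107])) (.nd (.lf false [139,150,138,183] [183,150]) (.lf false [173,3] [3,71]))) (.nd (.nd (.lf false [9,72,8] [5,72,4]) (.lf false [209,36,51] [16,209,77])) (.lf false [245,206,213,244] [206,213]))) (.nd (.nd (.nd (.lf true [4,72] [70]) (.lf false [51,45] [45,77])) (.nd (.lf false [278,209,215] [215,278,209]) (.lf true [309,209,278] [36]))) (.nd (.nd (.lf false [38,3,6] [6,38,3]) (.lf true [276,240,17] [14,17,20])) (.lf false [274,208] [208,12]))))) (.nd (.nd (.nd (.nd (.nd (.lf true [12,2] [44]) (.lf false [210,12,211]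 [274])) (.nd (.lf false [78,4,15] [4,15,78]) (.lf false [6,139] [37,6]))) (.nd (.nd (.lf false [309,20,308] [19,20,18]) (.lf false [76,210] [2,36])) (.lf false [8,13,141,12] [141,8]))) (.nd (.nd (.nd (.lf false [275,310,274] [279,310,278]) (.lf false [81,50,80,275] [275,76])) (.nd (.lf false [208,81,76,80] [76,208]) (.lf true [108,212] [116]))) (.nd (.nd (.lf false [278,23,17] [17,278,23]) (.lf true [111,13,16] [276,275])) (.lf true [20,19,22] [22,18,308,19])))) (.nd (.nd (.nd (.nd (.lf true [10,104] [6,138]) (.lf true [4,13] [80])) (.nd (.lf false [276,16,21] [16,21,276]) (.lf true [276,111] [37]))) (.nd (.nd (.lf false [23,150,22] [9,150,8]) (.lf false [209,4,208] [77,48,76])) (.lf false [141,12,9,140] [12,9]))) (.nd (.nd (.nd (.lf true [74,5] [38]) (.lf false [45,12,208,17] [208,49])) (.nd (.lf false [209,17,208,13] [13,17]) (.lf true [36,342,23] [36,21]))) (.nd (.nd (.lf false [16,209,12] [12,16,209]) (.lf false [111,6,183] [6,139,9])) (.lf false [6,4] [4,72]))))))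

def qt10010 : Tr :=
  .nd (.nd (.nd (.nd (.nd (.nd (.nd (.lf true [4,4] []) (.lf false [110,15,111] [117])) (.nd (.lf false [16,18,275,17] [18,275]) (.lf false [110,39,70] [39,70,110]))) (.nd (.nd (.lf true [36,8] [140]) (.lf false [45,82,45] [83])) (.lf false [309,21,308] [19,21,18]))) (.nd (.nd (.nd (.lf true [10,12] [172]) (.lf true [6,142] [4,108])) (.nd (.lf false [279,276,278,343] [343,276]) (.lf true [86,55] [2,5]))) (.nd (.nd (.lf false [17,208,16] [13,208,12]) (.lf false [208,49,3] [45,18,51])) (.lf false [47,37,46,79] [79,37])))) (.nd (.nd (.nd (.nd (.lf true [16,44] [12,48]) (.lf false [13,81] [37,3])) (.nd (.lf false [84,80,277] [80,277,84]) (.lf false [182,36,207] [36,207,70]))) (.nd (.nd (.lf true [6,36] [4,38]) (.lf false [82,13,274] [3,4,80])) (.lf false [183,150,139] [150,139,183]))) (.nd (.nd (.nd (.lf true [36,13] []) (.lf true [210,210] [210,36])) (.nd (.lf false [108,206,111,109] [206,111]) (.lf true [4,55,44] [4,276]))) (.nd (.nd (.lf false [276,21,16] [16,276,21]) (.lf false [82,210,48,275] [3,4,50,44])) (.lf false [70,6] [6,8]))))) (.nd (.nd (.nd (.nd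 (.nd (.lf false [13,16,12] [209,16,208]) (.lf false [37,4] [4,13])) (.nd (.lf true [2,86,37] [139]) (.lf false [172,3,38] [3,38,46]))) (.nd (.nd (.lf true [310,23] [209]) (.lf false [51,2] [17,274])) (.lf false [36,45,77,44] [77,36]))) (.nd (.nd (.nd (.lf true [14,16] [240]) (.lf false [104,2,43] [2,43,44])) (.nd (.lf false [80,49,36] [36,80,49]) (.lf true [36,275,310] [36,278]))) (.nd (.nd (.lf false [213,276,212] [209,276,208]) (.lf false [275,80,77,274] [50,3])) (.lf false [209,210,208] [16])))) (.nd (.nd (.nd (.nd (.lf true [12,6] [108]) (.lf false [208,13,274] [18])) (.nd (.lf false [77,210,76,83] [83,210]) (.lf true [214,7] [208,207]))) (.nd (.nd (.lf true [209,80] [37,82]) (.lf false [209,36,81] [16,19,3])) (.lf false [71,5,70,7] [7,5]))) (.nd (.nd (.nd (.lf true [36,209] [37]) (.lf false [51,2,5] [37,45,36])) (.nd (.lf false [244,241,276,240] [276,244]) (.lf true [311,274] [213]))) (.nd (.nd (.lf false [9,10,8,139] [139,10]) (.lf true [16,38,7,6,110,7] [14,7,6,39,48,38,7])) (.lf false [36,206,37] [6])))))) (.nd (.nd (.nd (.nd (.nd (.nd (.lf true [6,116] [20]) (.lf false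 [49,44] [17,12])) (.nd (.lf false [22,343,20] [20,22,343]) (.lf true [142,79] [76,141]))) (.nd (.nd (.lf true [208,17] [36]) (.lf false [2,13,13,16] [50,13])) (.lf false [44,209,49,208] [49,44]))) (.nd (.nd (.nd (.lf false [209,212,208] [277,212,276]) (.lf false [17,3,36] [3,80,77])) (.nd (.lf false [21,342,20,23] [23,342]) (.lf true [310,12] [308,210]))) (.nd (.nd (.lf false [279,214,278] [209,214,208]) (.lf false [80,77,274,2] [274,50])) (.lf false [150,9,151,8] [9,150,8,151])))) (.nd (.nd (.nd (.nd (.lf false [37,70,36] [39,70,38]) (.lf false [3,5,2] [45])) (.nd (.lf false [76,13,4] [4,76,13]) (.lf false [109,111,108] [37,23,36]))) (.nd (.nd (.lf false [279,54,278] [49,54,48]) (.lf false [16,18,49] [12,18,45])) (.lf false [210,212,309,211] [212,309]))) (.nd (.nd (.nd (.lf true [2,38] [6]) (.lf false [50,37] [37,76])) (.nd (.lf false [274,209,210] [210,274,209]) (.lf true [37,343] [37,342]))) (.nd (.nd (.lf false [208,17,12] [12,208,17]) (.lf true [342,212,21] [36,21,22])) (.lf false [111,116,110] [14]))))) (.nd (.nd (.nd (.nd (.nd (.lf false [23,16,22] [279,16,278]) (.lf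 false [111,245] [7,111])) (.nd (.lf false [72,4,9] [4,9,72]) (.lf false [110,39] [39,36]))) (.nd (.nd (.lf false [113,6,112] [17,6,16]) (.lf false [16,208,211] [208])) (.lf false [110,116,245,111] [116,245]))) (.nd (.nd (.nd (.lf false [19,310,18] [23,310,22]) (.lf true [208,278] [37,310])) (.nd (.lf false [104,73,70,72] [70,104]) (.lf true [36,117,6] [108,117]))) (.nd (.nd (.lf false [36,4,3] [4,3,36]) (.lf true [40,73,111] [6,245])) (.lf true [22,13,20] [20,12,214,13])))) (.nd (.nd (.nd (.nd (.lf true [4,8] [72]) (.lf false [208,13,209] [275])) (.nd (.lf true [36,240,207] [37]) (.lf true [14,211,6] [108,118]))) (.nd (.nd (.lf true [14,116] []) (.lf false [209,209,3] [3,209,209])) (.lf false [243,79,242,83] [83,79]))) (.nd (.nd (.nd (.lf true [52,3] [111]) (.lf false [16,208,13,44] [48,208])) (.nd (.lf false [5,17,4,81] [81,17]) (.lf true [310,22] [308,20]))) (.nd (.nd (.lf false [22,12,215] [12,215,22]) (.lf false [9,138,8] [7,110,6])) (.lf false [43,6] [11,38]))))))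

def qt10011 : Tr :=
  .nd (.nd (.nd (.nd (.nd (.nd (.nd (.lf true [6,110] [14]) (.lf false [211,209] [19,211])) (.nd (.lf false [342,21,22,20] [22,342]) (.lf false [108,6,139] [6,139,118]))) (.nd (.nd (.lf true [111,12] [212]) (.lf false [80,275,44] [48,275,50])) (.lf false [19,51,18] [3,51,2]))) (.nd (.nd (.nd (.lf true [20,76] [4,212]) (.lf true [209,17] [208,211])) (.nd (.lf false [308,212,211] [212,211,308]) (.lf true [212,311] [36]))) (.nd (.nd (.lf true [6,214] [36,118]) (.lf false [209,209,4] [4,209,209])) (.lf false [22,21,343,20] [343,22])))) (.nd (.nd (.nd (.nd (.lf false [51,46,50] [243,46,242]) (.lf false [175,39,4] [39])) (.nd (.lf false [116,6,21] [6,21,116]) (.lf false [37,37,110,47] [47,37]))) (.nd (.nd (.lf false [109,44,108] [39,44,38]) (.lf false [16,210,12] [12,16,210])) (.lf false [209,44,49] [44,49,209]))) (.nd (.nd (.nd (.lf true [5] [4]) (.lf false [49,13,16,209] [209,45])) (.nd (.lf false [182,151,138,150] [138,182]) (.lf true [139,277] [36]))) (.nd (.nd (.lf false [210,19,12] [12,210,19]) (.lf true [138,2,11] [2,11,12])) (.lf false [36,2] [2,12])))))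 (.nd (.nd (.nd (.nd (.nd (.lf false [19,12,18] [211,12,210]) (.lf false [182,139] [8,23])) (.nd (.lf false [49,44,48,209] [209,44]) (.lf false [13,172,3] [3,46,37]))) (.nd (.nd (.lf false [43,2,42] [11,2,10]) (.lf false [210,37] [3,76])) (.lf false [111,6,15,110] [6,15]))) (.nd (.nd (.nd (.lf false [209,276,208] [213,276,212]) (.lf true [208,22] [310])) (.nd (.lf false [242,51,47] [47,242,51]) (.lf true [208,213,308] [213,20]))) (.nd (.nd (.lf false [215,310,214] [211,310,210]) (.lf true [214,3,76] [2,86])) (.lf false [117,110,116] [20])))) (.nd (.nd (.nd (.nd (.lf false [107,104,106] [139,104,138]) (.lf false [10,43] [38,7])) (.nd (.lf true [36,308,213] [209]) (.lf true [214,241] [6]))) (.nd (.nd (.lf true [6,74] [4,106]) (.lf false [49,82,209] [13,209,36])) (.lf false [343,20,23,342] [20,23]))) (.nd (.nd (.nd (.lf true [139,182] [38]) (.lf false [209,77,12] [81,16,209])) (.nd (.lf false [215,13,214,23] [23,13]) (.lf true [308,311] [36,17]))) (.nd (.nd (.lf false [210,13,18] [18,210,13]) (.lf false [50,3,50] [2])) (.lf false [36,44,37] [4])))))) (.nd (.nd (.nd (.nd (.nd (.nd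 (.lf false [5,2,4] [37,2,36]) (.lf false [71,4] [4,9])) (.nd (.lf false [48,2,17] [2,17,48]) (.lf false [178,51,47] [173,178,51]))) (.nd (.nd (.lf true [37,20] [276]) (.lf false [50,49] [80,83])) (.lf false [44,50,211,45] [50,211]))) (.nd (.nd (.nd (.lf true [12,14] [206]) (.lf false [9,36,207] [7,71,36])) (.nd (.lf false [70,39,36] [36,70,39]) (.lf true [210,310,279] [210,12]))) (.nd (.nd (.lf true [139,206] [36,246]) (.lf true [278,12] [214,210])) (.lf false [4,72,5] [6])))) (.nd (.nd (.nd (.nd (.lf true [20,76] [12,84]) (.lf false [38,43] [7,38])) (.nd (.lf false [107,174,106,111] [111,174]) (.lf false [3,4,140,5] [3,38]))) (.nd (.nd (.lf false [49,80,48] [37,80,36]) (.lf false [6,3,76] [36,206,211])) (.lf false [277,16,21,276] [16,21]))) (.nd (.nd (.nd (.lf true [14,111] [6]) (.lf false [51,76] [77,50])) (.nd (.lf false [47,14,3] [14,3,47]) (.lf true [277] [276]))) (.nd (.nd (.lf false [50,3,18] [18,50,3]) (.lf true [112,276,17] [111,17,6])) (.lf false [14,37] [37,112]))))) (.nd (.nd (.nd (.nd (.nd (.lf true [22,2] [54]) (.lf false [208,12,209] [274])) (.nd (.lf false [37,80,36,49]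 [49,80]) (.lf false [111,36] [37,110]))) (.nd (.nd (.lf false [343,22,342] [21,22,20]) (.lf false [50,211] [2,13])) (.lf false [139,74,73,138] [74,73]))) (.nd (.nd (.nd (.lf false [21,342,20] [23,342,22]) (.lf true [6,139] [112])) (.nd (.lf false [276,85,80,84] [80,276]) (.lf true [118,17] [112,23]))) (.nd (.nd (.lf false [150,23,9] [9,150,23]) (.lf true [111,13,274] [308,209])) (.lf false [182,22] [138,182])))) (.nd (.nd (.nd (.nd (.lf false [151,138,150] [183,138,182]) (.lf false [275,44,274] [49,82,48])) (.nd (.lf false [274,210,209] [210,209,274]) (.lf true [212,17] [139]))) (.nd (.nd (.lf true [38,150] []) (.lf false [208,81,3] [77,18,51])) (.lf false [211,50,45,210] [50,45]))) (.nd (.nd (.nd (.lf true [38,7] [2]) (.lf false [4,3,50] [82])) (.nd (.lf false [213,21,212,13] [13,21]) (.lf true [309,13] [36,23]))) (.nd (.nd (.lf false [276,17,20,16] [20,276]) (.lf false [111,6,9] [6,9,139])) (.lf false [23,138,11] [151]))))))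

def qt10100 : Tr :=
  .nd (.nd (.nd (.nd (.nd (.nd (.nd (.lf true [18,208] []) (.lf false [117,14] [21,110])) (.nd (.lf false [12,18,211,13] [18,211]) (.lf false [138,7,70] [7,70,110]))) (.nd (.nd (.lf true [2,8] [40]) (.lf false [83,4] [51,2])) (.nd (.lf false [275,19,274] [17,19,16]) (.lf true [18,342] [])))) (.nd (.nd (.nd (.lf true [2,12] [44]) (.lf false [12,4,37] [3,48,2])) (.nd (.lf false [277,274,276,309] [309,274]) (.lf true [44,214,23] [2]))) (.nd (.nd (.lf true [70,174] [38,142]) (.lf false [76,18,49] [2,208,83])) (.lf false [13,7,12,109] [109,7])))) (.nd (.nd (.nd (.nd (.lf true [12,38] [6,44]) (.lf false [48,2,49] [80])) (.nd (.lf false [80,209,76] [76,80,209]) (.lf false [6,23,7] [36,111,37]))) (.nd (.nd (.lf false [13,44,12] [3,44,2]) (.lf false [36,275,36] [274])) (.lf false [173,10,13] [10,13,173]))) (.nd (.nd (.nd (.lf true [8] [70]) (.lf false [211,19,16] [13,19,274])) (.nd (.lf false [212,109,116,108] [116,212]) (.lf true [54,5] [4,55]))) (.nd (.nd (.lf false [308,21,18] [18,308,21]) (.lf false [16,16,19,3] [36,16,19,77])) (.lf false [49,36] [16,49])))))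 (.nd (.nd (.nd (.nd (.nd (.lf false [13,2,12] [45,2,44]) (.lf false [39,2,10] [2])) (.nd (.lf false [37,44,36,77] [77,44]) (.lf false [11,173,10] [3,47,2]))) (.nd (.nd (.lf true [246,23] [14]) (.lf false [82,17] [4,275])) (.lf false [4,19,83,18] [83,4]))) (.nd (.nd (.nd (.lf true [2,16] [48]) (.lf false [37,5,12] [3,5,76])) (.nd (.lf false [208,45,49] [49,208,45]) (.lf true [36,275,20] [210,276]))) (.nd (.nd (.lf true [37,84] [4,276]) (.lf false [19,45,208,208] [18,45])) (.lf false [37,16,36] [12])))) (.nd (.nd (.nd (.nd (.lf true [2,6] [38]) (.lf false [73,5,6] [5])) (.nd (.lf false [45,208,44,49] [49,208]) (.lf true [38,142,37] [206,111]))) (.nd (.nd (.lf true [111,76] [36,84]) (.lf false [209,3,80] [12,19,37])) (.lf false [274,278,311,275] [278,311]))) (.nd (.nd (.nd (.lf true [37,112] [6]) (.lf false [51,3,76] [37,77,12])) (.nd (.lf false [244,276,241,245] [276,241]) (.lf true [213,214] [342]))) (.nd (.nd (.lf false [7,4,6,71] [71,4]) (.lf false [38,175,46,174,39] [8])) (.lf false [80,4] [48,80])))))) (.nd (.nd (.nd (.nd (.nd (.nd (.lf true [12,210] [18]) (.lf false [17,36]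 [37,16])) (.nd (.lf false [22,279,16] [16,22,279]) (.lf false [78,14,13] [14,13,140]))) (.nd (.nd (.lf true [2,16] [48]) (.lf false [140,5,106] [76,140,5])) (.lf false [36,38,71,37] [38,71]))) (.nd (.nd (.nd (.lf false [209,206,208] [241,206,240]) (.lf false [37,3,16] [5,3,48])) (.nd (.lf false [36,5,3] [3,36,5]) (.lf true [36,310] [212]))) (.nd (.nd (.lf true [275] [36]) (.lf false [18,3,19,83] [51,5])) (.lf true [310,2,51] [54,51,18])))) (.nd (.nd (.nd (.nd (.lf true [16,4] [80]) (.lf false [81,76] [17,12])) (.nd (.lf false [138,8,11] [8,11,138]) (.lf false [110,108,37] [108,37,22]))) (.nd (.nd (.lf true [209,48] [37,50]) (.lf false [16,13,16] [13,16,210])) (.lf false [208,277,213,276] [213,208]))) (.nd (.nd (.nd (.lf true [2,36] [4]) (.lf false [211,12,80] [19,76,208])) (.nd (.lf false [240,207,209] [209,240,207]) (.lf true [111,209] [139]))) (.nd (.nd (.lf false [51,3,50] [19,3,18]) (.lf true [210,274] [210,12])) (.lf false [111,244] [6,111]))))) (.nd (.nd (.nd (.nd (.nd (.lf false [23,6,22] [119,6,118]) (.lf false [15,116,7] [245])) (.nd (.lf false [55,44,54,215] [215,44])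 (.lf true [2,86,109] [14]))) (.nd (.nd (.lf false [111,6,110] [15,6,14]) (.lf false [17,12] [12,211])) (.lf false [117,110,245,116] [110,245]))) (.nd (.nd (.nd (.lf true [16,18] [274]) (.lf true [208,108] [36,114])) (.nd (.lf false [44,37,76,36] [76,44]) (.lf true [36,246,245] [37]))) (.nd (.nd (.lf false [46,14,3] [14,3,46]) (.lf true [118,36,207] [2,86])) (.lf true [16,13,20] [20,12,208,13])))) (.nd (.nd (.nd (.nd (.lf false [117,108,116] [213,108,212]) (.lf false [274,13] [12,275])) (.nd (.lf false [116,111,244,110] [244,116]) (.lf true [111,3] [139,81]))) (.nd (.nd (.lf false [213,116,212] [109,116,108]) (.lf false [83,3,82] [19,77,18])) (.lf false [71,6,5,70] [6,5]))) (.nd (.nd (.nd (.lf true [36,2] [44]) (.lf false [208,81,44,80] [82,208])) (.nd (.lf false [3,5,2,37] [37,5]) (.lf true [308,22,343] [310,22]))) (.nd (.nd (.lf false [214,13,22] [22,214,13]) (.lf true [276,13] [212,17])) (.lf false [38,42] [6,38]))))))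

def qt10101 : Tr :=
  .nd (.nd (.nd (.nd (.nd (.nd (.nd (.lf true [8,138] [10]) (.lf false [208,17,209] [211])) (.nd (.lf false [21,16,20,277] [277,16]) (.lf false [139,119,138] [7,109,6]))) (.nd (.nd (.lf true [206,13] [14]) (.lf false [83,50,18] [18,2,45])) (.lf false [81,5,80] [17,5,16]))) (.nd (.nd (.nd (.lf true [22,44] [2,214]) (.lf false [211,36,12] [13,274,36])) (.nd (.lf false [7,3,6,39] [39,3]) (.lf true [4,276,55] [4,45]))) (.nd (.nd (.lf true [6,206] [36,110]) (.lf false [209,13,4] [17,82,19])) (.lf false [213,211,212,309] [309,211])))) (.nd (.nd (.nd (.nd (.lf false [49,52,48] [277,52,276]) (.lf false [16,5] [36,49])) (.nd (.lf false [46,15,3] [3,46,15]) (.lf false [79,70,78] [37,110,70]))) (.nd (.nd (.lf true [139,36] [4,54]) (.lf false [12,208,17] [2,18,51])) (.lf false [209,48,45] [48,45,209]))) (.nd (.nd (.nd (.lf true [139,23] []) (.lf false [12,209,17,48] [44,209])) (.nd (.lf false [12,9,140,8] [140,12]) (.lf true [308,209] [310]))) (.nd (.nd (.lf false [274,19,16] [16,274,19]) (.lf true [172,139,5] [139,7])) (.lf false [3,36,2] [12]))))) (.nd (.nd (.nd (.nd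 (.nd (.lf false [17,18,16] [275,18,274]) (.lf false [37,2] [2,13])) (.nd (.lf false [47,36,46,79] [79,36]) (.lf false [46,39,36] [39,36,46]))) (.nd (.nd (.lf false [117,20,116] [7,20,6]) (.lf false [208,12] [12,18])) (.lf false [85,80,277,84] [80,277]))) (.nd (.nd (.nd (.lf true [20,80] [4,276]) (.lf true [208,208] [])) (.nd (.lf false [210,51,45] [45,210,51]) (.lf true [215,22,311] [208,215]))) (.nd (.nd (.lf false [23,310,22] [19,310,18]) (.lf true [2,86,5] [214,45])) (.lf false [81,44,80] [209,82,208])))) (.nd (.nd (.nd (.nd (.lf true [10,104] [8,106]) (.lf false [8,73] [70,7])) (.nd (.lf false [212,208,277] [208,277,212]) (.lf true [214,111] [37]))) (.nd (.nd (.lf false [21,116,20] [7,116,6]) (.lf false [83,2,82] [19,76,18])) (.lf false [311,274,279,310] [274,279]))) (.nd (.nd (.nd (.lf true [111,276] [37]) (.lf false [16,208,13,76] [80,208])) (.nd (.lf false [342,279,277] [277,342,279]) (.lf true [310,342] [308]))) (.nd (.nd (.lf false [208,13,17] [17,208,13]) (.lf false [16,210] [12,12])) (.lf false [36,76,37] [2])))))) (.nd (.nd (.nd (.nd (.nd (.nd (.lf false [3,4,2]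 [37,4,36]) (.lf false [7,72] [5,104])) (.nd (.lf false [80,17,4] [4,80,17]) (.lf false [79,37,70,78] [37,70]))) (.nd (.nd (.lf true [139,18] [310]) (.lf false [37,3,76,12] [51,2])) (.lf false [48,275,51,274] [51,48]))) (.nd (.nd (.nd (.lf true [2,14] [46]) (.lf false [36,5,76] [2,49,12])) (.nd (.lf false [76,37,44] [44,76,37]) (.lf true [308,3,76] [308]))) (.nd (.nd (.lf true [37,206] [36,240]) (.lf false [274,48,209] [16,19,44])) (.lf false [18,17,19,16] [17,18,16,19])))) (.nd (.nd (.nd (.nd (.lf true [22,74] [10,86]) (.lf false [7,2,6] [106])) (.nd (.lf false [151,138,150,183] [183,138]) (.lf false [70,36,47] [36]))) (.nd (.nd (.lf false [39,70,38] [37,70,36]) (.lf false [275,37,210] [17,37,274])) (.lf false [275,16,19,274] [16,19]))) (.nd (.nd (.nd (.lf true [38,139] [70]) (.lf false [44,50,3] [2,77,4])) (.nd (.lf false [276,213,208] [208,276,213]) (.lf true [309,208] [311]))) (.nd (.nd (.lf false [48,3,16] [16,48,3]) (.lf true [48,276,17] [111,17,2])) (.lf false [275,210] [16,275]))))) (.nd (.nd (.nd (.nd (.nd (.lf true [16,2] [48]) (.lf false [17,210] [13,274])) (.nd (.lf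 false [70,38,37] [38,37,70]) (.lf false [39,37,38] [111]))) (.nd (.nd (.lf false [213,12,212] [21,12,20]) (.lf false [211,37] [37,13])) (.lf false [151,8,23,150] [8,23]))) (.nd (.nd (.nd (.lf true [12,20] [212]) (.lf false [49,76,48,209] [209,50])) (.nd (.lf false [242,83,78,82] [78,242]) (.lf true [118,215] [108]))) (.nd (.nd (.lf false [214,23,13] [13,214,23]) (.lf true [308,209,209] [111,19])) (.lf true [16,6,39,38,138,39] [8,39,38,7,48,6,39])))) (.nd (.nd (.nd (.nd (.lf true [14,138] [10,142]) (.lf true [74,73] [36])) (.nd (.lf true [4,274,83] [37]) (.lf true [278] [212]))) (.nd (.nd (.lf true [70,110] [6,142]) (.lf false [44,51,208,49] [208,81])) (.lf false [173,12,11,172] [12,11]))) (.nd (.nd (.nd (.lf true [84,5] [111]) (.lf false [275,45,274] [49,51,80])) (.nd (.lf false [211,19,210,13] [13,19]) (.lf true [212,343] [276]))) (.nd (.nd (.lf false [274,17,18] [18,274,17]) (.lf true [116,139] [112,23])) (.lf false [22,183,139] [183]))))))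

def qt10110 : Tr :=
  .nd (.nd (.nd (.nd (.nd (.nd (.nd (.lf true [2,38] [6]) (.lf false [244,21] [6,111])) (.nd (.lf false [20,308,19,21] [308,19]) (.lf false [11,138,7] [7,110,39]))) (.nd (.nd (.lf true [2,12] [44]) (.lf false [82,3,76] [37,44,12])) (.lf false [21,23,20,343] [343,23]))) (.nd (.nd (.nd (.lf true [18,12] [210]) (.lf false [49,2,36] [36,5,76])) (.nd (.lf false [4,70,7,5] [70,7]) (.lf true [112,23,36] [36,244]))) (.nd (.nd (.lf false [49,208,48] [45,208,44]) (.lf false [275,45,76] [2,49,275])) (.lf false [18,5,83,4] [83,18])))) (.nd (.nd (.nd (.nd (.lf false [45,54,44] [215,54,214]) (.lf false [49,81] [3,49])) (.nd (.lf false [110,15,6] [6,110,15]) (.lf false [118,36,207] [36,207,108]))) (.nd (.nd (.lf true [36,36] [4,44]) (.lf false [19,80,208] [3,50,76])) (.lf false [209,12,17] [12,17,209]))) (.nd (.nd (.nd (.lf true [18,208] []) (.lf false [17,12,48,209] [209,44])) (.nd (.lf false [212,117,108,116] [108,212]) (.lf true [36,279] [311]))) (.nd (.nd (.lf false [212,21,12] [12,212,21]) (.lf false [209,50,3,50] [36,19,2,13])) (.lf true [78] [140]))))) (.nd (.nd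 (.nd (.nd (.nd (.lf false [15,2,14] [47,2,46]) (.lf false [13,36] [3,76])) (.nd (.lf false [45,36,44,77] [77,36]) (.lf false [46,2,11] [2,11,172]))) (.nd (.nd (.lf false [49,16,48] [3,16,2]) (.lf false [274,3,50] [16])) (.lf false [83,76,211,82] [76,211]))) (.nd (.nd (.nd (.lf false [17,276,16] [21,276,20]) (.lf false [77,48,80] [13,16,4])) (.nd (.lf false [208,49,45] [45,208,49]) (.lf true [215,278,23] [37,215]))) (.nd (.nd (.lf false [245,276,244] [241,276,240]) (.lf false [51,209,50,3] [3,209])) (.lf false [139,150,138] [10])))) (.nd (.nd (.nd (.nd (.lf true [20,6] [116]) (.lf false [4,3,76] [44])) (.nd (.lf true [36,114,211] [6]) (.lf true [244,212] [206]))) (.nd (.nd (.lf true [139,80] [37,86]) (.lf false [48,80,210] [2,12,82])) (.lf false [214,211,311,210] [311,214]))) (.nd (.nd (.nd (.lf true [209,274] [37]) (.lf false [51,13,80] [3,13,76])) (.nd (.lf false [308,277,275] [275,308,277]) (.lf true [311,210] [311,16]))) (.nd (.nd (.lf false [10,139,8] [8,10,139]) (.lf false [274,274] [210,16])) (.lf false [174,39] [39,4])))))) (.nd (.nd (.nd (.nd (.nd (.nd (.lf true [20,276]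 [16]) (.lf false [36,80,17] [80])) (.nd (.lf false [36,2,5] [2,5,36]) (.lf false [140,5,70] [5,70,78]))) (.nd (.nd (.lf true [111,16] [276]) (.lf false [13,80,77,12] [50,3])) (.lf false [36,46,79,37] [46,79]))) (.nd (.nd (.nd (.lf true [20,210] [18,212]) (.lf false [209,12,275] [12,209,13])) (.nd (.lf true [37,342,277] [139]) (.lf true [139,13] [139,37]))) (.nd (.nd (.lf false [277,208,276] [213,208,212]) (.lf false [50,2,18] [2,18,50])) (.lf false [274,17,275,16] [17,274,16,275])))) (.nd (.nd (.nd (.nd (.lf false [37,80,36] [49,80,48]) (.lf false [5,2] [2,45])) (.nd (.lf false [150,8,23] [8,23,150]) (.lf false [2,45,172,3] [5,70]))) (.nd (.nd (.lf false [277,48,276] [53,48,52]) (.lf false [209,3,76] [16,209,37])) (.lf false [212,343,215,342] [215,212]))) (.nd (.nd (.nd (.lf true [4,70] [6]) (.lf false [77,44] [44,51])) (.nd (.lf false [276,209,213] [213,276,209]) (.lf true [111,23] [36,17]))) (.nd (.nd (.lf false [36,3,4] [4,36,3]) (.lf true [139,37,6] [36,246,37])) (.lf false [209,274,208] [12]))))) (.nd (.nd (.nd (.nd (.nd (.lf false [3,36,2] [5,36,4]) (.lf false [116,244,15]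 [244])) (.nd (.lf false [206,15,13] [13,206,15]) (.lf false [70,110] [36,70]))) (.nd (.nd (.lf false [51,2,50] [19,2,18]) (.lf false [36,82] [4,210])) (.lf false [8,11,139,10] [139,8]))) (.nd (.nd (.nd (.lf false [211,310,210] [215,310,214]) (.lf true [37,211] [36,275])) (.nd (.lf false [76,140,73,77] [140,73]) (.lf true [116,3,76] [36,244]))) (.nd (.nd (.lf false [342,23,21] [21,342,23]) (.lf true [36,139,72] [4,182])) (.lf true [20,13,6] [6,12,212,13])))) (.nd (.nd (.nd (.nd (.lf false [9,140,8] [13,140,12]) (.lf false [4,3,80] [48])) (.nd (.lf false [245,240,244,277] [277,240]) (.lf true [276,53] [4]))) (.nd (.nd (.lf false [245,110,244] [117,110,116]) (.lf false [51,4,80] [19,4,208])) (.lf false [207,109,206,111] [111,109]))) (.nd (.nd (.nd (.lf true [36,5] [2]) (.lf false [13,209,16] [3,50,209])) (.nd (.lf false [8,10,139,9] [10,139]) (.lf true [212,310,279] [213,274]))) (.nd (.nd (.lf false [16,81,4] [4,16,81]) (.lf false [138,15,111] [9,182,15])) (.lf false [6,104] [4,6]))))))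

def qt10111 : Tr :=
  .nd (.nd (.nd (.nd (.nd (.nd (.nd (.lf true [12,206] [14]) (.lf false [16,81,37] [81])) (.nd (.lf false [23,6,22,119] [119,6]) (.lf false [146,243,79] [141,146,243]))) (.nd (.nd (.lf true [2,14] [46]) (.lf false [81,16,208,13] [208,77])) (.lf false [45,36,77,44] [36,77]))) (.nd (.nd (.nd (.lf true [18,108] [6,210]) (.lf false [81,4,37] [4,81,17])) (.nd (.lf false [275,310,274,279] [279,310]) (.lf true [212,277] [208]))) (.nd (.nd (.lf true [111,206] [14,212]) (.lf false [17,5,16] [12,83,13])) (.lf true [110,79,4] [142,79])))) (.nd (.nd (.nd (.nd (.lf true [2,4] [36]) (.lf false [77,37] [37,3])) (.nd (.lf false [110,108,207] [108,207,110]) (.lf false [173,3,46] [3,37,110]))) (.nd (.nd (.lf false [209,48,208] [45,48,44]) (.lf false [16,208,13] [3,50,18])) (.lf false [211,76,83,210] [76,83]))) (.nd (.nd (.nd (.lf true [38,10] []) (.lf true [14,13] [108,37])) (.nd (.lf false [118,107,182,106] [182,118]) (.lf true [139,213] [37]))) (.nd (.nd (.lf false [82,19,4] [4,82,19]) (.lf true [138,4,9] [4,9,12])) (.lf false [182,138] [138,8]))))) (.nd (.nd (.nd (.nd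 (.nd (.lf false [21,4,20] [85,4,84]) (.lf false [8,139,183] [139])) (.nd (.lf false [49,52,48,277] [277,52]) (.lf true [2,112,110] [38]))) (.nd (.nd (.lf false [109,6,108] [13,6,12]) (.lf false [211,36] [45,82])) (.lf false [117,6,21,116] [6,21]))) (.nd (.nd (.nd (.lf false [241,276,240] [245,276,244]) (.lf true [208,36] [210])) (.nd (.lf false [86,55,36] [36,86,55]) (.lf true [116,17] [108,23]))) (.nd (.nd (.lf false [279,310,278] [275,310,274]) (.lf true [276,13,274] [36,308])) (.lf true [14,36,14] [14,37,240,36])))) (.nd (.nd (.nd (.nd (.lf true [18,108] [12,114]) (.lf false [13,37] [37,17])) (.nd (.lf false [212,309,210] [210,212,309]) (.lf true [80,20] [4,278]))) (.nd (.nd (.lf false [143,110,142] [105,110,104]) (.lf false [51,4,50] [19,44,18])) (.lf false [71,37,70,39] [39,37]))) (.nd (.nd (.nd (.lf true [139,278] [37]) (.lf false [37,3,76,209] [209,17])) (.nd (.lf false [277,17,276,21] [21,17]) (.lf true [210,276] [310]))) (.nd (.nd (.lf false [18,12,211] [12,211,18]) (.lf false [50,18,82] [2,4,18])) (.lf false [2,44,3] [4])))))) (.nd (.nd (.nd (.nd (.nd (.nd (.lf false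 [7,4,6] [71,4,70]) (.lf false [39,6] [6,11])) (.nd (.lf false [48,17,3] [3,48,17]) (.lf false [51,47,50,179] [179,173]))) (.nd (.nd (.lf true [139,20] [342]) (.lf false [50,275,44] [48,2,275])) (.lf false [77,4,13,76] [4,13]))) (.nd (.nd (.nd (.lf true [16,206] [12,240]) (.lf false [275,36,3] [13,274,77])) (.nd (.lf false [108,39,44] [44,108,39]) (.lf true [210,22,279] [210,36]))) (.nd (.nd (.lf false [19,274,18] [17,274,16]) (.lf false [3,50,18,76] [80,208])) (.lf false [38,42,39] [6])))) (.nd (.nd (.nd (.nd (.lf true [18,80] [16,82]) (.lf false [105,71] [71,5])) (.nd (.lf false [179,172,178,211] [211,172]) (.lf false [141,5,38] [5]))) (.nd (.nd (.lf true [38,70] [6,74]) (.lf false [76,208,17] [37,76,208])) (.lf false [275,80,83,274] [80,83]))) (.nd (.nd (.nd (.lf true [14,174] [38]) (.lf false [50,2,13] [37,76,2])) (.nd (.lf false [278,215,208] [208,278,215]) (.lf true [213,17] [309]))) (.nd (.nd (.lf false [70,5,6] [6,70,5]) (.lf true [276,308,21] [208,21,16])) (.lf false [37,80] [2,37]))))) (.nd (.nd (.nd (.nd (.nd (.lf false [37,44,36] [77,44,76]) (.lf false [18,209] [208,19]))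 (.nd (.lf true [2,84,53] [4]) (.lf false [22,7,37] [138,23,7]))) (.nd (.nd (.lf false [183,10,182] [23,10,22]) (.lf false [16,19,17] [209])) (.lf false [151,138,183] [138,183,151]))) (.nd (.nd (.nd (.lf true [2,22] [54]) (.lf true [4,108,111] [70])) (.nd (.lf false [142,105,110,104] [110,142]) (.lf true [111,109] [36,117]))) (.nd (.nd (.lf false [118,23,7] [7,118,23]) (.lf false [209,45,45,208] [49,45,13,16])) (.lf false [244,20] [110,244])))) (.nd (.nd (.nd (.nd (.lf true [22,74] [4,182]) (.lf false [18,16,209] [208,19,210])) (.nd (.lf false [209,276,208,213] [213,276]) (.lf true [2,214] [2,276]))) (.nd (.nd (.lf true [183] [70]) (.lf false [18,51,48] [3,44,208])) (.lf false [241,208,207,240] [208,207]))) (.nd (.nd (.nd (.lf true [108,7] [36]) (.lf false [77,50] [45,82])) (.nd (.lf false [13,23,12,215] [215,23]) (.lf true [14,17,20] [14,277]))) (.nd (.nd (.lf false [19,2,18,51] [51,2]) (.lf false [139,7,70] [7,70,111])) (.lf false [183,151] [11,183]))))))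

def qt11000 : Tr :=
  .nd (.nd (.nd (.nd (.nd (.nd (.nd (.lf true [2,70] [14]) (.lf false [245,111] [21,245])) (.nd (.lf false [19,12,18,211] [211,12]) (.lf false [9,138,7] [7,110,71]))) (.nd (.nd (.lf true [139,6] [118]) (.lf false [44,36] [36,82])) (.nd (.lf false [17,13,16,209] [209,13]) (.lf true [309] [139])))) (.nd (.nd (.nd (.lf true [14,172] [12,174]) (.lf false [210,12,208] [208,12,16])) (.nd (.lf false [275,278,274,311] [311,278]) (.lf true [276,7] [208,207]))) (.nd (.nd (.lf false [119,182,118] [107,182,106]) (.lf false [18,51,16] [3,12,208])) (.lf false [7,5,6,71] [71,5])))) (.nd (.nd (.nd (.nd (.lf false [39,36,38] [71,36,70]) (.lf false [37,113,36] [15])) (.nd (.lf false [82,76,211] [76,211,82]) (.lf false [37,6,22] [36,111,6]))) (.nd (.nd (.lf false [7,38,6] [3,38,2]) (.lf false [50,12,19] [2,19,210])) (.lf false [150,183,139] [139,150,183]))) (.nd (.nd (.nd (.lf true [18,22] [310]) (.lf false [21,6,110,15] [117,6])) (.nd (.lf false [110,174,107,111] [174,107]) (.lf true [212,278] []))) (.nd (.nd (.lf false [55,3,54] [23,3,22]) (.lf false [18,36,5,209] [17,45,12,274]))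 (.lf false [49,36,48] [16]))))) (.nd (.nd (.nd (.nd (.nd (.lf false [11,2,10] [43,2,42]) (.lf false [11,7,38] [7])) (.nd (.lf false [37,38,36,71] [71,38]) (.lf false [47,14,13,172] [14,13]))) (.nd (.nd (.lf true [214,23] [36]) (.lf false [50,17,208] [2,208,13])) (.lf false [83,4,19,82] [4,19]))) (.nd (.nd (.nd (.lf false [241,244,240] [277,244,276]) (.lf false [4,13,16] [3,4,80])) (.nd (.lf false [208,45,48] [48,208,45]) (.lf true [139,213,12] [213,276]))) (.nd (.nd (.lf true [37,82] [4,274]) (.lf false [36,83,50,44] [50,210])) (.lf false [38,174,39] [4])))) (.nd (.nd (.nd (.nd (.lf false [83,78,82] [243,78,242]) (.lf false [5,104,9] [71])) (.nd (.lf false [48,45,208,44] [208,48]) (.lf true [37,244,9] [14,183]))) (.nd (.nd (.lf false [209,80,208] [77,80,76]) (.lf false [76,16,209] [2,36,19])) (.lf false [279,208,215,278] [208,215]))) (.nd (.nd (.nd (.lf true [37,80] [4]) (.lf false [4,36,51] [3,4,36])) (.nd (.lf false [276,241,244,240] [244,276]) (.lf true [213,13] [311]))) (.nd (.nd (.lf false [16,80,5,17] [80,5]) (.lf false [11,172,10] [3,46,2])) (.lf false [81,48] [4,81]))))))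 (.nd (.nd (.nd (.nd (.nd (.nd (.lf true [12,208] [16]) (.lf false [16,49] [36,5])) (.nd (.lf false [22,215,12] [12,22,215]) (.lf false [82,147,140] [78,82,147]))) (.nd (.nd (.lf true [36,14] [206]) (.lf false [140,5,107] [77,140,5])) (.lf false [36,81,49,80] [49,36]))) (.nd (.nd (.nd (.lf true [20,206] [14,212]) (.lf false [44,209,49] [12,209,17])) (.nd (.lf false [36,5,2] [2,36,5]) (.lf true [210,212] [308]))) (.nd (.nd (.lf false [275,210,274] [209,210,208]) (.lf false [12,19,51] [36,209,81])) (.lf true [208,208,17] [36,17,12])))) (.nd (.nd (.nd (.nd (.lf true [14,4] [78]) (.lf false [16,81,76] [12])) (.nd (.lf false [116,277,112] [112,116,277]) (.lf false [109,110,108] [37,22,36]))) (.nd (.nd (.lf false [81,36,80] [49,36,48]) (.lf true [276,211] [212,275])) (.lf false [213,208,277,212] [208,277]))) (.nd (.nd (.nd (.lf true [2,70] [14]) (.lf false [76,208,4] [44,208,80])) (.nd (.lf false [240,207,208] [208,240,207]) (.lf true [37,215] [311]))) (.nd (.nd (.lf false [50,19,3] [3,50,19]) (.lf true [36,17,18] [36,275])) (.lf false [111,244,110] [6]))))) (.nd (.nd (.nd (.nd (.nd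 (.lf false [21,22,20] [343,22,342]) (.lf false [111,20] [15,116])) (.nd (.lf false [51,46,50,243] [243,46]) (.lf true [36,110,37] [139]))) (.nd (.nd (.lf false [47,2,46] [15,2,14]) (.lf false [45,82] [37,210])) (.lf false [108,207,111,206] [111,108]))) (.nd (.nd (.nd (.lf false [279,276,278] [343,276,342]) (.lf false [138,7,44] [104,138,7])) (.nd (.lf false [70,6,5] [6,5,70]) (.lf true [37,244] [36,246]))) (.nd (.nd (.lf true [209,342] [139,308]) (.lf true [2,86,36] [214,210])) (.lf true [12,21,22] [22,20,212,21])))) (.nd (.nd (.nd (.nd (.lf true [20,110] [14,116]) (.lf false [110,7,111] [245])) (.nd (.lf false [214,343,212] [212,214,343]) (.lf true [116,12] [138,108]))) (.nd (.nd (.lf true [209,108] [36,114]) (.lf false [19,37,208] [49,82,275])) (.lf false [243,47,242,51] [51,47]))) (.nd (.nd (.nd (.lf true [6,2] [38]) (.lf true [118,183] [74,71])) (.nd (.lf false [37,5,36,3] [3,5]) (.lf true [310,308,21] [311,18]))) (.nd (.nd (.lf false [20,12,213] [12,213,20]) (.lf false [275,3,50] [17,13,274])) (.lf false [6,106] [2,6]))))))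

def qt11001 : Tr :=
  .nd (.nd (.nd (.nd (.nd (.nd (.nd (.lf true [8,72] [4]) (.lf false [19,208,17] [211])) (.nd (.lf false [14,20,245,15] [20,245]) (.lf false [119,138,7] [138,7,109]))) (.nd (.nd (.lf true [172,13] [38]) (.lf false [83,3,4] [45,82,3])) (.lf false [45,2,13] [2,13,45]))) (.nd (.nd (.nd (.lf false [45,208,44] [49,208,48]) (.lf false [275,16,209] [16,275,19])) (.nd (.lf false [39,3,38,7] [7,3]) (.lf true [109,206,13] [116,109]))) (.nd (.nd (.lf true [36,84] [4,212]) (.lf false [50,19,4] [2,82,19])) (.lf false [16,13,209,12] [209,16])))) (.nd (.nd (.nd (.nd (.lf false [49,50,48] [275,50,274]) (.lf false [16,3] [36,81])) (.nd (.lf false [46,15,2] [2,46,15]) (.lf false [47,38,46] [37,110,38]))) (.nd (.nd (.lf true [2,80] []) (.lf false [18,3,50] [16,208,13])) (.lf false [19,211,18] [13,211,12]))) (.nd (.nd (.nd (.lf true [22,138] []) (.lf false [211,12,48] [19,44,208])) (.nd (.lf false [10,9,138,8] [138,10]) (.lf true [208,213] [277]))) (.nd (.nd (.lf false [116,21,7] [7,116,21]) (.lf true [86,73,151] [36,139])) (.lf false [38,2] [2,10]))))) (.nd (.nd (.nd (.nd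 (.nd (.lf false [17,6,16] [113,6,112]) (.lf false [37,12] [3,76])) (.nd (.lf false [45,54,44,215] [215,54]) (.lf false [47,39,36] [39,36,47]))) (.nd (.nd (.lf false [71,4,70] [7,4,6]) (.lf false [16,275] [13,16])) (.lf false [83,80,275,82] [80,275]))) (.nd (.nd (.nd (.lf true [18,80] [4,274]) (.lf false [48,209,76] [44,80,209])) (.nd (.lf false [210,51,44] [44,210,51]) (.lf true [277,240,17] [14,277]))) (.nd (.nd (.lf false [343,276,342] [279,276,278]) (.lf true [36,276,17] [308,211])) (.lf false [49,36,48] [16])))) (.nd (.nd (.nd (.nd (.lf true [10,70] [4,106]) (.lf false [104,73] [4,7])) (.nd (.lf false [210,208,275] [208,275,210]) (.lf true [214,85] [2]))) (.nd (.nd (.lf false [15,110,14] [7,110,6]) (.lf false [19,16,209] [209,19,210])) (.lf false [309,274,277,308] [274,277]))) (.nd (.nd (.nd (.lf true [111,244] [14]) (.lf true [278,49] [214,45])) (.nd (.lf false [342,279,276] [276,342,279]) (.lf true [311,308] [342]))) (.nd (.nd (.lf false [208,13,16] [16,208,13]) (.lf false [275,13] [17,17])) (.lf false [2,70,143] [70])))))) (.nd (.nd (.nd (.nd (.nd (.nd (.lf true [22,278]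 [16]) (.lf false [9,5,70] [5])) (.nd (.lf false [44,2,13] [2,13,44]) (.lf false [4,13,140,5] [78,37]))) (.nd (.nd (.lf true [111,18] [308]) (.lf false [37,5,3,48] [51,13])) (.lf false [51,48,275,50] [48,275]))) (.nd (.nd (.nd (.lf false [215,208,214] [279,208,278]) (.lf false [18,37,3] [208,275,81])) (.nd (.lf false [50,18,3] [18,3,50]) (.lf true [276,19] [276,209]))) (.nd (.nd (.lf true [6,240] [37,110]) (.lf false [275,18,77] [208,37,51])) (.lf false [111,108,110,109] [108,111,109,110])))) (.nd (.nd (.nd (.nd (.lf false [73,70,72] [105,70,104]) (.lf false [107,7] [7,3])) (.nd (.lf false [147,140,146,211] [211,140]) (.lf false [71,36] [36,47]))) (.nd (.nd (.lf false [15,78,14] [5,78,4]) (.lf false [211,4,12] [37,210,4])) (.lf false [206,213,245,212] [245,206]))) (.nd (.nd (.nd (.lf true [4,73] [70]) (.lf false [77,36] [36,51])) (.nd (.lf false [274,211,208] [208,274,211]) (.lf true [311,208] [309]))) (.nd (.nd (.lf false [38,3,7] [7,38,3]) (.lf true [111,13,6] [108,212,13])) (.lf false [209,210,208] [16]))))) (.nd (.nd (.nd (.nd (.nd (.lf true [14,2] [46]) (.lf false [17,210,13]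 [275])) (.nd (.lf false [82,4,19] [4,19,82]) (.lf false [139,36] [7,206]))) (.nd (.nd (.lf false [85,4,84] [21,4,20]) (.lf false [19,211] [209,17])) (.lf false [77,5,76,13] [13,5]))) (.nd (.nd (.nd (.lf false [309,310,308] [343,310,342]) (.lf false [49,82,48,275] [275,44])) (.nd (.lf false [76,208,81,77] [208,81]) (.lf true [206,111] [6,13]))) (.nd (.nd (.lf false [214,23,12] [12,214,23]) (.lf true [36,278,12] [214,18])) (.lf true [18,21,12] [12,20,308,21])))) (.nd (.nd (.nd (.nd (.lf true [22,104] [6,150]) (.lf true [2,76] [208])) (.nd (.lf false [278,16,23] [16,23,278]) (.lf true [80,276] [84]))) (.nd (.nd (.lf false [87,150,86] [73,150,72]) (.lf false [18,76,209] [17,274,80])) (.lf false [151,86,73,150] [86,73]))) (.nd (.nd (.nd (.lf true [37,4] [80]) (.lf false [209,2,49] [45,76,209])) (.nd (.lf false [13,17,12,209] [209,17]) (.lf true [36,23,20] [36,342]))) (.nd (.nd (.lf false [16,209,13] [13,16,209]) (.lf false [110,6,139] [6,9,182])) (.lf false [72,5] [5,6]))))))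

def qt11010 : Tr :=
  .nd (.nd (.nd (.nd (.nd (.nd (.nd (.lf true [4,36] [2]) (.lf false [244,117] [6,15])) (.nd (.lf false [308,19,20,18] [20,308]) (.lf false [43,110,39] [39,138,7]))) (.nd (.nd (.lf true [37,10] [176]) (.lf false [51,2,82] [19,4,18])) (.lf false [343,23,342,21] [21,23]))) (.nd (.nd (.nd (.lf true [16,12] [208]) (.lf false [4,13,2] [2,13,44])) (.nd (.lf false [70,7,4,6] [4,70]) (.lf true [36,310,277] [208]))) (.nd (.nd (.lf false [21,212,20] [13,212,12]) (.lf false [83,274,48] [77,274,2])) (.lf false [49,45,48,209] [209,45])))) (.nd (.nd (.nd (.nd (.lf false [45,50,44] [211,50,210]) (.lf false [2,37,81] [37])) (.nd (.lf false [82,243,78] [78,82,243]) (.lf false [183,36,207] [36,207,71]))) (.nd (.nd (.lf true [4,38] [14]) (.lf false [13,16,19] [3,50,209])) (.lf false [178,211,173] [173,178,211]))) (.nd (.nd (.nd (.lf true [16] [37]) (.lf false [208,36,36,209] [210,274])) (.nd (.lf false [244,111,116,110] [116,244]) (.lf true [208,215] [212]))) (.nd (.nd (.lf false [276,21,17] [17,276,21]) (.lf false [82,210,2,211] [4,211,2,16])) (.lf false [8,7] [7,70])))))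 (.nd (.nd (.nd (.nd (.nd (.lf false [13,20,12] [213,20,212]) (.lf false [13,3,36] [3])) (.nd (.lf false [38,71,36] [36,38,71]) (.lf false [38,46,106] [2,172,38]))) (.nd (.nd (.lf false [37,4,36] [3,4,2]) (.lf false [208,16] [16,18])) (.lf false [81,76,209,80] [76,209]))) (.nd (.nd (.nd (.lf false [17,274,16] [19,274,18]) (.lf false [209,17,18] [37,37,274])) (.nd (.lf false [208,49,44] [44,208,49]) (.lf true [36,17,22] [36,278]))) (.nd (.nd (.lf false [215,278,214] [209,278,208]) (.lf false [18,36,209,81] [51,36])) (.lf false [111,116,110] [14])))) (.nd (.nd (.nd (.nd (.lf false [7,110,6] [15,110,14]) (.lf false [36,3,80] [16])) (.nd (.lf false [110,109,206,108] [206,110]) (.lf true [2,86] [212]))) (.nd (.nd (.lf true [111,80] [37,84]) (.lf false [44,50,210] [2,210,44])) (.lf false [311,214,211,310] [214,211]))) (.nd (.nd (.nd (.lf true [209,210] [36]) (.lf false [51,36,50] [77,50,36])) (.nd (.lf false [308,277,274] [274,308,277]) (.lf true [309,210] [213]))) (.nd (.nd (.lf false [9,22,8,151] [151,22]) (.lf false [209,36] [36,19])) (.lf false [38,174,39] [4])))))) (.nd (.nd (.nd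 (.nd (.nd (.nd (.lf true [12,212] [20]) (.lf false [37,16] [5,48])) (.nd (.lf false [22,343,21] [21,22,343]) (.lf false [141,5,70] [5,70,79]))) (.nd (.nd (.lf true [240,17] [14]) (.lf false [50,3,13,76] [13,80])) (.lf false [55,44,215,54] [44,215]))) (.nd (.nd (.nd (.lf false [209,214,208] [279,214,278]) (.lf false [139,8,183] [8,139,9])) (.nd (.lf false [343,21,342,23] [23,21]) (.lf true [111,13] [139,17]))) (.nd (.nd (.lf true [209,212] [111,210]) (.lf false [3,50,18,2] [50,18])) (.lf false [48,3,49,2] [3,48,2,49])))) (.nd (.nd (.nd (.nd (.lf false [37,76,36] [45,76,44]) (.lf false [45,3] [3,5])) (.nd (.lf false [76,13,5] [5,76,13]) (.lf true [2,84,241] [6]))) (.nd (.nd (.lf false [211,44,210] [51,44,50]) (.lf false [19,3,50] [3,50,19])) (.lf false [215,212,343,214] [212,343]))) (.nd (.nd (.nd (.lf true [6,38] [2]) (.lf false [76,36] [36,50])) (.nd (.lf false [276,209,212] [212,276,209]) (.lf true [139,21] [36,17]))) (.nd (.nd (.lf false [208,17,13] [13,208,17]) (.lf true [212,208,13] [36,17,20])) (.lf false [245,116] [14,245]))))) (.nd (.nd (.nd (.nd (.nd (.lf false [23,20,22]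 [343,20,342]) (.lf false [20,15] [110,117])) (.nd (.lf false [206,15,12] [12,206,15]) (.lf false [138,7] [36,207]))) (.nd (.nd (.lf false [275,18,274] [17,18,16]) (.lf false [3,36,50] [210])) (.lf false [139,8,11,138] [8,11]))) (.nd (.nd (.nd (.lf false [211,308,210] [213,308,212]) (.lf true [274,12] [210,210])) (.nd (.lf false [140,73,76,72] [76,140]) (.lf true [14,21,12] [36,244]))) (.nd (.nd (.lf false [342,23,20] [20,342,23]) (.lf true [214,37,37] [139,17])) (.lf true [14,17,20] [20,16,240,17])))) (.nd (.nd (.nd (.nd (.lf false [9,138,8] [11,138,10]) (.lf false [80,3] [2,81])) (.nd (.lf false [207,244,206,213] [213,244]) (.lf true [214] [276]))) (.nd (.nd (.lf true [6,244] []) (.lf false [51,209,209] [209,209,51])) (.lf false [111,14,7,110] [14,7]))) (.nd (.nd (.nd (.lf true [54,3] [139]) (.lf false [3,36,50,209] [209,16])) (.nd (.lf false [4,6,71,5] [6,71]) (.lf true [309,22] [139,308]))) (.nd (.nd (.lf false [17,2,16,49] [49,2]) (.lf false [182,15,110] [8,138,15])) (.lf false [70,104] [4,70]))))))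

def qt11011 : Tr :=
  .nd (.nd (.nd (.nd (.nd (.nd (.nd (.lf true [14,142] [8]) (.lf false [208,274,19] [274])) (.nd (.lf false [22,342,21,23] [342,21]) (.lf false [141,5,36] [5,36,79]))) (.nd (.nd (.lf true [139,12] [214]) (.lf false [208,4,81] [44,51,208])) (.lf false [39,36,71] [36,71,39]))) (.nd (.nd (.nd (.lf true [14,108] [6,206]) (.lf false [209,19,211] [17,209,209])) (.nd (.lf false [275,308,274,277] [277,308]) (.lf true [36,308] [276]))) (.nd (.nd (.lf true [14,208] [37,206]) (.lf false [82,275,76] [48,80,275])) (.lf true [36,71,6] [74,71])))) (.nd (.nd (.nd (.nd (.lf false [55,36,54] [87,36,86]) (.lf false [71,2,70] [142])) (.nd (.lf true [36,110,109] [14]) (.lf false [81,110,47] [36,173,3]))) (.nd (.nd (.lf false [77,36,76] [45,36,44]) (.lf false [12,16,19] [36,36,209])) (.lf false [209,80,77] [80,77,209]))) (.nd (.nd (.nd (.lf true [7] [6]) (.lf true [108,3,76] [14])) (.nd (.lf false [12,11,172,10] [172,12]) (.lf true [309,212] [37]))) (.nd (.nd (.lf false [210,19,13] [13,210,19]) (.lf true [138,71,37] [71])) (.lf false [182,150] [150,8]))))) (.nd (.nd (.nd (.nd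 (.nd (.lf false [19,20,18] [309,20,308]) (.lf false [150,9] [10,183])) (.nd (.lf false [49,50,48,275] [275,50]) (.lf false [12,2,18,51] [16,208]))) (.nd (.nd (.lf false [45,2,44] [13,2,12]) (.lf false [210,45] [36,83])) (.lf false [6,15,111,14] [111,6]))) (.nd (.nd (.nd (.lf false [209,278,208] [215,278,214]) (.lf true [36,19] [210])) (.nd (.lf false [276,53,48] [48,276,53]) (.lf true [206,111,22] [36,118]))) (.nd (.nd (.lf false [277,308,276] [275,308,274]) (.lf true [36,110,117] [212,15])) (.lf true [2,11,12] [12,10,42,11])))) (.nd (.nd (.nd (.nd (.lf true [14,108] [12,110]) (.lf false [13,49] [37,5])) (.nd (.lf false [212,277,208] [208,212,277]) (.lf true [212,55] [4]))) (.nd (.nd (.lf true [70,106] [38,104]) (.lf false [18,83,3] [208,81,5])) (.lf false [20,23,343,22] [343,20]))) (.nd (.nd (.nd (.lf true [36,214] [139]) (.lf false [208,81,45] [77,208,49])) (.nd (.lf false [309,19,308,21] [21,19]) (.lf true [139,308,19] [342]))) (.nd (.nd (.lf false [210,13,19] [19,210,13]) (.lf false [76,18,36] [2,18,210])) (.lf false [44,37] [37,4])))))) (.nd (.nd (.nd (.nd (.nd (.nd (.lf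 false [5,16,4] [81,16,80]) (.lf true [138,111] [])) (.nd (.lf false [48,17,2] [2,48,17]) (.lf false [179,173,178,243] [243,47]))) (.nd (.nd (.lf true [209,20] [308]) (.lf false [82,81] [48,51])) (.lf false [46,50,243,47] [50,243]))) (.nd (.nd (.nd (.lf true [16,110] [6,240]) (.lf false [77,4,37] [37,3,48])) (.nd (.lf false [70,39,37] [37,70,39]) (.lf true [210,308,277] [210,12]))) (.nd (.nd (.lf false [277,244,276] [241,244,240]) (.lf false [37,3,37,76] [211,211])) (.lf false [70,104,71] [4])))) (.nd (.nd (.nd (.nd (.lf false [79,70,78] [111,70,110]) (.lf false [106,11] [2,39])) (.nd (.lf false [150,139,182,138] [182,150]) (.lf false [79,38] [37,110]))) (.nd (.nd (.lf true [4,52] [2,84]) (.lf false [19,76,208] [17,274,80])) (.lf false [279,16,23,278] [16,23]))) (.nd (.nd (.nd (.lf true [6,111] [14]) (.lf false [50,3,80] [37,76,16])) (.nd (.lf false [15,47,14] [3,47,2]) (.lf true [276,308] [213,20]))) (.nd (.nd (.lf false [5,2,4,37] [37,2]) (.lf true [310,342,23] [111,23,18])) (.lf false [37,80,36] [2]))))) (.nd (.nd (.nd (.nd (.nd (.lf false [37,38,36] [71,38,70]) (.lf false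 [18,13] [208,275])) (.nd (.lf false [37,82,36,51] [51,82]) (.lf false [70,37,110] [37,70,36]))) (.nd (.nd (.lf false [119,6,118] [23,6,22]) (.lf false [12,208,275] [208])) (.lf false [74,73,139,72] [139,74]))) (.nd (.nd (.nd (.lf true [22,276] [16,342]) (.lf false [211,18,16] [13,18,274])) (.nd (.lf false [14,7,110,6] [110,14]) (.lf true [212,206,15] [109,206]))) (.nd (.nd (.lf false [118,23,6] [6,118,23]) (.lf false [214,12,215,23] [12,214,23,215])) (.lf false [245,110] [20,245])))) (.nd (.nd (.nd (.nd (.lf false [11,172,10] [13,172,12]) (.lf false [209,50,208] [49,76,48])) (.nd (.lf false [274,208,211] [208,211,274]) (.lf true [37,308] [36,310]))) (.nd (.nd (.lf false [183,150,182] [139,150,138]) (.lf false [12,18,51] [36,208,81])) (.lf false [277,209,276,213] [213,209]))) (.nd (.nd (.nd (.lf true [70,7] [4]) (.lf false [82,77] [44,51])) (.nd (.lf false [215,23,214,13] [13,23]) (.lf true [213,37,207] [37,245]))) (.nd (.nd (.lf false [20,276,17,21] [276,17]) (.lf false [70,111,71] [6,139,7])) (.lf false [138,11,139] [151]))))))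

def qt11100 : Tr :=
  .nd (.nd (.nd (.nd (.nd (.nd (.nd (.lf true [22,138] []) (.lf false [21,110,15] [117])) (.nd (.lf false [19,16,18,275] [275,16]) (.lf false [111,39,70] [39,70,111]))) (.nd (.nd (.lf true [4,8] [72]) (.lf false [83,37] [37,45])) (.lf false [19,16,275] [16,275,19]))) (.nd (.nd (.nd (.lf true [6,12] [108]) (.lf true [6,174] [2,108])) (.nd (.lf false [279,274,278,311] [311,274]) (.lf true [276,55] [45]))) (.nd (.nd (.lf true [14,172] [36,174]) (.lf false [50,208,81] [2,18,77])) (.lf false [18,3,51,2] [51,18])))) (.nd (.nd (.nd (.nd (.lf false [43,38,42] [107,38,106]) (.lf false [5,48,3] [81])) (.nd (.lf false [82,80,275] [80,275,82]) (.lf false [23,36,207] [9,182,7]))) (.nd (.nd (.lf false [17,48,16] [3,48,2]) (.lf false [19,2,18] [17,274,50])) (.lf false [13,173,12] [11,173,10]))) (.nd (.nd (.nd (.lf true [12] [36]) (.lf false [19,16,208,13] [275,16])) (.nd (.lf false [206,111,108,110] [108,206]) (.lf true [208,215,18] [276]))) (.nd (.nd (.lf false [308,21,19] [19,308,21]) (.lf false [50,210,82,19] [76,19,4,12])) (.lf false [80,16] [36,80]))))) (.nd (.nd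 (.nd (.nd (.nd (.lf false [13,6,12] [109,6,108]) (.lf false [39,10] [3,106])) (.nd (.lf false [37,48,36,81] [81,48]) (.lf false [173,3,38] [3,38,47]))) (.nd (.nd (.lf true [278,23] [37]) (.lf false [275,16] [3,50])) (.lf false [77,36,45,76] [36,45]))) (.nd (.nd (.nd (.lf true [6,16] [112]) (.lf false [81,5,36] [36,3,45])) (.nd (.lf false [39,6,3] [6,3,39]) (.lf true [36,17,20] [36,276]))) (.nd (.nd (.lf false [211,274,210] [209,274,208]) (.lf false [209,77,48,76] [4,209])) (.lf false [37,80,36] [2])))) (.nd (.nd (.nd (.nd (.lf false [7,104,6] [9,104,8]) (.lf false [138,9,182] [22])) (.nd (.lf false [80,77,208,76] [208,80]) (.lf true [214,173] [70]))) (.nd (.nd (.lf false [111,70,110] [79,70,78]) (.lf false [18,12,19] [37,210,36])) (.lf false [276,278,343,277] [278,343]))) (.nd (.nd (.nd (.lf true [37,209] [36]) (.lf false [77,4,36] [36,51,44])) (.nd (.lf false [212,209,276,208] [276,212]) (.lf true [212,342] [276]))) (.nd (.nd (.lf false [7,12,6,109] [109,12]) (.lf true [22,4,73,12] [12,72,5,150,4,73])) (.lf false [12,37] [37,16])))))) (.nd (.nd (.nd (.nd (.nd (.nd (.lf true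 [16,274] [18]) (.lf false [80,49] [2,5])) (.nd (.lf false [22,279,17] [17,22,279]) (.lf false [5,79,4,13] [13,141]))) (.nd (.nd (.lf true [6,16] [112]) (.lf false [210,44,211] [13,44,210])) (.lf false [49,44,209,48] [44,209]))) (.nd (.nd (.nd (.lf false [209,210,208] [275,210,274]) (.lf false [11,4,38] [3,106,174])) (.nd (.lf false [37,3,36] [5,3,4]) (.lf true [212,18] [212,208]))) (.nd (.nd (.lf false [277,212,276] [209,212,208]) (.lf false [45,19,51] [3,19,83])) (.lf true [212,6,109] [116,109,12])))) (.nd (.nd (.nd (.nd (.lf true [20,4] [84]) (.lf false [76,3] [2,77])) (.nd (.lf false [140,8,13] [8,13,140]) (.lf false [111,108,37] [108,37,23]))) (.nd (.nd (.lf true [111,48] [37,52]) (.lf false [4,37,210] [3,4,50])) (.lf false [208,210,275,209] [210,275]))) (.nd (.nd (.nd (.lf true [4,36] [2]) (.lf false [76,44] [44,50])) (.nd (.lf false [240,209,206] [206,240,209]) (.lf true [212,208] [276]))) (.nd (.nd (.lf false [18,51,3] [3,18,51]) (.lf true [210,36,17] [210])) (.lf false [244,110] [110,6]))))) (.nd (.nd (.nd (.nd (.nd (.lf false [23,10,22] [183,10,182]) (.lf false [15,116]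 [7,244])) (.nd (.lf false [70,4,7] [4,7,70]) (.lf false [5,6,138,7] [5,36]))) (.nd (.nd (.lf false [49,2,48] [17,2,16]) (.lf false [209,16] [16,19])) (.lf false [110,245,117,244] [117,110]))) (.nd (.nd (.nd (.lf false [19,308,18] [21,308,20]) (.lf true [208,214] [36,310])) (.nd (.lf false [112,71,80,70] [80,112]) (.lf true [116,3,80] [36,246]))) (.nd (.nd (.lf false [38,6,3] [6,3,38]) (.lf true [36,278,13] [310,275])) (.lf true [22,37,6] [6,36,214,37])))) (.nd (.nd (.nd (.nd (.lf false [117,112,116] [277,112,276]) (.lf false [210,209] [16,19])) (.nd (.lf false [111,244,110,117] [117,244]) (.lf true [276,3,76] [278]))) (.nd (.nd (.lf false [175,106,174] [111,106,110]) (.lf false [51,82,18] [18,3,4])) (.lf false [77,44,37,76] [44,37]))) (.nd (.nd (.nd (.lf true [37,2] [48]) (.lf false [208,49,76,48] [50,208])) (.nd (.lf false [81,17,80,5] [5,17]) (.lf true [308,342,22] [308,20]))) (.nd (.nd (.lf false [214,13,23] [23,214,13]) (.lf false [9,140,8] [5,78,4])) (.lf false [6,2] [2,42]))))))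

def qt11101 : Tr :=
  .nd (.nd (.nd (.nd (.nd (.nd (.nd (.lf true [12,12] []) (.lf false [275,211] [17,275])) (.nd (.lf false [16,20,277,17] [20,277]) (.lf false [109,6,139] [6,139,119]))) (.nd (.nd (.lf true [208,13] [37]) (.lf false [83,3,76] [37,45,12])) (.lf false [51,2,19] [2,19,51]))) (.nd (.nd (.nd (.lf false [77,208,76] [81,208,80]) (.lf false [208,17,274] [12,211,18])) (.nd (.lf false [310,214,211] [214,211,310]) (.lf true [276,279] [208]))) (.nd (.nd (.lf true [6,210] [36,114]) (.lf false [3,50,4,19] [19,82])) (.lf false [279,275,278,311] [311,275])))) (.nd (.nd (.nd (.nd (.lf false [51,36,50] [83,36,82]) (.lf false [7,36,206] [36])) (.nd (.lf false [110,6,15] [6,15,110]) (.lf false [47,37,46,37] [37,111]))) (.nd (.nd (.lf true [70,38] [6,40]) (.lf false [19,4,18] [17,274,82])) (.lf false [49,209,48] [45,209,44]))) (.nd (.nd (.nd (.lf true [3] [2]) (.lf false [275,44,209] [19,17,48])) (.nd (.lf false [86,73,150,72] [150,86]) (.lf true [36,276] [139]))) (.nd (.nd (.lf false [274,19,17] [17,274,19]) (.lf false [208,207,209,206] [207,208,206,209])) (.lf false [12,3]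 [3,36]))))) (.nd (.nd (.nd (.nd (.nd (.lf false [19,2,18] [51,2,50]) (.lf false [139,22] [11,150])) (.nd (.lf false [49,36,48,81] [81,36]) (.lf false [36,47,37] [2,173,3]))) (.nd (.nd (.lf false [139,10,138] [9,10,8]) (.lf false [274,77] [210,81])) (.lf false [78,82,243,79] [82,243]))) (.nd (.nd (.nd (.lf false [209,274,208] [211,274,210]) (.lf true [208,16] [274])) (.nd (.lf false [242,51,46] [46,242,51]) (.lf true [212,36,213] [213,20]))) (.nd (.nd (.lf false [213,308,212] [211,308,210]) (.lf true [4,278,49] [54,5])) (.lf false [275,44,274] [49,82,48])))) (.nd (.nd (.nd (.nd (.lf false [105,110,104] [143,110,142]) (.lf false [106,43] [2,7])) (.nd (.lf false [211,208,210,275] [275,208]) (.lf true [116,277] [112]))) (.nd (.nd (.lf true [36,38] [2,108]) (.lf false [50,209,209] [209,209,50])) (.lf false [311,308,343,310] [308,343]))) (.nd (.nd (.nd (.lf true [70,150] [139]) (.lf false [208,45,76] [2,49,208])) (.nd (.lf false [279,17,278,23] [23,17]) (.lf true [308,23] [36,275]))) (.nd (.nd (.lf false [16,12,209] [12,209,16]) (.lf false [208,36] [36,18])) (.lf false [76,37] [37,2]))))))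 (.nd (.nd (.nd (.nd (.nd (.nd (.lf false [3,16,2] [49,16,48]) (.lf false [9,7] [7,71])) (.nd (.lf false [80,17,5] [5,80,17]) (.lf false [173,3,36,46] [3,36]))) (.nd (.nd (.lf true [36,20] [212]) (.lf false [80,51,80] [50])) (.lf false [53,48,277,52] [48,277]))) (.nd (.nd (.nd (.lf true [6,14] [110]) (.lf false [274,36,49] [210,274,5])) (.nd (.lf false [80,37,48] [48,80,37]) (.lf true [310,37] [308,17]))) (.nd (.nd (.lf true [14,212] [36,244]) (.lf true [276,12] [212,210])) (.lf false [22,21,23,20] [21,22,20,23])))) (.nd (.nd (.nd (.nd (.lf false [77,80,76] [209,80,208]) (.lf false [7,2,42] [2])) (.nd (.lf false [11,172,10,13] [13,172]) (.lf false [2,173,70] [142]))) (.nd (.nd (.lf false [45,76,44] [37,76,36]) (.lf false [36,12,211] [3,76,274])) (.lf false [16,19,275,18] [275,16]))) (.nd (.nd (.nd (.lf true [2,44] [36]) (.lf false [50,77] [76,51])) (.nd (.lf false [276,213,209] [209,276,213]) (.lf true [311,12,214] [342]))) (.nd (.nd (.lf false [48,3,17] [17,48,3]) (.lf true [80,276,17] [111,17,4])) (.lf false [274,16] [210,274]))))) (.nd (.nd (.nd (.nd (.nd (.lf false [3,50,2]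 [19,50,18]) (.lf false [209,275] [13,209])) (.nd (.lf false [76,36,45] [36,45,76]) (.lf false [111,36,111] [37]))) (.nd (.nd (.lf false [277,16,276] [21,16,20]) (.lf false [211,3] [37,77])) (.lf false [8,23,151,22] [151,8]))) (.nd (.nd (.nd (.lf true [18,20] [308]) (.lf true [112,138,39] [2])) (.nd (.lf false [78,242,83,79] [242,83]) (.lf true [118,13] [108,23]))) (.nd (.nd (.lf false [150,23,8] [8,150,23]) (.lf true [36,310,208] [278,18])) (.lf false [183,138] [22,183])))) (.nd (.nd (.nd (.nd (.lf false [139,150,138] [183,150,182]) (.lf true [208,5] [45])) (.nd (.lf false [274,80,83] [80,83,274]) (.lf true [212,23] [37]))) (.nd (.nd (.lf true [38,140] [36,138]) (.lf false [3,76,18,51] [208,81])) (.lf false [183,118,107,182] [118,107]))) (.nd (.nd (.nd (.lf true [86,5] [139]) (.lf false [82,51] [4,3])) (.nd (.lf false [13,19,12,211] [211,19]) (.lf true [215,208] [213]))) (.nd (.nd (.lf false [274,17,19] [19,274,17]) (.lf false [110,11,139] [7,244,11])) (.lf false [151,10,139] [23]))))))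

def qt11110 : Tr :=
  .nd (.nd (.nd (.nd (.nd (.nd (.nd (.lf true [4,70] [6]) (.lf false [275,209] [19,275])) (.nd (.lf false [21,12,20,213] [213,12]) (.lf false [138,7,38] [7,38,110]))) (.nd (.nd (.lf true [6,12] [108]) (.lf false [77,3,50] [5,3,82])) (.lf false [23,17,22,279] [279,17]))) (.nd (.nd (.nd (.lf true [20,12] [212]) (.lf false [76,2,37] [2,13,80])) (.nd (.lf false [38,7,2,6] [2,38]) (.lf true [36,244,37] [112,23]))) (.nd (.nd (.lf true [36,54] [2,214]) (.lf false [82,5,13] [13,48,45])) (.lf false [81,77,80,209] [209,77])))) (.nd (.nd (.nd (.nd (.lf false [47,38,46] [111,38,110]) (.lf false [80,12] [2,36])) (.nd (.lf false [104,6,9] [6,9,104]) (.lf false [9,182,7] [36,207,111]))) (.nd (.nd (.lf true [14,36] [4,46]) (.lf false [208,3,50] [3,50,208])) (.lf false [17,209,16] [13,209,12]))) (.nd (.nd (.nd (.lf true [209,19] []) (.lf false [12,208,17,48] [44,208])) (.nd (.lf false [108,212,117,109] [212,117]) (.lf true [111,279] [36]))) (.nd (.nd (.lf false [212,21,13] [13,212,21]) (.lf false [213,209,212,208] [209,213,208,212])) (.lf false [3,38,2] [10]))))) (.nd (.nd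 (.nd (.nd (.nd (.lf false [15,6,14] [111,6,110]) (.lf false [13,5] [5,37])) (.nd (.lf false [45,48,44,209] [209,48]) (.lf false [47,2,11,172] [2,11]))) (.nd (.nd (.lf false [37,2,36] [5,2,4]) (.lf false [274,5] [16,83])) (.lf false [76,211,83,210] [83,76]))) (.nd (.nd (.nd (.lf false [17,278,16] [23,278,22]) (.lf false [18,37,5] [208,275,49])) (.nd (.lf false [278,49,54] [54,278,49]) (.lf true [4,212,49] [54,5]))) (.nd (.nd (.lf true [209,278] [139,274]) (.lf true [138,79,4] [142,79])) (.lf false [3,36,2] [12])))) (.nd (.nd (.nd (.nd (.lf true [22,6] [118]) (.lf false [44,13] [4,37])) (.nd (.lf true [36,118,215] [6]) (.lf true [212,109] [14]))) (.nd (.nd (.lf false [243,78,242] [83,78,82]) (.lf false [210,12,83] [16,83,36])) (.lf false [309,212,211,308] [212,211]))) (.nd (.nd (.nd (.lf true [6,116] [111]) (.lf false [12,209,17,80] [76,209])) (.nd (.lf false [310,279,274] [274,310,279]) (.lf true [213,18] [213,208]))) (.nd (.nd (.lf false [12,109,6] [6,12,109]) (.lf false [211,211] [13,275])) (.lf false [38,175] [5,38])))))) (.nd (.nd (.nd (.nd (.nd (.nd (.lf true [22,150] [8])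 (.lf false [71,6,8] [6])) (.nd (.lf false [38,2,7] [2,7,38]) (.lf false [70,78,104] [4,140,70]))) (.nd (.nd (.lf true [139,16] [278]) (.lf false [4,3,36,50] [36,82])) (.lf false [36,48,81,37] [48,81]))) (.nd (.nd (.nd (.lf false [213,208,212] [277,208,276]) (.lf false [275,16,275] [16,275,13])) (.nd (.lf false [37,4,3] [4,3,37]) (.lf true [274,20] [210,308]))) (.nd (.nd (.lf true [111,214] [139,212]) (.lf false [50,12,18] [2,18,210])) (.lf false [279,17,17,278] [23,17,17,22])))) (.nd (.nd (.nd (.nd (.lf true [20,36] [2,84]) (.lf false [76,45] [2,5])) (.nd (.lf false [138,74,73] [74,73,138]) (.lf false [47,70] [37,110]))) (.nd (.nd (.lf false [215,44,214] [55,44,54]) (.lf false [210,36,51] [36,51,36])) (.lf false [245,116,111,244] [116,111]))) (.nd (.nd (.nd (.lf true [6,70] [4]) (.lf false [51,37] [37,77])) (.nd (.lf false [278,209,214] [214,278,209]) (.lf true [342,277] [276,343]))) (.nd (.nd (.lf false [36,3,5] [5,36,3]) (.lf true [212,214,13] [139,13,20])) (.lf false [209,274] [12,209]))))) (.nd (.nd (.nd (.nd (.nd (.lf false [3,38,2] [7,38,6]) (.lf false [16,209,18] [210]))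 (.nd (.lf false [76,4,13] [4,13,76]) (.lf false [36,70,111] [70]))) (.nd (.nd (.lf false [211,12,210] [19,12,18]) (.lf false [210,83] [5,36])) (.lf false [141,8,13,140] [8,13]))) (.nd (.nd (.nd (.lf false [275,308,274] [277,308,276]) (.lf false [107,174,106] [39,44,38])) (.nd (.lf false [208,77,80,76] [80,208]) (.lf true [116,109,7] [111,109]))) (.nd (.nd (.lf false [278,23,16] [16,278,23]) (.lf true [308,277,17] [212,277])) (.lf true [20,17,4] [4,16,276,17])))) (.nd (.nd (.nd (.nd (.lf false [73,138,72] [75,138,74]) (.lf true [140,5] [14])) (.nd (.lf false [274,16,19] [16,19,274]) (.lf true [276,241] [6]))) (.nd (.nd (.lf false [11,138,10] [9,138,8]) (.lf false [209,209,45] [45,209,209])) (.lf false [139,10,9,138] [10,9]))) (.nd (.nd (.nd (.lf true [70,5] [6]) (.lf false [48,209,12] [44,16,209])) (.nd (.lf false [6,12,109,7] [12,109]) (.lf true [309,3,76] [213,37]))) (.nd (.nd (.lf false [16,113,6] [6,16,113]) (.lf false [9,139,8] [7,111,6])) (.lf false [70,72] [6,70]))))))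

def qt11111 : Tr :=
  .nd (.nd (.nd (.nd (.nd (.nd (.nd (.lf true [2,48] [16]) (.lf false [49,4,37] [17])) (.nd (.lf false [22,183,10] [10,22,183]) (.lf false [147,141,146] [83,79,82]))) (.nd (.nd (.lf true [4,14] [78]) (.lf true [36,49,82] [274])) (.lf false [36,77,45,76] [45,36]))) (.nd (.nd (.nd (.lf true [22,108] [6,214]) (.lf false [208,45,17] [49,208,13])) (.nd (.lf true [139,308,311] [111]) (.lf true [276,311] [37]))) (.nd (.nd (.lf false [241,206,240] [209,206,208]) (.lf false [19,83,50] [2,45,19])) (.lf true [2,5,37] [48,5])))) (.nd (.nd (.nd (.nd (.lf false [5,70,4] [7,70,6]) (.lf false [77,2] [3,76])) (.nd (.lf false [116,110,245] [110,245,116]) (.lf true [112,110] [38,142]))) (.nd (.nd (.lf true [139,44] [36,54]) (.lf false [209,209,17] [17,209,209])) (.lf false [211,208,275,210] [208,275]))) (.nd (.nd (.nd (.lf true [36,12] []) (.lf false [13,45,36] [3,45,76])) (.nd (.lf false [16,13,208,12] [208,16]) (.lf true [208,277] [213]))) (.nd (.nd (.lf false [82,19,5] [5,82,19]) (.lf true [37,110,36] [2,78,14])) (.lf false [139,150,138] [10]))))) (.nd (.nd (.nd (.nd (.nd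 (.lf false [21,12,20] [213,12,212]) (.lf false [22,9,182] [138])) (.nd (.lf false [51,36,50,83] [83,36]) (.lf true [14,139] [108,37]))) (.nd (.nd (.lf false [209,16,208] [13,16,12]) (.lf false [18,18] [208,208])) (.lf false [6,21,117,20] [117,6]))) (.nd (.nd (.nd (.lf true [22,274] [18,278]) (.lf false [45,76,4] [37,76,12])) (.nd (.lf false [214,55,44] [44,214,55]) (.lf true [36,246,17] [116,37]))) (.nd (.nd (.lf false [343,310,342] [309,310,308]) (.lf true [278,13,274] [36,310])) (.lf true [12,15,2] [2,14,206,15])))) (.nd (.nd (.nd (.nd (.lf false [109,116,108] [213,116,212]) (.lf false [182,9] [8,183])) (.nd (.lf false [213,214,212,343] [343,214]) (.lf true [214,206] [116,36]))) (.nd (.nd (.lf false [139,104,138] [107,104,106]) (.lf false [49,12,82] [3,12,76])) (.lf false [209,45,208,49] [49,45]))) (.nd (.nd (.nd (.lf true [139,342] [111]) (.lf false [208,13,13,209] [275,275])) (.nd (.lf false [83,5,82,19] [19,5]) (.lf true [139,308,21] [311]))) (.nd (.nd (.lf false [212,13,20] [20,212,13]) (.lf false [13,208,37] [37,208,17])) (.lf false [45,4] [13,36])))))) (.nd (.nd (.nd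 (.nd (.nd (.nd (.lf false [7,20,6] [117,20,116]) (.lf false [11,38] [7,42])) (.nd (.lf false [49,3,48] [17,3,16]) (.lf false [51,46,50,179] [179,172]))) (.nd (.nd (.lf true [2,22] [54]) (.lf false [16,16,51] [12,36,81])) (.lf false [79,4,15,78] [4,15]))) (.nd (.nd (.nd (.lf true [20,206] [12,244]) (.lf false [211,36,3] [13,274,81])) (.nd (.lf false [106,43,38] [38,106,43]) (.lf true [308,3,50] [36,278]))) (.nd (.nd (.lf false [23,278,22] [17,278,16]) (.lf false [13,2,18,51] [208,17])) (.lf false [2,44,3] [4])))) (.nd (.nd (.nd (.nd (.lf true [20,80] [16,84]) (.lf false [104,7] [7,4])) (.nd (.lf false [13,208,12,17] [17,208]) (.lf false [79,5,38] [37,110,175]))) (.nd (.nd (.lf false [105,70,104] [73,70,72]) (.lf false [50,36,18] [76,18,12])) (.lf false [275,210,209,274] [210,209]))) (.nd (.nd (.nd (.lf true [14,207] [36]) (.lf false [50,13,16] [45,76,48])) (.nd (.lf false [278,215,209] [209,278,215]) (.lf true [309,274] [213,208]))) (.nd (.nd (.lf false [70,5,7] [7,70,5]) (.lf false [18] [37,208,36])) (.lf false [80,36] [2,12]))))) (.nd (.nd (.nd (.nd (.nd (.lf true [16,36] [4,48])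 (.lf false [210,274,17] [274])) (.nd (.lf true [4,106,71] [38]) (.lf false [139,3,76] [7,206,211]))) (.nd (.nd (.lf false [279,16,278] [23,16,22]) (.lf false [17,13,16] [275])) (.lf false [183,151,182] [139,151,138]))) (.nd (.nd (.nd (.lf true [6,22] [118]) (.lf false [4,13,77,36] [77,44])) (.nd (.lf false [138,107,104,106] [104,138]) (.lf true [37,23,36] [111]))) (.nd (.nd (.lf false [54,23,2] [2,54,23]) (.lf false [276,48,277,53] [48,276,53,277])) (.lf false [275,208] [18,275])))) (.nd (.nd (.nd (.nd (.lf false [107,182,106] [119,182,118]) (.lf false [139,9,182] [9,139,8])) (.nd (.lf true [36,278,215] [37]) (.lf true [212,50] [52,12]))) (.nd (.nd (.lf false [183,138,182] [151,138,150]) (.lf false [3,76,18,83] [208,49])) (.lf false [311,275,310,279] [279,275]))) (.nd (.nd (.nd (.lf true [37,6] [112]) (.lf false [76,82] [44,76])) (.nd (.lf false [4,16,81,5] [16,81]) (.lf true [116,36,209] [276,240]))) (.nd (.nd (.lf false [19,4,18,83] [83,4]) (.lf false [110,6,9] [6,9,138])) (.lf false [151,139] [23,151]))))))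

def qT : Tr :=
  .nd (.nd (.nd (.nd (.nd (qt00000) (qt00001)) (.nd (qt00010) (qt00011))) (.nd (.nd (qt00100) (qt00101)) (.nd (qt00110) (qt00111)))) (.nd (.nd (.nd (qt01000) (qt01001)) (.nd (qt01010) (qt01011))) (.nd (.nd (qt01100) (qt01101)) (.nd (qt01110) (qt01111))))) (.nd (.nd (.nd (.nd (qt10000) (qt10001)) (.nd (qt10010) (qt10011))) (.nd (.nd (qt10100) (qt10101)) (.nd (qt10110) (qt10111)))) (.nd (.nd (.nd (qt11000) (qt11001)) (.nd (qt11010) (qt11011))) (.nd (.nd (qt11100) (qt11101)) (.nd (qt11110) (qt11111)))))

def qc0 : List I2 := [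
  .ax (.swap 2 true),
  .ax (.swap 4 true),
  .ax (.swap 36 false),
  .ax (.swap 36 true),
  .ax (.swap 6 true),
  .ax (.swap 38 false),
  .ax (.swap 38 true),
  .ax (.swap 70 false),
  .ax (.swap 70 true),
  .ax (.swap 8 true),
  .ax (.swap 72 false),
  .ax (.swap 72 true),
  .ax (.swap 10 true),
  .ax (.swap 138 false),
  .ax (.swap 138 true),
  .ax (.swap 12 true),
  .ax (.swap 44 false),
  .ax (.swap 110 false),
  .ax (.swap 110 true),
  .ax (.swap 142 true),
  .ax (.swap 174 true),
  .ax (.swap 206 false),
  .ax (.swap 16 true),
  .ax (.swap 48 false),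
  .ax (.swap 48 true),
  .ax (.swap 80 true),
  .ax (.swap 112 true),
  .ax (.swap 208 false),
  .ax (.swap 208 true),
  .ax (.swap 210 false),
  .ax (.swap 210 true),
  .ax (.swap 274 false),
  .ax (.swap 274 true),
  .ax (.swap 116 false),
  .ax (.swap 116 true),
  .ax (.swap 212 false),
  .ax (.swap 244 true),
  .ax (.swap 276 true),
  .ax (.swap 150 false),
  .ax (.swap 150 true),
  .ax (.swap 182 true),
  .ax (.swap 214 false),
  .ax (.swap 214 true),
  .ax (.swap 278 true),
  .ax (.swap 342 true),
  .ax (.tri 36 false 4 false 2 false),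
  .ax (.tri 38 false 6 false 2 false),
  .ax (.tri 48 false 16 false 2 false),
  .ax (.tri 50 false 18 false 2 false),
  .ax (.tri 36 true 2 false 4 false),
  .ax (.tri 70 false 6 false 4 false),
  .ax (.tri 80 false 16 false 4 false),
  .ax (.tri 38 true 2 false 6 false),
  .ax (.tri 70 true 4 false 6 false),
  .ax (.tri 108 false 12 false 6 false),
  .ax (.tri 116 false 20 false 6 false),
  .ax (.tri 72 true 4 false 8 false),
  .ax (.tri 138 false 10 false 8 false),
  .ax (.tri 150 false 22 false 8 false),
  .ax (.tri 42 true 2 false 10 false),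
  .ax (.tri 138 true 8 false 10 false),
  .ax (.tri 44 true 2 false 12 false),
  .ax (.tri 76 true 4 false 12 false),
  .ax (.tri 108 true 6 false 12 false),
  .ax (.tri 140 true 8 false 12 false),
  .ax (.tri 208 false 16 false 12 false),
  .ax (.tri 210 false 18 false 12 false),
  .ax (.tri 212 false 20 false 12 false),
  .ax (.tri 214 false 22 false 12 false),
  .ax (.tri 46 true 2 false 14 false),
  .ax (.tri 78 true 4 false 14 false),
  .ax (.tri 110 true 6 false 14 false),
  .ax (.tri 206 true 12 false 14 false),
  .ax (.tri 48 true 2 false 16 false),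
  .ax (.tri 80 true 4 false 16 false),
  .ax (.tri 112 true 6 false 16 false),
  .ax (.tri 208 true 12 false 16 false),
  .ax (.tri 274 false 18 false 16 false),
  .ax (.tri 276 false 20 false 16 false),
  .ax (.tri 50 true 2 false 18 false),
  .ax (.tri 82 true 4 false 18 false),
  .ax (.tri 210 true 12 false 18 false),
  .ax (.tri 274 true 16 false 18 false),
  .ax (.tri 308 false 20 false 18 false),
  .ax (.tri 310 false 22 false 18 false),
  .ax (.tri 84 true 4 false 20 false),
  .ax (.tri 116 true 6 false 20 false),
  .ax (.tri 212 true 12 false 20 false),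
  .ax (.tri 244 true 14 false 20 false),
  .ax (.tri 276 true 16 false 20 false),
  .ax (.tri 308 true 18 false 20 false),
  .ax (.tri 342 false 22 false 20 false),
  .ax (.tri 54 true 2 false 22 false),
  .ax (.tri 118 true 6 false 22 false),
  .ax (.tri 150 true 8 false 22 false),
  .ax (.tri 182 true 10 false 22 false),
  .ax (.tri 214 true 12 false 22 false),
  .ax (.tri 278 true 16 false 22 false),
  .ax (.tri 310 true 18 false 22 false),
  .ax (.tri 342 true 20 false 22 false),
  .sym 36 false [] 2 true [] [],
  .ax (.tri 4 false 36 false 2 true),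
  .sym 38 false [] 2 true [] [],
  .ax (.tri 6 false 38 false 2 true),
  .ax (.tri 10 false 42 false 2 true),
  .sym 44 false [] 2 true [] [],
  .ax (.tri 12 false 44 false 2 true),
  .sym 46 false [] 2 true [] [],
  .ax (.tri 14 false 46 false 2 true),
  .sym 48 false [] 2 true [] [],
  .ax (.tri 16 false 48 false 2 true),
  .ax (.tri 18 false 50 false 2 true),
  .sym 52 false [] 2 true [] [],
  .sym 54 false [] 2 true [] [],
  .sym 38 false [] 36 false [] [],
  .ax (.tri 70 false 38 false 36 false),
  .sym 44 false [] 36 false [] [],
  .ax (.tri 76 false 44 false 36 false),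
  .sym 46 false [] 36 false [] [],
  .sym 48 false [] 36 false [] [],
  .ax (.tri 80 false 48 false 36 false),
  .sym 52 false [] 36 false [] [],
  .sym 54 false [] 36 false [] [],
  .ax (.tri 70 true 36 false 38 false),
  .sym 40 false [] 38 false [] [],
  .sym 44 false [] 38 false [] [],
  .ax (.tri 108 false 44 false 38 false),
  .ax (.tri 106 true 38 false 42 false),
  .ax (.tri 76 true 36 false 44 false),
  .sym 48 false [] 44 false [] [],
  .ax (.tri 208 false 48 false 44 false),
  .ax (.tri 210 false 50 false 44 false),
  .sym 54 false [] 44 false [] [],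
  .ax (.tri 214 false 54 false 44 false),
  .ax (.tri 78 true 36 false 46 false),
  .ax (.tri 110 true 38 false 46 false),
  .ax (.tri 80 true 36 false 48 false),
  .ax (.tri 208 true 44 false 48 false),
  .sym 50 false [] 48 false [] [],
  .ax (.tri 274 false 50 false 48 false),
  .sym 52 false [] 48 false [] [],
  .ax (.tri 276 false 52 false 48 false),
  .ax (.tri 278 false 54 false 48 false),
  .ax (.tri 82 true 36 false 50 false),
  .ax (.tri 210 true 44 false 50 false),
  .ax (.tri 242 true 46 false 50 false),
  .ax (.tri 276 true 48 false 52 false),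
  .ax (.tri 86 true 36 false 54 false),
  .ax (.tri 214 true 44 false 54 false),
  .sym 36 true [] 4 true [] [],
  .sym 70 false [] 4 true [] [],
  .ax (.tri 6 false 70 false 4 true),
  .ax (.tri 8 false 72 false 4 true),
  .sym 74 false [] 4 true [] [],
  .ax (.tri 12 false 76 false 4 true),
  .sym 78 false [] 4 true [] [],
  .ax (.tri 14 false 78 false 4 true),
  .sym 80 false [] 4 true [] [],
  .ax (.tri 18 false 82 false 4 true),
  .sym 84 false [] 4 true [] [],
  .sym 86 false [] 4 true [] [],
  .ax (.tri 38 false 70 false 36 true),
  .sym 76 false [] 36 true [] [],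
  .ax (.tri 44 false 76 false 36 true),
  .sym 78 false [] 36 true [] [],
  .ax (.tri 48 false 80 false 36 true),
  .ax (.tri 50 false 82 false 36 true),
  .sym 84 false [] 36 true [] [],
  .sym 86 false [] 36 true [] [],
  .sym 74 false [] 70 false [] [],
  .ax (.tri 112 false 80 false 70 false),
  .ax (.tri 104 true 70 false 72 false),
  .ax (.tri 140 false 76 false 72 false),
  .sym 86 false [] 74 false [] [],
  .sym 80 false [] 76 false [] [],
  .ax (.tri 208 false 80 false 76 false),
  .ax (.tri 210 false 82 false 76 false),
  .sym 84 false [] 76 false [] [],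
  .sym 86 false [] 76 false [] [],
  .ax (.tri 110 true 70 false 78 false),
  .ax (.tri 208 true 76 false 80 false),
  .sym 82 false [] 80 false [] [],
  .ax (.tri 274 false 82 false 80 false),
  .sym 84 false [] 80 false [] [],
  .ax (.tri 276 false 84 false 80 false),
  .sym 86 false [] 80 false [] [],
  .ax (.tri 210 true 76 false 82 false),
  .ax (.tri 242 true 78 false 82 false),
  .ax (.tri 276 true 80 false 84 false),
  .sym 38 true [] 6 true [] [],
  .sym 70 true [] 6 true [] [],
  .ax (.tri 8 false 104 false 6 true),
  .ax (.tri 10 false 106 false 6 true),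
  .sym 108 false [] 6 true [] [],
  .sym 110 false [] 6 true [] [],
  .ax (.tri 14 false 110 false 6 true),
  .sym 112 false [] 6 true [] [],
  .sym 116 false [] 6 true [] [],
  .ax (.tri 20 false 116 false 6 true),
  .sym 118 false [] 6 true [] [],
  .sym 104 false [] 38 true [] [],
  .sym 108 false [] 38 true [] [],
  .sym 112 false [] 38 true [] [],
  .sym 106 false [] 70 true [] [],
  .sym 108 false [] 70 true [] [],
  .sym 106 false [] 104 false [] [],
  .sym 110 false [] 104 false [] [],
  .ax (.tri 142 false 110 false 104 false),
  .sym 118 false [] 104 false [] [],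
  .ax (.tri 138 true 104 false 106 false),
  .ax (.tri 174 false 110 false 106 false),
  .sym 110 false [] 108 false [] [],
  .ax (.tri 206 false 110 false 108 false),
  .sym 114 false [] 108 false [] [],
  .sym 116 false [] 108 false [] [],
  .ax (.tri 212 false 116 false 108 false),
  .sym 118 false [] 108 false [] [],
  .ax (.tri 174 true 106 false 110 false),
  .ax (.tri 206 true 108 false 110 false),
  .sym 116 false [] 110 false [] [],
  .ax (.tri 244 false 116 false 110 false),
  .ax (.tri 212 true 108 false 116 false),
  .ax (.tri 244 true 110 false 116 false),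
  .ax (.tri 276 true 112 false 116 false),
  .sym 40 true [] 8 true [] [],
  .sym 72 true [] 8 true [] [],
  .sym 138 false [] 8 true [] [],
  .ax (.tri 10 false 138 false 8 true),
  .sym 140 false [] 8 true [] [],
  .ax (.tri 12 false 140 false 8 true),
  .ax (.tri 22 false 150 false 8 true),
  .ax (.tri 74 false 138 false 72 true),
  .ax (.tri 86 false 150 false 72 true),
  .sym 138 false [] 104 true [] [],
  .sym 142 false [] 104 true [] [],
  .sym 150 false [] 104 true [] [],
  .sym 140 false [] 138 false [] [],
  .sym 142 false [] 138 false [] [],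
  .sym 150 false [] 138 false [] [],
  .ax (.tri 182 false 150 false 138 false),
  .ax (.tri 210 true 140 false 146 false),
  .ax (.tri 182 true 138 false 150 false),
  .sym 172 false [] 10 true [] [],
  .ax (.tri 12 false 172 false 10 true),
  .sym 176 false [] 10 true [] [],
  .sym 182 false [] 74 true [] [],
  .ax (.tri 110 false 174 false 106 true),
  .ax (.tri 118 false 182 false 106 true),
  .sym 172 false [] 138 true [] [],
  .sym 174 false [] 138 true [] [],
  .ax (.tri 150 false 182 false 138 true),
  .sym 174 false [] 172 false [] [],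
  .ax (.tri 210 true 172 false 178 false),
  .sym 44 true [] 12 true [] [],
  .sym 76 true [] 12 true [] [],
  .sym 108 true [] 12 true [] [],
  .sym 140 true [] 12 true [] [],
  .sym 172 true [] 12 true [] [],
  .sym 206 false [] 12 true [] [],
  .sym 208 false [] 12 true [] [],
  .ax (.tri 16 false 208 false 12 true),
  .sym 210 false [] 12 true [] [],
  .ax (.tri 18 false 210 false 12 true),
  .sym 212 false [] 12 true [] [],
  .ax (.tri 20 false 212 false 12 true),
  .sym 214 false [] 12 true [] [],
  .sym 208 false [] 44 true [] [],
  .ax (.tri 48 false 208 false 44 true),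
  .ax (.tri 50 false 210 false 44 true),
  .sym 214 false [] 44 true [] [],
  .sym 208 false [] 76 true [] [],
  .ax (.tri 80 false 208 false 76 true),
  .ax (.tri 82 false 210 false 76 true),
  .sym 212 false [] 76 true [] [],
  .sym 214 false [] 76 true [] [],
  .sym 206 false [] 108 true [] [],
  .ax (.tri 110 false 206 false 108 true),
  .sym 210 false [] 108 true [] [],
  .sym 212 false [] 108 true [] [],
  .sym 214 false [] 108 true [] [],
  .sym 206 false [] 172 true [] [],
  .sym 208 false [] 206 false [] [],
  .ax (.tri 240 false 208 false 206 false),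
  .sym 212 false [] 206 false [] [],
  .sym 214 false [] 206 false [] [],
  .ax (.tri 240 true 206 false 208 false),
  .sym 210 false [] 208 false [] [],
  .ax (.tri 274 false 210 false 208 false),
  .sym 212 false [] 208 false [] [],
  .ax (.tri 276 false 212 false 208 false),
  .sym 214 false [] 208 false [] [],
  .ax (.tri 278 false 214 false 208 false),
  .ax (.tri 274 true 208 false 210 false),
  .sym 212 false [] 210 false [] [],
  .sym 214 false [] 210 false [] [],
  .ax (.tri 276 true 208 false 212 false),
  .ax (.tri 308 true 210 false 212 false),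
  .sym 214 false [] 212 false [] [],
  .ax (.tri 342 false 214 false 212 false),
  .ax (.tri 278 true 208 false 214 false)]

theorem qk0 : (chk qT 8 qc0 && 308 == 8 + qc0.length) = true := by
  decide +kernel

def qc1 : List I2 := [
  .ax (.tri 342 true 212 false 214 false),
  .sym 46 true [] 14 true [] [],
  .sym 78 true [] 14 true [] [],
  .sym 110 true [] 14 true [] [],
  .sym 142 true [] 14 true [] [],
  .sym 206 true [] 14 true [] [],
  .sym 244 false [] 14 true [] [],
  .sym 240 false [] 110 true [] [],
  .ax (.tri 116 false 244 false 110 true),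
  .sym 240 false [] 206 true [] [],
  .ax (.tri 208 false 240 false 206 true),
  .sym 244 false [] 206 true [] [],
  .ax (.tri 212 false 244 false 206 true),
  .sym 246 false [] 206 true [] [],
  .sym 244 false [] 240 false [] [],
  .ax (.tri 276 false 244 false 240 false),
  .ax (.tri 276 true 240 false 244 false),
  .sym 48 true [] 16 true [] [],
  .sym 80 true [] 16 true [] [],
  .sym 112 true [] 16 true [] [],
  .sym 208 true [] 16 true [] [],
  .sym 240 true [] 16 true [] [],
  .sym 274 false [] 16 true [] [],
  .ax (.tri 18 false 274 false 16 true),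
  .sym 276 false [] 16 true [] [],
  .ax (.tri 20 false 276 false 16 true),
  .sym 278 false [] 16 true [] [],
  .ax (.tri 22 false 278 false 16 true),
  .sym 274 false [] 48 true [] [],
  .ax (.tri 50 false 274 false 48 true),
  .sym 276 false [] 48 true [] [],
  .sym 274 false [] 80 true [] [],
  .ax (.tri 82 false 274 false 80 true),
  .sym 276 false [] 80 true [] [],
  .sym 278 false [] 80 true [] [],
  .ax (.tri 210 false 274 false 208 true),
  .sym 276 false [] 208 true [] [],
  .ax (.tri 212 false 276 false 208 true),
  .sym 278 false [] 208 true [] [],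
  .ax (.tri 214 false 278 false 208 true),
  .sym 276 false [] 240 true [] [],
  .ax (.tri 244 false 276 false 240 true),
  .sym 276 false [] 274 false [] [],
  .sym 278 false [] 274 false [] [],
  .ax (.tri 310 false 278 false 274 false),
  .ax (.tri 308 true 274 false 276 false),
  .ax (.tri 310 true 274 false 278 false),
  .ax (.tri 342 true 276 false 278 false),
  .sym 210 true [] 18 true [] [],
  .sym 274 true [] 18 true [] [],
  .sym 308 false [] 18 true [] [],
  .ax (.tri 20 false 308 false 18 true),
  .sym 310 false [] 18 true [] [],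
  .ax (.tri 22 false 310 false 18 true),
  .sym 308 false [] 210 true [] [],
  .ax (.tri 212 false 308 false 210 true),
  .sym 310 false [] 210 true [] [],
  .ax (.tri 214 false 310 false 210 true),
  .sym 308 false [] 274 true [] [],
  .ax (.tri 276 false 308 false 274 true),
  .sym 310 false [] 274 true [] [],
  .ax (.tri 278 false 310 false 274 true),
  .sym 310 false [] 308 false [] [],
  .ax (.tri 342 false 310 false 308 false),
  .sym 116 true [] 20 true [] [],
  .sym 212 true [] 20 true [] [],
  .sym 276 true [] 20 true [] [],
  .sym 308 true [] 20 true [] [],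
  .sym 342 false [] 20 true [] [],
  .ax (.tri 22 false 342 false 20 true),
  .sym 342 false [] 212 true [] [],
  .sym 342 false [] 276 true [] [],
  .sym 342 false [] 308 true [] [],
  .sym 54 true [] 22 true [] [],
  .sym 86 true [] 22 true [] [],
  .sym 118 true [] 22 true [] [],
  .sym 214 true [] 22 true [] [],
  .sym 246 true [] 22 true [] [],
  .sym 278 true [] 22 true [] [],
  .sym 310 true [] 22 true [] [],
  .sym 342 true [] 22 true [] [],
  .ch [([],0,false)],
  .ch [([],1,false)],
  .ch [([],2,false)],
  .ch [([],390,false)],
  .ch [([],391,false)],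
  .ch [([],4,true)],
  .ch [([],394,true)],
  .ch [([],395,false)],
  .ch [([],5,true)],
  .ch [([],397,true)],
  .ch [([],398,false)],
  .ch [([],6,true)],
  .ch [([],400,true)],
  .ch [([],401,false)],
  .ch [([],7,true)],
  .ch [([],403,true)],
  .ch [([],404,false)],
  .ch [([],8,true)],
  .ch [([],406,false)],
  .ch [([],9,true)],
  .ch [([],408,false)],
  .ch [([],12,true)],
  .ch [([],410,false)],
  .ch [([],389,false),([],17,true)],
  .ch [([],390,false),([],20,true)],
  .ch [([],413,false)],
  .ch [([],391,false),([],23,true)],
  .ch [([],415,false)],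
  .ch [([],395,false),([],30,true)],
  .ch [([],417,false)],
  .ch [([],3,true)],
  .ch [([],419,false)],
  .ch [([],10,true)],
  .ch [([],421,false)],
  .ch [([],11,true)],
  .ch [([],423,false)],
  .ch [([],13,true)],
  .ch [([],425,false)],
  .ch [([],14,true)],
  .ch [([],427,false)],
  .ch [([],15,true)],
  .ch [([],429,false)],
  .ch [([],16,true)],
  .ch [([],431,false)],
  .ch [([],18,true),([],389,true)],
  .ch [([],389,false),([],19,true)],
  .ch [([],434,false)],
  .ch [([],389,false),([],21,true),([],390,true)],
  .ch [([],436,false)],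
  .ch [([],390,false),([],22,true),([],389,true)],
  .ch [([],24,true),([],391,true)],
  .ch [([],25,true)],
  .ch [([],440,false)],
  .ch [([],26,true)],
  .ch [([],442,false)],
  .ch [([],27,true),([],389,true)],
  .ch [([],28,true),([],390,true)],
  .ch [([],391,false),([],29,true)],
  .ch [([],446,false)],
  .ch [([],31,true),([],395,true)],
  .ch [([],395,false),([],32,true)],
  .ch [([],449,false)],
  .ch [([],395,false),([],33,true)],
  .ch [([],451,false)],
  .ch [([],395,false),([],34,true)],
  .ch [([],391,false),([],35,true),([],395,true)],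
  .ch [([],454,false)],
  .ch [([],395,false),([],36,true),([],391,true)],
  .ch [([],456,false)],
  .ch [([],391,false),([],37,true),([],398,true)],
  .ch [([],398,false),([],38,true),([],391,true)],
  .ch [([],395,false),([],39,true),([],398,true)],
  .ch [([],398,false),([],40,true),([],395,true)],
  .ch [([],461,false)],
  .ch [([],41,true),([],401,true)],
  .ch [([],401,false),([],42,true)],
  .ch [([],391,false),([],43,true),([],401,true)],
  .ch [([],465,false)],
  .ch [([],401,false),([],44,true)],
  .ch [([],467,false)],
  .ch [([],401,false),([],45,true),([],395,true)],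
  .ch [([],469,false)],
  .ch [([],389,false),([],46,true),([],404,true)],
  .ch [([],404,false),([],47,true),([],389,true)],
  .ch [([],404,false),([],48,true),([],390,true)],
  .ch [([],473,false)],
  .ch [([],391,false),([],49,true),([],404,true)],
  .ch [([],404,false),([],50,true),([],391,true)],
  .ch [([],404,false),([],51,true),([],395,true)],
  .ch [([],477,false)],
  .ch [([],404,false),([],52,true),([],401,true)],
  .ch [([],479,false)],
  .ch [([],108,true)],
  .ch [([],481,false)],
  .ch [([],110,true)],
  .ch [([],483,false)],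
  .ch [([],391,false),([],113,true)],
  .ch [([],115,true)],
  .ch [([],395,false),([],117,true)],
  .ch [([],401,false),([],120,true)],
  .ch [([],488,false)],
  .ch [([],404,false),([],121,true)],
  .ch [([],490,false)],
  .ch [([],157,true)],
  .ch [([],492,false)],
  .ch [([],158,true)],
  .ch [([],494,false)],
  .ch [([],390,false),([],161,true)],
  .ch [([],496,false)],
  .ch [([],163,true)],
  .ch [([],395,false),([],165,true)],
  .ch [([],401,false),([],167,true)],
  .ch [([],500,false)],
  .ch [([],404,false),([],168,true)],
  .ch [([],502,false)],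
  .ch [([],197,true)],
  .ch [([],504,false)],
  .ch [([],198,true)],
  .ch [([],506,false)],
  .ch [([],391,false),([],201,true)],
  .ch [([],508,false)],
  .ch [([],202,true)],
  .ch [([],395,false),([],204,true)],
  .ch [([],511,false)],
  .ch [([],401,false),([],205,true)],
  .ch [([],513,false)],
  .ch [([],404,false),([],207,true)],
  .ch [([],515,false)],
  .ch [([],232,true)],
  .ch [([],517,false)],
  .ch [([],233,true)],
  .ch [([],390,false),([],234,true)],
  .ch [([],391,false),([],236,true)],
  .ch [([],391,false),([],250,true)],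
  .ch [([],395,false),([],252,true)],
  .ch [([],523,false)],
  .ch [([],261,true)],
  .ch [([],262,true)],
  .ch [([],263,true)],
  .ch [([],527,false)],
  .ch [([],389,false),([],264,true)],
  .ch [([],390,false),([],265,true)],
  .ch [([],530,false)],
  .ch [([],266,true)],
  .ch [([],532,false)],
  .ch [([],395,false),([],267,true)],
  .ch [([],534,false)],
  .ch [([],398,false),([],269,true)],
  .ch [([],401,false),([],271,true)],
  .ch [([],537,false)],
  .ch [([],404,false),([],273,true)],
  .ch [([],539,false)],
  .ch [([],309,true)],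
  .ch [([],541,false)],
  .ch [([],310,true)],
  .ch [([],311,true)],
  .ch [([],544,false)],
  .ch [([],389,false),([],312,true)],
  .ch [([],391,false),([],313,true)],
  .ch [([],401,false),([],314,true)],
  .ch [([],325,true)],
  .ch [([],326,true)],
  .ch [([],327,true)],
  .ch [([],391,false),([],328,true)],
  .ch [([],552,false)],
  .ch [([],329,true)],
  .ch [([],554,false)],
  .ch [([],398,false),([],330,true)],
  .ch [([],401,false),([],332,true)],
  .ch [([],557,false)],
  .ch [([],404,false),([],334,true)],
  .ch [([],559,false)],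
  .ch [([],391,false),([],356,true)],
  .ch [([],395,false),([],357,true)],
  .ch [([],401,false),([],358,true)],
  .ch [([],563,false)],
  .ch [([],404,false),([],360,true)],
  .ch [([],372,true)],
  .ch [([],391,false),([],373,true)],
  .ch [([],567,false)],
  .ch [([],395,false),([],374,true)],
  .ch [([],569,false)],
  .ch [([],398,false),([],375,true)],
  .ch [([],571,false)],
  .ch [([],404,false),([],376,true)],
  .ch [([],573,false)],
  .ch [([],381,true)],
  .ch [([],382,true)],
  .ch [([],383,true)],
  .ch [([],391,false),([],384,true)],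
  .ch [([],578,false)],
  .ch [([],385,true)],
  .ch [([],580,false)],
  .ch [([],395,false),([],386,true)],
  .ch [([],582,false)],
  .ch [([],398,false),([],387,true)],
  .ch [([],584,false)],
  .ch [([],401,false),([],388,true)],
  .ch [([],53,false)],
  .ch [([],54,false)],
  .ch [([],55,false)],
  .ch [([],56,false)],
  .ch [([],57,false)],
  .ch [([],58,false)],
  .ch [([],59,false)],
  .ch [([],60,false)],
  .ch [([],61,false)],
  .ch [([],62,false)],
  .ch [([],63,false)],
  .ch [([],64,false)],
  .ch [([],65,false)],
  .ch [([],66,false)],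
  .ch [([],67,false)],
  .ch [([],68,false)],
  .ch [([],69,false)],
  .ch [([],70,false)],
  .ch [([],71,false)],
  .ch [([],72,false)],
  .ch [([],73,false)]]

theorem qk1 : (chk qT 308 qc1 && 608 == 308 + qc1.length) = true := by
  decide +kernel

def qc2 : List I2 := [
  .ch [([],74,false)],
  .ch [([],75,false)],
  .ch [([],76,false)],
  .ch [([],77,false)],
  .ch [([],78,false)],
  .ch [([],79,false)],
  .ch [([],80,false)],
  .ch [([],81,false)],
  .ch [([],82,false)],
  .ch [([],83,false)],
  .ch [([],84,false)],
  .ch [([],85,false)],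
  .ch [([],86,false)],
  .ch [([],87,false)],
  .ch [([],88,false)],
  .ch [([],89,false)],
  .ch [([],90,false)],
  .ch [([],91,false)],
  .ch [([],92,false)],
  .ch [([],93,false)],
  .ch [([],94,false)],
  .ch [([],95,false)],
  .ch [([],96,false)],
  .ch [([],97,false)],
  .ch [([],98,false)],
  .ch [([],99,false)],
  .ch [([],100,false)],
  .ch [([],101,false)],
  .ch [([],102,false)],
  .ch [([],103,false)],
  .ch [([],104,false)],
  .ch [([],105,false)],
  .ch [([],106,false)],
  .ch [([],107,false)],
  .ch [([],109,false)],
  .ch [([],111,false)],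
  .ch [([],112,false)],
  .ch [([],114,false)],
  .ch [([],116,false)],
  .ch [([],118,false)],
  .ch [([],119,false)],
  .ch [([],122,true)],
  .ch [([],123,false)],
  .ch [([],649,false),([],425,false),([],422,false),([4],650,false),([],432,true),([],427,true),([],419,true)],
  .ch [([],651,false)],
  .ch [([],391,false),([],124,true)],
  .ch [([],125,false)],
  .ch [([],126,true)],
  .ch [([],127,false),([],395,true)],
  .ch [([],656,false)],
  .ch [([],128,false)],
  .ch [([],449,false),([],452,false),([4],658,true),([],422,true),([],448,true)],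
  .ch [([],401,false),([],129,true)],
  .ch [([],404,false),([],130,true)],
  .ch [([],131,false)],
  .ch [([],389,false),([],132,true)],
  .ch [([],133,false),([],391,true)],
  .ch [([],134,false)],
  .ch [([],135,false)],
  .ch [([],136,false)],
  .ch [([],395,false),([],137,true),([],391,true)],
  .ch [([],138,false)],
  .ch [([],139,false)],
  .ch [([],404,false),([],140,true),([],391,true)],
  .ch [([],141,false)],
  .ch [([],142,false)],
  .ch [([],143,false)],
  .ch [([],144,false)],
  .ch [([],145,false)],
  .ch [([],398,false),([],146,true),([],395,true)],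
  .ch [([],147,false)],
  .ch [([],401,false),([],148,true),([],395,true)],
  .ch [([],149,false)],
  .ch [([],150,false)],
  .ch [([],151,false)],
  .ch [([],152,false)],
  .ch [([],153,false)],
  .ch [([],154,false)],
  .ch [([],155,false)],
  .ch [([],156,false)],
  .ch [([],159,false)],
  .ch [([],160,false)],
  .ch [([],162,false)],
  .ch [([],164,false)],
  .ch [([],166,false)],
  .ch [([],169,false)],
  .ch [([],653,false),([],391,false),([],170,true)],
  .ch [([],171,false)],
  .ch [([],655,false),([],172,true)],
  .ch [([],173,false)],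
  .ch [([],174,false)],
  .ch [([],660,false),([],401,false),([],175,true)],
  .ch [([],661,false),([],404,false),([],176,true)],
  .ch [([],390,false),([],177,true)],
  .ch [([],178,false)],
  .ch [([],179,false)],
  .ch [([],180,false)],
  .ch [([],404,false),([],181,true),([],390,true)],
  .ch [([],395,false),([],182,true),([],391,true)],
  .ch [([],183,false)],
  .ch [([],184,false)],
  .ch [([],401,false),([],185,true),([],391,true)],
  .ch [([],404,false),([],186,true),([],391,true)],
  .ch [([],187,false)],
  .ch [([],188,false)],
  .ch [([],398,false),([],189,true),([],395,true)],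
  .ch [([],190,false)],
  .ch [([],401,false),([],191,true),([],395,true)],
  .ch [([],192,false)],
  .ch [([],404,false),([],193,true),([],395,true)],
  .ch [([],194,false)],
  .ch [([],195,false)],
  .ch [([],196,false)],
  .ch [([],199,false)],
  .ch [([],200,false)],
  .ch [([],203,false)],
  .ch [([],556,false),([],607,true),([],416,true),([],552,true)],
  .ch [([],206,false)],
  .ch [([],663,false),([],389,false),([],208,true)],
  .ch [([],391,false),([],209,true)],
  .ch [([],395,false),([],210,true)],
  .ch [([],701,false),([],390,false),([],211,true)],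
  .ch [([],391,false),([],212,true)],
  .ch [([],389,false),([],213,false),([],390,true)],
  .ch [([],214,true),([],389,true)],
  .ch [([],215,false)],
  .ch [([],404,false),([],216,true),([],389,true)],
  .ch [([],217,false)],
  .ch [([],218,false)],
  .ch [([],219,true),([],391,true)],
  .ch [([],220,false)],
  .ch [([],398,false),([],221,true),([],391,true)],
  .ch [([],401,false),([],222,true),([],391,true)],
  .ch [([],223,false)],
  .ch [([],404,false),([],224,true),([],391,true)],
  .ch [([],225,false)],
  .ch [([],226,false)],
  .ch [([],227,false),([],401,true)],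
  .ch [([],228,false)],
  .ch [([],464,false),([],468,false),([14],746,true),([],441,true),([],463,true)],
  .ch [([],229,false)],
  .ch [([],230,false)],
  .ch [([],231,false)],
  .ch [([],235,false)],
  .ch [([],237,false)],
  .ch [([],238,false)],
  .ch [([],239,false)],
  .ch [([],240,false)],
  .ch [([],390,false),([],241,true)],
  .ch [([],732,false),([],242,true)],
  .ch [([],734,false),([],404,false),([],243,true)],
  .ch [([],390,false),([],244,false),([],391,true)],
  .ch [([],245,true),([],390,true)],
  .ch [([],390,false),([],246,false),([],404,true)],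
  .ch [([],761,false)],
  .ch [([],247,false)],
  .ch [([],472,false),([],474,false),([38],763,true),([],437,true),([],471,true)],
  .ch [([],764,false)],
  .ch [([],248,false)],
  .ch [([],249,false)],
  .ch [([],251,false)],
  .ch [([],705,false),([],404,false),([],253,true)],
  .ch [([],254,false)],
  .ch [([],255,false)],
  .ch [([],389,false),([],256,false),([],391,true)],
  .ch [([],389,false),([],257,false),([],760,true)],
  .ch [([],258,false)],
  .ch [([],259,true),([],391,true)],
  .ch [([],260,false)],
  .ch [([],268,false)],
  .ch [([],270,false)],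
  .ch [([],272,false)],
  .ch [([],668,false),([],395,false),([],274,true)],
  .ch [([],275,false)],
  .ch [([],276,false)],
  .ch [([],671,false),([],404,false),([],277,true)],
  .ch [([],706,false),([],395,false),([],278,true)],
  .ch [([],279,false)],
  .ch [([],280,false)],
  .ch [([],709,false),([],401,false),([],281,true)],
  .ch [([],710,false),([],404,false),([],282,true)],
  .ch [([],283,false),([],737,true)],
  .ch [([],284,false)],
  .ch [([],285,false),([],398,true),([],739,true)],
  .ch [([],286,false),([],401,true),([],740,true)],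
  .ch [([],287,false),([],404,true),([],742,true)],
  .ch [([],390,false),([],288,false),([],775,true)],
  .ch [([],289,false),([],395,true)],
  .ch [([],290,false)],
  .ch [([],401,false),([],291,true)],
  .ch [([],292,false),([],404,true)],
  .ch [([],293,false)],
  .ch [([],395,false),([],294,false),([],398,true)],
  .ch [([],800,false)],
  .ch [([],562,false),([],801,false),([],608,true),([],416,true),([],561,true)],
  .ch [([],295,false)],
  .ch [([],459,false),([],462,false),([37],803,true),([],455,true),([],458,true)],
  .ch [([],804,false)],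
  .ch [([],401,false),([],296,true),([],395,true)],
  .ch [([],297,false)],
  .ch [([],404,false),([],298,true),([],395,true)],
  .ch [([],299,false)],
  .ch [([],300,false)],
  .ch [([],398,false),([],301,false),([],401,true)],
  .ch [([],398,false),([],302,false),([],404,true)],
  .ch [([],303,false)],
  .ch [([],304,false)],
  .ch [([],401,false),([],305,false),([],404,true)],
  .ch [([],306,false)],
  .ch [([],307,false)],
  .ch [([],308,false)],
  .ch [([],315,false),([],395,true)],
  .ch [([],316,false)],
  .ch [([],395,false),([],317,true),([],391,true)],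
  .ch [([],318,false)],
  .ch [([],797,false),([],401,false),([],319,true),([],391,true)],
  .ch [([],320,false)],
  .ch [([],404,false),([],321,true),([],391,true)],
  .ch [([],401,false),([],322,true),([],395,true)],
  .ch [([],323,false)],
  .ch [([],324,false)],
  .ch [([],331,false)],
  .ch [([],333,false)],
  .ch [([],335,false)],
  .ch [([],677,false),([],398,false),([],336,true)],
  .ch [([],337,false)],
  .ch [([],679,false),([],401,false),([],338,true)],
  .ch [([],713,false),([],398,false),([],339,true)],
  .ch [([],340,false)],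
  .ch [([],715,false),([],401,false),([],341,true)],
  .ch [([],717,false),([],404,false),([],342,true)],
  .ch [([],343,false)],
  .ch [([],806,false),([],401,false),([],344,true),([],391,true)],
  .ch [([],345,false)],
  .ch [([],808,false),([],404,false),([],346,true),([],391,true)],
  .ch [([],347,false)],
  .ch [([],348,false),([],401,true),([],826,true)],
  .ch [([],349,false)],
  .ch [([],398,false),([],350,false),([],401,true)],
  .ch [([],398,false),([],351,false),([],404,true)],
  .ch [([],352,false)],
  .ch [([],353,false)],
  .ch [([],354,false)],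
  .ch [([],355,false)],
  .ch [([],359,false)],
  .ch [([],361,false)],
  .ch [([],401,false),([],362,true),([],391,true)],
  .ch [([],363,false)],
  .ch [([],404,false),([],364,true),([],391,true)],
  .ch [([],365,false)],
  .ch [([],401,false),([],366,true),([],395,true)],
  .ch [([],367,false)],
  .ch [([],404,false),([],368,true),([],395,true)],
  .ch [([],369,false)],
  .ch [([],401,false),([],370,false),([],404,true)],
  .ch [([],371,false)],
  .ch [([],377,false)],
  .ch [([],404,false),([],378,true),([],391,true)],
  .ch [([],404,false),([],379,true),([],395,true)],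
  .ch [([],398,false),([],380,false),([],404,true)],
  .ch [([14],646,false)],
  .ch [([],868,false)],
  .ch [([6],643,false)],
  .ch [([],870,false)],
  .ch [([4],642,false)],
  .ch [([],872,false)],
  .ch [([342],641,false)],
  .ch [([],874,true)],
  .ch [([],875,false)],
  .ch [([21],876,true)],
  .ch [([278],639,false)],
  .ch [([],878,true)],
  .ch [([],879,false)],
  .ch [([17],880,true)],
  .ch [([214],638,false)],
  .ch [([],882,true)],
  .ch [([],883,false)],
  .ch [([13],884,true)],
  .ch [([150],636,false)],
  .ch [([],886,true)],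
  .ch [([],887,false)],
  .ch [([9],888,true)],
  .ch [([118],635,false)],
  .ch [([],890,true)],
  .ch [([],891,false)],
  .ch [([7],892,true)],
  .ch [([54],634,false)],
  .ch [([],894,true)],
  .ch [([],895,false)],
  .ch [([3],896,true)],
  .ch [([55],897,false)],
  .ch [([],898,true)],
  .ch [([308],632,false)],
  .ch [([],900,true)],
  .ch [([],901,false)],
  .ch [([19],902,true)],
  .ch [([276],631,false)],
  .ch [([],904,true)],
  .ch [([],905,false)],
  .ch [([17],906,true)]]

theorem qk2 : (chk qT 608 qc2 && 908 == 608 + qc2.length) = true := by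
  decide +kernel

def qc3 : List I2 := [
  .ch [([212],629,false)],
  .ch [([],908,true)],
  .ch [([],909,false)],
  .ch [([13],910,true)],
  .ch [([116],628,false)],
  .ch [([],912,true)],
  .ch [([],913,false)],
  .ch [([7],914,true)],
  .ch [([274],624,false)],
  .ch [([],916,true)],
  .ch [([],917,false)],
  .ch [([17],918,true)],
  .ch [([210],623,false)],
  .ch [([],920,true)],
  .ch [([],921,false)],
  .ch [([13],922,true)],
  .ch [([82],622,false)],
  .ch [([],924,true)],
  .ch [([],925,false)],
  .ch [([5],926,true)],
  .ch [([50],621,false)],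
  .ch [([],928,true)],
  .ch [([],929,false)],
  .ch [([3],930,true)],
  .ch [([51],931,false)],
  .ch [([],932,true)],
  .ch [([],933,false)],
  .ch [([18],934,false)],
  .ch [([208],618,false)],
  .ch [([],936,true)],
  .ch [([],937,false)],
  .ch [([13],938,true)],
  .ch [([36],587,false)],
  .ch [([],940,true)],
  .ch [([],941,false)],
  .ch [([5],942,true)],
  .ch [([38],588,false)],
  .ch [([],944,true)],
  .ch [([],945,false)],
  .ch [([7],946,true)],
  .ch [([48],589,false)],
  .ch [([],948,true)],
  .ch [([],949,false)],
  .ch [([17],950,true)],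
  .ch [([50],590,false)],
  .ch [([],952,true)],
  .ch [([],590,false)],
  .ch [([],591,false)],
  .ch [([70],592,false)],
  .ch [([],956,true)],
  .ch [([],957,false)],
  .ch [([7],958,true)],
  .ch [([],592,false)],
  .ch [([80],593,false)],
  .ch [([],961,true)],
  .ch [([],962,false)],
  .ch [([17],963,true)],
  .ch [([],595,false)],
  .ch [([6],965,false)],
  .ch [([],596,false)],
  .ch [([],597,false)],
  .ch [([],599,false)],
  .ch [([8],969,true)],
  .ch [([],600,false)],
  .ch [([],602,false)],
  .ch [([10],972,false)],
  .ch [([],605,false)],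
  .ch [([12],974,false)],
  .ch [([],606,false)],
  .ch [([12],976,false)],
  .ch [([208],607,false)],
  .ch [([],978,true)],
  .ch [([],979,false)],
  .ch [([17],980,true)],
  .ch [([],607,false)],
  .ch [([12],982,true)],
  .ch [([210],608,false)],
  .ch [([],984,true)],
  .ch [([],985,false)],
  .ch [([19],986,true)],
  .ch [([],608,false)],
  .ch [([12],988,true)],
  .ch [([212],609,false)],
  .ch [([],990,true)],
  .ch [([],991,false)],
  .ch [([21],992,true)],
  .ch [([],609,false)],
  .ch [([12],994,true)],
  .ch [([214],610,false)],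
  .ch [([],996,true)],
  .ch [([],997,false)],
  .ch [([23],998,true)],
  .ch [([],610,false)],
  .ch [([12],1000,true)],
  .ch [([],612,false)],
  .ch [([],615,false)],
  .ch [([],616,false)],
  .ch [([16],1004,false)],
  .ch [([],617,false)],
  .ch [([16],1006,false)],
  .ch [([],618,false)],
  .ch [([16],1008,false)],
  .ch [([],1009,false)],
  .ch [([13],1010,true)],
  .ch [([274],619,false)],
  .ch [([],1012,true)],
  .ch [([],1013,false)],
  .ch [([19],1014,true)],
  .ch [([],619,false)],
  .ch [([276],620,false)],
  .ch [([],1017,true)],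
  .ch [([],1018,false)],
  .ch [([21],1019,true)],
  .ch [([],621,false)],
  .ch [([18],1021,false)],
  .ch [([],622,false)],
  .ch [([18],1023,false)],
  .ch [([],1024,false)],
  .ch [([5],1025,true)],
  .ch [([],623,false)],
  .ch [([18],1027,false)],
  .ch [([],1028,false)],
  .ch [([13],1029,true)],
  .ch [([],624,false)],
  .ch [([18],1031,false)],
  .ch [([],1032,false)],
  .ch [([17],1033,true)],
  .ch [([308],625,false)],
  .ch [([],1035,true)],
  .ch [([],1036,false)],
  .ch [([21],1037,true)],
  .ch [([],629,false)],
  .ch [([20],1039,false)],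
  .ch [([],630,false)],
  .ch [([20],1041,false)],
  .ch [([],1042,false)],
  .ch [([15],1043,true)],
  .ch [([],631,false)],
  .ch [([20],1045,false)],
  .ch [([],1046,false)],
  .ch [([17],1047,true)],
  .ch [([342],633,false)],
  .ch [([],1049,true)],
  .ch [([],1050,false)],
  .ch [([23],1051,true)],
  .ch [([],635,false)],
  .ch [([],637,false)],
  .ch [([22],1054,false)],
  .ch [([],1055,false)],
  .ch [([11],1056,true)],
  .ch [([],638,false)],
  .ch [([22],1058,false)],
  .ch [([],639,false)],
  .ch [([22],1060,false)],
  .ch [([],1061,false)],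
  .ch [([17],1062,true)],
  .ch [([],641,false)],
  .ch [([22],1064,false)],
  .ch [([],1065,false)],
  .ch [([21],1066,true)],
  .ch [([],642,false)],
  .ch [([2],1068,true)],
  .ch [([],643,false)],
  .ch [([2],1070,true)],
  .ch [([],644,false)],
  .ch [([2],1072,true)],
  .ch [([],645,false)],
  .ch [([2],1074,true)],
  .ch [([80],616,false)],
  .ch [([],1076,true)],
  .ch [([],1077,false)],
  .ch [([5],1078,true)],
  .ch [([],647,false)],
  .ch [([2],1080,true)],
  .ch [([48],615,false)],
  .ch [([],1082,true)],
  .ch [([],1083,false)],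
  .ch [([3],1084,true)],
  .ch [([49],1085,false)],
  .ch [([],1086,true)],
  .ch [([],648,false)],
  .ch [([2],1088,true)],
  .ch [([],651,false),([],649,false)],
  .ch [([],650,false)],
  .ch [([36],1091,true)],
  .ch [([],654,false)],
  .ch [([36],1093,true)],
  .ch [([],658,false)],
  .ch [([36],1095,true)],
  .ch [([],700,false),([],661,false)],
  .ch [([],662,false)],
  .ch [([38],1098,false)],
  .ch [([],726,false),([],663,false)],
  .ch [([],667,false)],
  .ch [([44],1101,false)],
  .ch [([],669,false)],
  .ch [([44],1103,true)],
  .ch [([],670,false)],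
  .ch [([44],1105,true)],
  .ch [([],672,false)],
  .ch [([44],1107,true)],
  .ch [([],673,false)],
  .ch [([46],1109,false)],
  .ch [([],675,false)],
  .ch [([48],1111,false)],
  .ch [([],676,false)],
  .ch [([48],1113,false)],
  .ch [([],678,false)],
  .ch [([48],1115,true)],
  .ch [([],680,false)],
  .ch [([48],1117,true)],
  .ch [([],682,false)],
  .ch [([50],1119,false)],
  .ch [([],683,false)],
  .ch [([50],1121,false)],
  .ch [([],684,false)],
  .ch [([50],1123,false)],
  .ch [([],687,false)],
  .ch [([],688,false)],
  .ch [([4],1126,true)],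
  .ch [([],689,false)],
  .ch [([4],1128,true)],
  .ch [([206],614,false)],
  .ch [([],1130,true)],
  .ch [([],1131,false)],
  .ch [([13],1132,true)],
  .ch [([],690,false)],
  .ch [([4],1134,true)],
  .ch [([],691,false)],
  .ch [([4],1136,true)],
  .ch [([],692,false)],
  .ch [([4],1138,true)],
  .ch [([38],693,false)],
  .ch [([],1140,false)],
  .ch [([],695,false)],
  .ch [([36],1142,true)],
  .ch [([48],697,false)],
  .ch [([],697,false)],
  .ch [([36],1145,true)],
  .ch [([],698,false)],
  .ch [([36],1147,true)],
  .ch [([],699,false)],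
  .ch [([],700,false)],
  .ch [([],729,false),([],701,false)],
  .ch [([],707,false)],
  .ch [([76],1152,true)],
  .ch [([],708,false)],
  .ch [([76],1154,true)],
  .ch [([],712,false)],
  .ch [([80],1156,false)],
  .ch [([],714,false)],
  .ch [([80],1158,true)],
  .ch [([],716,false)],
  .ch [([80],1160,true)],
  .ch [([],719,false)],
  .ch [([82],1162,false)],
  .ch [([110],613,false)],
  .ch [([],1164,true)],
  .ch [([],721,false)],
  .ch [([6],1166,true)],
  .ch [([],722,false)],
  .ch [([6],1168,true)],
  .ch [([46],611,false)],
  .ch [([],1170,true)],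
  .ch [([],1171,false)],
  .ch [([3],1172,true)],
  .ch [([],723,false)],
  .ch [([6],1174,true)],
  .ch [([],725,false)],
  .ch [([6],1176,true)],
  .ch [([],727,false)],
  .ch [([],737,false)],
  .ch [([],738,false)],
  .ch [([108],1180,true)],
  .ch [([],746,false)],
  .ch [([110],1182,true)],
  .ch [([],749,false)],
  .ch [([116],1184,false)],
  .ch [([],750,false)],
  .ch [([116],1186,false)],
  .ch [([],751,false)],
  .ch [([8],1188,true)],
  .ch [([],752,false)],
  .ch [([8],1190,true)],
  .ch [([76],604,false)],
  .ch [([],1192,true)],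
  .ch [([],1193,false)],
  .ch [([5],1194,true)],
  .ch [([],753,false)],
  .ch [([8],1196,true)],
  .ch [([74],754,false)],
  .ch [([],1198,false)],
  .ch [([],757,false)],
  .ch [([],763,false)],
  .ch [([138],1201,true)],
  .ch [([],766,false)],
  .ch [([146],1203,false)],
  .ch [([],767,false)],
  .ch [([150],1205,false)],
  .ch [([],768,false)]]

theorem qk3 : (chk qT 908 qc3 && 1208 == 908 + qc3.length) = true := by
  decide +kernel

def qc4 : List I2 := [
  .ch [([10],1207,true)],
  .ch [([],770,false)],
  .ch [([106],1209,true)],
  .ch [([150],774,false)],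
  .ch [([],1211,false)],
  .ch [([],776,false)],
  .ch [([178],1213,false)],
  .ch [([],777,false)],
  .ch [([12],1215,true)],
  .ch [([],778,false)],
  .ch [([12],1217,true)],
  .ch [([48],781,false)],
  .ch [([],1219,false)],
  .ch [([],781,false)],
  .ch [([44],1221,true)],
  .ch [([80],785,false)],
  .ch [([],1223,false)],
  .ch [([],786,false)],
  .ch [([76],1225,true)],
  .ch [([110],790,false)],
  .ch [([],1227,false)],
  .ch [([],791,false)],
  .ch [([],792,false)],
  .ch [([],793,false)],
  .ch [([],799,false)],
  .ch [([208],1232,false)],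
  .ch [([],803,false)],
  .ch [([208],1234,true)],
  .ch [([],807,false)],
  .ch [([208],1236,true)],
  .ch [([],842,false),([],808,false)],
  .ch [([],810,false)],
  .ch [([210],1239,false)],
  .ch [([],854,false),([],811,false)],
  .ch [([],813,false)],
  .ch [([212],1242,false)],
  .ch [([],814,false)],
  .ch [([212],1244,false)],
  .ch [([],865,false),([],815,false)],
  .ch [([],816,false)],
  .ch [([212],1247,true)],
  .ch [([],817,false)],
  .ch [([],818,false)],
  .ch [([214],1250,false)],
  .ch [([],819,false)],
  .ch [([116],820,false)],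
  .ch [([],1253,false)],
  .ch [([],820,false)],
  .ch [([110],1255,true)],
  .ch [([],821,false)],
  .ch [([],823,false)],
  .ch [([],824,false)],
  .ch [([206],1259,true)],
  .ch [([],828,false)],
  .ch [([],829,false)],
  .ch [([16],1262,true)],
  .ch [([],830,false)],
  .ch [([16],1264,true)],
  .ch [([],831,false)],
  .ch [([16],1266,true)],
  .ch [([50],833,false)],
  .ch [([],835,false)],
  .ch [([],836,false)],
  .ch [([80],1270,true)],
  .ch [([210],839,false)],
  .ch [([],1272,false)],
  .ch [([],839,false)],
  .ch [([208],1274,true)],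
  .ch [([],840,false)],
  .ch [([],841,false)],
  .ch [([208],1277,true)],
  .ch [([],842,false)],
  .ch [([],843,false)],
  .ch [([208],1280,true)],
  .ch [([],858,false),([],846,false)],
  .ch [([],848,false)],
  .ch [([274],1283,true)],
  .ch [([],849,false)],
  .ch [([276],1285,false)],
  .ch [([],850,false)],
  .ch [([278],1287,false)],
  .ch [([],851,false)],
  .ch [([278],1289,false)],
  .ch [([70],595,false)],
  .ch [([],1291,true)],
  .ch [([],1292,false)],
  .ch [([5],1293,true)],
  .ch [([38],594,false)],
  .ch [([],1295,true)],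
  .ch [([],1296,false)],
  .ch [([3],1297,true)],
  .ch [([39],1298,false)],
  .ch [([],1299,true)],
  .ch [([],1300,false)],
  .ch [([214],857,false)],
  .ch [([],1302,false)],
  .ch [([212],855,false)],
  .ch [([],1304,false)],
  .ch [([],854,false)],
  .ch [([],859,false)],
  .ch [([274],1307,true)],
  .ch [([],861,false)],
  .ch [([274],1309,true)],
  .ch [([],862,false)],
  .ch [([],863,false)],
  .ch [([308],1312,true)],
  .ch [([36],591,false)],
  .ch [([],1314,true)],
  .ch [([],1315,false)],
  .ch [([3],1316,true)],
  .ch [([37],1317,false)],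
  .ch [([],1318,true)],
  .ch [([],1319,false)],
  .ch [([],864,false)],
  .ch [([20],1321,true)],
  .ch [([343],877,false)],
  .ch [([],1323,true)],
  .ch [([],866,false)],
  .ch [([37],873,false)],
  .ch [([],1326,true)],
  .ch [([],1327,false)],
  .ch [([5],1328,false)],
  .ch [([18],648,false)],
  .ch [([],1330,false)],
  .ch [([76],654,false)],
  .ch [([],1332,true)],
  .ch [([80],658,false)],
  .ch [([],1334,true)],
  .ch [([70],662,false)],
  .ch [([],1336,true)],
  .ch [([],1337,false)],
  .ch [([37],1338,true)],
  .ch [([108],665,false)],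
  .ch [([],1340,true)],
  .ch [([106],666,false)],
  .ch [([],1342,true)],
  .ch [([76],667,false)],
  .ch [([],1344,true)],
  .ch [([208],669,false)],
  .ch [([],1346,true)],
  .ch [([],1347,false)],
  .ch [([49],1348,true)],
  .ch [([39],871,false)],
  .ch [([],1350,true)],
  .ch [([80],675,false)],
  .ch [([],1352,true)],
  .ch [([208],676,false)],
  .ch [([],1354,true)],
  .ch [([],1355,false)],
  .ch [([45],1356,true)],
  .ch [([278],681,false)],
  .ch [([],1358,true)],
  .ch [([],1359,false)],
  .ch [([55],1360,true)],
  .ch [([210],683,false)],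
  .ch [([],1362,true)],
  .ch [([],1363,false)],
  .ch [([45],1364,true)],
  .ch [([242],684,false)],
  .ch [([],1366,true)],
  .ch [([],1367,false)],
  .ch [([47],1368,true)],
  .ch [([276],685,false)],
  .ch [([],1370,true)],
  .ch [([86],686,false)],
  .ch [([],1372,true)],
  .ch [([214],687,false)],
  .ch [([],1374,true)],
  .ch [([],1375,false)],
  .ch [([45],1376,true)],
  .ch [([6],688,false)],
  .ch [([],1378,false)],
  .ch [([14],691,false)],
  .ch [([44],695,false)],
  .ch [([],1381,false)],
  .ch [([112],702,false)],
  .ch [([],1383,true)],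
  .ch [([104],703,false)],
  .ch [([],1385,true)],
  .ch [([140],704,false)],
  .ch [([],1387,true)],
  .ch [([],1388,false)],
  .ch [([77],1389,true)],
  .ch [([208],707,false)],
  .ch [([],1391,true)],
  .ch [([208],712,false)],
  .ch [([],1393,true)],
  .ch [([],1394,false)],
  .ch [([77],1395,true)],
  .ch [([242],719,false)],
  .ch [([],1397,true)],
  .ch [([],1398,false)],
  .ch [([79],1399,true)],
  .ch [([276],720,false)],
  .ch [([],1401,true)],
  .ch [([14],723,false)],
  .ch [([],1403,false)],
  .ch [([142],733,false)],
  .ch [([],1405,true)],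
  .ch [([138],735,false)],
  .ch [([],1407,true)],
  .ch [([174],736,false)],
  .ch [([],1409,true)],
  .ch [([],1410,false)],
  .ch [([111],1411,true)],
  .ch [([212],741,false)],
  .ch [([],1413,true)],
  .ch [([206],744,false)],
  .ch [([],1415,true)],
  .ch [([],1416,false)],
  .ch [([109],1417,true)],
  .ch [([244],746,false)],
  .ch [([],1419,true)],
  .ch [([212],748,false)],
  .ch [([],1421,true)],
  .ch [([],1422,false)],
  .ch [([109],1423,true)],
  .ch [([244],749,false)],
  .ch [([],1425,true)],
  .ch [([10],751,false)],
  .ch [([],1427,false)],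
  .ch [([12],752,false)],
  .ch [([],1429,false)],
  .ch [([86],755,false)],
  .ch [([],1431,false)],
  .ch [([182],767,false)],
  .ch [([],1433,true)],
  .ch [([12],768,false)],
  .ch [([],1435,false)],
  .ch [([118],771,false)],
  .ch [([],1437,false)],
  .ch [([16],777,false)],
  .ch [([50],782,false)],
  .ch [([],1440,false)],
  .ch [([240],796,false)],
  .ch [([],1442,true)],
  .ch [([],1443,false)],
  .ch [([209],1444,true)],
  .ch [([240],799,false)],
  .ch [([],1446,true)],
  .ch [([274],803,false)],
  .ch [([],1448,true)],
  .ch [([276],807,false)],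
  .ch [([],1450,true)],
  .ch [([],1451,false)],
  .ch [([213],1452,true)],
  .ch [([278],809,false)],
  .ch [([],1454,true)],
  .ch [([],1455,false)],
  .ch [([215],1456,true)],
  .ch [([274],810,false)],
  .ch [([],1458,true)],
  .ch [([276],813,false)],
  .ch [([],1460,true)],
  .ch [([],1461,false)],
  .ch [([209],1462,true)],
  .ch [([47],869,false)],
  .ch [([],1464,true)],
  .ch [([],1465,false)],
  .ch [([15],1466,false)],
  .ch [([278],817,false)],
  .ch [([],1468,true)],
  .ch [([],1469,false)],
  .ch [([209],1470,true)],
  .ch [([208],822,false)],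
  .ch [([],1472,false)],
  .ch [([212],824,false)],
  .ch [([276],827,false)],
  .ch [([],1475,true)],
  .ch [([],1476,false)],
  .ch [([245],1477,true)],
  .ch [([212],841,false)],
  .ch [([],1479,false)],
  .ch [([244],845,false)],
  .ch [([308],849,false)],
  .ch [([],1482,true)],
  .ch [([],1483,false)],
  .ch [([275],1484,true)],
  .ch [([310],850,false)],
  .ch [([],1486,true)],
  .ch [([],1487,false)],
  .ch [([275],1488,true)],
  .ch [([342],851,false)],
  .ch [([],1490,true)],
  .ch [([],1491,false)],
  .ch [([277],1492,true)],
  .ch [([22],864,false)],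
  .ch [([279],881,false)],
  .ch [([],1495,true)],
  .ch [([215],885,false)],
  .ch [([],1497,true)],
  .ch [([309],903,false)],
  .ch [([],1499,true)],
  .ch [([277],907,false)],
  .ch [([],1501,true)],
  .ch [([83],927,false)],
  .ch [([],1503,true)],
  .ch [([209],939,false)],
  .ch [([],1505,true)],
  .ch [([37],943,false)]]

theorem qk4 : (chk qT 1208 qc4 && 1508 == 1208 + qc4.length) = true := by
  decide +kernel

def qc5 : List I2 := [
  .ch [([],1507,true)],
  .ch [([],1508,false)],
  .ch [([2],1509,true)],
  .ch [([81],964,false)],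
  .ch [([],1511,true)],
  .ch [([],1512,false)],
  .ch [([4],1513,true)],
  .ch [([],966,false)],
  .ch [([5],1515,true)],
  .ch [([],973,false)],
  .ch [([9],1517,true)],
  .ch [([],975,false)],
  .ch [([7],1519,true)],
  .ch [([209],981,false)],
  .ch [([],1521,true)],
  .ch [([],1522,false)],
  .ch [([12],1523,true)],
  .ch [([211],987,false)],
  .ch [([],1525,true)],
  .ch [([],1526,false)],
  .ch [([12],1527,true)],
  .ch [([213],993,false)],
  .ch [([],1529,true)],
  .ch [([215],999,false)],
  .ch [([],1531,true)],
  .ch [([],1532,false)],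
  .ch [([12],1533,true)],
  .ch [([],1005,false)],
  .ch [([5],1535,true)],
  .ch [([],1007,false)],
  .ch [([7],1537,true)],
  .ch [([17],1011,false)],
  .ch [([275],1015,false)],
  .ch [([],1540,true)],
  .ch [([],1541,false)],
  .ch [([16],1542,true)],
  .ch [([309],1038,false)],
  .ch [([],1544,true)],
  .ch [([21],1048,false)],
  .ch [([343],1052,false)],
  .ch [([],1547,true)],
  .ch [([],1548,false)],
  .ch [([20],1549,true)],
  .ch [([23],1063,false)],
  .ch [([37],1069,false)],
  .ch [([],1552,true)],
  .ch [([45],1075,false)],
  .ch [([],1554,true)],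
  .ch [([81],1079,false)],
  .ch [([],1556,true)],
  .ch [([51],1089,false)],
  .ch [([],1558,true)],
  .ch [([],1559,false)],
  .ch [([3],1560,true)],
  .ch [([39],1092,false)],
  .ch [([],1562,true)],
  .ch [([],1563,false)],
  .ch [([45],1094,false)],
  .ch [([],1565,true)],
  .ch [([],1566,false)],
  .ch [([37],1567,true)],
  .ch [([49],1096,false)],
  .ch [([],1569,true)],
  .ch [([],1570,false)],
  .ch [([37],1571,true)],
  .ch [([],1099,false)],
  .ch [([37],1573,true)],
  .ch [([49],1104,false)],
  .ch [([],1575,true)],
  .ch [([],1576,false)],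
  .ch [([45],1577,true)],
  .ch [([55],1108,false)],
  .ch [([],1579,true)],
  .ch [([],1110,false)],
  .ch [([37],1581,true)],
  .ch [([],1112,false)],
  .ch [([37],1583,true)],
  .ch [([],1114,false)],
  .ch [([45],1585,true)],
  .ch [([51],1116,false)],
  .ch [([],1587,true)],
  .ch [([],1588,false)],
  .ch [([49],1589,true)],
  .ch [([53],1118,false)],
  .ch [([],1591,true)],
  .ch [([],1122,false)],
  .ch [([45],1593,true)],
  .ch [([],1124,false)],
  .ch [([47],1595,true)],
  .ch [([77],1135,false)],
  .ch [([],1597,true)],
  .ch [([79],1137,false)],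
  .ch [([],1599,true)],
  .ch [([],1600,false)],
  .ch [([5],1601,true)],
  .ch [([83],1139,false)],
  .ch [([],1603,true)],
  .ch [([],1604,false)],
  .ch [([5],1605,true)],
  .ch [([77],1143,false)],
  .ch [([],1607,true)],
  .ch [([],1608,false)],
  .ch [([37],1609,true)],
  .ch [([81],1153,false)],
  .ch [([],1611,true)],
  .ch [([83],1155,false)],
  .ch [([],1613,true)],
  .ch [([],1614,false)],
  .ch [([77],1615,true)],
  .ch [([],1157,false)],
  .ch [([77],1617,true)],
  .ch [([83],1159,false)],
  .ch [([],1619,true)],
  .ch [([85],1161,false)],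
  .ch [([],1621,true)],
  .ch [([],1163,false)],
  .ch [([79],1623,true)],
  .ch [([111],1175,false)],
  .ch [([],1625,true)],
  .ch [([],1626,false)],
  .ch [([7],1627,true)],
  .ch [([117],1177,false)],
  .ch [([],1629,true)],
  .ch [([],1630,false)],
  .ch [([7],1631,true)],
  .ch [([111],1181,false)],
  .ch [([],1633,true)],
  .ch [([],1634,false)],
  .ch [([109],1635,true)],
  .ch [([117],1183,false)],
  .ch [([],1637,true)],
  .ch [([],1638,false)],
  .ch [([111],1639,true)],
  .ch [([],1185,false)],
  .ch [([111],1641,true)],
  .ch [([139],1189,false)],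
  .ch [([],1643,true)],
  .ch [([],1644,false)],
  .ch [([9],1645,true)],
  .ch [([141],1191,false)],
  .ch [([],1647,true)],
  .ch [([],1648,false)],
  .ch [([9],1649,true)],
  .ch [([77],1195,false)],
  .ch [([],1651,true)],
  .ch [([151],1197,false)],
  .ch [([],1653,true)],
  .ch [([],1654,false)],
  .ch [([9],1655,true)],
  .ch [([139],1199,false)],
  .ch [([],1657,true)],
  .ch [([],1658,false)],
  .ch [([151],1202,false)],
  .ch [([],1660,true)],
  .ch [([],1661,false)],
  .ch [([139],1662,true)],
  .ch [([],1204,false)],
  .ch [([141],1664,true)],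
  .ch [([],1206,false)],
  .ch [([139],1666,true)],
  .ch [([173],1208,false)],
  .ch [([],1668,true)],
  .ch [([],1669,false)],
  .ch [([11],1670,true)],
  .ch [([183],1212,false)],
  .ch [([],1672,true)],
  .ch [([],1214,false)],
  .ch [([173],1674,true)],
  .ch [([209],1216,false)],
  .ch [([],1676,true)],
  .ch [([],1677,false)],
  .ch [([13],1678,true)],
  .ch [([211],1218,false)],
  .ch [([],1680,true)],
  .ch [([],1681,false)],
  .ch [([13],1682,true)],
  .ch [([209],1220,false)],
  .ch [([],1684,true)],
  .ch [([],1685,false)],
  .ch [([49],1686,false)],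
  .ch [([209],1222,false)],
  .ch [([],1688,true)],
  .ch [([209],1224,false)],
  .ch [([],1690,true)],
  .ch [([],1691,false)],
  .ch [([211],1226,false)],
  .ch [([],1693,true)],
  .ch [([211],1235,false)],
  .ch [([],1695,true)],
  .ch [([],1696,false)],
  .ch [([209],1697,true)],
  .ch [([213],1237,false)],
  .ch [([],1699,true)],
  .ch [([],1700,false)],
  .ch [([209],1701,true)],
  .ch [([],1240,false)],
  .ch [([209],1703,true)],
  .ch [([],1245,false)],
  .ch [([211],1705,true)],
  .ch [([215],1248,false)],
  .ch [([],1707,true)],
  .ch [([],1708,false)],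
  .ch [([213],1709,true)],
  .ch [([245],1254,false)],
  .ch [([],1711,true)],
  .ch [([245],1260,false)],
  .ch [([],1713,true)],
  .ch [([],1714,false)],
  .ch [([207],1715,true)],
  .ch [([275],1263,false)],
  .ch [([],1717,true)],
  .ch [([],1718,false)],
  .ch [([17],1719,true)],
  .ch [([277],1265,false)],
  .ch [([],1721,true)],
  .ch [([279],1267,false)],
  .ch [([],1723,true)],
  .ch [([275],1271,false)],
  .ch [([],1725,true)],
  .ch [([275],1273,false)],
  .ch [([],1727,true)],
  .ch [([277],1278,false)],
  .ch [([],1729,true)],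
  .ch [([279],1281,false)],
  .ch [([],1731,true)],
  .ch [([],1288,false)],
  .ch [([275],1733,true)],
  .ch [([],1290,false)],
  .ch [([277],1735,true)],
  .ch [([71],1294,false)],
  .ch [([],1737,true)],
  .ch [([311],1303,false)],
  .ch [([],1739,true)],
  .ch [([],1740,false)],
  .ch [([215],1741,false)],
  .ch [([309],1305,false)],
  .ch [([],1743,true)],
  .ch [([],1744,false)],
  .ch [([213],1745,false)],
  .ch [([309],1308,false)],
  .ch [([],1747,true)],
  .ch [([311],1310,false)],
  .ch [([],1749,true)],
  .ch [([311],1313,false)],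
  .ch [([],1751,true)],
  .ch [([343],1322,false)],
  .ch [([],1753,true)],
  .ch [([],1754,false)],
  .ch [([21],1755,true)],
  .ch [([71],1339,false)],
  .ch [([],1757,true)],
  .ch [([209],1357,false)],
  .ch [([],1759,true)],
  .ch [([211],1365,false)],
  .ch [([],1761,true)],
  .ch [([243],1369,false)],
  .ch [([],1763,true)],
  .ch [([71],1379,false)],
  .ch [([],1765,true)],
  .ch [([77],1382,false)],
  .ch [([],1767,true)],
  .ch [([243],1400,false)],
  .ch [([],1769,true)],
  .ch [([111],1404,false)],
  .ch [([],1771,true)],
  .ch [([207],1418,false)],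
  .ch [([],1773,true)],
  .ch [([139],1428,false)],
  .ch [([],1775,true)],
  .ch [([141],1430,false)],
  .ch [([],1777,true)],
  .ch [([151],1432,false)],
  .ch [([],1779,true)],
  .ch [([173],1436,false)],
  .ch [([],1781,true)],
  .ch [([183],1438,false)],
  .ch [([],1783,true)],
  .ch [([211],1441,false)],
  .ch [([],1785,true)],
  .ch [([277],1463,false)],
  .ch [([],1787,true)],
  .ch [([241],1473,false)],
  .ch [([277],1480,false)],
  .ch [([311],1489,false)],
  .ch [([],1791,true)],
  .ch [([343],1493,false)],
  .ch [([],1793,true)],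
  .ch [([7],1516,false)],
  .ch [([11],1518,false)],
  .ch [([13],1520,false)],
  .ch [([17],1538,false)],
  .ch [([18],1561,false)],
  .ch [([39],1574,false)],
  .ch [([47],1582,false)],
  .ch [([49],1584,false)],
  .ch [([49],1586,false)],
  .ch [([51],1596,false)],
  .ch [([18],1606,false)],
  .ch [([44],1610,false)],
  .ch [([81],1618,false)]]

theorem qk5 : (chk qT 1508 qc5 && 1808 == 1508 + qc5.length) = true := by
  decide +kernel

def qc6 : List I2 := [
  .ch [([83],1624,false)],
  .ch [([117],1642,false)],
  .ch [([151],1667,false)],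
  .ch [([16],1679,false)],
  .ch [([211],1704,false)],
  .ch [([213],1706,false)],
  .ch [([18],1720,false)],
  .ch [([279],1734,false)],
  .ch [([279],1736,false)],
  .ch [([22],1756,false)],
  .ch [([38],688,false),([],505,true),([],419,true),([],510,true)],
  .ch [([36],960,false),([],493,true),([],504,true),([],496,true)],
  .ch [([],567,false),([],416,false),([],994,true)],
  .ch [([110],1002,false),([],545,true),([],494,true),([],546,true)],
  .ch [([],1069,false),([],485,true)],
  .ch [([],1553,false),([],487,true)],
  .ch [([37],1679,false),([],396,true),([],556,true)],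
  .ch [([],1772,false),([],548,true)],
  .ch [([],1111,false),([49,36,48],675,true)],
  .ch [([],534,false),([37],937,false),([],456,true)],
  .ch [([],563,false),([],489,false),([52],954,true)],
  .ch [([],565,false),([],491,false),([54],954,true)],
  .ch [([36,3],955,false),([],943,true),([],642,true)],
  .ch [([],537,false),([],514,false),([116],967,true)],
  .ch [([116],1632,false),([116,21],968,false),([],915,true)],
  .ch [([150],1656,false),([150,23],971,false),([],889,true)],
  .ch [([210],1683,false),([210,19],988,false),([],923,true)],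
  .ch [([48,3],1003,false),([],951,true),([],647,true)],
  .ch [([278],1008,false),([],560,true),([],539,true)],
  .ch [([274],1720,false),([274,19],1016,false),([],919,true)],
  .ch [([],1546,false),([21,17,20],1502,true)],
  .ch [([],1551,false),([23,17,22],1496,true)],
  .ch [([310],1064,false),([],585,true),([],571,true)],
  .ch [([50,2],934,false),([],1089,true),([2,19],953,true)],
  .ch [([],1564,false),([36,71,39],1141,true),([36],1758,true)],
  .ch [([],1635,false),([108,207,111],1228,true),([108],1774,true)],
  .ch [([18],1526,false),([18,211],1217,false),([],1030,true)],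
  .ch [([18],1541,false),([18,275],1262,false),([],1034,true)],
  .ch [([],694,false),([],653,false),([],481,false),([4],1315,false),([],423,true)],
  .ch [([22],1548,false),([22,343],1321,false),([],1067,true)],
  .ch [([],1326,false),([37,4,3],1315,true),([],587,true)],
  .pair 72 false [5] 6 false [] [] [([],389,true),([],495,true)],
  .pair 72 true [71] 6 false [] [([],389,true)] [([],432,true)],
  .pair 104 true [71] 4 false [] [([],389,true)] [([],430,true)],
  .pair 42 false [3] 6 false [] [] [([],390,true),([],484,true)],
  .pair 42 true [39] 6 false [] [([],390,true)] [([],428,true)],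
  .pair 106 true [39] 2 false [] [([],390,true)] [([],426,true)],
  .pair 44 false [3] 4 false [] [] [([],391,true),([],482,true)],
  .pair 44 true [37] 4 false [] [([],391,true)] [([],424,true)],
  .pair 76 true [37] 2 false [] [([],391,true)] [([],422,true)],
  .pair 142 false [71] 2 false [] [([],389,true)] [([],420,true)],
  .pair 174 false [39] 4 false [] [([],390,true)] [([],652,true)],
  .pair 206 false [37] 6 false [] [([],391,true)] [([],1090,true)],
  .pair 16 true [36] 12 false [] [([],395,true)] [([],391,false)],
  .pair 48 true [36] 4 false [] [([],395,true)] [([],421,true)],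
  .pair 80 true [36] 2 false [] [([],395,true)] [([],423,true)],
  .pair 112 true [36] 14 false [] [([],395,true)] [([],649,true),([],651,true)],
  .pair 210 true [208] 16 false [] [([],398,true)] [([],391,true),([],454,true),([],395,false)],
  .pair 274 true [208] 12 false [] [([],398,true)] [([],395,true),([],456,true),([],391,false)],
  .pair 116 true [110] 14 false [] [([],401,true)] [([],440,true)],
  .pair 244 true [110] 6 false [] [([],401,true)] [([],442,true)],
  .pair 150 true [138] 10 false [] [([],404,true)] [([],389,true),([],436,true),([],390,false)],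
  .pair 182 true [138] 8 false [] [([],404,true)] [([],390,true),([],438,true),([],389,false)],
  .pair 36 false [2] 12 false [] [([],406,true)] [([],481,true),([],391,false)],
  .pair 38 false [2] 10 false [] [([],406,true)] [([],483,true),([],390,false)],
  .pair 70 false [4] 8 false [] [([],408,true)] [([],494,true),([],389,false)],
  .pair 208 true [12,209] 18 false [] [([],395,true),([],534,true)] [([],391,true),([],415,true),([],398,false)],
  .pair 36 true [48] 16 false [] [([],656,true)] [([],448,true),([],395,false)],
  .pair 76 false [48] 50 true [208] [([],656,true),([],398,false)] [([],391,true),([],780,true)],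
  .pair 44 false [80] 82 true [208] [([],659,true),([],398,false)] [([],391,true),([],784,true)],
  .pair 208 true [210] 18 false [] [([],395,true),([],800,true)] [([],391,true),([],458,true),([],398,false)],
  .pair 44 true [274] 82 false [48] [([],391,true),([],804,true),([],656,false)] [([],832,false),([],677,false),([],398,false)],
  .pair 76 true [274] 50 false [80] [([],391,true),([],804,true),([],659,false)] [([],835,false),([],713,false),([],398,false)],
  .pair 110 true [116] 20 false [] [([],745,true)] [([],463,true),([],401,false)],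
  .pair 138 true [150] 22 false [] [([],390,true),([],761,true)] [([],389,true),([],471,true),([],404,false)],
  .sym 42 true [11] 12 false [] [([],390,true),([],392,true)],
  .sym 44 true [13] 22 false [] [([],391,true),([],393,true)],
  .sym 240 true [36] 14 false [] [([],395,true)],
  .sym 76 true [13] 20 false [] [([],391,true),([],393,true)],
  .sym 206 true [15] 2 false [] [],
  .sym 208 true [17] 18 false [] [([],395,true),([],396,true)],
  .sym 210 true [19] 16 false [] [([],398,true),([],399,true)],
  .sym 212 true [21] 6 false [] [([],401,true),([],402,true)],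
  .sym 212 true [21] 22 false [] [([],401,true),([],402,true)],
  .sym 214 true [23] 20 false [] [([],404,true),([],405,true)],
  .sym 208 false [13] 20 false [] [([],391,true),([],393,true)],
  .sym 108 true [37] 6 false [] [([],391,true)],
  .sym 214 false [37] 6 false [] [([],391,true)],
  .sym 214 false [13] 6 false [] [([],391,true),([],393,true)],
  .sym 214 false [13] 20 false [] [([],391,true),([],393,true)],
  .sym 342 false [21] 18 false [] [([],401,true),([],402,true)],
  .sym 240 true [17] 20 false [] [([],395,true),([],396,true)],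
  .sym 212 false [37] 6 false [] [([],391,true)],
  .sym 212 false [13] 6 false [] [([],391,true),([],393,true)],
  .sym 276 false [17] 2 false [] [([],395,true),([],396,true)],
  .sym 276 false [17] 4 false [] [([],395,true),([],396,true)],
  .sym 276 false [17] 6 false [] [([],395,true),([],396,true)],
  .sym 308 false [19] 22 false [] [([],398,true),([],399,true)],
  .sym 342 true [23] 18 false [] [([],404,true),([],405,true)],
  .sym 308 true [21] 12 false [] [([],401,true),([],402,true)],
  .sym 308 true [21] 16 false [] [([],401,true),([],402,true)],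
  .sym 48 false [6,39] 138 true [39] [([],504,true),([],390,false)],
  .ch [([],1882,true)],
  .ch [([],1205,false),([],1910,true)],
  .ch [([],1910,true)],
  .ch [([182],1910,false),([],1434,true)],
  .ch [([],1881,true)],
  .ch [([],1184,false),([],1914,true)],
  .ch [([],1914,true)],
  .ch [([244],1914,false),([],1426,true)],
  .ch [([],1878,true)],
  .ch [([],1239,false),([],1918,true)],
  .ch [([],1918,true)],
  .ch [([210],1918,false)],
  .ch [([274],1918,false),([],1459,true)],
  .ch [([],1875,true)],
  .ch [([],1111,false),([],1923,true)],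
  .ch [([],1923,true)],
  .ch [([48],1923,false)],
  .ch [([80],1923,false),([],1353,true)],
  .ch [([],1873,true)],
  .ch [([],1378,false),([6],1928,true)],
  .ch [([],1928,false)],
  .ch [([],1928,false),([5],1127,true)],
  .ch [([4],1928,true)],
  .ch [([],498,false),([],419,false),([],493,false),([36],1928,true),([],521,true)],
  .ch [([],1818,false),([38],1928,true),([],520,true)],
  .ch [([],1872,true)],
  .ch [([],870,false),([6],1935,true)],
  .ch [([],1935,false)],
  .ch [([],1935,false),([3],1071,true)],
  .ch [([2],1935,true)],
  .ch [([],486,false),([],651,false),([],482,false),([36],1935,true),([],522,true)],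
  .ch [([],1871,true)],
  .ch [([],872,false),([4],1941,true)],
  .ch [([],1941,false)],
  .ch [([],1941,false),([3],1069,true)],
  .ch [([2],1941,true)],
  .ch [([],1870,true)],
  .ch [([],1211,false),([150],1946,true)],
  .ch [([],1946,true)],
  .ch [([138],1946,true)],
  .ch [([183,151],1947,false),([],1663,true),([139],1912,true)],
  .ch [([],1869,true)],
  .ch [([],1951,true)],
  .ch [([139],1202,false),([],1951,true)],
  .ch [([138],1951,true)],
  .ch [([],1868,true)],
  .ch [([],1253,false),([116],1955,true)],
  .ch [([],1955,true)],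
  .ch [([111],1256,false),([],1955,true)],
  .ch [([110],1955,true)],
  .ch [([245,117],1956,false),([],1640,true),([111],1916,true)],
  .ch [([],1867,true)],
  .ch [([],1961,true)],
  .ch [([111],1183,false),([],1961,true)],
  .ch [([244],1961,false),([],1420,true)],
  .ch [([],1866,true)],
  .ch [([],1272,false),([210],1965,true)],
  .ch [([],1965,true)],
  .ch [([209],1275,false),([],1965,true)],
  .ch [([208],1965,true)],
  .ch [([275,211],1966,false),([],1698,true),([209],1920,true)],
  .ch [([],1865,true)],
  .ch [([],1971,true)],
  .ch [([209],1235,false),([],1971,true)],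
  .ch [([208],1971,true)],
  .ch [([274],1971,false),([],1449,true)],
  .ch [([],1864,true)],
  .ch [([],1976,false)],
  .ch [([36],1976,true)],
  .ch [([],1863,true)],
  .ch [([],1144,false),([48],1979,true)],
  .ch [([],1979,true)],
  .ch [([37],1146,false),([],1979,true)],
  .ch [([36],1979,true),([],1945,true)],
  .ch [([81,49],1980,false),([],1572,true),([37],1925,true)],
  .ch [([],1862,true)],
  .ch [([],1985,true)],
  .ch [([37],1096,false),([],1985,true)],
  .ch [([36],1985,true),([],1942,true)],
  .ch [([80],1985,false),([],1335,true)],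
  .ch [([],1861,true)],
  .ch [([],1990,false)],
  .ch [([36],1990,true)],
  .ch [([],1860,true)],
  .ch [([],1993,false)],
  .ch [([],1859,true)],
  .ch [([],1995,true)],
  .ch [([39],1995,true)],
  .ch [([],1996,false)],
  .ch [([5],1998,true)],
  .ch [([],1858,true)],
  .ch [([],2000,true)],
  .ch [([71],2000,true)],
  .ch [([],2001,false)],
  .ch [([3],2003,true)],
  .ch [([],1857,true)],
  .ch [([],2005,true)],
  .ch [([37],2005,true)],
  .ch [([],1942,false),([36],1135,false),([],2006,true),([2],1942,true)],
  .ch [([],1856,true)],
  .ch [([],2009,true)],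
  .ch [([37],2009,true)],
  .ch [([4],1945,false),([],2010,false),([36],1075,true),([],1945,true)],
  .ch [([],1855,true)],
  .ch [([3],2013,true)],
  .ch [([45],2013,false),([],603,true),([13,2],1943,true)],
  .ch [([],1854,true)],
  .ch [([],2016,true)],
  .ch [([39],2016,true)],
  .ch [([],1936,false),([38],1169,false),([],2017,true),([2],1936,true)],
  .ch [([],1853,true)],
  .ch [([],2020,true)],
  .ch [([39],2020,true)],
  .ch [([6],1939,false),([],2021,false),([38],1073,true),([],1939,true)],
  .ch [([],1852,true)],
  .ch [([43],2024,false),([],601,true),([11,2],1937,true)],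
  .ch [([],1851,true)],
  .ch [([],2026,true)],
  .ch [([71],2026,true)],
  .ch [([],1929,false),([70],1167,false),([],2027,true),([4],1929,true)],
  .ch [([],1850,true)],
  .ch [([],2030,true)],
  .ch [([71],2030,true)],
  .ch [([6],1932,false),([],2031,false),([70],1129,true),([],1932,true)],
  .ch [([],1849,true)],
  .ch [([5],2034,true)],
  .ch [([73],2034,false),([],598,true),([9,4],1930,true)],
  .ch [([],1910,false),([151,138],1667,true)],
  .ch [([23],2037,true)],
  .ch [([151],1952,false),([151,139,150],1911,false),([],1810,true)],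
  .ch [([],2039,true)],
  .ch [([],2040,false)],
  .ch [([22],2041,false)],
  .ch [([],2042,false),([],1912,false)],
  .ch [([139],2043,false)],
  .ch [([183],2043,false),([],1911,true),([],1057,true),([11,22],2038,true)],
  .ch [([182],2043,false),([],1949,true),([],1189,true)],
  .ch [([],2041,false),([23],2043,true)],
  .ch [([],1913,false)],
  .ch [([139],2048,true),([],1948,true)],
  .ch [([],1914,false),([117,110],1642,true)],
  .ch [([21],2050,true)],
  .ch [([117],1962,false),([117,111,116],1915,false),([],1809,true)],
  .ch [([],2052,true)],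
  .ch [([116],2052,false)],
  .ch [([],2053,false)],
  .ch [([20],2055,false)],
  .ch [([],2056,false),([],1916,false)],
  .ch [([245],2057,false),([],1915,true),([],1044,true),([15,20],2051,true)],
  .ch [([244],2057,false),([],1959,true),([],1175,true)],
  .ch [([],1917,false)],
  .ch [([111],2060,true),([],1957,true)],
  .ch [([],1918,false),([211,208],1704,true)],
  .ch [([19],2062,true)],
  .ch [([211],1972,false),([211,209,210],1919,false),([],1812,true)],
  .ch [([],2064,true)],
  .ch [([210],2064,false)],
  .ch [([],2065,false)],
  .ch [([18],2067,false)],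
  .ch [([],2068,false),([],1920,false)],
  .ch [([209],2069,false)],
  .ch [([275],2069,false),([],1919,true),([],1034,true),([17,18],2063,true)],
  .ch [([274],2069,false),([],1969,true),([],1216,true)],
  .ch [([],2067,false),([19],2069,true)],
  .ch [([208],2066,false),([],1921,false)],
  .ch [([],1922,false)],
  .ch [([209],2075,true),([],1967,true)],
  .ch [([],1923,false),([49,36],1584,true)],
  .ch [([17],2077,true)],
  .ch [([49],1986,false),([49,37,48],1924,false),([],1802,true)],
  .ch [([],2079,true)],
  .ch [([48],2079,false)],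
  .ch [([],2080,false)],
  .ch [([16],2082,false)],
  .ch [([],2083,false),([],1925,false)],
  .ch [([],2080,false),([],2084,false),([36],1329,true),([],1830,true),([3],1945,true),([],1991,true)],
  .ch [([81],2084,false),([],1924,true),([],1536,true),([5,16],2078,true)],
  .ch [([80],2084,false),([],1983,true),([2],1944,true)],
  .ch [([],2082,false),([17],2084,true)],
  .ch [([49,3],2012,false),([49],587,false),([],2088,true),([17],2080,true),([17],2085,true),([17,37],1992,true)],
  .ch [([4],1991,false),([],1942,false),([36],2081,false),([],1926,false)],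
  .ch [([5],2090,true)],
  .ch [([45],2090,false),([],2015,true)],
  .ch [([],1927,false)],
  .ch [([37],2093,true),([],1981,true)],
  .ch [([71,6],1928,false),([],1766,true)],
  .ch [([],2095,true)],
  .ch [([],2096,false),([],592,true),([5],2033,true)],
  .ch [([7],2097,true)],
  .ch [([9],1930,false)],
  .ch [([],2099,true)],
  .ch [([],2098,false),([9,5],2027,false),([],2099,true)],
  .ch [([9],1931,false)],
  .ch [([],2102,true)],
  .ch [([71],1932,false)],
  .ch [([],2104,true)],
  .ch [([],1795,false),([7,5,6],2104,true),([7,5],2033,true),([],2101,true)],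
  .ch [([],1934,false)]]

theorem qk6 : (chk qT 1808 qc6 && 2108 == 1808 + qc6.length) = true := by
  decide +kernel

def qc7 : List I2 := [
  .ch [([39,6],1935,false),([],1351,true)],
  .ch [([],2108,true)],
  .ch [([],2109,false),([],588,true),([3],2023,true)],
  .ch [([7],2110,true)],
  .ch [([11],1937,false)],
  .ch [([],2112,true)],
  .ch [([],2111,false),([11,3],2017,false),([],2112,true)],
  .ch [([11],1938,false)],
  .ch [([],2115,true)],
  .ch [([39],1939,false)],
  .ch [([],2117,true)],
  .ch [([],1301,false),([7,3,6],2117,true),([7,3],2023,true),([],2114,true)],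
  .ch [([37,4],1941,false),([],1327,true)],
  .ch [([],2120,true)],
  .ch [([36,5],2121,false),([],2084,true),([],2080,true),([],2085,true),([],2091,true)],
  .ch [([13],1943,false)],
  .ch [([],2123,true)],
  .ch [([13,3],2006,false),([],2123,true)],
  .ch [([13],1944,false)],
  .ch [([],2126,true)],
  .ch [([],2126,false),([13,5],2010,true),([],2125,true)],
  .ch [([5],2010,false),([5],1102,false),([],2128,true)],
  .ch [([],1942,false),([36],1598,false),([],2129,true),([3],1942,true)],
  .ch [([4],2127,false),([4],1652,false),([],2130,true)],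
  .ch [([37],1945,false)],
  .ch [([],2132,true)],
  .ch [([10],1950,false),([],1953,false),([183,150],1946,false),([],1673,true)],
  .ch [([11],2134,true)],
  .ch [([],1947,false)],
  .ch [([],2136,false),([150,8],2047,true),([],1197,true)],
  .ch [([],2135,false),([],1950,false)],
  .ch [([10],2138,true)],
  .ch [([],2135,false),([],1950,false),([10],2045,false),([],2139,false),([],1833,true),([9],2136,true)],
  .ch [([],1948,false)],
  .ch [([9],2141,true)],
  .ch [([22],2140,false),([22],2135,false),([22],1950,false),([],1911,false),([183],1949,false)],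
  .ch [([22,9],2049,false),([],2143,true)],
  .ch [([23],2143,false)],
  .ch [([14],1960,false),([],1963,false),([245,116],1955,false),([],1712,true)],
  .ch [([15],2146,true)],
  .ch [([],1956,false)],
  .ch [([],2147,false),([],1960,false)],
  .ch [([14],2149,true)],
  .ch [([],2147,false),([],1960,false),([14],2058,false),([],2150,false),([],1832,true),([7],2148,true)],
  .ch [([],1957,false)],
  .ch [([7],2152,true)],
  .ch [([20],2151,false),([20],2147,false),([20],1960,false),([],1915,false),([245],1959,false)],
  .ch [([20,7],2059,false),([],2154,true)],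
  .ch [([21],2154,false)],
  .ch [([],1964,false)],
  .ch [([117],2157,true),([],1958,true)],
  .ch [([16],1970,false),([],1973,false),([275,210],1965,false),([],1728,true)],
  .ch [([17],2159,true)],
  .ch [([],1966,false)],
  .ch [([],2161,false),([210,12],2073,true),([],1218,true)],
  .ch [([],2160,false),([],1970,false)],
  .ch [([16],2163,true)],
  .ch [([],2160,false),([],1970,false),([16],2071,false),([],2164,false),([],1834,true),([13],2161,true)],
  .ch [([],1967,false)],
  .ch [([13],2166,true)],
  .ch [([],2074,false),([],1439,false),([16,13,208],2166,true)],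
  .ch [([208],1967,false)],
  .ch [([18],2165,false),([18],2160,false),([18],1970,false),([],1919,false),([275],1969,false)],
  .ch [([],2170,true)],
  .ch [([18,13],2072,false),([],2170,true)],
  .ch [([18,13],2076,false),([],2170,true)],
  .ch [([19],2170,false)],
  .ch [([],1975,false)],
  .ch [([211],2175,true),([],1968,true)],
  .ch [([15],1977,false)],
  .ch [([],2177,true)],
  .ch [([],2178,false)],
  .ch [([36],2179,true)],
  .ch [([],1980,false)],
  .ch [([],2181,false),([48,2],2088,true),([],1081,true)],
  .ch [([],2091,false),([],1984,false)],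
  .ch [([4],2183,true)],
  .ch [([13],2183,false),([],2127,true),([5],1986,true)],
  .ch [([],2091,false),([],1984,false),([4],2086,false),([],2184,false),([],1835,true),([3],2181,true)],
  .ch [([],1981,false)],
  .ch [([3],2187,true)],
  .ch [([],2084,false),([36,5],2188,true),([],1317,true),([3],2084,true)],
  .ch [([],2186,false),([],2091,false),([],1984,false),([81],1983,false)],
  .ch [([2],2190,true)],
  .ch [([],1989,false)],
  .ch [([49],2192,true),([],1982,true)],
  .ch [([16],2186,false),([16],2091,false),([16],1991,false),([16,3],1945,false),([16],1830,false),([],1992,true),([36],1943,true)],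
  .ch [([],2194,true)],
  .ch [([16,3],1983,false),([],2194,true)],
  .ch [([16,3],2087,false),([],2194,true)],
  .ch [([16,3],2094,false),([],2194,true)],
  .ch [([7],1994,false)],
  .ch [([],2199,true)],
  .ch [([175],1997,false)],
  .ch [([],2201,true)],
  .ch [([71],2001,false)],
  .ch [([],1319,false),([37,3],2005,true)],
  .ch [([],2204,false),([],1320,true)],
  .ch [([],2204,false)],
  .ch [([],2204,false),([5,3],2012,true),([],2128,true)],
  .ch [([12],2204,false),([],1944,true),([5],941,true)],
  .ch [([],591,false),([37],2006,false)],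
  .ch [([],2209,false)],
  .ch [([],1924,false),([81],2006,true),([],1984,true),([37],1992,true)],
  .ch [([],2211,true),([],2208,true)],
  .ch [([17],2211,true)],
  .ch [([76],2125,false),([76],2015,false),([76,45],2009,false),([],1345,true),([],2006,true)],
  .ch [([],2214,true)],
  .ch [([76,3],2133,false),([76,3],2007,false),([],2214,true)],
  .ch [([],1508,false),([37,5],2009,true)],
  .ch [([3],2012,false),([],1848,false),([4],2217,true)],
  .ch [([],2217,false)],
  .ch [([],2217,false),([3],1510,true)],
  .ch [([2],2217,true)],
  .ch [([12],2217,false),([],1943,true),([3],1315,true)],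
  .ch [([76],2217,false),([],2215,true),([2],2206,true)],
  .ch [([36],2217,false),([],943,true)],
  .ch [([],1300,false),([39,3],2016,true)],
  .ch [([],2225,false),([7,3],2023,true),([],2114,true)],
  .ch [([],2225,false)],
  .ch [([],2225,false),([],1301,true)],
  .ch [([],594,false),([39],2017,false)],
  .ch [([],2229,false)],
  .ch [([],2230,false),([106],2111,false),([106],2025,false),([106,43],2020,false),([],1343,true),([],2017,true)],
  .ch [([],2231,true)],
  .ch [([38,3],2232,false),([],947,true)],
  .ch [([],2114,false),([],2111,false),([],2025,false),([43],2109,false),([43],2022,false)],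
  .ch [([2],2234,true)],
  .ch [([],1738,false),([71,5],2026,true)],
  .ch [([],2236,false),([],1795,true)],
  .ch [([],595,false),([71],2027,false)],
  .ch [([],2238,false)],
  .ch [([],2239,false),([104],2098,false),([104],2036,false),([104,73],2030,false),([],1386,true),([],2027,true)],
  .ch [([],2240,true)],
  .ch [([70,5],2241,false),([],959,true)],
  .ch [([],2101,false),([],2098,false),([],2036,false),([73],2096,false),([73],2032,false)],
  .ch [([4],2243,true)],
  .ch [([73],2035,false)],
  .ch [([],2245,true)],
  .ch [([138],2140,false),([],2042,false)],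
  .ch [([],2247,false)],
  .ch [([208],2165,false),([],2068,false)],
  .ch [([],2249,false)],
  .ch [([36],2186,false),([],2083,false)],
  .ch [([3],2215,false),([],2125,false),([13],2251,true)],
  .ch [([4],2131,false),([],2081,false),([48],2089,false)],
  .ch [([],2253,false)],
  .ch [([],2253,false),([4,3],2216,true)],
  .ch [([36],2128,false),([],2083,false),([16],2089,true)],
  .ch [([48],2256,false),([],1988,true),([4],1943,true),([4,3],2006,true)],
  .ch [([],2101,false)],
  .ch [([4],2258,true)],
  .ch [([70],2106,false)],
  .ch [([],2260,false),([70,5],2259,true)],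
  .ch [([],2114,false)],
  .ch [([2],2262,true)],
  .ch [([38],2119,false)],
  .ch [([],2264,false),([38,3],2263,true)],
  .ch [([37],2186,false),([37],2122,false)],
  .ch [([],2266,false),([37,3],2087,true)],
  .ch [([],2266,false),([37,3],2094,true)],
  .ch [([],2266,false),([37,3],2182,true)],
  .ch [([],2140,false),([11],2139,true)],
  .ch [([8],2270,true)],
  .ch [([138],2142,false)],
  .ch [([],2151,false),([15],2150,true)],
  .ch [([6],2273,true)],
  .ch [([110],2153,false)],
  .ch [([],2165,false),([17],2164,true)],
  .ch [([12],2276,true)],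
  .ch [([16],2165,false)],
  .ch [([],2278,false),([16,13],2162,true)],
  .ch [([],2278,false),([16,13],2176,true)],
  .ch [([208],2167,false)],
  .ch [([],2186,false),([5],2184,true)],
  .ch [([2],2282,true)],
  .ch [([48],2282,false),([],2184,true)],
  .ch [([4],2186,false)],
  .ch [([36],2188,false)],
  .ch [([],521,false),([36],1930,true),([],493,true),([],419,true)],
  .ch [([],1940,false),([],542,true)],
  .ch [([],2121,false),([],499,true)],
  .ch [([],756,false),([],731,false),([],506,false),([4],2019,true),([],2012,true),([],439,true),([],508,true)],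
  .ch [([],694,false),([],657,false),([],2089,true),([],418,true),([],534,true)],
  .ch [([2,5],2121,false),([],1823,true)],
  .ch [([],496,false),([38],2241,false),([],505,true),([],492,true)],
  .ch [([208],2268,false),([],535,true),([],396,true)],
  .ch [([],2291,false),([2],2210,true),([2],2221,true),([],406,true)],
  .ch [([],1880,true)],
  .ch [([],1879,true)],
  .ch [([],1877,false)],
  .ch [([],1876,false)],
  .ch [([],1966,false),([],1273,true),([],2279,true)],
  .ch [([18],2066,false),([],985,false),([210],1844,false),([],1921,true),([208],987,true)],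
  .ch [([18],2076,false),([],1013,false),([274],1845,false),([],1922,true),([208],1015,true)],
  .ch [([],1796,false),([11,9,10],1948,true),([11,9],970,true),([],1646,true)],
  .ch [([183],1930,false),([],1950,true),([],2135,true),([],2140,true)],
  .ch [([],2169,false),([208,12],669,true),([208,12],2092,true)],
  .ch [([],1539,false),([17,13,16],1967,true),([17,13],983,true),([],1679,true)],
  .ch [([],1966,false),([274],1974,true),([],1969,true)],
  .ch [([48],1945,false),([],1988,true)],
  .ch [([12],1986,false),([],1991,true),([],2091,true),([],2186,true),([3],1980,true)],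
  .ch [([275],2186,false),([275],2091,false),([275],1991,false),([],1970,true),([],2160,true),([],2165,true)],
  .ch [([],425,false),([2],1996,true),([],492,true),([],727,true)],
  .ch [([],427,false),([6],1996,true),([],494,true),([],663,true),([],726,true)],
  .ch [([],429,false),([4],2001,true),([],481,true),([],730,true)],
  .ch [([],431,false),([6],2001,true),([],483,true),([],701,true),([],729,true)],
  .ch [([],2121,false),([],2011,false),([44],2007,false),([],1333,false),([],2007,true),([],2133,true)],
  .ch [([],604,false),([77],2008,true),([],2207,true)],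
  .ch [([49],2006,false),([],1925,true),([],2083,true)],
  .ch [([80],2006,false),([],1983,true)],
  .ch [([76],1981,false),([],2007,true),([],2133,true)],
  .ch [([],2308,false),([48],1983,false),([],1989,false),([80],2010,false),([],1983,true)],
  .ch [([],2205,false),([77],2011,false),([],1768,true),([],2011,true),([],2121,true)],
  .ch [([],1940,false),([],486,false),([14],2023,false),([],510,true),([],1934,true)],
  .ch [([],1031,false),([19,16],2062,true),([],1543,true)],
  .ch [([211,16],1506,false),([],2064,true)],
  .ch [([211],1992,false),([],2065,true),([],2174,true)],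
  .ch [([209],2066,false),([],1972,true)],
  .ch [([],2068,false),([18],1968,true),([],989,true)],
  .ch [([209,13],2069,false),([],1506,true)],
  .ch [([],415,false),([36],1524,false),([],1827,false),([208],2069,true)],
  .ch [([211],1967,false),([],2073,true),([19],1968,true),([],1528,true)],
  .ch [([209],2073,false),([],2070,true)],
  .ch [([209],2076,false),([],1967,true)],
  .ch [([],1004,false),([17,4],2077,true),([],1514,true)],
  .ch [([49,4],1319,false),([],2079,true)],
  .ch [([208,45],2079,false),([],1349,true),([49,208],2015,true)],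
  .ch [([],2067,false),([19,208],2082,true),([],2174,true)],
  .ch [([],406,false),([2],1510,false),([],1846,false),([],694,false),([],653,false),([36],2084,true)],
  .ch [([],1355,false),([208],2089,true),([],937,true)],
  .ch [([],1576,false),([],2089,true),([],1524,true)],
  .ch [([],1347,false),([208],2092,true),([],979,true)],
  .ch [([],1320,false),([5,3],2090,true)],
  .ch [([],508,false),([36],2096,false),([],1819,true)],
  .ch [([11],1996,false),([],2111,true),([],2114,true)],
  .ch [([17],2186,false),([17],2091,false),([17],2085,false),([17],2080,false),([],2088,false),([49],2121,true),([],2080,true),([],2085,true),([],2091,true),([],2186,true)],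
  .ch [([17],2129,false),([],2085,true),([],2091,true),([],2186,true)],
  .ch [([81],2131,false),([],2078,true)],
  .ch [([139,8],2138,false),([],1644,true),([8,11],1952,true)],
  .ch [([],1539,false),([17,13],2159,true)],
  .ch [([209,12],2163,false),([],1677,true),([12,17],1972,true)],
  .ch [([209],2164,false),([],1972,true),([],1011,true)],
  .ch [([275],2164,false),([],1973,true)],
  .ch [([48],2165,false),([],2081,true)],
  .ch [([80],2165,false),([],2094,true)],
  .ch [([15],2133,false),([],2178,true)],
  .ch [([18],2185,false),([],2171,true)],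
  .ch [([5],1926,false),([],2186,true),([3],1927,true)],
  .ch [([],2317,false),([49],2191,false),([],1982,true)],
  .ch [([208],2125,false),([208,13],2194,false),([],979,true),([16,208],2124,true),([16,208,3],1981,true)],
  .ch [([274],2197,false),([],1975,true)],
  .ch [([7],2129,false),([],2200,true)],
  .ch [([9],2200,false),([],2103,true)],
  .ch [([175],2118,false),([],2202,true),([39],2221,true),([],2118,true)],
  .ch [([77],1986,false),([],2205,true)],
  .ch [([77],2186,false),([77],2091,false),([],2205,true),([],2341,true)],
  .ch [([275],2208,false),([],1970,true),([],2160,true),([],2165,true)],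
  .ch [([16],1156,false),([],2211,true)],
  .ch [([211],2212,false),([],2065,true),([],2174,true)],
  .ch [([],1394,false),([208],2213,true),([],937,true)],
  .ch [([],1612,false),([],2213,true),([],1524,true)],
  .ch [([49],2213,false),([],2189,true)],
  .ch [([4],2092,false),([],2218,false),([44],2186,true),([],2014,true)],
  .ch [([45],1981,false),([],2220,true)],
  .ch [([],2220,false),([45],2131,true),([],2219,true)],
  .ch [([275],2222,false),([],1970,true),([],2160,true),([],2165,true)],
  .ch [([81],2224,false),([],1924,true),([],2212,true)],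
  .ch [([107],2200,false),([],2227,true),([],2360,true)],
  .ch [([104],2232,false),([],2239,true),([7],2012,true),([],2232,true)],
  .ch [([7],2130,false),([],2241,true)],
  .ch [([209,17],2249,false),([],1522,true),([],2268,true)],
  .ch [([],1392,false),([208],2252,true),([],979,true)],
  .ch [([77],1989,false),([],2252,true)],
  .ch [([],419,false),([2],2261,false),([],517,true)],
  .ch [([18],2267,false),([],2171,true)],
  .ch [([18],2269,false),([],2171,true)],
  .ch [([],2285,false),([4,3],1153,true),([],2253,true)],
  .ch [([],656,false),([4],2385,true),([],694,true),([],2291,true)],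
  .ch [([],2285,false),([4,3],1157,true),([],2253,true)],
  .ch [([],659,false),([],423,false),([],2010,false),([36],2387,false),([],780,true),([],2291,true)],
  .ch [([],2388,false)],
  .ch [([],2388,false),([],536,true)],
  .ch [([],2388,false),([],556,true)],
  .ch [([],2388,false),([],571,true)],
  .ch [([],2388,false),([],584,true)],
  .ch [([],2329,false),([],2388,true),([],553,true)],
  .ch [([],455,false),([],395,false),([],2326,false),([],2388,true),([],2074,true)],
  .ch [([],457,false),([],391,false),([],2332,false),([],2388,true),([],2169,true)],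
  .ch [([],2388,false),([],460,false),([],535,false),([208],2325,false),([],2394,true),([],653,true),([],694,true),([],2291,true),([],2390,true)],
  .ch [([],2204,false),([5,3],2315,true)],
  .ch [([45,2],2316,false),([],1555,true),([2,13],2015,true),([2,13],2125,true),([2],2124,true)],
  .ch [([],2204,false),([5,3],2320,true)],
  .ch [([],743,false),([175,2],2343,false),([],2362,true),([2,11],2015,true),([2,11],2125,true),([2],2113,true)],
  .ch [([211,13],2366,false),([],2324,true)],
  .ch [([138,3],2263,false),([138],2226,false),([138,107],2377,false),([],1408,true),([104,138],2226,true),([104,138,3],2263,true)],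
  .ch [([],2386,false),([76],2160,true),([76],2165,true),([],2216,true),([],424,true)],
  .ch [([],2388,false),([],739,true)],
  .ch [([],2388,false),([],811,true),([],854,true)],
  .ch [([],2388,false),([],812,true),([],856,true)]]

theorem qk7 : (chk qT 2108 qc7 && 2408 == 2108 + qc7.length) = true := by
  decide +kernel

def qc8 : List I2 := [
  .ch [([],2388,false),([],846,true),([],858,true)],
  .ch [([],2388,false),([],847,true),([],860,true)],
  .ch [([],2388,false),([],867,true)],
  .ch [([],562,false),([],535,false),([208],608,false),([],2394,true),([],561,true)],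
  .ch [([],418,false),([],2389,false),([208],939,true),([],535,true),([],456,true)],
  .ch [([],535,false),([],2388,false),([],2328,true),([],418,true),([],1824,true),([],2277,true),([],391,true)],
  .ch [([],2390,false),([208],1944,true),([],2295,true)],
  .ch [([],770,false),([],1412,false),([174,107],2401,true),([174],2228,true),([],1997,true),([39],2253,true)],
  .ch [([],562,false),([],450,false),([],2193,false),([80],1026,false),([],2404,true),([],1269,true),([],2337,true)],
  .ch [([],2296,false)],
  .ch [([80],2417,true)],
  .ch [([],2297,false)],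
  .ch [([48],2419,true)],
  .ch [([],2299,false)],
  .ch [([],1874,true)],
  .ch [([],511,false),([],395,false),([],1909,true),([],389,true),([],507,true),([],656,true),([],426,true)],
  .ch [([],2423,true),([],425,true)],
  .ch [([],2424,false)],
  .ch [([],2327,false),([208],1837,false),([],1922,false),([274],1814,true)],
  .ch [([13],2426,true)],
  .ch [([36],2356,false),([],2083,false),([],1925,false),([],1826,false),([],1924,true),([16],1924,true)],
  .ch [([],2313,false),([],1200,true)],
  .ch [([4],2124,false),([4,13],2207,false),([],2121,false),([],2011,false),([44,37,77],2005,false),([],1806,true),([],654,true)],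
  .ch [([],2121,false),([],2011,false),([],1806,true)],
  .ch [([],2431,false),([4,13,77],1945,true),([4,13],2207,true),([4],2124,true),([],2430,true)],
  .ch [([],2378,false),([7,3],2033,false),([],2225,true)],
  .ch [([5],2433,true)],
  .ch [([21],1165,false),([],2055,true)],
  .ch [([],2330,false),([211],983,false),([211,16],1967,false),([],2064,true)],
  .ch [([13],2436,true)],
  .ch [([19],937,false),([],2067,true)],
  .ch [([19,16],2250,false),([],1031,true)],
  .ch [([275],2196,false),([],2439,false)],
  .ch [([],2411,false),([],2391,false),([],1974,false),([210],1969,false),([],1975,false),([],2396,false),([37],2440,false),([],462,true),([],2388,true),([],2397,true)],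
  .ch [([],2068,false),([],1920,false),([211],2069,true)],
  .ch [([208],2196,false),([208,16],2076,false),([208],917,false),([],2075,true),([],1975,true)],
  .ch [([49],979,false),([],2335,false)],
  .ch [([],2089,false),([],1113,true)],
  .ch [([49],2445,false),([],2370,true),([3],2421,true)],
  .ch [([],2338,false)],
  .ch [([13],2447,true)],
  .ch [([275],2447,false),([],1970,true),([],2160,true),([],2165,true),([13],1969,true),([13],1216,true)],
  .ch [([210],2447,false),([],2307,true)],
  .ch [([],2438,false),([19],2447,true)],
  .ch [([208],2267,false),([],2250,false),([],1919,false),([275,44],1357,false),([],2449,true)],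
  .ch [([],2339,false)],
  .ch [([13],2453,true)],
  .ch [([275],2453,false),([],1970,true),([],2160,true),([],2165,true),([13],2162,true)],
  .ch [([275],2089,false),([275,44],1578,false),([],2455,true)],
  .ch [([49],2092,false),([],1803,true)],
  .ch [([],2457,false),([49,13],2366,true),([],1982,true)],
  .ch [([108],2125,false),([],528,true),([],1994,true),([],446,true)],
  .ch [([],2459,false),([108,3],2223,true)],
  .ch [([],2459,false),([108,3],2216,true)],
  .ch [([],1555,false),([45,2],2125,true)],
  .ch [([3],2462,true)],
  .ch [([],2221,false),([5],2133,false),([],2127,false),([13],2209,true)],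
  .ch [([3],2464,true)],
  .ch [([],2368,false)],
  .ch [([],2466,false),([12,208,17],1989,true),([12],2448,true)],
  .ch [([],2466,false),([12,208,17],1980,true),([12],2448,true)],
  .ch [([],2438,false),([19],2466,true)],
  .ch [([44,208],2193,false),([],2467,false)],
  .ch [([],2470,false),([44,208,2],2446,true)],
  .ch [([],695,false),([45],2471,true)],
  .ch [([],2472,false)],
  .ch [([],2472,false),([37,76],2224,true),([37],2210,true),([37],2221,true),([],2133,true),([2],2463,true)],
  .ch [([36],2472,true)],
  .ch [([77],2471,false)],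
  .ch [([],2476,true)],
  .ch [([51],2473,false)],
  .ch [([],2478,true)],
  .ch [([51],2474,false)],
  .ch [([],2480,true)],
  .ch [([77],2475,false)],
  .ch [([],2482,true)],
  .ch [([45],2470,true)],
  .ch [([],2471,false),([76],2014,true),([],2215,true)],
  .ch [([76],2254,false),([],2471,true)],
  .ch [([45],2486,false),([],2399,true),([37,76],1943,true),([37],2215,true),([],2133,true),([2,13],2483,true),([2],2125,true)],
  .ch [([],2487,false)],
  .ch [([77],2488,true)],
  .ch [([],2010,false),([36],2471,false),([],2006,true),([2],2010,true)],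
  .ch [([],2472,false),([37,76],2251,true)],
  .ch [([],2472,false),([37,76],2256,true)],
  .ch [([50],2133,false),([],2473,true)],
  .ch [([211],2474,false),([],1786,true),([],2474,true)],
  .ch [([50],2092,false),([],2474,true)],
  .ch [([77,44],1594,false),([],2476,true)],
  .ch [([],2477,false),([],2432,true)],
  .ch [([],2477,false),([77],2255,true),([],2363,true)],
  .ch [([],2010,false),([36],2477,false),([],2129,true),([3],2010,true)],
  .ch [([51],1986,false),([],2479,true)],
  .ch [([51],2131,false),([],2479,true)],
  .ch [([51,45],2468,false),([],2480,true)],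
  .ch [([77],2010,false),([],2483,true)],
  .ch [([],2487,false),([50],2252,true),([],2495,true)],
  .ch [([51],2223,false),([],2489,true),([77],2474,true),([],1568,true)],
  .ch [([51],2471,false),([],2489,true)],
  .ch [([51],2475,false),([],2489,true)],
  .ch [([50,44],2494,false),([],1106,true),([44,211],2474,true),([44],2494,true)],
  .ch [([51,3],2319,false),([],2501,true),([37],2400,true),([],2373,true),([3,5],2471,true),([3],2128,true),([3,3,76],2473,true),([3,3],2007,true),([3,3],2133,true)],
  .ch [([50,76],1616,false),([],2508,true),([76],1694,true)],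
  .ch [([],2369,false)],
  .ch [([],2511,false),([12,209,17],1989,true),([12],2454,true)],
  .ch [([13],2511,true)],
  .ch [([],937,false),([208,17],2222,true),([208],2085,true),([208],2091,true),([208],2186,true),([208,3],2193,true)],
  .ch [([278,209],2514,false),([],1836,true)],
  .ch [([37,3],2224,false),([],1319,true),([],2204,true)],
  .ch [([],2380,false)],
  .ch [([],2439,false),([19],2517,true)],
  .ch [([],2444,false),([49],2517,true),([],1982,true)],
  .ch [([81],2252,false),([],1807,true)],
  .ch [([],2520,false),([81,13],1009,true)],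
  .ch [([208,81],2252,false),([],1396,true)],
  .ch [([208,3],2283,false),([208],2186,false),([208],2091,false),([208],2085,false),([208,17],2375,false),([208,17,81],1944,false),([208],2346,false),([208,81],2125,false),([208,81,13],2083,false),([],2522,true)],
  .ch [([37,3],1980,false),([],2266,true)],
  .ch [([37],2131,false),([],2268,false),([13],1524,true)],
  .ch [([76],2525,false),([],2007,true),([],2133,true),([2],2124,true)],
  .ch [([208,13],2167,false),([],2281,true)],
  .ch [([],2342,false),([],2290,false),([6],2247,true),([],577,true)],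
  .ch [([],2528,false),([74,71],2271,true),([74],2106,true),([],497,true),([],756,true),([],2290,true)],
  .ch [([],2528,false),([74,71],2137,true),([74],2106,true),([],497,true),([],756,true),([],2290,true)],
  .ch [([],2528,false)],
  .ch [([],2529,false),([118],2304,false),([],2531,true),([74],1738,true),([74],2236,true)],
  .ch [([208],2298,false)],
  .ch [([],2533,false)],
  .ch [([208],2299,false)],
  .ch [([],2535,false)],
  .ch [([],979,false),([],2250,false),([],1919,false),([275],2305,false)],
  .ch [([],2439,false),([19],2537,true)],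
  .ch [([3],2475,false),([],2125,false),([13],2196,false),([13,16],1967,false),([],1011,false),([16],2306,true),([],1811,true)],
  .ch [([44],2539,false),([],2014,true),([3],2490,true)],
  .ch [([13],2539,false),([],2124,true)],
  .ch [([76],2539,false),([],2215,true),([2],2483,true)],
  .ch [([4],2122,false),([4,36],2306,false),([],2540,false),([44,209],2278,true),([44],1972,true)],
  .ch [([2],2186,false),([2],2122,false),([2,36],2306,false),([],2542,false),([76,209],2278,true),([76],1972,true)],
  .ch [([45],2338,false)],
  .ch [([45],2339,false)],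
  .ch [([209],1982,false),([],2546,false),([45,12],2513,true)],
  .ch [([],2169,false),([208,12],2547,true),([208],2222,true),([208],2357,true),([],2484,true),([45,76],2169,true)],
  .ch [([275],2481,false),([275,51],2548,false),([],1590,true),([49,51],2181,true)],
  .ch [([82,48],2549,false),([],2420,true)],
  .ch [([],2550,true),([],2284,true)],
  .ch [([83],2550,false)],
  .ch [([],2551,false)],
  .ch [([],2553,false),([4,3],2473,true),([],2430,true)],
  .ch [([],2553,false),([4,3],2487,true),([],2253,true)],
  .ch [([5],2553,false)],
  .ch [([3],2215,false),([],2125,false),([],2015,false),([45],2553,true)],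
  .ch [([3],2283,false),([],2186,false),([],2091,false),([],2085,false),([],2080,false),([49],2553,true)],
  .ch [([76],2553,false),([],2486,true),([44],2487,true)],
  .ch [([83,36],2554,false),([],682,true),([],2507,true),([],2557,true)],
  .ch [([],2557,false),([77],1120,true),([],2483,true)],
  .ch [([77],2510,false),([],2557,true)],
  .ch [([44],2475,false),([],2559,false),([76],1148,true),([],2475,true)],
  .ch [([83],2551,false)],
  .ch [([],2564,true)],
  .ch [([83],2554,false)],
  .ch [([],2566,true)],
  .ch [([83],2204,false),([83],1319,false),([],2567,true),([37],2219,true),([],2516,true)],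
  .ch [([],2560,false)],
  .ch [([50],2569,false),([],2474,true),([45],2559,true),([],2223,true)],
  .ch [([],2565,false),([],622,true)],
  .ch [([],2553,false),([4,3],2491,true),([],2430,true)],
  .ch [([],2553,false),([4,3],2492,true),([],2430,true)],
  .ch [([],2557,false),([],2496,true)],
  .ch [([],2204,false),([5,3],2553,true)],
  .ch [([83],2556,false),([],1504,true)],
  .ch [([83,3],929,false),([],2576,true),([19],2221,true)],
  .ch [([49],2558,false),([],2189,true)],
  .ch [([83],2014,false),([],2560,true)],
  .ch [([],1805,false),([18,5],2564,true)],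
  .ch [([83],1330,false),([],2580,true),([18],2221,true)],
  .ch [([],1024,false),([18],2565,true),([],1022,true)],
  .ch [([83],2131,false),([],2567,true)],
  .ch [([49,49],2420,false),([],2578,true),([3,49],1116,true)],
  .ch [([],2181,false),([48,2],2584,true)],
  .ch [([77],2368,false)],
  .ch [([208],1987,false),([],2586,false),([77,12],2448,true),([],2477,true)],
  .ch [([83],2586,false),([],2568,true),([77],2545,true)],
  .ch [([81],2380,false)],
  .ch [([],2589,false)],
  .ch [([],2416,false)],
  .ch [([],2415,false),([107],1210,true)],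
  .ch [([108],2592,false),([],1341,true)],
  .ch [([140],2434,false),([],1390,true)],
  .ch [([],2594,true)],
  .ch [([],2595,false)],
  .ch [([76],2596,true)],
  .ch [([210,44],2442,false),([],2450,true),([208,12],2081,true),([208],2309,true),([208,3],1081,true),([],2448,true)],
  .ch [([],2598,true)],
  .ch [([211],2598,false)],
  .ch [([2,13],2092,false),([],2133,false),([37],2221,false),([37],2210,false),([37,76],2122,false),([],2472,true)],
  .ch [([3],2601,true)],
  .ch [([50],2465,false),([],2474,true),([45],2216,true),([],2372,true),([37,5],1989,true),([37],2186,true),([],2266,true)],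
  .ch [([],2603,true)],
  .ch [([],2604,false)],
  .ch [([12],2605,true)],
  .ch [([4,3],2475,false),([],2253,true),([],2563,true)],
  .ch [([36,3],2475,false),([],2256,true)],
  .ch [([208,3],2475,false),([],2358,true)],
  .ch [([275],2609,false),([],1919,true),([],2250,true),([208],2124,true)],
  .ch [([37],2364,false),([],2479,false),([51],2266,true)],
  .ch [([],1087,false),([3],2193,false),([],2186,false),([],2091,false),([],1991,false),([12],2611,true)],
  .ch [([37],2128,false),([],2220,false),([45],2497,false)],
  .ch [([],1692,false),([80,77,209],2504,true),([80,77],2458,true),([80],2207,true),([],2283,true),([2],2213,true),([2,17,12],1687,true),([2,17],2222,true),([2],2085,true),([2],2091,true),([2],2186,true),([],2193,true),([2],2446,true)],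
  .ch [([208],2614,true)],
  .ch [([],2615,false)],
  .ch [([],2615,false),([80,51],2087,true),([80],2505,true),([],2182,true),([2,17],2561,true),([2],2085,true),([2],2091,true),([2],2186,true)],
  .ch [([81],2615,true),([],2558,true)],
  .ch [([],2553,false),([4,3],2616,true),([],2285,true)],
  .ch [([],2553,false),([4,3],2617,true),([],2285,true)],
  .ch [([],2615,false),([80,51],2585,true),([80],1588,true),([],1980,true)],
  .ch [([50],2212,false),([50],1924,false),([],2616,true)],
  .ch [([],2428,false),([36,3,36],2616,false),([],2608,true)],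
  .ch [([51],1927,false),([],2618,true)],
  .ch [([51],2193,false),([],2618,true)],
  .ch [([82],1982,false),([],2620,true)],
  .ch [([50,13],1216,false),([50,13],1969,false),([50],2165,false),([50],2160,false),([50],1970,false),([50,275],2338,false),([],2621,true),([48,2],1919,true),([48,2],2250,true),([48,2,208],2267,true),([48,2],2452,true),([],1081,true),([2,17],2340,true)],
  .ch [([],2627,true),([2],2281,true)],
  .ch [([],2553,false),([4,3],2628,true)],
  .ch [([],2628,false)],
  .ch [([3],2630,true)],
  .ch [([51],2628,false)],
  .ch [([],2632,true)],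
  .ch [([16,16],2633,false),([],2623,true),([12,36],1984,true)],
  .ch [([208,13],2634,false),([],979,true),([16],2249,true)],
  .ch [([208],2278,false),([],2635,true),([16],2171,true)],
  .ch [([274],2631,false)],
  .ch [([],2637,true)],
  .ch [([274,3],2570,false),([],2637,true)],
  .ch [([12,36],1984,false),([],2623,false),([16,16],2632,true)],
  .ch [([12,16],2160,false),([12,16],1970,false),([],2640,true),([],2196,true)],
  .ch [([],2640,false),([12,16],2071,true)],
  .ch [([13],2640,true)],
  .ch [([13],1975,false),([],2165,false),([],2160,false),([],1970,false),([275],2640,true),([],2631,true)],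
  .ch [([208,3],1983,false),([208],2186,false),([208],2091,false),([208],2085,false),([208,17],2641,false),([],937,true),([12,208],2165,true),([12],2249,true)],
  .ch [([12],2374,false),([],2642,false),([16],2336,true),([],2278,true)],
  .ch [([12],2365,false),([],2642,false),([16],2367,true),([],2278,true)],
  .ch [([],2063,false),([3],2628,false),([3,50],2070,false),([],2541,false),([13,209],2642,true),([13],2349,true)],
  .ch [([],2278,false),([16],2310,false),([],2643,true),([13],2195,true),([],2125,true)],
  .ch [([],2278,false),([16],2365,false),([],2643,true),([13],1992,true),([],2125,true),([3,76],1943,true),([3],2215,true),([],2483,true)],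
  .ch [([],2278,false),([16],2374,false),([],2643,true),([13],1992,true),([],2125,true),([3,76],1944,true),([3],2210,true),([3],2221,true),([],2561,true)],
  .ch [([],2422,false),([208,13],2645,true)],
  .ch [([211],2475,false),([211,76],2650,false),([],718,true),([83],2559,true),([],2560,true)],
  .ch [([],2651,false),([210],2574,true),([],2599,true),([13,44],2651,true),([13],2563,true),([],2125,true),([3],2559,true),([3,44],2562,true)],
  .ch [([18],2249,false),([],2652,true),([208],2171,true)],
  .ch [([211],2256,false),([],2653,true),([45],2573,true),([],2220,true),([37],2128,true),([],2613,true),([],2633,true)],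
  .ch [([],2253,false),([4],2654,false),([],2010,false),([36],2600,false),([],2654,true),([3],2216,true)],
  .ch [([],2652,false),([18],2302,false),([],2655,true),([208],2645,true),([],2645,true),([12],2655,true)],
  .ch [([],2557,false),([44],2481,false),([44],1762,false),([],2657,true)],
  .ch [([44],2494,false),([],2657,true)],
  .ch [([],2213,false),([],2286,false),([36,3],2660,false),([],2256,true)],
  .ch [([],1008,false),([],2661,true),([12],2065,true),([12],2174,true),([],2162,true)],
  .ch [([],1811,false),([16,13],2662,true)],
  .ch [([208,13],2662,false),([],2281,true),([],1970,true),([],2160,true),([],2165,true)],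
  .ch [([16],2172,false),([],2635,false)],
  .ch [([17],2665,true)],
  .ch [([3],2475,false),([],2125,false),([13],2196,false),([],607,false),([209],2636,false)],
  .ch [([],2608,false),([36],2667,true)],
  .ch [([],2607,false),([4],2667,true)],
  .ch [([],2667,false)],
  .ch [([],2667,false),([3,36],2570,true),([3],1945,true),([],1944,true)],
  .ch [([2],2667,true)],
  .ch [([76],2667,false),([],2215,true),([2],2483,true)],
  .ch [([37],2131,false),([],2268,false),([],1522,false),([209,17],2636,true)],
  .ch [([],2073,false),([],2674,false),([],2525,true)],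
  .ch [([],2674,false)],
  .ch [([],2674,false),([37,3],2007,true),([37,3],2133,true)],
  .ch [([],2674,false),([37,3],2210,true),([37,3],2221,true)],
  .ch [([],2674,false),([37,3],2215,true)],
  .ch [([],2674,false),([37,3],2216,true)],
  .ch [([50],2674,false),([],2473,true),([37],2215,true),([],2133,true)],
  .ch [([82],2674,false),([],2554,true),([37],2014,true),([],2321,true)],
  .ch [([],937,false),([208,17],2640,true)],
  .ch [([13],2683,true)],
  .ch [([16],2456,false),([],2643,true)],
  .ch [([17],2685,true)],
  .ch [([17],2643,false)],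
  .ch [([],2324,false),([211],2643,false),([],2065,true),([],2174,true)],
  .ch [([],2688,true)],
  .ch [([50],2165,false),([50,17],2074,false),([],2627,true),([2],979,true),([2,16],2281,true),([2],2643,true)],
  .ch [([50],2662,false),([50],1008,false),([],2628,true),([2],1970,true),([2],2160,true),([2],2165,true),([2,13],1975,true),([2,13,210],2162,true),([2,13],1218,true)],
  .ch [([],2473,false),([50],2085,false),([],2628,true)],
  .ch [([36,3],2692,false),([],2286,true),([],2213,true),([],2661,true),([12],2065,true),([12],2174,true)],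
  .ch [([37],2693,true)],
  .ch [([],621,false),([],2633,true)],
  .ch [([82],2662,false),([82],1008,false),([],2629,true),([4],1970,true),([4],2160,true),([4],2165,true),([4,13],1975,true),([4,13,210],2162,true),([4,13],1218,true)],
  .ch [([82],2165,false),([],2629,true),([4],1973,true),([4],2643,true),([],2371,true)],
  .ch [([],1011,false),([16],2648,false),([],1718,false),([],2631,true)],
  .ch [([],2643,false),([],2323,false),([],2631,true)],
  .ch [([],2643,false),([],2351,false),([],2631,true)],
  .ch [([],2518,false),([],2631,true)],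
  .ch [([],2538,false),([],2631,true)],
  .ch [([],2610,false),([],2631,true)],
  .ch [([],2694,false),([275],1992,false),([],2631,true)],
  .ch [([],2440,false),([275],2196,false),([],2631,true)],
  .ch [([209],2631,false),([],2167,true),([],2541,true)],
  .ch [([18],2631,false),([],2250,true),([],979,true)]]

theorem qk8 : (chk qT 2408 qc8 && 2708 == 2408 + qc8.length) = true := by
  decide +kernel

def qc9 : List I2 := [
  .ch [([51],2250,false),([],1799,false),([18,3],2632,true)],
  .ch [([12],2068,false),([],2645,false),([208],1968,false),([],2172,false),([18],2633,false),([],1022,true)],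
  .ch [([],1524,false),([17],2076,false),([],2633,false),([],1559,true)],
  .ch [([],2571,false),([],2633,true)],
  .ch [([],2625,false),([],2633,true)],
  .ch [([16],1966,false),([],2634,true)],
  .ch [([],2634,false),([16],1969,true),([16],2645,true),([],2196,true)],
  .ch [([],2634,false),([16],2076,true),([],2196,true)],
  .ch [([208],2083,false),([],2635,true)],
  .ch [([],979,false),([],2250,false),([],1919,false),([275],2635,true),([],2631,true)],
  .ch [([],2165,false),([17],1966,false),([],2633,false),([],2565,false),([83],2669,false),([],682,true),([],2507,true),([],2557,true),([],2659,true)],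
  .ch [([209],2675,false),([],2331,true)],
  .ch [([17],2663,false),([17,209],2663,false),([],2719,false)],
  .ch [([],2637,false),([274,3],1089,true),([],2076,true)],
  .ch [([],2174,false),([],2065,false),([211],2638,false),([],1968,true),([12],2679,true),([],1991,true),([],2091,true),([],2186,true)],
  .ch [([],557,false),([111],2642,true),([],537,true)],
  .ch [([209],2643,false),([],2350,true),([],2698,true)],
  .ch [([16],2643,false),([16],1973,false),([],2643,true)],
  .ch [([275],2643,false),([],2631,true)],
  .ch [([],2255,false),([44],2644,true),([],2014,true)],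
  .ch [([208],2186,false),([208],2091,false),([208],1991,false),([],2645,true)],
  .ch [([],2716,false),([208],2222,false),([],2645,true)],
  .ch [([274],2645,false),([],1969,true),([],2645,true)],
  .ch [([19],2631,false),([],2648,true),([],2724,true)],
  .ch [([210],1981,false),([],2649,true)],
  .ch [([209],2649,false),([],1972,true)],
  .ch [([210],2206,false),([],2650,true)],
  .ch [([210],2483,false),([],2650,true)],
  .ch [([],2325,false),([],2653,true),([],2659,true)],
  .ch [([209],2650,false),([],1972,true)],
  .ch [([210],2219,false),([],2651,true)],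
  .ch [([211],1942,false),([],2653,true),([],2659,true)],
  .ch [([18],2659,false),([18],2653,false),([],2068,true),([208],2085,true),([208],2091,true),([208],2186,true),([],2728,true)],
  .ch [([275],2659,false),([275],2653,false),([],2071,true),([17],2694,true)],
  .ch [([36],2068,false),([36],1920,false),([],2654,true)],
  .ch [([36],1968,false),([],2654,true)],
  .ch [([3],2672,false),([3],2475,false),([3,76],2714,false),([3,76,12],2636,false),([3,76],2658,false),([3,76],1922,false),([],2743,false),([36,12],608,true)],
  .ch [([6],2654,false),([],1994,true)],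
  .ch [([],2451,false),([],2656,true)],
  .ch [([],2469,false),([],2656,true)],
  .ch [([209],2656,false),([],2070,true),([17],2662,true),([],2661,true)],
  .ch [([76],2068,false),([76],1920,false),([],2660,true)],
  .ch [([76],1968,false),([],2660,true)],
  .ch [([37],2475,false),([37,76],2714,false),([37,76,12],2636,false),([37,76],2658,false),([37,76],1922,false),([],2750,false),([76,12],608,true)],
  .ch [([4],2660,false),([],2008,true)],
  .ch [([50],2661,false),([],2628,true),([2],1970,true),([2],2160,true),([2],2165,true)],
  .ch [([],2543,false),([48],2662,true),([],2257,true)],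
  .ch [([],2544,false),([80],2662,true),([],2191,true)],
  .ch [([209],1943,false),([],2662,true)],
  .ch [([209],2186,false),([209],2091,false),([209],1991,false),([],2662,true)],
  .ch [([209],2208,false),([],2662,true)],
  .ch [([18],2662,false),([],2173,true),([],2664,true),([],2718,true)],
  .ch [([208,13,13],2662,false),([],2527,true),([275],1970,true),([],2063,true),([],2648,true),([],2348,true),([17],2644,true)],
  .ch [([209],2195,false),([],2663,true)],
  .ch [([208],2068,false),([208],1920,false),([],2666,true)],
  .ch [([44,50],2667,false),([],2485,true),([2],2503,true),([2,36],2506,true),([2],2129,true),([],2672,true)],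
  .ch [([12],1945,false),([],2668,true)],
  .ch [([],1989,false),([80],2669,false),([],1983,true)],
  .ch [([],1972,false),([209],2670,true),([],2756,true)],
  .ch [([],1966,false),([274],2671,true),([],2639,true)],
  .ch [([45],2672,false),([],2561,true)],
  .ch [([18],2679,false),([],2068,true)],
  .ch [([],2694,false),([],2440,true),([],2705,true)],
  .ch [([19],2066,false),([3],2691,false),([3,50],2662,false),([],2706,false),([209,3],2691,true)],
  .ch [([19,3],2249,false),([19,3,208],2664,false),([19,3,208],2173,false),([19,3],2652,false),([],933,false),([51],2703,false),([51,208],2699,false),([],2708,true)],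
  .ch [([83],2628,false),([83,50],2711,false),([],2577,true),([19,2],2015,true),([19,2],2125,true)],
  .ch [([13],2076,false),([13,274],933,false),([],2722,true),([3,80],2575,true),([3],2193,true)],
  .ch [([50],2720,false),([3],929,false),([],2724,false),([209,13],2721,true)],
  .ch [([50,13],2730,false),([],2690,true),([2,13],2196,true),([2],2125,true),([],2475,true),([],2672,true),([2],1921,true),([2],2636,true)],
  .ch [([],2618,false),([37],2650,false),([37,210],1618,false),([],2659,false),([],2653,false),([211],1927,false),([211,80],2737,false),([],2402,true),([],2689,true),([13,209],2475,true),([13,209],2672,true),([13,209,2],2670,true)],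
  .ch [([18,37],2734,false),([],2740,true),([12],2383,true),([12],2684,true)],
  .ch [([18,37],2738,false),([],2740,true),([12],2355,true),([12],2684,true)],
  .ch [([3],2672,false),([3],2475,false),([3,76],2715,false),([3,76,12],2663,false),([3,76],2076,false),([],2743,false),([36,12],2437,true)],
  .ch [([17],2638,false),([17,274],2727,false),([17,274],2352,false),([],2746,false),([19,44],2249,true)],
  .ch [([37],2475,false),([37,76],2715,false),([37,76,12],2663,false),([37,76],2076,false),([],2750,false),([76,12],2437,true)],
  .ch [([49,3],2765,false),([],1087,true),([],2612,true),([12],2509,true),([],1943,true),([3],2122,true),([3],2186,true),([3,3,80],2673,true),([3,3],2318,true)],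
  .ch [([],2648,false),([],2063,false),([],2687,false),([17,13],2766,true)],
  .ch [([209,209],2628,false),([],2775,false),([50,209],2748,true),([50],2662,true),([],2691,true),([2],2720,true)],
  .ch [([51,3],2776,false),([],933,true),([],2772,true)],
  .ch [([13],2757,false),([13,209],2186,false),([13,209],2122,false),([],2777,false),([49,82],1506,true),([49],2629,true),([],2080,true),([],2085,true),([],2091,true),([],2186,true),([3,80],2726,true),([3],2283,true),([],2558,true)],
  .ch [([49],2619,false),([49,82],2521,false),([],2777,true),([13,209],2129,true),([13],2756,true)],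
  .ch [([49],2620,false),([49,82],2774,false),([],2777,true),([13],2758,true)],
  .ch [([51],2553,false),([51,4],931,false),([],2781,true),([19],2014,true)],
  .ch [([51],2553,false),([51,4],2717,false),([51,4],2707,false),([51,4],1331,false),([],2781,true),([19,44],2655,true),([],2746,true),([17],2305,true),([17],2635,true),([18],2014,true)],
  .ch [([2],2186,false),([2],2091,false),([2,37],2300,false),([2,37],1966,false),([],2094,false),([80],2633,false),([80,51],2672,false),([],2622,false),([50,36],2706,false),([],2782,true),([76,19],2638,true)],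
  .ch [([],2720,false),([19,16],2784,false),([],2771,true),([209,19],2164,true),([209,19],2643,true),([209],2689,true),([209,13],2663,true),([],2724,true),([3,50],2720,true),([3],2775,true)],
  .ch [([51,16],2762,false),([],2786,true),([18,3],2709,true),([],2655,true)],
  .ch [([51,16],2719,false),([],2788,true),([19,3],2710,true),([],2720,true)],
  .ch [([2],935,false),([],2582,false),([4,18],2789,true),([],2130,true)],
  .ch [([51],2629,false),([51,82],2747,false),([],2790,true),([19,3],2008,true)],
  .ch [([208,208],2481,false),([],2794,false),([51,208],2519,true),([],2502,true)],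
  .ch [([209,209],2481,false),([],2795,false),([51,209],2458,true),([51],2547,true),([],2481,true)],
  .ch [([],2477,false),([77],2512,false)],
  .ch [([],2800,false),([44,51],707,true),([44,51],2252,true),([],2498,true),([37,3],1926,true),([],1319,true),([],2204,true)],
  .ch [([],2635,false),([208],2251,false),([208,36],2186,false),([208,36],2122,false),([208,36,36],2513,false),([],2443,true),([210],2176,true),([],2161,true)],
  .ch [([17],2802,true)],
  .ch [([],2797,false),([51],2629,false),([51,82],2803,false),([],2791,true),([18,3],2008,true)],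
  .ch [([],2555,false),([82],2523,false),([],2534,true)],
  .ch [([45],2805,true)],
  .ch [([],2207,false),([77],2709,false),([77,12],2068,false),([77],2645,false),([77,208],2661,false),([77,208],2089,false),([],2588,false),([83],2534,false)],
  .ch [([208],2558,false),([],2807,false)],
  .ch [([],2807,false),([3,76],935,true),([3],2215,true)],
  .ch [([2],2807,true)],
  .ch [([],2256,false),([36],2807,true)],
  .ch [([18],2618,false),([2],935,false),([],2709,false),([12],2769,false),([],2728,false),([208],2345,false),([208],2334,false),([208,49],2697,false),([],2808,true),([3,76],2171,true),([3,76],2684,true),([3],2216,true),([37],2658,true),([],2131,true)],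
  .ch [([2],935,false),([],2709,false),([12],2769,false),([12,18],2500,false),([],2811,true),([36,208],2333,true),([36],2587,true),([],2010,true),([],2499,true),([3,4],2742,true),([3],2253,true)],
  .ch [([],2655,false),([18],2786,false),([18,51],2340,false),([],2813,true),([3,44],2798,true)],
  .ch [([],2808,false)],
  .ch [([12],2815,false),([],1943,true),([3],2006,true)],
  .ch [([76],2815,false),([],2215,true)],
  .ch [([],2674,false),([37],2815,true)],
  .ch [([2],935,false),([],2709,false),([12,208],1087,false),([],2816,true),([36],2779,true),([36,208,81],2186,true),([36],2809,true),([],2129,true),([3,36,18],2618,true),([3,36],2812,true),([3],2256,true)],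
  .ch [([37],2475,false),([37,76],2816,false),([37,76],2658,false),([],2749,false),([76,208],2712,false),([],2817,true)],
  .ch [([2],2131,false),([2,37],2645,false),([2,37],1969,false),([2],2694,false),([],2692,false),([],2473,false),([50],1991,false),([50,12],2818,false),([],2753,true),([2,13],1922,true),([2,13],2658,true)],
  .ch [([18,51],2278,false),([],2819,true),([3,12],2249,true)],
  .ch [([50,12],2684,false),([50,12],2355,false),([50],2740,false),([50,18],2659,false),([50,18],2579,false),([],2820,true),([2,18],2204,true)],
  .ch [([45],2709,false),([45,12],2068,false),([45],2645,false),([45,208],2661,false),([45,208],2213,false),([],2806,false),([51],2536,false)],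
  .ch [([],2824,false),([45,2],935,true)],
  .ch [([],2548,false)],
  .ch [([37],2561,false),([],1568,false),([77],2826,true)],
  .ch [([275],2548,false)],
  .ch [([],2828,true)],
  .ch [([82],2398,false),([],2555,true),([],2498,true),([],2524,true)],
  .ch [([],2830,true)],
  .ch [([],2831,false)],
  .ch [([12],2832,true)],
  .ch [([],2556,false),([5],925,true)],
  .ch [([2],2834,true)],
  .ch [([],2066,false),([3],2672,false),([],1943,false),([12],2834,true)],
  .ch [([],2648,false),([],2063,false),([],2687,false),([17,13],2836,true)],
  .ch [([4],2122,false),([4,36],2689,false),([],2754,false),([44,16],2837,true)],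
  .ch [([],2556,false),([5],1139,true)],
  .ch [([82],2720,false),([3],2835,false),([],2731,false),([19],2839,true),([],2720,true)],
  .ch [([209,209],2629,false),([],2840,false),([82,209],2748,true),([82],2662,true),([],2696,true),([4],2720,true)],
  .ch [([],1982,false),([49],1159,false),([],2558,false),([81],2418,true)],
  .ch [([82],2842,false),([],2626,true),([48],1620,true)],
  .ch [([36,3],2562,false),([],2256,true)],
  .ch [([],1557,false),([],2286,false),([36,3],2372,false),([36,3,45],2216,false),([],2844,true)],
  .ch [([],2581,false)],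
  .ch [([19],2846,false)],
  .ch [([],2720,false),([19],2773,false),([19,83],2835,false),([],2847,true),([2,45],2720,true),([2,45],2841,true),([2],2015,true),([2],2125,true)],
  .ch [([2],2131,false),([2,37],2162,false),([2],2694,false),([],2692,false),([37,76],1972,false),([],2526,false),([76,209],2160,false),([],2848,false),([209,209],2810,true),([],2785,true)],
  .ch [([2],2131,false),([2,37],2162,false),([2],2694,false),([],2692,false),([37,76],1972,false),([],2526,false),([76,209],2160,false),([],2848,false),([209,209],2821,true),([],2785,true)],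
  .ch [([],2256,false),([36,3],2849,true)],
  .ch [([],2256,false),([36,3],2850,true)],
  .ch [([],2772,false),([],933,false),([51,3],2570,true)],
  .ch [([],2825,false),([],2778,false),([18],2853,false),([],2655,true),([],2814,true),([3,208],2664,true),([3],2249,true)],
  .ch [([45,13],2662,false),([45],2306,false),([45,209],2165,false),([45,209],2160,false),([],2799,false),([209,209],2854,true),([],2793,true),([3,209],2160,true),([3,209],2165,true),([3],2306,true),([3,13],2662,true)],
  .ch [([19],2618,false),([3],2710,false),([3,12],2675,false),([3,12],2073,false),([3],2661,false),([3,17],1967,false),([3],2686,false),([3,19],2633,false),([3,19],2565,false),([],2855,false),([45,19],2797,true),([45],2720,true),([45],2841,true),([],2015,true),([],2125,true)],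
  .ch [([80],2827,false),([],2617,false),([],1268,true)],
  .ch [([],2857,false)],
  .ch [([],2717,false),([],2707,false),([],1330,true)],
  .ch [([2],2859,true)],
  .ch [([50,2,51],2859,false),([],1841,true),([2],953,true)],
  .ch [([50,2],2796,false),([],2861,true)],
  .ch [([50,2],2822,false),([],2861,true)],
  .ch [([208,17],2631,false),([],2068,false),([],1920,false),([211],2171,false),([211,18],2643,false),([],2427,true)],
  .ch [([],2864,true)],
  .ch [([],2728,false),([208,3],2616,false),([208],2644,false),([208,13],2647,false),([],2249,true)],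
  .ch [([275],2866,false),([],1970,true),([],2160,true),([],2165,true),([13],1922,true),([13],2658,true)],
  .ch [([],2746,false)],
  .ch [([16],2868,true)],
  .ch [([276],2661,false),([],558,true),([],537,true)],
  .ch [([],2870,true)],
  .ch [([278],2661,false),([],560,true),([],539,true)],
  .ch [([],2872,true)],
  .ch [([278,3],2283,false),([278],2186,false),([278],2091,false),([278],1991,false),([278,12],2676,false),([],2872,true)],
  .ch [([37,3],2660,false),([],2674,true)],
  .ch [([17],2700,false),([],2687,true)],
  .ch [([],2717,false),([],2707,false),([18],2701,false)],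
  .ch [([3],2860,false),([3,50,18],2672,false),([3,50,18],2475,false),([],2877,true)],
  .ch [([13],2709,false)],
  .ch [([],2358,false),([208],2207,false),([208,77],2710,false),([],2590,true),([],2558,true)],
  .ch [([17],2880,true)],
  .ch [([17],2717,false)],
  .ch [([],2768,false),([45],2763,false)],
  .ch [([37],2883,true)],
  .ch [([19],2798,false),([],2174,true),([13],1969,true),([13],2645,true)],
  .ch [([],2885,true)],
  .ch [([209],2801,false),([],2720,false),([19],2804,true)],
  .ch [([],2887,true)],
  .ch [([275,80],2827,false),([],1726,true),([80],2552,true),([80],2618,true),([],2087,true),([2],2556,true)],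
  .ch [([13],2606,false),([13,80,77],1967,false),([13],1691,false),([],2167,false),([209],2889,true)],
  .ch [([18],2851,false),([],2759,true),([37],2735,true)],
  .ch [([],2891,true),([],2624,true)],
  .ch [([51],2890,false)],
  .ch [([],2412,false),([],454,false),([36],2422,true),([],561,true),([],1974,true),([],2391,true),([],2277,true),([],391,true)],
  .ch [([],1934,false),([],1821,true)],
  .ch [([],699,false),([],660,false),([111],1993,true),([],513,true)],
  .ch [([],700,false),([],661,false),([139],1993,true),([],515,true)],
  .ch [([36,308],2064,false),([],1306,true),([],557,true)],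
  .ch [([],840,false),([],806,false),([],564,false),([308],2067,true)],
  .ch [([214],2205,false),([],2874,false),([],559,false),([139],2077,true)],
  .ch [([],700,false),([],661,false),([],560,false),([278],2082,true),([],2515,true)],
  .ch [([2,86],2204,false),([],2901,true),([214],2219,true)],
  .ch [([],838,false),([],717,false),([139],2087,true),([],490,true)],
  .ch [([212],2125,false),([],538,true),([],660,true),([],699,true)],
  .ch [([214],2125,false),([],540,true),([],661,true),([],700,true)],
  .ch [([],2905,false),([214,3],2216,true)],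
  .ch [([36],2155,false),([],567,true)],
  .ch [([],854,false),([],558,false),([276],2163,true)],
  .ch [([276],2165,false),([],558,true),([],854,true)],
  .ch [([],2909,false),([276,13],1922,true),([276,13],2658,true)],
  .ch [([278],2165,false),([],560,true),([],856,true)],
  .ch [([],854,false),([111],2168,true),([],557,true)],
  .ch [([],565,false),([139],2170,true),([],808,true),([],842,true)],
  .ch [([],699,false),([],660,false),([111],2196,false),([],557,true),([],2871,true)],
  .ch [([],700,false),([],661,false),([139],2196,false),([],559,true),([],2873,true)],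
  .ch [([],699,false),([],660,false),([111],2198,false),([],557,true)],
  .ch [([118],2200,false),([],516,true),([],661,true),([],700,true)],
  .ch [([],760,false),([14],2247,true),([],580,true)],
  .ch [([],842,false),([],808,false),([139],2249,true),([],565,true)],
  .ch [([],727,false),([],664,false),([6],2254,true),([],2033,true),([],433,true)],
  .ch [([],2382,false),([],1825,true),([],2274,true)],
  .ch [([],728,false),([37],2265,false),([],523,true)],
  .ch [([214],2268,false),([],540,true)],
  .ch [([214],2269,false),([],540,true)],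
  .ch [([],2293,false),([],1659,true),([],705,true),([],769,true)],
  .ch [([],2925,false)],
  .ch [([],2392,false),([208],1048,true),([],553,true),([],567,true)],
  .ch [([],2405,false),([],2291,false),([],694,false),([4],2593,false),([],2429,true),([],773,true)],
  .ch [([111],2643,false),([],557,true)],
  .ch [([212],2644,false),([],538,true),([],854,true)],
  .ch [([],842,false),([],808,false),([139],2645,true),([],539,true)],
  .ch [([],2532,false),([],2460,false),([14],2659,true),([],1977,true),([],453,true),([],791,true)],
  .ch [([308],2720,false),([],564,true)],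
  .ch [([36,114],2739,false),([],1229,true),([],2033,true),([],433,true),([],529,true),([],2287,true)],
  .ch [([],2911,false),([278,13],1969,true),([278,13],2645,true)],
  .ch [([],491,false),([54],2509,false),([54,51,13],2858,false),([54,51],2664,false),([54,51],2173,false),([],1829,false),([310,2],2893,true)],
  .ch [([],489,false),([52],2509,false),([52,51,13],2858,false),([52,51],2664,false),([52,51],2173,false),([],1828,false),([308,2],2893,true)],
  .ch [([276,241],1261,false),([],1478,true),([],845,true)],
  .ch [([214],1534,false),([],883,true)],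
  .ch [([],1500,false),([309],852,false),([],1545,true)],
  .ch [([],1803,false),([49,45,48],1760,true),([49,45],2092,true)],
  .ch [([],2646,false),([274,48],2941,false),([],2869,true),([16],2886,true)],
  .ch [([276],1592,false),([],1371,true)],
  .ch [([276],1622,false),([],1402,true)],
  .ch [([],2092,false),([],669,false),([209,48,45],1355,false),([],1684,true),([48,45],2089,true),([48,45],2661,true),([],2833,true)],
  .ch [([],2729,false),([16,18,45],1689,false),([],2942,false),([210,49],2945,true),([210],2783,true),([210,3,12],2210,true),([210,3],1944,true),([],2738,true),([36,83,3],1945,true)],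
  .ch [([18],2222,false),([37],2744,false),([],2718,false),([13,274],2946,true),([],2736,true),([37],2767,true),([],2091,true),([],2186,true),([3,80,83],2743,true),([3,80],2583,true),([3],2182,true)],
  .ch [([],2892,false),([18,36,5],2888,false),([],2947,true),([17,45,12],2647,true),([17,45],2641,true),([17],2561,true),([],2085,true),([],2091,true),([],2186,true),([3,80,83,36],1987,true),([3,80,83],1942,true),([3,80],2565,true),([3,80],2633,true),([3],2094,true),([],2704,true)],
  .ch [([16],2761,false),([],2066,false),([3],2672,false),([],1943,false),([12],2731,false),([12,19],2948,false),([],2852,true),([36],2663,true)],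
  .ch [([37],2475,false),([37,76],2949,false),([],2692,true),([2],2694,true),([2,37],1975,true),([2,37,210],2076,true),([2,37],2300,true),([2],2091,true),([2],2186,true),([],2792,true),([76,19],2195,true)],
  .ch [([36],2884,false),([36,83,50],2838,false),([],2561,false),([45],2475,false),([45,76],1926,false),([45,76,48],2066,false),([],2495,false),([50],2725,false),([50,16,13],2663,false),([50,16],2689,false),([50,16,19],2381,false),([],2950,true),([76,19,36],1987,true),([76,19],1942,true)],
  .ch [([],2553,false),([4,3],2951,true),([],2253,true)],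
  .ch [([82,210],2620,false),([82,210,82],2787,false),([],2952,true),([44,19,4],1991,true),([44,19,4],2091,true),([44],2702,true),([],2014,true)],
  .ch [([82,210],2181,false),([82,210,48],2829,false),([],2953,true)],
  .ch [([37],2563,false),([37,44],2764,false),([37,44,12,2],2661,false),([37,44,12,2],2213,false),([37,44,12],2283,false),([37,44,12,80],2649,false),([],2573,false),([82],2732,false),([82,210],2353,false),([82,210,80],2310,false),([],2954,true),([3,4,50],2215,true),([3,4,50,2],2252,true),([3,4],2493,true),([3],2752,true)],
  .ch [([209],2133,false),([17],2733,false),([17,209],2654,false),([],2686,false),([19],2080,false),([19,49],2955,false),([],2856,true),([3,76],1972,true),([3],2755,true)],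
  .ch [([209,50],2644,false),([209,2],2602,false),([209,2,13],2725,false),([],2956,true),([36,19,2],2680,true),([36,19,2,37],2091,true),([36,19,2,37],2186,true),([36,19,2],2266,true)],
  .ch [([209,36,19,2],2124,false),([209],2957,false),([209],2890,false),([209,50,3],2890,false),([],2957,true),([36,19,2],2124,true)],
  .ch [([],1788,false),([277],841,false),([],1702,true)],
  .ch [([],1816,false),([279,277,278],1794,true)],
  .ch [([276],1748,false),([],1286,true)],
  .ch [([278],1750,false),([],1288,true)],
  .ch [([],1780,false),([],762,true),([],769,true),([],2926,true)],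
  .ch [([],2963,true),([36],1952,true),([],522,true)],
  .ch [([],2964,false),([86],2246,true),([],503,true)],
  .ch [([],1784,false),([],765,true),([],758,true)],
  .ch [([],1789,false),([241,208,207],1447,true),([],796,true)],
  .ch [([],1790,false),([277,212,209],1461,true),([],807,true)],
  .ch [([],2322,false),([],522,false),([],391,false),([],1883,false)],
  .ch [([138,2],2113,false),([],2969,true),([2,11],1943,true),([2],2113,true)],
  .ch [([138],1800,false),([],2970,true)],
  .ch [([],2971,true)],
  .ch [([138],2105,false),([],2972,true),([71],1942,true),([],2105,true)],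
  .ch [([214],2255,false),([],539,false),([],404,false),([],1884,false),([],2292,true)],
  .ch [([],819,false),([],1090,false),([],1885,false),([],655,true),([],696,true)],
  .ch [([212],2216,false),([],537,false),([],401,false),([],1886,false),([],2289,true)],
  .ch [([],1940,false),([],541,false),([],1887,false),([],391,true)],
  .ch [([],794,false),([],531,false),([172],1133,false),([],2977,true),([36],2354,true)],
  .ch [([],391,false),([],1888,true),([],398,true),([],556,true),([],724,true),([],1216,true),([],391,true),([],2894,true)],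
  .ch [([],2395,false),([],391,false),([],1889,true),([],395,true),([],562,true),([],802,true),([],1218,true),([],391,true),([],2395,true),([],2441,true)],
  .ch [([],1975,false),([],2591,false),([36],2618,false),([36],2552,false),([],2561,false),([],2414,false),([210],2122,false),([],2980,false),([210],2725,true),([],2164,true),([],395,true),([],462,true),([],2388,true),([],2635,true),([],395,true),([],562,true),([],1966,true)],
  .ch [([210],2277,false),([],2395,false),([],2780,false),([],2980,false),([210],1011,true),([],2164,true),([],395,true),([],462,true),([],2388,true),([],2635,true),([],395,true),([],562,true),([],2162,true),([],391,true),([],2395,true)],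
  .ch [([],2980,false)],
  .ch [([],566,false),([],1890,false),([],391,true)],
  .ch [([],573,false),([],404,false),([],1891,false),([],391,true)],
  .ch [([],586,false),([],401,false),([],1892,false),([],391,true)],
  .ch [([],537,false),([],401,false),([],1893,false),([],395,true),([],2412,true)],
  .ch [([],1894,true),([],649,true),([],651,true),([],737,true)],
  .ch [([],404,false),([],1895,true),([],649,true),([],651,true),([],798,true),([],825,true)],
  .ch [([],527,false),([],1896,false),([],404,true)],
  .ch [([],537,false),([],401,false),([],1897,false),([],404,true)],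
  .ch [([],571,false),([],398,false),([],1898,false),([],404,true)],
  .ch [([],557,false),([],401,false),([],1899,false)],
  .ch [([],401,false),([],1900,true),([],649,true),([],651,true),([],823,true)],
  .ch [([],401,false),([],1901,true),([],527,true)],
  .ch [([111],974,false),([],2995,true)],
  .ch [([],549,false),([],1902,false),([],401,true)],
  .ch [([48,276],2612,false),([],2997,true),([],537,true)],
  .ch [([],550,false),([],1903,false),([],401,true)],
  .ch [([80,276],2845,false),([],2999,true),([],537,true)],
  .ch [([],551,false),([],1904,false),([],401,true)],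
  .ch [([],565,false),([],404,false),([],1905,false),([],401,true)],
  .ch [([],584,false),([],398,false),([],1906,false),([],401,true)],
  .ch [([],567,false),([],391,false),([],1907,false),([],398,true),([],2388,true)],
  .ch [([],569,false),([],395,false),([],1908,false),([],398,true),([],2388,true)],
  .ch [([244],1048,false),([],1917,true)],
  .pair 18 false [] 208 true [36] [([],395,false)] [([],398,true),([],2388,true),([],2291,false),([],694,false),([],653,false),([],391,false)]]

theorem qk9 : (chk qT 2708 qc9 && 3008 == 2708 + qc9.length) = true := by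
  decide +kernel

def qc10 : List I2 := [
  .pair 22 true [138] 20 true [110] [([],404,true),([],401,false)] [([],1934,false)],
  .pair 108 false [6] 118 true [138] [([],410,true),([],404,false)] [([],391,true),([],508,true),([],2290,false)],
  .pair 140 false [8] 78 false [4] [([],389,true),([],412,true),([],408,false)] [([],391,true),([],521,true),([],1933,false),([],498,false)],
  .pair 172 false [10] 46 false [2] [([],390,true),([],413,true),([],406,false)] [([],391,true),([],522,true),([],1940,false),([],486,false)],
  .pair 78 true [142,71] 10 false [] [([],444,true)] [([],2314,true),([],1151,true),([],390,false)],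
  .pair 46 true [174,39] 8 false [] [([],445,true)] [([],2312,true),([],1100,true),([],389,false)],
  .pair 110 true [174,39] 12 false [] [([],445,true)] [([],2311,true),([],1178,true),([],391,false)],
  .sym 150 false [4,73] 12 false [] [([],389,true),([],1932,true),([],519,true)],
  .sym 4 true [14,141] 138 false [12,141] [([],543,true),([],1933,true),([],529,false),([],389,false)],
  .sym 48 false [38,7] 110 false [7] [([],425,true)],
  .ch [([],3007,false)],
  .ch [([209,36,19],3018,false),([],2958,true)],
  .ch [([16],2881,false),([],2358,false),([208],2125,false),([208,13],3019,false),([],2281,true),([],2694,true)],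
  .ch [([274,36],3020,false),([],2359,true),([210],2639,true)],
  .ch [([49],2843,false),([],3020,true)],
  .ch [([],2875,false),([37,3],3022,false),([],2266,true)],
  .ch [([50,12],3023,false),([],2753,true),([2,13],2072,true)],
  .ch [([2],2344,false),([],3024,false),([50],2310,true),([],2690,true),([2,13],2198,true),([2],2125,true)],
  .ch [([],2674,false),([37,3],3025,false),([],2266,true)],
  .ch [([],2876,false),([17,3],3024,true)],
  .ch [([],2643,false),([],2251,false),([36,3],3022,true),([],2286,true),([],2213,true),([],2661,true)],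
  .ch [([13],2713,false),([],3028,true)],
  .ch [([3],2182,false),([],2186,false),([],2091,false),([],1991,false),([12],2680,false),([12,211],2174,false),([12,211],2065,false),([],2661,false),([17],2661,false),([17],2089,false),([],2088,false),([49],2572,false),([],3020,true),([37],2638,true),([],2091,true),([],2186,true),([3,80],2618,true),([3],2087,true),([],2556,true)],
  .ch [([36],3018,true)],
  .ch [([],3018,false)],
  .ch [([50],2631,false),([],3024,true)],
  .ch [([12],1968,false),([],1968,false),([211],3021,true)],
  .ch [([2],2131,false),([2,37],2645,false),([2,37],1969,false),([2],2694,false),([],2692,false),([],2491,false),([50,3],2878,false),([],3033,true)],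
  .ch [([],2674,false),([37,3],3035,true)],
  .ch [([50,3],2862,false),([],3033,true)],
  .ch [([],2882,false),([17,3],3037,true)],
  .ch [([],2684,false),([],2384,false),([],3032,true)],
  .ch [([],2674,false),([37,3],2751,false),([37,3,50],3031,false),([37],2703,false),([37,208],3030,false),([],3039,false),([13,208],2770,true),([13],2703,true),([],2124,true),([3,37,50],2645,true),([3,37],2863,true),([3],2133,true)],
  .ch [([],557,false),([111],3029,true),([],537,true)],
  .ch [([],2929,false),([111],3028,true),([],537,true)],
  .ch [([275],2644,false),([],3027,true),([17],2165,true)],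
  .ch [([],2867,false),([275,3],2823,false),([],3043,true),([17,13],1969,true),([17,13],2645,true)],
  .ch [([],2912,false),([],2930,false),([212,3],3024,true)],
  .ch [([],3011,true)],
  .ch [([],3010,true)],
  .ch [([],3009,false)],
  .ch [([9],1949,false),([],2140,false),([],2135,false),([],3008,true),([],2147,true),([],2151,true),([7],1959,true)],
  .ch [([182],3049,false),([],2271,true),([8],1911,true),([8],2248,true)],
  .ch [([182,7],1175,false),([],3050,true)],
  .ch [([],2303,false),([139,9],3051,true)],
  .ch [([138],3052,false),([],2272,true),([],1950,true),([],2135,true),([],2140,true)],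
  .ch [([138,15],1772,false),([],3053,true)],
  .ch [([],3052,true),([],1628,true)],
  .ch [([],3055,false),([9],2347,true)],
  .ch [([6],3056,true)],
  .ch [([111,6],2140,false),([111,6],2135,false),([111,6],1950,false),([],3057,true)],
  .ch [([110],3058,false)],
  .ch [([111,6,9],2049,false),([],3058,true)],
  .ch [([],513,false),([],3060,true),([],2425,true)],
  .ch [([111,6,9],2046,false),([],3058,true),([6],2044,true)],
  .ch [([110,7],3062,false),([],2275,true),([],1960,true),([],2147,true),([],2151,true)],
  .ch [([110,11],1776,false),([],3063,true)],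
  .ch [([],3058,true),([6],2142,true)],
  .ch [([],3065,false),([111,6],2103,true)],
  .ch [([70],3066,false),([],1929,true)],
  .ch [([],3067,false)],
  .ch [([7],3068,true)],
  .ch [([],3064,false)],
  .ch [([],1959,false),([244],3070,false),([],2274,true)],
  .ch [([],3071,false),([110,6],2103,true)],
  .ch [([73],3072,false),([],2036,true),([],2098,true),([],2101,true),([5],2244,true)],
  .ch [([70],3072,false),([],1929,true)],
  .ch [([7],3072,true)],
  .ch [([],3073,false)],
  .ch [([70],3076,true),([],2242,true)],
  .ch [([],3062,false),([111,6],2116,true)],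
  .ch [([],3078,false),([6,11],3069,true),([6],2116,true)],
  .ch [([110],3079,false)],
  .ch [([],3080,true)],
  .ch [([],2109,false),([39],3074,false),([],3081,false)],
  .ch [([43],3082,false),([],2025,true),([],2111,true),([],2114,true),([3],2235,true)],
  .ch [([38],3082,false),([],1936,true)],
  .ch [([7],3082,true)],
  .ch [([],3083,false)],
  .ch [([38],3086,true),([],2233,true)],
  .ch [([138],3048,false)],
  .ch [([],3088,false)],
  .ch [([119],3089,false)],
  .ch [([],3090,true)],
  .ch [([],3091,false)],
  .ch [([139],3092,false)],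
  .ch [([],3093,false)],
  .ch [([6],3094,true)],
  .ch [([108],3095,false)],
  .ch [([],3096,true)],
  .ch [([141],1944,false),([141,12],3047,false),([],1778,true),([],1944,true)],
  .ch [([],3098,true)],
  .ch [([146,37],2561,false),([146],2678,false),([146,211],3099,false),([],1665,true),([141,146],2678,true),([141,146,37],2561,true)],
  .ch [([146],1808,false),([],3100,true)],
  .ch [([147],3101,false)],
  .ch [([],3102,true),([],1770,true)],
  .ch [([],3103,false)],
  .ch [([242],3104,false),([],1400,true)],
  .ch [([],719,false),([243,78],3105,true)],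
  .ch [([82],3106,false)],
  .ch [([78],2682,false),([],3107,false),([82],1203,true),([],2682,true)],
  .ch [([],1380,false),([14,5],3108,true)],
  .ch [([79],3109,false)],
  .ch [([],1602,false),([15],3110,true)],
  .ch [([],1650,false),([],3111,false)],
  .ch [([],2895,false),([138,4],3112,false),([],2973,true),([4,9],977,true),([],526,true)],
  .ch [([],1930,false),([8],3112,false)],
  .ch [([141],1930,false),([],3114,false)],
  .ch [([140],3115,false)],
  .ch [([],3116,true)],
  .ch [([],3117,false),([140,5],2027,true)],
  .ch [([4],3118,true)],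
  .ch [([70,78],2105,false),([70,78],2028,false),([],3119,true)],
  .ch [([71],3120,true),([],2105,true)],
  .ch [([70,78,4],2100,false),([],3120,true)],
  .ch [([],3108,false),([78,4],2127,true)],
  .ch [([],3123,false),([4,13],3117,true),([4],2127,true)],
  .ch [([79],3124,false)],
  .ch [([],3125,true)],
  .ch [([173],1943,false),([173,12],3046,false),([],1782,true),([],1943,true)],
  .ch [([],3127,true)],
  .ch [([178,37],2483,false),([178],2679,false),([178,211],3128,false),([],1675,true),([173,178],2679,true),([173,178,37],2483,true)],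
  .ch [([178],1804,false),([],3129,true)],
  .ch [([179],3130,false)],
  .ch [([],3131,true),([],1764,true)],
  .ch [([],3132,false)],
  .ch [([242],3133,false),([],1369,true)],
  .ch [([],684,false),([243,46],3134,true)],
  .ch [([50],3135,false)],
  .ch [([46],2681,false),([],3136,false),([50],1213,true),([],2681,true)],
  .ch [([],868,false),([14,3],3137,true)],
  .ch [([47],3138,false)],
  .ch [([],1467,false),([15],3139,true)],
  .ch [([],1671,false),([],3140,false)],
  .ch [([],1937,false),([10],3141,false)],
  .ch [([173],1937,false),([],3142,false)],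
  .ch [([172],3143,false)],
  .ch [([],3144,true)],
  .ch [([],3145,false),([172,3],2017,true)],
  .ch [([2],3146,true)],
  .ch [([38,46],2118,false),([38,46],2018,false),([],3147,true)],
  .ch [([39],3148,true),([],2118,true)],
  .ch [([38,46,2],2113,false),([],3148,true)],
  .ch [([47],3149,false)],
  .ch [([],3151,true)],
  .ch [([],3152,false),([47,2],2113,true)],
  .ch [([38],3153,false),([],1939,true)],
  .ch [([],3153,false),([2,11],3128,true),([2],2113,true)],
  .ch [([46],3155,false)],
  .ch [([],3156,true)],
  .ch [([],3155,false)],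
  .ch [([38],3158,true),([],3154,true)],
  .ch [([],3137,false),([46,2],2124,true)],
  .ch [([3],3160,true)],
  .ch [([17],2582,false),([],3038,false)],
  .ch [([12],2709,false),([12,12],2068,false),([12,12],1920,false),([],3034,true)],
  .ch [([214],3028,false),([],540,true),([],559,true)],
  .ch [([],728,false),([],524,false),([176],2025,false),([],2922,false),([],728,false),([],395,false),([],3017,true),([],2382,true),([40],2036,true),([],518,true),([],419,true),([],652,true),([],656,true),([],505,true),([],504,true)],
  .ch [([],2461,false),([],3016,true),([],390,true),([],530,true),([],2288,true),([],492,true),([],547,true),([],533,true)],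
  .ch [([],3166,false)],
  .ch [([],2964,false),([],502,false),([],404,false),([],3015,true),([12],2035,true),([],391,true),([],493,true),([],504,true),([],761,true),([],435,true)],
  .ch [([],3168,true)],
  .ch [([],2965,false),([],3169,true),([70],2127,true),([],495,true)],
  .ch [([],2988,false),([],3170,false)],
  .ch [([],3171,true),([],661,true),([],700,true)],
  .ch [([],3172,false),([],1179,true)],
  .ch [([],700,false),([],661,false),([139],2200,false),([],2965,false),([172,139],1944,false),([],3168,true),([],495,true)],
  .ch [([5],3084,false),([5,38,110],1997,false),([],1999,false),([],3014,true),([],1944,true)],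
  .ch [([5],2029,false),([5,6],2403,false),([],3175,true),([5],2010,true)],
  .ch [([6],3085,false),([],2109,false),([39],3176,true)],
  .ch [([6],3075,false),([],2096,false),([71],3176,true)],
  .ch [([7],3176,true),([],2200,true)],
  .ch [([6],3087,false),([],3176,true)],
  .ch [([6],3077,false),([],3176,true)],
  .ch [([],3176,true)],
  .ch [([],3181,false)],
  .ch [([37],3183,true)],
  .ch [([],1929,false),([70],3065,false),([],3184,true),([37],1929,true)],
  .ch [([7],3185,false)],
  .ch [([],3186,false),([7,37],1994,true)],
  .ch [([],3186,false)],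
  .ch [([],1758,false),([71],3184,false)],
  .ch [([],3189,false)],
  .ch [([111,36],3189,false),([111],1842,false),([],3190,true)],
  .ch [([110],3191,false)],
  .ch [([],3191,true)],
  .ch [([],3177,false)],
  .ch [([70],3193,false),([],3184,true)],
  .ch [([],3193,false),([],660,true),([],699,true)],
  .ch [([22],3188,false),([],2144,true)],
  .ch [([22],3187,false),([],2144,true)],
  .ch [([],3186,false),([7,37],2745,true)],
  .ch [([6],2140,false),([6],2135,false),([],3185,true)],
  .ch [([108],3185,false),([],3097,true),([],3185,true)],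
  .ch [([9],3184,false),([],2098,true),([],2101,true)],
  .ch [([],3200,false),([],3059,false),([110],3185,true),([],3192,true)],
  .ch [([37],3182,false),([37,6],3198,false),([],3203,true)],
  .ch [([37],3182,false),([37,6],3197,false),([],3203,true)],
  .ch [([108,37],3179,false),([],3166,true),([],2382,true)],
  .ch [([23],3179,false),([],2145,true)],
  .ch [([150],3179,false),([],1954,true),([138],1938,true),([],3179,true)],
  .ch [([182],3179,false),([],1949,true),([138],1931,true),([],3179,true)],
  .ch [([],2247,false),([138,9],3209,true),([138],2361,true),([],3179,true),([36,207],662,true),([36,207],3194,true)],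
  .ch [([183],3179,false),([],1911,true),([],2248,true),([138],2103,true),([],3179,true)],
  .ch [([119],3179,false),([],3091,true),([],3179,true)],
  .ch [([118],3179,false),([],3089,true),([],3179,true)],
  .ch [([119],1994,false),([119,6],3213,false),([],635,true),([23,6],3210,true),([23],1994,true)],
  .ch [([],3054,false),([],3179,true)],
  .ch [([110],2105,false),([],3178,true),([71],1942,true),([],2105,true)],
  .ch [([110,4],3202,false),([],3216,true),([4,9],1991,true),([4,9],2091,true),([4],2100,true)],
  .ch [([],1406,false),([142,105],3217,true),([142],2237,true),([],2002,true),([71,2],2186,true)],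
  .ch [([],674,false),([111],3180,true),([],3193,true)],
  .ch [([47,38],3157,false),([],3219,true)],
  .ch [([],711,false),([111],3181,true),([],3193,true)],
  .ch [([79],1932,false),([79,70],3121,false),([],3221,true),([37,110],1932,true)],
  .ch [([47,37,46],3221,false),([],1801,true),([],3126,true)],
  .ch [([],3223,true),([37],3193,true)],
  .ch [([],3224,false)],
  .ch [([36],3225,true),([],3159,true)],
  .ch [([],2286,false),([36,3],3226,true)],
  .ch [([],3227,false)],
  .ch [([37],3228,true),([],2188,true)],
  .ch [([],3165,false),([2,112],3218,true),([2],1384,true),([],659,true)],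
  .ch [([],3230,false)],
  .ch [([23],1994,false),([23,6],3210,false),([23,6,22],3212,false),([],1053,true),([119],1994,true)],
  .ch [([6],3232,false),([],3204,true),([36],790,true)],
  .ch [([36],738,false),([],3210,false)],
  .ch [([37],3234,true)],
  .ch [([108],3235,false)],
  .ch [([],3236,false)],
  .ch [([111],3237,false)],
  .ch [([],3238,true)],
  .ch [([],3239,false)],
  .ch [([109],3240,false)],
  .ch [([109],1843,false),([],3241,true),([37],3232,true)],
  .ch [([],3196,false),([],1252,true)],
  .ch [([],699,false),([],660,false),([],3191,true)],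
  .ch [([],2221,false),([5],3150,false),([5,38,46],1997,false),([],1999,false),([],3013,true),([],1930,true)],
  .ch [([2],3161,false),([],2315,false),([4,13],3245,true),([4],2127,true)],
  .ch [([47,36],3246,false),([],3220,true)],
  .ch [([],3226,false),([37,110],3247,true),([37],3192,true)],
  .ch [([3],3248,true)],
  .ch [([],3248,false),([2],3229,true)],
  .ch [([],3248,false),([2],3128,true)],
  .ch [([],3248,false)],
  .ch [([70],3251,false)],
  .ch [([],3253,true)],
  .ch [([],3252,false),([],2203,true)],
  .ch [([],3255,false),([2,173],3195,true),([2,173,37],3254,true)],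
  .ch [([3],3122,false),([3,70,78],2002,false),([],2004,false),([],3012,true),([],1937,true)],
  .ch [([3],2008,false),([3,4],2597,false),([],3257,true),([3],2017,true)],
  .ch [([79],3258,false),([],3222,true)],
  .ch [([5],3258,true)],
  .ch [([141],3260,false)],
  .ch [([],3261,true)],
  .ch [([79],1999,false),([],3259,true)],
  .ch [([],3256,false),([142],3263,false),([],3113,true),([76],3262,true),([],2210,true),([],409,true),([],2012,true),([],439,true)],
  .ch [([],3196,false),([],3250,false),([2],3249,false),([2,173],1173,false),([],3264,true),([],2978,true)],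
  .ch [([],511,false),([37],3233,true)],
  .ch [([],512,false),([112],3064,false),([],3231,true),([],2918,true),([246],2038,true),([],581,true)],
  .ch [([],3167,false),([14],1950,false),([],3267,false)],
  .ch [([38,142],3193,false),([],3230,true),([],1978,true),([],547,true)],
  .ch [([],2902,false),([],2917,false),([118],2376,false),([118,107],3211,false),([],2966,true),([6,150],2376,true),([6],3208,true),([],1994,true),([],446,true),([],447,true),([],727,true),([],2920,true)],
  .ch [([214,3],3252,false),([],3270,true)],
  .ch [([],772,false),([],3271,false)],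
  .ch [([],3272,false),([36],3179,true),([],653,true),([],694,true),([],2291,true)],
  .ch [([],2921,false),([],3206,false),([108],1636,true),([],740,true)],
  .ch [([],3172,false),([],789,false),([6],1714,false),([],3274,true),([],1230,true),([],747,true)],
  .ch [([],3275,false),([],3174,true)],
  .ch [([],1474,false),([],3276,true),([],747,true)],
  .ch [([],3277,false)],
  .ch [([],3275,false),([],3173,true)],
  .ch [([],1414,false),([],3279,true),([],745,true)],
  .ch [([],2906,false),([],3275,true),([],538,true)],
  .ch [([],3196,false),([],3193,false),([],3281,false)],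
  .ch [([],3282,false)],
  .ch [([],3282,false),([],3265,true)],
  .ch [([],3282,false),([],3244,true)],
  .ch [([],3284,false),([214],2147,false),([],3285,true),([],569,true)],
  .ch [([113],1187,false),([],3286,true)],
  .ch [([],3287,false)],
  .ch [([],3282,false),([],3243,true)],
  .ch [([],3282,false),([],1149,true)],
  .ch [([],3275,false),([],1150,true)],
  .ch [([],3275,false),([],1097,true)],
  .ch [([],2976,false),([212],1981,false),([],3292,true),([],717,true),([],838,true)],
  .ch [([],3282,false),([],2916,true)],
  .ch [([],3282,false),([],2896,true)],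
  .ch [([],2974,false),([214],1986,false),([],3281,true),([],679,true),([],834,true)],
  .ch [([],3281,false),([],2924,true)],
  .ch [([],3281,false),([],2923,true)],
  .ch [([],513,false),([],538,false),([212],605,false),([],3279,true),([],510,true),([],1934,true)],
  .ch [([],2915,false),([],3275,true)],
  .ch [([],3281,false),([],2900,true)],
  .ch [([],2897,false),([],3275,true)],
  .ch [([276],2131,false),([],3294,false),([214],2661,true),([],3164,true)],
  .ch [([],3296,false)],
  .ch [([],2934,false),([],2405,false),([208],3201,true),([],2294,true),([],508,true)],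
  .ch [([],2975,false),([],3196,true),([],2914,true)],
  .ch [([],3272,false),([],759,false),([],531,false),([],1940,false),([],541,false),([2],3109,false),([],3306,true),([212],2164,true),([212],2643,true),([],538,true),([],557,true)]]

theorem qk10 : (chk qT 3008 qc10 && 3308 == 3008 + qc10.length) = true := by
  decide +kernel

def qc11 : List I2 := [
  .ch [([],3307,false)],
  .ch [([],3307,false),([],3290,true)],
  .ch [([],2943,false),([276],1592,false),([],3309,true),([],656,true)],
  .ch [([],3307,false),([],3289,true)],
  .ch [([],1476,false),([],3311,true),([],747,true)],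
  .ch [([],3307,false),([],3285,true)],
  .ch [([],3307,false),([],3283,true)],
  .ch [([],2944,false),([276],1622,false),([],3314,true),([],659,true)],
  .ch [([],3307,false),([],3281,true)],
  .ch [([],3303,false),([276],2131,false),([],3316,true),([],537,true)],
  .ch [([],3317,false)],
  .ch [([],3317,false),([],583,true)],
  .ch [([],3307,false),([],579,true)],
  .ch [([],3045,false),([],3307,false),([],540,true)],
  .ch [([],860,false),([],3321,false),([212],3030,true),([],2930,true)],
  .ch [([],858,false),([],538,false),([212],2165,false),([],3321,true),([],856,true)],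
  .ch [([],3000,false),([],3315,true)],
  .ch [([],783,false),([],671,false),([],3292,false),([212],2554,false),([],3324,true),([84],1991,true),([84],2091,true),([],501,true),([],679,true),([],834,true)],
  .ch [([],3293,false),([],2289,false),([],2121,false),([],570,false),([276],627,false),([],3314,true),([],492,true),([],787,true)],
  .ch [([],2998,false),([],3310,true)],
  .ch [([],788,false),([],710,false),([],3292,false),([212],2473,false),([],3327,true),([52],1991,true),([52],2091,true),([52],2186,true),([],489,true),([],715,true),([],837,true)],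
  .ch [([],3041,false),([],3307,false),([],3300,true)],
  .ch [([],3307,false),([],3295,true)],
  .ch [([],3307,false),([],3273,true)],
  .ch [([],3328,false)],
  .ch [([],525,false),([2],883,false),([],3325,true),([],3304,true),([],2257,true),([],423,true)],
  .ch [([],3333,true),([],575,true)],
  .ch [([],3307,false),([44],1377,false),([],3334,true)],
  .ch [([],407,false),([],2219,false),([],3335,false),([276],899,true),([],3320,true),([],482,true),([],576,true)],
  .ch [([],3336,false)],
  .ch [([],3322,false)],
  .ch [([],3323,false),([],1282,true),([],2388,true)],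
  .ch [([],3061,false),([116],3188,true),([],2150,true),([],468,true),([],3298,true)],
  .ch [([],3061,false),([116],3187,true),([],2150,true),([],468,true),([],797,true),([],823,true)],
  .ch [([],2530,false),([118],3187,true),([],516,true),([],825,true)],
  .ch [([],2994,false),([111,37],3176,true),([],513,true),([],3061,true)],
  .ch [([],2989,false),([139,37],3176,true),([],515,true),([],2530,true)],
  .ch [([],3275,false),([],3172,false),([],2907,true)],
  .ch [([],1831,false),([],3275,false),([],3172,false),([36],1959,false),([],3341,false),([112],3232,true),([],3266,true)],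
  .ch [([],3346,false)],
  .ch [([],3317,false),([],2935,false),([36,310],1730,false),([],3339,true),([],2389,true)],
  .ch [([],3328,false),([],788,false),([],1373,false),([],3337,true),([],1822,true),([],2218,true)],
  .ch [([],3275,false),([],700,false),([],3349,false),([4,276],1125,true),([],3332,true),([],694,true),([],2291,true)],
  .ch [([],3307,false),([],2389,false),([],3350,false),([212],1249,true),([],3318,true)],
  .ch [([],562,false),([],395,false),([],2635,false),([],3351,false),([276],639,true),([],3320,true),([],552,true),([],2393,true)],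
  .ch [([],3317,false),([274],1734,false),([],3352,true),([],805,true)],
  .ch [([],3352,false)],
  .ch [([],3322,false),([],2409,false),([],3351,false)],
  .ch [([],804,false),([36],1483,false),([],3355,true)],
  .ch [([],2927,false),([],3356,true),([],2176,true),([],391,true),([],2654,true),([],407,true),([],2291,true)],
  .ch [([],3355,false)],
  .ch [([],3355,false),([],3338,true)],
  .ch [([],3042,false),([],2908,false),([],3355,true),([],3045,true),([],3321,true)],
  .ch [([],2723,false),([],3355,false),([],1306,true)],
  .ch [([],3355,false),([],1241,true),([],2388,true)],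
  .ch [([],561,false),([],391,false),([],2645,false),([],3362,false),([276],629,true),([],570,true),([],2131,true),([],407,true),([],2291,true),([],2392,true)],
  .ch [([210],1706,false),([],3363,true),([],801,true)],
  .ch [([],2407,false),([],3350,false)],
  .ch [([],562,false),([],3364,false),([212],632,true),([],568,true),([],561,true)],
  .ch [([],3317,false),([],2935,false),([],3323,false),([],2408,false),([],2388,false),([],841,false),([],1453,false),([276],2959,false),([],3362,true)],
  .ch [([],565,false),([],3321,false),([212],3044,false),([212],2867,false),([],3361,true),([],563,true)],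
  .ch [([],565,false),([],3360,false),([212],3040,true),([],538,true),([],563,true)],
  .ch [([],565,false),([],3292,false),([212],3036,false),([],3360,true),([],565,true)],
  .ch [([],538,false),([212],3026,false),([],3360,true)],
  .ch [([],2919,false),([],842,false),([],808,false),([139],3162,false),([],3371,false),([111],2879,true),([],806,true),([],840,true),([],2899,true)],
  .ch [([],3292,false),([212],2677,false),([],3360,true)],
  .ch [([],562,false),([],3359,false),([276],640,true),([],3320,true),([],561,true)],
  .ch [([],562,false),([],570,false),([276],632,false),([],3358,true),([],561,true)],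
  .ch [([],3355,false),([],2910,true)],
  .ch [([],3370,false),([],565,false),([],3360,false),([212],608,true),([],538,true),([],563,true)],
  .ch [([],3368,false),([310],2286,false),([],3377,true),([308],1943,true)],
  .ch [([],3355,false),([],2898,true)],
  .ch [([],562,false),([],3319,false),([212],640,false),([],3353,true),([],561,true)],
  .ch [([],3378,false)],
  .ch [([310],2186,false),([310],2122,false),([],3370,false),([310],2164,true),([310],2643,true),([310],3028,true),([],3369,true)],
  .ch [([310,3],2094,false),([],3382,true)],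
  .ch [([310],2266,false),([],3383,true),([308],2344,true),([308,3],3025,true),([],3381,true)],
  .ch [([],3380,false),([274],1063,true),([],2176,true),([],391,true),([],2654,true),([],407,true),([],2291,true),([],2393,true),([],3354,true),([],1975,true),([],2981,true)],
  .ch [([],2982,false),([],3385,false),([210,310],1815,true),([],2168,true),([],395,true),([],2412,true)],
  .ch [([],3375,false),([274],1048,true),([],2176,true),([],391,true),([],2654,true),([],407,true),([],2291,true),([],2392,true),([],3356,true),([],1975,true),([],2981,true)],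
  .ch [([],2412,false),([],395,false),([],2168,false),([210],1485,false),([],3387,true),([],2982,true)],
  .ch [([],3374,false),([274],1489,true),([],3354,true),([],3021,true),([],2980,true)],
  .ch [([],2413,false),([],395,false),([],2280,false),([210,22],1496,false),([],3389,true),([],2983,true)],
  .ch [([308],3030,false),([308],2656,false),([],3372,false),([310],1970,true),([310],2160,true),([310],2165,true),([],2913,true)],
  .ch [([],3367,false),([],3348,true)],
  .ch [([],3392,false),([212,208],1530,true),([],2987,true),([36],2661,true),([],415,true),([],801,true)],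
  .ch [([213,276],779,false),([],3393,true),([],569,true),([],3045,true),([],3321,true)],
  .ch [([],3394,false)],
  .ch [([],3366,false),([274],1485,true),([],3356,true),([],3021,true),([],2980,true)],
  .ch [([],2413,false),([],395,false),([],2280,false),([210,20],1502,false),([],3396,true),([],2983,true)],
  .ch [([],3321,false),([212],2741,false),([],3361,true),([],3298,true),([139],2165,true),([],2936,true)],
  .ch [([],553,false),([],2388,false),([],572,false),([308],1838,false),([],3356,true),([],2176,true),([],391,true),([],2654,true),([],407,true),([],2291,true),([],553,true)],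
  .ch [([],3399,false)],
  .ch [([],3353,false),([212],1792,true),([],3318,true),([],805,true)],
  .ch [([276],1732,false),([],3351,true),([],2389,true)],
  .ch [([],2412,false),([],3319,false),([212],1498,false),([],3350,true),([],535,true),([],842,true)],
  .ch [([],801,false),([],415,false),([36],2661,false),([36,17],1001,false),([],3403,true),([],2931,true),([],3307,true),([],3376,true),([],3402,true)],
  .ch [([],3404,false)],
  .ch [([],3403,false)],
  .ch [([],3326,false),([],2903,true)],
  .ch [([],3331,false),([276],2153,false),([],3313,true)],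
  .ch [([],1481,false),([244],2938,false),([],3312,true)],
  .ch [([],844,false),([],443,false),([],2061,false),([244],1020,false),([],3312,true),([],555,true)],
  .ch [([],3409,false),([],3307,false),([],3282,false),([],3196,false),([37],3006,false),([],3410,true)],
  .ch [([],2871,false),([],3307,false),([],2939,true),([],391,true),([],475,true),([],405,true)],
  .ch [([],3412,false),([212,210],1742,true),([],3353,true),([],458,true),([],2388,true)],
  .ch [([],3413,false)],
  .ch [([],3329,false),([],1820,true)],
  .ch [([],3415,false),([212,36],1746,true),([212],2654,true),([],2904,true),([],3282,true),([],3307,true),([],3358,true),([],458,true),([],2388,true)],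
  .ch [([],3416,false)],
  .ch [([],509,false),([108],893,false),([],3305,false),([14,211],3205,true),([14],2653,true),([],2460,true),([],2532,true),([],2932,true),([],2928,true),([],3269,true)],
  .ch [([],3418,false)],
  .ch [([],3297,false),([111],2165,true),([],2937,true)],
  .ch [([],3288,false),([],3001,true),([],3297,true),([],2989,true),([],3344,true)],
  .ch [([],3421,false)],
  .ch [([],3342,false),([108,23],2198,false),([],3422,true)],
  .ch [([],3342,false),([108,23],2196,false),([],3422,true),([],3299,true)],
  .ch [([],3424,false)],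
  .ch [([],3425,false),([138],3240,true),([],2107,true)],
  .ch [([],3268,false),([],3426,false)],
  .ch [([],3423,false),([],3427,false),([],3410,true)],
  .ch [([],3427,false)],
  .ch [([],3428,false)],
  .ch [([116],2186,false),([116],2091,false),([116],2085,false),([],3421,true),([],3342,true)],
  .ch [([],2984,false),([],3280,true)],
  .ch [([36],2435,false),([],3432,true),([108],2156,true),([],509,true),([36],2158,true),([],508,true)],
  .ch [([],3433,false)],
  .ch [([],533,false),([206],1530,false),([],3278,true),([],2061,true),([],443,true),([],823,true)],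
  .ch [([],3435,false),([14,21],2668,true),([],3430,true)],
  .ch [([116],2649,false),([],3436,false)],
  .ch [([116,3],2133,false),([116,3],2007,false),([],3437,true),([],3343,true)],
  .ch [([116],1797,false),([],3438,true),([],3340,true),([139],2661,true),([],539,true),([],3307,true),([],2723,true),([],3361,true)],
  .ch [([],2996,false),([],3439,false)],
  .ch [([],3440,true)],
  .ch [([],3345,false),([108],1424,false),([],3441,true)],
  .ch [([],547,false),([36],2054,false),([],792,false),([],528,false),([108],911,false),([],3441,true),([],2054,true),([],441,true)],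
  .ch [([],3443,false),([],3419,true)],
  .ch [([],577,false),([6,13],1059,false),([],3444,true),([],1231,true),([],527,true)],
  .ch [([],3445,false)],
  .ch [([],3446,false),([],2990,true),([],3373,true),([],2989,true),([],3344,true)],
  .ch [([118],3028,false),([],3447,true),([],3422,true)],
  .ch [([118,3],2182,false),([118],2186,false),([118],2091,false),([118],1991,false),([118,12],2680,false),([],3448,true),([],3438,true)],
  .ch [([118],1798,false),([],3449,true),([],3340,true)],
  .ch [([],3302,false),([118],2180,false),([118,113],2200,false),([],3450,true),([139],2180,true),([],3187,true),([],411,true),([],789,true),([],3172,true),([],3275,true),([],3442,true)],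
  .ch [([],3347,false),([],3451,false),([212],1133,true),([],538,true),([],797,true),([],823,true),([36],2158,true),([],508,true)],
  .ch [([],3439,false),([],3452,true),([],3434,true)],
  .ch [([],3242,false),([],3453,true),([36],1916,true),([],567,true),([],3345,true),([],3442,true)],
  .ch [([37],3214,false),([],3454,true)],
  .ch [([37,23],2256,false),([],3455,true),([],3301,true),([139],2213,true),([139],2661,true),([],539,true),([],3307,true),([],2723,true),([],3361,true)],
  .ch [([37,23],2251,false),([],3455,true),([],3301,true)],
  .ch [([],761,false),([],414,false),([],2135,false),([],3457,false),([37],1060,true),([],478,true),([],559,true),([],3317,true)],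
  .ch [([],3458,false)],
  .ch [([],3355,false),([],3322,false),([],2409,false),([],3350,false),([212],1457,false),([],3459,true),([],2388,true)],
  .ch [([],3407,false),([],3326,false),([],3291,false),([212],1361,false),([],3459,true),([],657,true)],
  .ch [([],1816,false),([],3458,true),([],3357,true),([],2409,true),([],3322,true),([],3355,true)],
  .ch [([],3460,false),([276],2160,true),([],558,true),([],854,true),([],3355,true)],
  .ch [([],3462,false)],
  .ch [([],3461,false),([54],2128,true),([],491,true),([],710,true),([],788,true),([],3328,true)],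
  .ch [([],2291,false),([],694,false),([4],1580,false),([],3465,true),([],3332,true)],
  .ch [([],3466,true),([],700,true),([],3275,true)],
  .ch [([],842,false),([],3319,false),([],3467,false),([208],1532,true),([],535,true),([],3456,true)],
  .ch [([],3353,false),([],3317,false),([],804,false),([36],2962,false),([],3468,true),([],858,true),([],3323,true),([],3365,true),([],3318,true)],
  .ch [([],804,false),([36],1284,false),([],3468,true),([],858,true),([],3323,true),([],3365,true),([],3353,true)],
  .ch [([],3468,false)],
  .ch [([],552,false),([],3471,false),([111],1724,true),([],557,true),([],3320,true),([],3469,true)],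
  .ch [([],804,false),([],416,false),([],2664,false),([208],853,false),([],3472,true),([],404,true)],
  .ch [([],3317,false),([],559,false),([],3473,false),([310],2301,true),([310],2664,true),([],3384,true),([308],3030,true),([],3391,true),([],3468,true),([],854,true),([],3355,true)],
  .ch [([],1278,false),([],3355,false),([],2406,false),([],2388,false),([],2968,false),([],3474,true),([],3362,true),([],2389,true)],
  .ch [([],3398,false),([],3292,false),([212],2379,false),([],3474,true),([],558,true),([],563,true)],
  .ch [([],3420,false),([],3373,false),([],3321,false),([212],2348,false),([],3474,true),([],3045,true),([],3321,true),([],565,true)],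
  .ch [([],2933,false),([],3477,true),([],3476,true)],
  .ch [([],840,false),([],806,false),([],558,false),([],3474,false),([212],1522,true),([],538,true),([],3297,true),([139],2131,true),([],3199,true),([],411,true),([],789,true),([],3172,true),([],3275,true),([],3360,true)],
  .ch [([],3358,false),([],804,false),([36],2961,false),([],3479,true),([],860,true),([],3322,true),([],3355,true)],
  .ch [([],3479,false)],
  .ch [([],454,false),([],3481,false),([139],1730,true),([],808,true),([],842,true),([],3468,true),([],466,true),([],3480,true)],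
  .ch [([],3482,false)],
  .ch [([],552,false),([],3481,false),([139],1722,true),([],559,true),([],3317,true),([],568,true),([],3480,true)],
  .ch [([],3479,false),([],1276,true)],
  .ch [([],3395,false),([],3485,true),([],2131,true),([],407,true),([],2291,true)],
  .ch [([],3486,false)],
  .ch [([],3473,false)],
  .ch [([],3376,false),([],3307,false),([],2931,false),([],3468,true),([],537,true)],
  .ch [([],3402,false),([],3489,true),([],3350,true)],
  .ch [([],3405,false),([],3490,true),([],3472,true)],
  .ch [([],3468,false),([],1279,true)],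
  .ch [([],3468,false),([],1238,true)],
  .ch [([],3467,false)],
  .ch [([],3367,false),([],3467,false),([],3463,true)],
  .ch [([],476,false),([],3479,false),([],840,false),([],3492,false),([111],1250,true),([],480,true),([],865,true)],
  .ch [([],3319,false),([],567,false),([36],1754,false),([],3496,true),([36],1322,true),([],567,true),([],3319,true)],
  .ch [([],3480,false),([],3481,false),([],478,false),([37],2960,false),([],3497,true),([],1325,true),([],3481,true)],
  .ch [([],3479,false),([],3400,true)],
  .ch [([],3475,false),([],3417,true)],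
  .ch [([],3468,false),([],3406,true)],
  .ch [([],761,false),([],414,false),([],2135,false),([],3479,false),([],3399,false),([],3501,false),([111],1064,true),([],480,true),([],573,true)],
  .ch [([],3502,false),([],3462,true)],
  .ch [([],3414,false),([],3467,true)],
  .ch [([309],1471,false),([],3498,true),([],1246,true),([],3493,true),([],476,true)],
  .ch [([],3505,true),([],3469,true)],
  .ch [([],3506,false)],
  .ch [([309],1469,false),([],3498,true),([],1246,true),([],806,true),([],840,true),([],3479,true),([],476,true)],
  .ch [([],3508,true),([],3469,true)],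
  .ch [([],3509,false)],
  .ch [([],3491,false),([37],638,true),([],3456,true),([],586,true)],
  .ch [([],3373,false),([],2991,false),([],3494,true),([],535,true)],
  .ch [([],3475,false),([],2291,false),([],407,false),([],2131,false),([],3512,false),([139,37],995,true),([139],2131,true),([],3199,true),([],411,true),([],789,true),([],3172,true),([],3275,true),([],3360,true),([],3485,true),([],569,true)],
  .ch [([],3513,false)],
  .ch [([],3513,false),([],3500,true)],
  .ch [([],3484,false),([],3005,false),([],3515,true)],
  .ch [([],3516,false)],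
  .ch [([],3484,false),([],3004,false),([],3467,false),([],3460,false),([],3379,false),([276],903,false),([],3515,true)],
  .ch [([],3517,false),([213],2695,false),([],3518,false),([309],3163,true),([],3516,true)],
  .ch [([],3518,false),([],3484,false),([],3004,false),([],3489,false),([],3376,false),([276],901,false),([],3515,true)],
  .ch [([],573,false),([],3360,false),([],3275,false),([],3172,false),([],789,false),([],411,false),([],3199,false),([139],2131,false),([139,37],1040,false),([],3512,true),([],3482,true),([],3518,true),([],3520,true)],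
  .ch [([213],2684,false),([],3519,false)],
  .ch [([],3522,true),([],3506,true)],
  .ch [([],3523,false)],
  .ch [([],3524,false),([],3511,true)],
  .ch [([],3307,false),([213],1251,false),([],3525,true)],
  .ch [([],3526,false)],
  .ch [([],3526,false),([],3464,true),([],3502,true)],
  .ch [([],3523,false),([213],2664,false),([213],2173,false),([],3521,false),([],3528,false),([212],1463,true),([],3474,true),([],3514,true)],
  .ch [([],3529,false),([311],2072,true),([],3524,true),([],3517,true)],
  .ch [([],3530,false)],
  .ch [([],3529,false)],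
  .ch [([],3532,false),([213],1973,true),([213],2643,true),([],3523,true)],
  .ch [([],3509,false),([309],1974,false),([],3531,true)],
  .ch [([],3531,false),([309],1921,true),([],3509,true),([],3533,true),([],3534,true)],
  .ch [([],1813,false),([],3530,true),([],3483,true)],
  .ch [([],3487,false),([],3351,false),([276],1794,false),([],3526,true),([],3357,true),([],2410,true)],
  .ch [([],3536,false),([309],1968,true),([],3518,true),([],3520,true),([],3535,true),([213],2666,true),([],3517,true),([],3509,true)],
  .ch [([],3538,false),([37],849,true),([],470,true),([],858,true),([],3323,true),([],3365,true),([],3528,true)],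
  .ch [([],1752,false),([],3539,true)],
  .ch [([],3540,false)],
  .ch [([],3472,false),([],2388,false),([],572,false),([308],1548,false),([],3540,true),([],585,true),([],2388,true),([],2410,true)],
  .ch [([],3541,false),([],3003,true),([],3501,true),([],2979,true)],
  .ch [([],3390,false),([],3543,false)],
  .ch [([],3544,false),([],3386,true)],
  .ch [([],586,false),([],564,false),([308],626,false),([],3545,true),([],3403,true),([],3468,true),([],862,true)],
  .ch [([],3546,false)],
  .ch [([],3388,false),([],3499,false),([139],1038,false),([],3547,true),([],574,true)],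
  .ch [([],3548,true),([],565,true)],
  .ch [([],862,false),([],564,false),([308],853,false),([],3543,true),([],3401,true),([],3468,true),([],586,true)],
  .ch [([],2410,false),([],2388,false),([],585,false),([310],1052,false),([],3541,true),([],572,true),([],2388,true),([],3472,true)],
  .ch [([],3534,false),([],3533,false),([311],1974,true),([],3507,true),([],3516,true)],
  .ch [([],3523,false),([],3552,false),([213,208],2760,true),([213],2865,true),([],3523,true)],
  .ch [([],3504,false)],
  .ch [([],3488,false),([139],903,false),([],3551,true),([],3553,true)],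
  .ch [([],3478,false),([],3002,false),([310,308],2940,false),([],3555,true),([],3542,true),([],3550,true),([],574,true),([],3488,true)],
  .ch [([],1840,false),([],3556,false),([308],1817,true),([],3540,true)],
  .ch [([],3557,false),([308,22],1324,true),([],572,true),([],2388,true),([],2393,true)],
  .ch [([308],1494,false),([],3556,true),([],3541,true)],
  .ch [([],3544,false),([],3390,false),([],2979,false),([],3499,false),([],2992,false),([308,342],1847,false),([],3559,true),([],3543,true),([],3397,true),([],3549,true)],
  .ch [([],3560,false)],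
  .ch [([],3558,false),([],3561,true)],
  .ch [([],3484,false),([],2388,false),([],585,false),([310],1324,false),([],3562,true),([],572,true),([],2388,true),([],2410,true)],
  .ch [([213],1288,false),([],3537,true),([],1311,true),([],858,true),([],3323,true),([],3365,true)],
  .ch [([],3564,false)],
  .ch [([],3554,false),([212,310],1839,false),([],3565,true),([213],2176,true),([213,12],3026,true),([],3523,true),([],3470,true)],
  .ch [([309],2649,false),([],3531,true)],
  .ch [([],3320,false),([276],1324,false),([],3526,true),([],568,true)],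
  .ch [([],568,false),([212],877,false),([],3527,true),([],3320,true)],
  .ch [([],3525,false),([213],1248,true),([],3502,true)],
  .ch [([],2986,false),([],3570,false),([342,212],1548,true),([],2985,true),([],3568,true),([],3569,true),([],3496,true)],
  .ch [([],567,false),([36],1550,false),([],3571,true)],
  .ch [([],3572,true),([],578,true),([],3307,true)],
  .ch [([212],1710,false),([],3573,true),([],3308,true)],
  .ch [([215],1243,false),([],3574,true),([],3503,true),([],3526,true),([],3495,true),([],3514,true)],
  .ch [([215],2281,false),([],3575,true),([],3523,true),([],3510,true)],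
  .ch [([],3576,false),([215],3027,true),([],3566,true)],
  .ch [([],3577,false),([309],2125,true),([],3567,true)],
  .ch [([],3578,false),([36],3207,true),([36],3215,true),([],653,true),([],694,true),([],2291,true),([],3408,true)],
  .ch [([],3579,false)],
  .ch [([],2993,false),([],3513,false),([],3411,true)],
  .ch [([212],1233,false),([],3495,true),([],3311,true),([],789,true),([],3172,true),([],3275,true)],
  .ch [([],3330,false),([],3495,false),([212,206],2967,false),([],3582,true),([212],1445,true),([],3474,true)],
  .ch [([],3581,false),([],2993,false),([],3583,false),([116,36],1522,true),([116],2122,true),([116],2186,true),([],3431,true),([],3423,true),([],3428,true),([],3435,true)],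
  .ch [([],821,false),([],795,false),([14],1730,false),([],3584,true),([],1258,true),([],844,true),([],3427,true)],
  .ch [([],3580,false),([],1257,false),([36,240],1716,false),([],3585,true),([],3429,true),([],840,true),([],3479,true)],
  .ch [([],3530,false),([213],2674,false),([],3586,true),([],3199,true),([],411,true),([],789,true),([],3172,true),([],3275,true),([],3360,true)],
  .ch [([],3563,false),([],3587,true),([],2135,true),([],414,true),([],761,true)],
  .ch [([],398,true),([],2388,true),([],2410,true),([],3588,true)]]

theorem qk11 : (chk qT 3308 qc11 && 3590 == 3308 + qc11.length) = true := by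
  decide +kernel

variable {Γ X : Type} [Group Γ] [MulAction Γ X] {Λ : X → X → Γ} {p : ℕ → X}

theorem qfin (H : Sw Λ) : Hd Λ p (true, [70], [8]) → Hd Λ p (true, [38], [10]) → Hd Λ p (true, [36], [12]) → Hd Λ p (true, [2,70], [14]) → Hd Λ p (true, [16,36], []) → Hd Λ p (true, [18,208], []) → Hd Λ p (true, [20,110], []) → Hd Λ p (true, [22,138], []) →
    Hd Λ p (true, [18,342], []) := by
  intro h0 h1 h2 h3 h4 h5 h6 h7
  have h : ∀ j < 8, Hd Λ p (qT.get j) := by
    intro j hj
    interval_cases j
    exacts [h0, h1, h2, h3, h4, h5, h6, h7]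
  exact (hd_chk H (hd_chk H (hd_chk H (hd_chk H (hd_chk H (hd_chk H (hd_chk H (hd_chk H (hd_chk H (hd_chk H (hd_chk H (hd_chk H h qk0) qk1) qk2) qk3) qk4) qk5) qk6) qk7) qk8) qk9) qk10) qk11) 3589 (by norm_num)

theorem p3 (H : Sw Λ) {o u v w a b c t p q r s : X} (h1 : Λ v w • o = a) (h2 : Λ u w • o = b)
    (h3 : Λ u v • o = c) (h4 : Λ v w • u = t) (h5 : Λ u v • p = o) (h6 : Λ c p • q = o)
    (h7 : Λ w t • r = o) (h8 : Λ a b • s = o) : Λ r s • q = o := by
  have := qfin (p := fun i => [o, u, v, w, a, b, c, t, p, q, r, s].getD i o) H
  simp only [Hd, ev, gen, if_true, one_mul, mul_smul, one_smul] at this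
  norm_num at this
  simp only [H.mv] at this
  exact this h1 h2 h3 h4 h5 h6 h7 h8

end Pool.Agent.ALK
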