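import Mathlib

set_option autoImplicit false

namespace Pool.Agent.ALK

open MonoidAlgebra

variable {Γ : Type} [Group Γ]

theorem dvd_card_act {A Z : Type} [Group A] [MulAction A Z] [Finite Z] {K : ℕ}
    (h : ∀ z : Z, K ∣ (MulAction.stabilizer A z).index) : K ∣ Nat.card Z := by
  have := Fintype.ofFinite (MulAction.orbitRel.Quotient A Z)
  rw [Nat.card_congr (MulAction.selfEquivSigmaOrbits A Z), Nat.card_sigma]
  exact Finset.dvd_sum fun w _ => by simpa [MulAction.index_stabilizer] using h w.out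

def PP {M : ℕ} (f : ZMod M → Γ) (n : ℕ) : Γ := ((List.range n).map fun i : ℕ => f i).prod

theorem PP_add {M : ℕ} (f : ZMod M → Γ) (s n : ℕ) :
    PP f (s + n) = PP f s * PP (fun i : ZMod M => f (i + s)) n := by
  simp [PP, List.range_add, Function.comp_def, add_comm]

theorem PP_conj {M : ℕ} (f : ZMod M → Γ) (s : ℕ) : IsConj (PP f M) (PP (fun i : ZMod M => f (i + s)) M) := by
  have h := PP_add f s M
  rw [add_comm, PP_add] at h
  simp only [CharP.cast_eq_zero, add_zero] at h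
  exact isConj_iff.2 ⟨(PP f s)⁻¹, by rw [inv_inv, mul_assoc, h, inv_mul_cancel_left]⟩

theorem PP_mul {M : ℕ} (f : ZMod M → Γ) (s : ℕ) (h : (fun i => f (i + s)) = f) (n : ℕ) :
    PP f (s * n) = PP f s ^ n := by
  induction n with
  | zero => simp [PP]
  | succ n ih => rw [mul_add, mul_one, add_comm, PP_add, h, ih, pow_succ']

theorem cnt [Fintype Γ] {Y : Type} [Finite Y] (g : Y → Γ) {q : ℕ} (hq : q.Prime) {u : Γ} (u1 : u ≠ 1)
    (uq : u ^ q = 1) (s M : ℕ) (hM : M = q ^ (s + Fintype.card Γ)) :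
    q ^ s ∣ Nat.card {f : ZMod M → Y // IsConj u (PP (fun i => g (f i)) M)} := by
  have : NeZero M := ⟨hM ▸ (pow_pos hq.pos _).ne'⟩
  let _ : MulAction (Multiplicative (ZMod M))
      {f : ZMod M → Y // IsConj u (PP (fun i => g (f i)) M)} :=
    { smul := fun a f => ⟨fun i => f.1 (i + a.toAdd), f.2.trans (by
        simpa using PP_conj (fun i => g (f.1 i)) a.toAdd.val)⟩
      one_smul := fun f => Subtype.ext (funext fun i => congrArg f.1 (add_zero i))
      mul_smul := fun a b f => Subtype.ext (funext fun i => congrArg f.1 (add_assoc i _ _).symm) }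
  refine dvd_card_act (A := Multiplicative (ZMod M)) fun f => ?_
  have h1 := (MulAction.stabilizer (Multiplicative (ZMod M)) f).index_dvd_card
  rw [show Nat.card (Multiplicative (ZMod M)) = q ^ (s + Fintype.card Γ) by simp [← hM]] at h1
  obtain ⟨i, hi, e⟩ := (Nat.dvd_prime_pow hq).1 h1
  have h2 := (MulAction.stabilizer (Multiplicative (ZMod M)) f).pow_index_mem (.ofAdd 1)
  rw [e] at h2 ⊢
  refine pow_dvd_pow _ (not_lt.1 fun c => ?_)
  have h3 : (fun j => g (f.1 (j + (q ^ i : ℕ)))) = fun j => g (f.1 j) := funext fun j =>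
    congrArg g (by
      have : f.1 (j + (Multiplicative.ofAdd (1 : ZMod M) ^ q ^ i).toAdd) = f.1 j :=
        congrFun (congrArg Subtype.val h2) j
      simpa using this)
  obtain ⟨n, hn⟩ := Nat.exists_eq_add_of_le hi
  have h4 := PP_mul (fun j => g (f.1 j)) _ h3 (q ^ n)
  rw [← pow_add, ← hn, ← hM] at h4
  obtain ⟨c, hc⟩ := isConj_iff.1 f.2
  rw [h4] at hc
  generalize PP (fun j => g (f.1 j)) (q ^ i) = w at hc
  have h5 : orderOf w ∣ q ^ (n + 1) := orderOf_dvd_of_pow_eq_one (by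
    rw [pow_succ, pow_mul, ← hc, conj_pow, uq]; simp)
  obtain ⟨t, ht, e2⟩ := (Nat.dvd_prime_pow hq).1 h5
  have h6 : orderOf w ≤ Fintype.card Γ := orderOf_le_card_univ
  have h7 := Nat.lt_pow_self (n := t) hq.one_lt
  have h8 : w ^ q ^ n = 1 := orderOf_dvd_iff_pow_eq_one.1 (e2 ▸ pow_dvd_pow _ (by omega))
  rw [h8, mul_inv_eq_one, mul_eq_left] at hc
  exact u1 hc

theorem expand {Y : Type} [Fintype Y] (g : Y → Γ) (n : ℕ) :
    (∑ y, single (g y) (1 : ℂ)) ^ n =
      ∑ f : Fin n → Y, single ((List.ofFn fun i => g (f i)).prod) 1 := by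
  rw [← MultilinearMap.mkPiAlgebraFin_apply_const (R := ℂ), MultilinearMap.map_sum]
  refine Finset.sum_congr rfl fun f _ => ?_
  rw [MultilinearMap.mkPiAlgebraFin_apply, ← of_apply, map_list_prod, List.map_ofFn]
  rfl

theorem expand2 {Y : Type} [Fintype Y] (g : Y → Γ) (n : ℕ) :
    (∑ y, single (g y) (1 : ℂ)) ^ (n + 1) =
      ∑ f : ZMod (n + 1) → Y, single (PP (fun i => g (f i)) (n + 1)) 1 := by
  rw [expand]
  refine Finset.sum_congr rfl fun f _ => ?_
  rw [PP, List.ofFn_eq_map, ← List.map_coe_finRange_eq_range, List.map_map]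
  congr 3
  funext i
  exact congrArg (fun z => g (f z)) (ZMod.natCast_zmod_val (n := n + 1) i).symm

theorem krull {ι : Type} [Finite ι] (a : ι → ℂ) {q : ℕ} (hq : q.Prime) {x : ℂ}
    (h : ∀ s, ∃ y ∈ Submodule.span ℤ (Set.range a), x = q ^ s * y) : x = 0 := by
  set M := Submodule.span ℤ (Set.range a)
  have : Module.Finite ℤ M := Module.Finite.span_of_finite ℤ (Set.finite_range a)
  obtain ⟨y, hy, e⟩ := h 0
  rw [pow_zero, one_mul] at e
  subst e
  have := Ideal.iInf_pow_smul_eq_bot_of_isTorsionFree (M := M) (I := Ideal.span {(q : ℤ)})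
    (by rw [Ne, Ideal.span_singleton_eq_top, Int.isUnit_iff_natAbs_eq]; exact hq.one_lt.ne')
  have h2 : (⟨x, hy⟩ : M) ∈ (⨅ i : ℕ, Ideal.span {(q : ℤ)} ^ i • ⊤ : Submodule ℤ M) := by
    refine (Submodule.mem_iInf _).2 fun s => ?_
    obtain ⟨y, hy', e⟩ := h s
    rw [show (⟨x, hy⟩ : M) = ((q : ℤ) ^ s) • (⟨y, hy'⟩ : M) from Subtype.ext (by simp [e])]
    exact Submodule.smul_mem_smul (Ideal.pow_mem_pow (Ideal.mem_span_singleton_self _) _) trivial
  rw [this] at h2
  exact congrArg Subtype.val h2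

theorem tr_int {n : Type} [Fintype n] [DecidableEq n] [Nonempty n] {A : Matrix n n ℂ} {m : ℕ}
    (hm : 0 < m) (h : A ^ m = 1) : IsIntegral ℤ A.trace := by
  rw [Matrix.trace_eq_sum_roots_charpoly]
  refine IsIntegral.multiset_sum fun c hc => ?_
  have := spectrum.pow_mem_pow A m (Matrix.mem_spectrum_iff_isRoot_charpoly.2
    (Polynomial.isRoot_of_mem_roots hc))
  rw [h, spectrum.one_eq, Set.mem_singleton_iff] at this
  exact IsIntegral.of_pow hm (this ▸ isIntegral_one)

theorem tr_inv {d : ℕ} {A : Matrix (Fin d) (Fin d) ℂ} (h : A * A = 1) :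
    ∃ r : ℕ, r ≤ d ∧ A.trace = 2 * r - d ∧ (r = 0 → A = -1) ∧ (r = d → A = 1) := by
  have key : ∀ B : Matrix (Fin d) (Fin d) ℂ, B * B = 1 → ∃ r : ℕ, B.trace = 2 * r - d ∧
      (B.trace = -d → B = -1) := fun B hB => by
    have e : IsIdempotentElem (Matrix.toLin' ((2 : ℂ)⁻¹ • (1 + B))) := by
      rw [IsIdempotentElem, Module.End.mul_eq_comp, ← Matrix.toLin'_mul]
      congr 1
      simp only [smul_mul_smul_comm, add_mul, mul_add, hB, one_mul, mul_one]
      module
    have t : LinearMap.trace ℂ _ (Matrix.toLin' ((2 : ℂ)⁻¹ • (1 + B))) = 2⁻¹ * (d + B.trace) := by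
      rw [Matrix.trace_toLin'_eq]; simp [mul_add]
    obtain ⟨r, t2⟩ : ∃ r : ℕ, 2⁻¹ * (d + B.trace) = r :=
      ⟨_, t.symm.trans (LinearMap.IsIdempotentElem.isProj_range _ e).trace⟩
    refine ⟨r, by linear_combination 2 * t2, fun c => ?_⟩
    have := LinearMap.IsIdempotentElem.eq_zero_of_trace_eq_zero e (by rw [t, c]; simp)
    rw [map_eq_zero_iff _ Matrix.toLin'.injective, smul_eq_zero] at this
    exact eq_neg_of_add_eq_zero_right (this.resolve_left (by simp))
  obtain ⟨r, h1, h2⟩ := key A h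
  obtain ⟨s, h3, h4⟩ := key (-A) (by simpa using h)
  rw [Matrix.trace_neg] at h3 h4
  have : r + s = d := by
    have : (r + s : ℂ) = d := by linear_combination 2⁻¹ * (-h1 - h3)
    exact_mod_cast this
  refine ⟨r, by omega, h1, fun c => h2 (by simp [h1, c]), fun c => neg_injective (h4 ?_)⟩
  rw [h1, c]; ring

end Pool.Agent.ALK
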