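import Pool.Agent.H.MP_20a840_al.Kz1

set_option autoImplicit false

namespace Pool.Agent.ALK

open MonoidAlgebra

variable {Γ : Type} [Group Γ] [Fintype Γ]

theorem trL (a : MonoidAlgebra ℂ Γ) :
    LinearMap.trace ℂ _ (LinearMap.mulLeft ℂ a) = Fintype.card Γ * a.coeff 1 := by
  classical
  rw [LinearMap.trace_eq_matrix_trace ℂ (MonoidAlgebra.basis Γ ℂ)]
  simp only [Matrix.trace, Matrix.diag, LinearMap.toMatrix_apply, MonoidAlgebra.basis_apply]
  simp [MonoidAlgebra.basis]

theorem trQ {n : ℕ} {d : Fin n → ℕ}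
    (f : MonoidAlgebra ℂ Γ ≃ₐ[ℂ] Π i, Matrix (Fin (d i)) (Fin (d i)) ℂ) (a : MonoidAlgebra ℂ Γ) :
    Fintype.card Γ * a.coeff 1 = ∑ i, d i * (f a i).trace := by
  classical
  rw [← trL, ← LinearMap.trace_conj' _ f.toLinearEquiv, LinearMap.trace_eq_matrix_trace ℂ
    (Pi.basis fun i => Matrix.stdBasis ℂ _ _)]
  simp [Matrix.trace, LinearMap.toMatrix_apply, LinearEquiv.conj_apply, Fintype.sum_sigma,
    Fintype.sum_prod_type, Finset.mul_sum, Matrix.stdBasis, Matrix.mul_apply, Pi.single_apply,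
    ite_apply]

theorem rat_int {w : ℂ} (h : IsIntegral ℤ w) {a b : ℤ} (hb : b ≠ 0) (e : w * b = a) : b ∣ a := by
  have h1 : w = algebraMap ℚ ℂ (a / b) := by
    simp [← e, hb]
  rw [h1, isIntegral_algebraMap_iff (algebraMap ℚ ℂ).injective,
    IsIntegrallyClosed.isIntegral_iff] at h
  obtain ⟨y, hy⟩ := h
  refine ⟨y, ?_⟩
  have : (a : ℚ) = b * y := by
    rw [show (y : ℚ) = a / b from hy]; field_simp
  exact_mod_cast this

theorem kaz {X : Type} [Fintype X] (j : X → Γ) (x0 : X) (hj : j x0 * j x0 = 1)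
    (hc : ∀ x, IsConj (j x0) (j x)) (hp : ∀ g, ∃ σ : X ≃ X, ∀ x, g * j x * g⁻¹ = j (σ x))
    {p k : ℕ} (pp : p.Prime) (hX : Fintype.card X = p ^ k) (N : Subgroup Γ) [hn : N.Normal]
    (hN : N = Subgroup.closure {g | ∃ x y, g = j x * j y}) (hi : ¬ p ∣ N.index) {q : ℕ}
    (hq : q.Prime) (hne : q ≠ p) {u : Γ} (hu : u ∈ N) (uq : u ^ q = 1) : u = 1 := by
  classical
  by_contra u1
  obtain ⟨n, d, hd, ⟨f⟩⟩ := IsSemisimpleRing.exists_algEquiv_pi_matrix_of_isAlgClosed ℂ
    (MonoidAlgebra ℂ Γ)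
  have d0 : ∀ i, (d i : ℤ) ≠ 0 := fun i => by exact_mod_cast (hd i).ne
  let F : ∀ i, MonoidAlgebra ℂ Γ →ₐ[ℂ] Matrix (Fin (d i)) (Fin (d i)) ℂ :=
    fun i => (Pi.evalAlgHom ℂ _ i).comp f.toAlgHom
  let ρ : ∀ i, Γ →* Matrix (Fin (d i)) (Fin (d i)) ℂ := fun i => (F i).toMonoidHom.comp (of ℂ Γ)
  have Fs : ∀ i g, F i (single g 1) = ρ i g := fun _ _ => rfl
  have tq : ∀ a, Fintype.card Γ * a.coeff 1 = ∑ i, d i * (F i a).trace := trQ f
  have cj : ∀ i g h, IsConj g h → (ρ i g).trace = (ρ i h).trace := fun i g h e => by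
    obtain ⟨c, rfl⟩ := isConj_iff.1 e
    rw [map_mul, map_mul, Matrix.trace_mul_cycle, ← map_mul, inv_mul_cancel, map_one, one_mul]
  have sc : ∀ a, (∀ g, Commute (single g 1) a) → ∀ i, ∃ w : ℂ, F i a = w • 1 := fun a ha i => by
    have hc : ∀ b, Commute b a := fun b => by
      induction b using MonoidAlgebra.induction_on with
      | of g => exact ha g
      | add a b ha hb => exact ha.add_left hb
      | smul c a ha => exact ha.smul_left c
    obtain ⟨c, hc⟩ := (Matrix.mem_range_scalar_iff_commute_single' (M := F i a)).2 fun a b => by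
      obtain ⟨x, hx⟩ := (Function.surjective_eval i).comp f.surjective (Matrix.single a b 1)
      exact hx ▸ (hc x).map (F i)
    exact ⟨c, by rw [← hc]; simp [Matrix.smul_eq_diagonal_mul]⟩
  set z : MonoidAlgebra ℂ Γ := ∑ x, single (j x) 1 with hz
  choose w hw using sc z fun g => by
    obtain ⟨σ, hσ⟩ := hp g
    rw [Commute, SemiconjBy, hz, Finset.mul_sum, Finset.sum_mul]
    exact Fintype.sum_equiv σ _ _ fun x => by simp [single_mul_single, ← hσ]
  have zs : ∀ i, ∑ x, ρ i (j x) = w i • 1 := fun i => by rw [← hw, hz, map_sum]; rfl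
  choose r r1 r2 r3 r4 using fun i => tr_inv (A := ρ i (j x0)) (by rw [← map_mul, hj, map_one])
  have w1 : ∀ i, w i * (d i : ℤ) = (p ^ k * (2 * r i - d i) : ℤ) := fun i => by
    have := congrArg Matrix.trace (zs i)
    simp only [Matrix.trace_sum, ← cj i _ _ (hc _), r2, Finset.sum_const, Finset.card_univ, hX]
      at this
    simpa using this.symm
  have wi : ∀ i, IsIntegral ℤ (w i) := fun i => by
    have := (IsIntegral.of_finite ℤ (∑ x, single (j x) 1 : MonoidAlgebra ℤ Γ)).map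
      (MonoidAlgebra.lift ℤ _ Γ (ρ i))
    simp only [map_sum, lift_single, one_smul, zs, ← Algebra.algebraMap_eq_smul_one] at this
    exact (isIntegral_algebraMap_iff (algebraMap ℂ _).injective).1 this
  choose ω hω using fun i => rat_int (wi i) (d0 i) (w1 i)
  have wω : ∀ i, w i = ω i := fun i => mul_right_cancel₀ (Int.cast_ne_zero.2 (d0 i)) (by
    rw [w1, hω]; push_cast; ring)
  let T : Fin n → Prop := fun i => ∀ g ∈ N, ρ i g = 1
  have cA : ∀ i, ¬ (q : ℤ) ∣ ω i → ¬ T i → p ∣ d i := fun i h1 h2 => by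
    by_contra h3
    have h4 : (d i : ℤ) ∣ 2 * r i - d i := (IsCoprime.pow_right (n := k) (Nat.isCoprime_iff_coprime.2
      ((pp.coprime_iff_not_dvd).2 h3).symm)).dvd_of_dvd_mul_left ⟨_, hω i⟩
    have h5 : r i = 0 ∨ r i = d i := by
      by_contra h6
      have := r1 i
      have h7 := Int.eq_zero_of_abs_lt_dvd h4 (abs_lt.2 ⟨by omega, by omega⟩)
      have h8 := hω i
      rw [h7, mul_zero, eq_comm, mul_eq_zero] at h8
      exact h1 (h8.resolve_left (d0 i) ▸ dvd_zero _)
    have h6 : ∀ x, ρ i (j x) = ρ i (j x0) := fun x => by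
      obtain ⟨c, e⟩ := isConj_iff.1 (hc x)
      rw [← e, map_mul, map_mul]
      rcases h5 with h | h
      · simp [r3 i h, ← map_mul]
      · simp [r4 i h, ← map_mul]
    refine h2 fun g hg => (Subgroup.closure_le (ρ i).ker).2 ?_ (hN ▸ hg)
    rintro _ ⟨x, y, rfl⟩
    change ρ i _ = 1
    rw [map_mul, h6 x, h6 y, ← map_mul, hj, map_one]
  have cB : ∀ i, T i → ¬ (q : ℤ) ∣ ω i := fun i h1 h2 => by
    have h3 : ∀ x, ρ i (j x) = ρ i (j x0) := fun x => by
      rw [← mul_one (j x), ← hj, ← mul_assoc, map_mul,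
        h1 _ (hN ▸ Subgroup.subset_closure ⟨x, x0, rfl⟩), one_mul]
    have h4 := zs i
    simp only [h3, Finset.sum_const, Finset.card_univ, hX, ← Nat.cast_smul_eq_nsmul ℂ] at h4
    have h5 := congrArg₂ (· * ·) h4 h4
    simp only [smul_mul_smul_comm, ← map_mul, hj, map_one, mul_one, wω] at h5
    have h6 : ((p ^ k * p ^ k : ℕ) : ℤ) = ω i * ω i := by
      exact_mod_cast smul_left_injective ℂ one_ne_zero h5
    have h7 : q ∣ p ^ (k + k) := by
      rw [pow_add, ← Int.natCast_dvd_natCast, h6]; exact h2.mul_right _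
    exact hne ((Nat.prime_dvd_prime_iff_eq hq pp).1 (hq.dvd_of_dvd_pow h7))
  have idx : (N.index : ℂ) = ∑ i, if T i then (d i : ℂ) * d i else 0 := by
    set e : MonoidAlgebra ℂ Γ := ∑ g : N, single g.1 1 with he
    choose c hc using sc e fun g => by
      rw [Commute, SemiconjBy, he, Finset.mul_sum, Finset.sum_mul]
      exact Fintype.sum_equiv (MulAut.conjNormal g).toEquiv _ _ fun x => by simp [single_mul_single]
    have e1 : ∀ i, F i e = if T i then (Fintype.card N : ℂ) • 1 else 0 := fun i => by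
      split_ifs with h
      · simp [he, Fs, fun x : N => h x x.2, Nat.cast_smul_eq_nsmul]
      · by_contra c0
        refine h fun g hg => ?_
        have : single g 1 * e = e := by
          rw [he, Finset.mul_sum]
          exact Fintype.sum_equiv (Equiv.mulLeft ⟨g, hg⟩) _ _ fun x => by simp [single_mul_single]
        have := congrArg (F i) this
        rw [map_mul, Fs, hc, mul_smul_comm, mul_one] at this
        exact smul_right_injective _ (fun c1 => c0 (by rw [hc, c1, zero_smul])) this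
    have e2 := tq e
    have e3 : e.coeff 1 = 1 := by simp [he, Finsupp.single_apply]
    refine mul_left_cancel₀ (a := (Fintype.card N : ℂ)) (by simp) ?_
    rw [← Nat.cast_mul, ← Nat.card_eq_fintype_card, N.card_mul_index, Nat.card_eq_fintype_card,
      ← mul_one (Fintype.card Γ : ℂ), ← e3, e2, Finset.mul_sum]
    refine Finset.sum_congr rfl fun i _ => ?_
    rw [e1]
    split_ifs
    · simp; ring
    · simp
  let a : Fin n → ℂ := fun i => d i * (ρ i u⁻¹).trace
  let C := Finset.univ.filter (IsConj u)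
  have kr : (C.card : ℂ) * ∑ i, (if (q : ℤ) ∣ ω i then 0 else 1 : ℤ) * a i = 0 := by
    refine krull (fun o : Option (Fin n) => o.elim 1 a) hq fun s => ?_
    obtain ⟨M, hM⟩ : ∃ M, M + 1 = q ^ (s + Fintype.card Γ) :=
      ⟨_, Nat.succ_pred_eq_of_pos (pow_pos hq.pos _)⟩
    obtain ⟨c, hc⟩ := cnt (fun y : Fin (q - 1) → X => (List.ofFn fun i => j (y i)).prod) hq u1 uq s
      _ hM
    have e1 : ∑ h ∈ C, ((z ^ (q - 1)) ^ (M + 1)).coeff h = q ^ s * c := by
      rw [hz, expand, expand2, ← Nat.cast_pow, ← Nat.cast_mul, ← hc]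
      simp only [coeff_sum, Finsupp.finsetSum_apply, coeff_single, Finsupp.single_apply]
      rw [Finset.sum_comm]
      simp [C, Fintype.card_subtype]
    have e2 : ∀ h ∈ C, Fintype.card Γ * ((z ^ (q - 1)) ^ (M + 1)).coeff h =
        ∑ i, ((ω i ^ (q - 1)) ^ (M + 1) : ℤ) * a i := fun h hh => by
      have := tq ((z ^ (q - 1)) ^ (M + 1) * single h⁻¹ 1)
      rw [coeff_mul_single_apply] at this
      simp only [inv_inv, one_mul, mul_one] at this
      rw [this]
      refine Finset.sum_congr rfl fun i _ => ?_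
      obtain ⟨c, rfl⟩ := isConj_iff.1 (Finset.mem_filter.1 hh).2
      rw [map_mul, map_pow, map_pow, hw, Fs, smul_pow, smul_pow, one_pow, one_pow, smul_mul_assoc,
        one_mul, Matrix.trace_smul, ← cj i u⁻¹ _ (isConj_iff.2 ⟨c, by group⟩), wω]
      simp only [a, smul_eq_mul]
      push_cast
      ring
    have e3 : ∀ i, (q ^ s : ℤ) ∣ (if (q : ℤ) ∣ ω i then 0 else 1) - (ω i ^ (q - 1)) ^ (M + 1) :=
      fun i => by
        split_ifs with h
        · rw [zero_sub, dvd_neg]
          refine pow_dvd_pow_of_dvd_of_le (h.trans (dvd_pow_self _ (by have := hq.two_le; omega))) ?_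
          have := Nat.lt_pow_self (n := s + Fintype.card Γ) hq.one_lt
          omega
        · have := dvd_sub_pow_of_dvd_sub (Int.ModEq.pow_card_sub_one_eq_one hq
            ((Nat.prime_iff_prime_int.1 hq).coprime_iff_not_dvd.2 h).symm).dvd (s + Fintype.card Γ)
          rw [one_pow, ← hM] at this
          exact (pow_dvd_pow _ (by omega)).trans this
    choose t ht using e3
    refine ⟨((Fintype.card Γ * c : ℕ) : ℤ) • 1 + ∑ i, (C.card * t i : ℤ) • a i, add_mem
      (Submodule.smul_mem _ _ (Submodule.subset_span ⟨none, rfl⟩)) (sum_mem fun i _ =>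
        Submodule.smul_mem _ _ (Submodule.subset_span ⟨some i, rfl⟩)), ?_⟩
    have e4 := Finset.sum_congr rfl e2
    rw [← Finset.mul_sum, e1, Finset.sum_const, nsmul_eq_mul] at e4
    simp only [sub_eq_iff_eq_add.1 (ht _), Int.cast_add, add_mul, Finset.sum_add_distrib, mul_add,
      ← e4, zsmul_eq_mul, Finset.mul_sum]
    push_cast
    rw [add_comm]
    congr 1
    · ring
    · exact Finset.sum_congr rfl fun i _ => by ring
  have c0 : (C.card : ℂ) ≠ 0 := by
    exact_mod_cast (Finset.card_pos.2 ⟨u, Finset.mem_filter.2 ⟨Finset.mem_univ _, IsConj.refl u⟩⟩).ne'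
  have k2 := (mul_eq_zero.1 kr).resolve_left c0
  have : ∀ i, ∃ y : ℂ, IsIntegral ℤ y ∧ y * p = (if T i then (d i : ℂ) * d i else 0) -
      (if (q : ℤ) ∣ ω i then 0 else 1 : ℤ) * a i := fun i => by
    by_cases h1 : T i
    · exact ⟨0, isIntegral_zero, by simp [h1, cB i h1, a, h1 _ (inv_mem hu)]⟩
    by_cases h2 : (q : ℤ) ∣ ω i
    · exact ⟨0, isIntegral_zero, by simp [h1, h2]⟩
    obtain ⟨c, hc⟩ := cA i h2 h1
    refine ⟨-(c * (ρ i u⁻¹).trace), ((isIntegral_natCast c).mul (tr_int hq.pos (by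
      rw [← map_pow, inv_pow, uq, inv_one, map_one]))).neg, ?_⟩
    have : (d i : ℂ) = p * c := by exact_mod_cast hc
    simp [h1, h2, a, this]; ring
  choose y hy1 hy2 using this
  refine hi (Int.natCast_dvd_natCast.1 (rat_int (IsIntegral.sum (s := Finset.univ) y fun i _ => hy1 i)
    (by exact_mod_cast pp.ne_zero) ?_))
  simp only [Int.cast_natCast, Finset.sum_mul, hy2, Finset.sum_sub_distrib, k2, idx, sub_zero]

end Pool.Agent.ALK
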