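import Mathlib

set_option autoImplicit false

namespace Pool.Agent.ALK

theorem cind {M A : Type} [AddCommGroup M] [AddCommGroup A] {D : Set M} (F : M → A)
    (ha : ∀ a b, F (a + b) = F a + F b) (h : ∀ x ∈ D, F x = 0) {x : M}
    (hx : x ∈ AddSubgroup.closure D) : F x = 0 :=
  (AddSubgroup.closure_le (AddMonoidHom.mk' F ha).ker).2 h hx

attribute [local instance] LieRing.ofAssociativeRing

section ring
variable {R : Type} [Ring R]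

theorem ring2 (h2 : ∀ x : R, x + x = 0) {S : AddSubgroup R} (hc : ∀ X ∈ S, ∀ Y ∈ S, ⁅X, Y⁆ ∈ S)
    (ha : ∀ X ∈ S, ∀ Y ∈ S, ∀ Z ∈ S, ⁅X, Y⁆ * Z = ⁅X, Z⁆ * Y) {X Y U W Z : R} (hX : X ∈ S)
    (hY : Y ∈ S) (hU : U ∈ S) (hW : W ∈ S) (hZ : Z ∈ S) : ⁅X, Y⁆ * ⁅U, W⁆ * Z = 0 := by
  have sk : ∀ X Y : R, ⁅X, Y⁆ = ⁅Y, X⁆ := fun X Y => by
    rw [← lie_skew, neg_eq_iff_add_eq_zero, h2]
  have a0 : ∀ X ∈ S, ∀ Y ∈ S, ⁅X, Y⁆ * X = 0 := fun X hX Y hY => by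
    rw [ha X hX Y hY X hX, lie_self, zero_mul]
  have b0 : ∀ X ∈ S, ∀ Y ∈ S, ∀ W ∈ S, ⁅⁅X, Y⁆, ⁅X, W⁆⁆ = 0 := fun X hX Y hY W hW => by
    rw [Ring.lie_def, ha X hX Y hY _ (hc X hX W hW), ha X hX W hW _ (hc X hX Y hY),
      Ring.lie_def X ⁅X, W⁆, Ring.lie_def X ⁅X, Y⁆, a0 X hX W hW, a0 X hX Y hY, sub_zero, sub_zero,
      mul_assoc, mul_assoc, ha X hX W hW Y hY, sub_self]
  have b1 : ∀ X ∈ S, ∀ X' ∈ S, ∀ Y ∈ S, ∀ W ∈ S, ⁅⁅X, Y⁆, ⁅X', W⁆⁆ = ⁅⁅X', Y⁆, ⁅X, W⁆⁆ :=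
    fun X hX X' hX' Y hY W hW => by
      have := b0 _ (add_mem hX hX') Y hY W hW
      simp only [add_lie, lie_add, b0 X hX Y hY W hW, b0 X' hX' Y hY W hW, zero_add, add_zero] at this
      rw [eq_neg_of_add_eq_zero_right this, neg_eq_iff_add_eq_zero, h2]
  have e0 : ∀ U ∈ S, ⁅U, ⁅U, X⁆⁆ * Y * Z = 0 := fun U hU => by
    have c := hc U hU X hX
    have e1 : ⁅U, ⁅U, X⁆⁆ * Y * Z = ⁅U, ⁅U, X⁆⁆ * Z * Y + ⁅U, ⁅U, X⁆⁆ * ⁅Y, Z⁆ := by
      rw [Ring.lie_def Y Z]; noncomm_ring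
    have e2 : ⁅⁅U, X⁆, ⁅Y, Z⁆⁆ = ⁅⁅X, Y⁆, ⁅U, Z⁆⁆ := by
      rw [b1 U hU Y hY X hX Z hZ, sk Y X]
    rw [e1, ha U hU _ c Z hZ, sk U ⁅U, X⁆, ha _ c U hU _ (hc Y hY Z hZ), e2, mul_assoc, sk U X,
      ha X hX U hU Y hY, Ring.lie_def ⁅X, Y⁆, sub_mul, mul_assoc ⁅X, Y⁆, a0 U hU Z hZ, mul_assoc]
    simp
  have e3 := e0 _ (add_mem hU hW)
  simp only [add_lie, lie_add, add_mul, e0 U hU, e0 W hW, zero_add, add_zero] at e3
  rw [ha X hX Y hY _ (hc U hU W hW), sk X, lie_lie, sub_mul, sub_mul, sub_eq_zero,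
    eq_neg_of_add_eq_zero_right e3, neg_eq_iff_add_eq_zero, h2]

theorem ring_span {D : Set R} (hc : ∀ X ∈ D, ∀ Y ∈ D, X + Y + ⁅X, Y⁆ ∈ D)
    (ha : ∀ X ∈ D, ∀ Y ∈ D, ∀ Z ∈ D, ⁅X, Y⁆ * Z = ⁅X, Z⁆ * Y) :
    (∀ X ∈ AddSubgroup.closure D, ∀ Y ∈ AddSubgroup.closure D, ⁅X, Y⁆ ∈ AddSubgroup.closure D) ∧
    ∀ X ∈ AddSubgroup.closure D, ∀ Y ∈ AddSubgroup.closure D, ∀ Z ∈ AddSubgroup.closure D,
      ⁅X, Y⁆ * Z = ⁅X, Z⁆ * Y := by
  constructor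
  · intro X hX Y hY
    rw [← QuotientAddGroup.eq_zero_iff]
    refine cind (fun X => ((⁅X, Y⁆ : R) : R ⧸ AddSubgroup.closure D)) (by simp [add_lie])
      (fun X hX => cind (fun Y => ((⁅X, Y⁆ : R) : R ⧸ AddSubgroup.closure D)) (by simp [lie_add])
        (fun Y hY => ?_) hY) hX
    rw [QuotientAddGroup.eq_zero_iff]
    simpa using sub_mem (AddSubgroup.subset_closure (hc X hX Y hY))
      (add_mem (AddSubgroup.subset_closure hX) (AddSubgroup.subset_closure hY))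
  · intro X hX Y hY Z hZ
    rw [← sub_eq_zero]
    refine cind (fun X => ⁅X, Y⁆ * Z - ⁅X, Z⁆ * Y) (fun _ _ => by simp only [add_lie]; noncomm_ring)
      (fun X hX => cind (fun Y => ⁅X, Y⁆ * Z - ⁅X, Z⁆ * Y)
        (fun _ _ => by simp only [lie_add]; noncomm_ring) (fun Y hY => cind
          (fun Z => ⁅X, Y⁆ * Z - ⁅X, Z⁆ * Y) (fun _ _ => by simp only [lie_add]; noncomm_ring)
          (fun Z hZ => sub_eq_zero.2 (ha X hX Y hY Z hZ)) hZ) hY) hX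

theorem ring_odd {D : Set R} (ha : ∀ X ∈ D, ∀ Y ∈ D, ∀ Z ∈ D, ⁅X, Y⁆ * Z = ⁅X, Z⁆ * Y)
    {X Y Z : R} (hX : X ∈ D) (hY : Y ∈ D) (hZ : Z ∈ D) : ⁅X, Y⁆ * Z + ⁅X, Y⁆ * Z = 0 := by
  nth_rw 1 [ha X hX Y hY Z hZ, ← lie_skew X Z, neg_mul, ha Z hZ X hX Y hY, ← lie_skew Z Y, neg_mul,
    neg_neg, ha Y hY Z hZ X hX, ← lie_skew Y X, neg_mul, neg_add_cancel]

end ring

section lie
variable {M : Type} [AddCommGroup M] (b : M →+ AddMonoid.End M)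

omit b in
theorem ea (f g : AddMonoid.End M) (x : M) : (f + g) x = f x + g x := rfl

theorem lieA (h2 : ∀ x : M, x + x = 0) (hs : ∀ x y, b x y = b y x) (ha : ∀ x, b x x = 0)
    {D : Set M} (hD : AddSubgroup.closure D = ⊤) (h0 : (0 : M) ∈ D)
    (hu : ∀ s ∈ D, ∀ t ∈ D, ∀ x y, b x y + b (s + t) (b x y) = b (x + b (s + t) x) (y + b (s + t) y)) :
    (∀ x y z, b (b x y) z = b x (b y z) + b y (b x z)) ∧
      ∀ x y u w z v, b (b x y) (b (b u w) (b z v)) = 0 := by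
  have ng : ∀ {x y : M}, x + y = 0 → x = y := fun {x y} h => by
    rw [eq_neg_of_add_eq_zero_left h, neg_eq_iff_add_eq_zero, h2]
  have tp : ∀ x : M, x ∈ AddSubgroup.closure D := by simp [hD]
  have j1 : ∀ s ∈ D, ∀ t ∈ D, ∀ x y, b (s + t) (b x y) = b x (b (s + t) y) + b (b (s + t) x) y +
      b (b (s + t) x) (b (s + t) y) := fun s hs t ht x y => by
    have := hu s hs t ht x y
    generalize s + t = u at this
    simp only [map_add, ea] at this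
    linear_combination (norm := abel) this
  have f1 : ∀ u v x y, b (b u x) (b v y) = b (b v x) (b u y) := fun u v x y => ng <|
    cind (fun u => b (b u x) (b v y) + b (b v x) (b u y))
      (fun _ _ => by simp only [map_add, ea]; abel)
      (fun u hu => cind (fun v => b (b u x) (b v y) + b (b v x) (b u y))
        (fun _ _ => by simp only [map_add, ea]; abel) (fun v hv => by
          have a1 := j1 u hu v hv x y
          have a2 := j1 u hu 0 h0 x y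
          have a3 := j1 v hv 0 h0 x y
          simp only [map_add, ea, add_zero] at a1 a2 a3
          linear_combination (norm := abel) a2 + a3 - a1) (tp v)) (tp u)
  have f0 : ∀ u x y, b (b u x) (b u y) = 0 := fun u x y => by rw [hs u y, f1, ha, map_zero]
  have jc : ∀ x y z, b (b x y) z = b x (b y z) + b y (b x z) := fun x y z => by
    refine ng (cind (fun x => b (b x y) z + (b x (b y z) + b y (b x z)))
      (fun _ _ => by simp only [map_add, ea]; abel) (fun x hx => ?_) (tp x))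
    have a2 := j1 x hx 0 h0 y z
    rw [add_zero, f0, add_zero] at a2
    rw [a2]
    linear_combination (norm := abel) h2 (b (b x y) z) + h2 (b y (b x z))
  have jl : ∀ x y, ⁅b x, b y⁆ = b (b x y) := fun x y => by
    ext z
    change b x (b y z) - b y (b x z) = b (b x y) z
    rw [jc, sub_eq_add_neg, neg_eq_iff_add_eq_zero.2 (h2 _)]
  refine ⟨jc, fun x y u w z v => ?_⟩
  have := ring2 (R := AddMonoid.End M) (fun x => by ext y; exact h2 _) (S := b.range)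
    (by rintro _ ⟨x, rfl⟩ _ ⟨y, rfl⟩; exact ⟨_, (jl x y).symm⟩)
    (by
      rintro _ ⟨x, rfl⟩ _ ⟨y, rfl⟩ _ ⟨z, rfl⟩
      ext v
      rw [jl, jl]
      change b (b x y) (b z v) = b (b x z) (b y v)
      rw [hs x y, f1, hs z])
    ⟨x, rfl⟩ ⟨y, rfl⟩ ⟨u, rfl⟩ ⟨w, rfl⟩ ⟨z, rfl⟩
  rw [jl, jl] at this
  exact congrArg (fun f : AddMonoid.End M => f v) this

end lie

end Pool.Agent.ALK
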