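import Pool.Agent.H.MP_427786_al.A
import Pool.Agent.H.MP_20a840_al.K3
import Pool.Agent.H.MP_20a840_al.R

set_option autoImplicit false
set_option linter.unusedSectionVars false

namespace Pool.Agent.AL

open FreeAbelianGroup (of)

variable {Q : Type} [ALoop Q] [Finite Q]

/-- The ternary operation. -/
noncomputable def Tt (u v w : Q) : Q := La u v • w

theorem Tt_smul (g : G Q) (u v w : Q) : g • Tt u v w = Tt (g • u) (g • v) (g • w) := by
  rw [Tt, Tt, ← La_cj]; simp [mul_smul]

/-- Maps satisfying the four point relation. -/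
structure Good {A : Type} [AddCommGroup A] (φ : Q → A) : Prop where
  one : φ 1 = 0
  two : ∀ x, φ x + φ x = 0
  rel : ∀ u v w p, φ (Tt u v p) + φ (Tt v w p) + φ (Tt u w p) + φ (Tt u v w) +
    (φ u + φ v + φ w + φ p) = 0

variable (Q) in
def Kq : AddSubgroup (FreeAbelianGroup Q) := AddSubgroup.closure
  {r | r = of 1 ∨ (∃ x, r = of x + of x) ∨ ∃ u v w p, r = of (Tt u v p) + of (Tt v w p) +
    of (Tt u w p) + of (Tt u v w) + (of u + of v + of w + of p)}

variable (Q) in
abbrev Mq : Type := FreeAbelianGroup Q ⧸ Kq Q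

noncomputable def eq1 (x : Q) : Mq Q := QuotientAddGroup.mk (of x)

theorem eq_good : Good (eq1 (Q := Q)) :=
  ⟨(QuotientAddGroup.eq_zero_iff _).2 (AddSubgroup.subset_closure (.inl rfl)),
    fun x => (QuotientAddGroup.eq_zero_iff (of x + of x)).2
      (AddSubgroup.subset_closure (.inr (.inl ⟨x, rfl⟩))),
    fun u v w p => (QuotientAddGroup.eq_zero_iff (of (Tt u v p) + of (Tt v w p) +
      of (Tt u w p) + of (Tt u v w) + (of u + of v + of w + of p))).2
      (AddSubgroup.subset_closure (.inr (.inr ⟨u, v, w, p, rfl⟩)))⟩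

noncomputable def Good.lf {A : Type} [AddCommGroup A] {φ : Q → A} (h : Good φ) : Mq Q →+ A :=
  QuotientAddGroup.lift _ (FreeAbelianGroup.lift φ) ((AddSubgroup.closure_le _).2 (by
    rintro _ (rfl | ⟨x, rfl⟩ | ⟨u, v, w, p, rfl⟩)
    · simpa using h.one
    · simpa using h.two x
    · simpa using h.rel u v w p))

@[simp] theorem Good.lf_e {A : Type} [AddCommGroup A] {φ : Q → A} (h : Good φ) (x : Q) :
    h.lf (eq1 x) = φ x :=
  (QuotientAddGroup.lift_mk' ..).trans (FreeAbelianGroup.lift_apply_of ..)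

theorem mq_ext {A : Type} [AddCommGroup A] {f g : Mq Q →+ A} (h : ∀ x, f (eq1 x) = g (eq1 x)) :
    f = g := by
  ext x; exact h x

theorem mq_top : AddSubgroup.closure (Set.range (eq1 (Q := Q))) = ⊤ := by
  rw [eq_top_iff]
  intro x _
  rw [← QuotientAddGroup.eq_zero_iff]
  have : QuotientAddGroup.mk' (AddSubgroup.closure (Set.range (eq1 (Q := Q)))) = 0 :=
    mq_ext fun x => (QuotientAddGroup.eq_zero_iff _).2 (AddSubgroup.subset_closure ⟨x, rfl⟩)
  exact DFunLike.congr_fun this x

theorem mq_two (x : Mq Q) : x + x = 0 :=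
  ALK.cind (D := Set.range eq1) (fun x => x + x) (fun _ _ => by abel)
    (by rintro _ ⟨x, rfl⟩; exact eq_good.two x) (by simp [mq_top])

theorem good_smul (g : G Q) : Good fun z : Q => eq1 (g • z) + eq1 (g • (1 : Q)) :=
  ⟨mq_two _, fun _ => mq_two _, fun u v w p => by
    simp only [Tt_smul]
    linear_combination (norm := abel) eq_good.rel (g • u) (g • v) (g • w) (g • p) +
      mq_two (4 • eq1 (g • (1 : Q)))⟩

noncomputable def rho (g : G Q) : AddMonoid.End (Mq Q) := (good_smul g).lf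

theorem rho_e (g : G Q) (z : Q) : rho g (eq1 z) = eq1 (g • z) + eq1 (g • (1 : Q)) :=
  (good_smul g).lf_e z

section
variable (hc : ∀ x y : Q, x * y = y * x) (h2 : ∀ x : Q, x * x = 1)
include hc h2

theorem Tt_one (u v : Q) : Tt u v 1 = u * v := by
  have H := sw hc h2
  rw [Tt, H.ex, H.sy, La_one, l_smul]

omit h2 in
theorem good_b : Good fun u : Q => rho (l u) + 1 := by
  have e : ∀ y z : Q, (rho (l y) + 1) (eq1 z) = (rho (l z) + 1) (eq1 y) := fun y z => by
    change rho _ _ + eq1 z = rho _ _ + eq1 y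
    simp only [rho_e, l_smul, mo, hc y z]; abel
  refine ⟨mq_ext fun z => ?_, fun x => mq_ext fun z => mq_two _, fun u v w p => mq_ext fun z => ?_⟩
  · change (rho (l 1) + 1) (eq1 z) = 0
    rw [e, eq_good.one, map_zero]
  · have := congrArg (rho (l z) + 1 : AddMonoid.End (Mq Q)) (eq_good.rel u v w p)
    simp only [map_add, map_zero, ← e _ z] at this
    exact this

theorem solv_e2 : Solv Q := by
  have H := sw hc h2
  set b : Mq Q →+ AddMonoid.End (Mq Q) := (good_b hc).lf
  have be : ∀ y z : Q, b (eq1 y) (eq1 z) = eq1 (y * z) + eq1 y + eq1 z := fun y z => by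
    simp only [b, Good.lf_e]
    change rho _ _ + eq1 z = _
    simp only [rho_e, l_smul, mo]
  have em : ∀ y z : Q, eq1 (y * z) = eq1 y + eq1 z + b (eq1 y) (eq1 z) := fun y z => by
    rw [be]; linear_combination (norm := abel) -mq_two (eq1 y) - mq_two (eq1 z)
  have tp : ∀ x : Mq Q, x ∈ AddSubgroup.closure (Set.range eq1) := by simp [mq_top]
  have ng : ∀ {x y : Mq Q}, x + y = 0 → x = y := fun {x y} h => by
    rw [eq_neg_of_add_eq_zero_left h, neg_eq_iff_add_eq_zero, mq_two]
  have bi : ∀ F : Mq Q → Mq Q → Mq Q, (∀ a c y, F (a + c) y = F a y + F c y) →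
      (∀ a c y, F y (a + c) = F y a + F y c) → (∀ x y, F (eq1 x) (eq1 y) = 0) → ∀ x y, F x y = 0 :=
    fun F a1 a2 a3 x y => ALK.cind (fun x => F x y) (fun _ _ => a1 _ _ _) (by
      rintro _ ⟨x, rfl⟩
      exact ALK.cind _ (fun _ _ => a2 _ _ _) (by rintro _ ⟨y, rfl⟩; exact a3 x y) (tp y)) (tp x)
  have hs : ∀ x y, b x y = b y x := fun x y => ng (bi (fun x y => b x y + b y x)
    (fun _ _ _ => by simp only [map_add, ALK.ea]; abel)
    (fun _ _ _ => by simp only [map_add, ALK.ea]; abel)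
    (fun x y => by rw [be, be, hc y, add_right_comm (eq1 (x * y)), mq_two]) x y)
  have ha : ∀ x, b x x = 0 := fun x => ALK.cind (fun x => b x x) (fun x y => by
      simp only [map_add, ALK.ea, hs y x]
      linear_combination (norm := abel) mq_two (b x y)) (by
      rintro _ ⟨x, rfl⟩
      simp only [be, h2, eq_good.one, zero_add, mq_two]) (tp x)
  have eT : ∀ u v w : Q, eq1 (Tt u v w) = eq1 u + eq1 v + eq1 w +
      (b (eq1 u) (eq1 v) + b (eq1 v) (eq1 w) + b (eq1 u) (eq1 w)) := fun u v w => by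
    have := eq_good.rel u v w 1
    simp only [Tt_one hc h2, em, eq_good.one] at this
    apply ng
    linear_combination (norm := abel) this - mq_two (eq1 u + eq1 v + eq1 w)
  have au : ∀ (g : G Q) x y, rho g (b x y) = b (rho g x) (rho g y) := fun g x y =>
    ng (bi (fun x y => rho g (b x y) + b (rho g x) (rho g y))
      (fun _ _ _ => by simp only [map_add, ALK.ea]; abel)
      (fun _ _ _ => by simp only [map_add]; abel) (fun x y => by
        rw [be, ← Tt_one hc h2]
        simp only [map_add, rho_e, Tt_smul]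
        simp only [eT, ALK.ea, ha, hs (eq1 (g • (1 : Q)))]
        linear_combination (norm := abel) mq_two (eq1 (g • x) + eq1 (g • y) +
          2 • eq1 (g • (1 : Q)) + b (eq1 (g • x)) (eq1 (g • y)) + b (eq1 (g • y)) (eq1 (g • (1 : Q))) +
          b (eq1 (g • x)) (eq1 (g • (1 : Q))))) x y)
  obtain ⟨jc, nl⟩ := ALK.lieA b mq_two hs ha mq_top ⟨1, eq_good.one⟩ (by
    rintro _ ⟨u, rfl⟩ _ ⟨v, rfl⟩ x y
    have : ∀ x, x + b (eq1 u + eq1 v) x = rho (La u v) x := fun x =>
      DFunLike.congr_fun (mq_ext (f := (1 + b (eq1 u + eq1 v) : AddMonoid.End (Mq Q))) (g := rho (La u v))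
        fun z => by
          change eq1 z + b (eq1 u + eq1 v) (eq1 z) = rho (La u v) (eq1 z)
          rw [rho_e]
          change _ = eq1 (Tt u v z) + eq1 (Tt u v 1)
          simp only [Tt_one hc h2, em, eT, map_add, ALK.ea]
          linear_combination (norm := abel) -mq_two (eq1 u + eq1 v + b (eq1 u) (eq1 v))) x
    simp only [this, au])
  let o : Q → Q → Q := fun x y => (La x y)⁻¹ • (1 : Q)
  have oc : ∀ x y, o x y = o y x := fun x y => by simp only [o, H.sy x y]
  have o1 : ∀ x, o 1 x = x := fun x => by simp [o, La_one, inv_smul_eq_iff, h2]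
  have oo : ∀ x, o x x = 1 := fun x => by
    simp [o, La, show (l x)⁻¹ • x = 1 by simp [inv_smul_eq_iff], l_one]
  have pa : ∀ a b c, o (o a c) (o b c) = o a b := fun a b c =>
    inv_smul_eq_iff.2 (ALK.pasch H (smul_inv_smul _ _) (smul_inv_smul _ _) (smul_inv_smul _ _)).symm
  have as : ∀ x y z, o (o x y) z = o x (o y z) := fun x y z => by
    have h1 := pa x 1 y
    rw [o1, oc x 1, o1] at h1
    rw [← pa (o x y) z y, h1, oc z]
  have inj : Function.Injective (eq1 (Q := Q)) := by
    let _ : Add Q := ⟨o⟩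
    let _ : Zero Q := ⟨1⟩
    let _ : Neg Q := ⟨id⟩
    let _ : AddCommGroup Q := { AddGroup.ofLeftAxioms as o1 oo with add_comm := oc }
    have t2 : ∀ x : Q, x + x = 0 := oo
    have p3 : ∀ u v w : Q, u * v + (u + v) = (w + Tt u v w) + (v * w + u * w) := fun u v w =>
      (inv_smul_eq_iff.2 (ALK.p3 H (Tt_one hc h2 v w) (Tt_one hc h2 u w) (Tt_one hc h2 u v)
        (by rw [H.ex, H.sy]; rfl) (smul_inv_smul _ _) (smul_inv_smul _ _) (smul_inv_smul _ _)
        (smul_inv_smul _ _)).symm).symm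
    have gd : Good (fun x : Q => x) := ⟨rfl, t2, fun u v w p => by
      linear_combination (norm := abel) -p3 u v p - p3 v w p - p3 u w p - p3 u v w +
        t2 (u + v + u * v + u + v - p - u * p - v * p - w * p + w)⟩
    intro x y e
    simpa using congrArg gd.lf e
  set L := AddSubgroup.closure {z | ∃ x y, z = b x y}
  have bL : ∀ x y, b x y ∈ L := fun x y => AddSubgroup.subset_closure ⟨x, y, rfl⟩
  have n3 : ∀ x ∈ L, ∀ y ∈ L, ∀ z ∈ L, b x (b y z) = 0 := fun x hx y hy z hz =>
    ALK.cind (fun x => b x (b y z)) (by simp [ALK.ea]) (by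
      rintro _ ⟨x, x', rfl⟩
      exact ALK.cind (fun y => b (b x x') (b y z)) (by simp [ALK.ea]) (by
        rintro _ ⟨y, y', rfl⟩
        exact ALK.cind (fun z => b (b x x') (b (b y y') z)) (by simp) (by
          rintro _ ⟨z, z', rfl⟩; exact nl ..) hz) hy) hx
  refine ⟨2, fun i => if i = 0 then {1} else if i = 1 then {z | eq1 z ∈ L} else Set.univ, rfl, rfl,
    fun i hi => ?_⟩
  interval_cases i
  · refine ⟨⟨rfl, by rintro _ _ rfl rfl; simp⟩, fun x hx y hy z hz => ⟨⟨1, rfl, inj ?_⟩,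
      ⟨1, rfl, by rw [mo, hc]⟩⟩⟩
    simp only [mo, em, map_add, ALK.ea, jc, n3 _ hy _ hx _ hz]
    abel
  · refine ⟨⟨by simp [eq_good.one], fun {x y} hx hy => ?_⟩, fun x _ y _ z _ => ⟨?_,
      ⟨1, by simp [eq_good.one], by rw [mo, hc]⟩⟩⟩
    · change eq1 (x * y) ∈ L
      rw [em]; exact add_mem (add_mem hx hy) (bL _ _)
    · obtain ⟨m, hm⟩ := exl (x * (y * z)) (x * y * z)
      refine ⟨m, ?_, hm.symm⟩
      change eq1 m ∈ L
      have e : eq1 m = b (eq1 x) (eq1 y) + b (eq1 (x * y)) (eq1 z) - b (eq1 y) (eq1 z) -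
          b (eq1 x) (eq1 (y * z)) - b (eq1 (x * (y * z))) (eq1 m) := by
        linear_combination (norm := abel) congrArg eq1 hm - em (x * (y * z)) m - em x (y * z) -
          em y z + em (x * y) z + em x y
      rw [e]
      exact sub_mem (sub_mem (sub_mem (add_mem (bL _ _) (bL _ _)) (bL _ _)) (bL _ _)) (bL _ _)

end

end Pool.Agent.AL
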