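import Pool.Agent.H.MP_427786_al.A
import Pool.Agent.H.MP_20a840_al.R

set_option autoImplicit false
set_option linter.unusedSectionVars false

namespace Pool.Agent.AL

attribute [local instance] LieRing.ofAssociativeRing

variable {Q : Type} [ALoop Q]

theorem nuc_abs {W : Type} [AddCommGroup W] [Nontrivial W] (act : W → Q → Q)
    (ρ : G Q →* AddMonoid.End W) (a0 : ∀ x, act 0 x = x)
    (aa : ∀ a b x, act a (act b x) = act (a + b) x)
    (eqv : ∀ g a x, g • act a x = act (ρ g a) (g • x)) (inj : ∀ a b x, act a x = act b x → a = b)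
    (mem : ∀ a, ∃ v : G Q, ∀ x, v • x = act a x) (hP : ∀ x, ρ (Pm x) = 1)
    (hc : (∀ a : W, a + a = 0 → a = 0) ∨ ((∀ a : W, a + a = 0) ∧ ∀ a, ρ (l (act a 1)) = 1)) :
    ∃ a : Q, a ≠ 1 ∧ ∀ x y, (x * a) * y = x * (a * y) := by
  have m1 : ∀ x b y, x * act b y = act (ρ (l x) b) (x * y) := fun x b y => eqv (l x) b y
  have m2 : ∀ a x y, act a x * y = act (ρ (r y) a) (x * y) := fun a x y => eqv (r y) a x
  have k1 : ∀ a b x, ρ (l (act a x)) b = ρ (l x) b + (ρ (r (act b 1)) a - a) := fun a b x => by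
    have e1 := m1 (act a x) b 1
    rw [m2, m1, m2, aa, aa, r_one, map_one] at e1
    have := inj _ _ _ e1
    change _ = _ + a at this
    linear_combination (norm := abel) -this
  have key : ∀ x y z a, ρ (l x)⁻¹ (a - ρ (r (y * z)) a) = ρ (l y) (ρ (l x)⁻¹ (a - ρ (r z) a)) +
      (ρ (r (act (ρ (l x)⁻¹ (a - ρ (r z) a)) 1)) (ρ (l x)⁻¹ (a - ρ (r y) a)) -
        ρ (l x)⁻¹ (a - ρ (r y) a)) + ρ (r z) (ρ (l x)⁻¹ (a - ρ (r y) a)) := fun x y z a => by
    obtain ⟨v, hv⟩ := mem a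
    have hd : ∀ y, ((l x)⁻¹ * v * l (act (-a) x)) • y = act (ρ (l x)⁻¹ (a - ρ (r y) a)) y :=
      fun y => by
        rw [mul_smul, mul_smul, hv, l_smul, m2, aa, eqv, map_neg, ← sub_eq_add_neg, ← l_smul,
          inv_smul_smul]
    have := inn (g := (l x)⁻¹ * v * l (act (-a) x)) (by rw [hd, r_one]; simp [a0]) y z
    rw [hd, hd, hd, m1, m2, aa, k1] at this
    exact inj _ _ _ this
  have lin : ∀ x y z, ρ (l x)⁻¹ * (1 - ρ (r (y * z))) = ρ (l y) * ρ (l x)⁻¹ * (1 - ρ (r z)) +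
      ρ (r z) * ρ (l x)⁻¹ * (1 - ρ (r y)) := fun x y z => by
    ext a
    have e := key x y z a
    have b1 : ∀ u w, ρ (r (act w 1)) u - u = ρ (l (act u 1)) w - w := fun u w => by
      rw [k1, l_one, map_one]; change _ = w + _ - w; abel
    have e0 : ρ (r (act (ρ (l x)⁻¹ (a - ρ (r z) a)) 1)) (ρ (l x)⁻¹ (a - ρ (r y) a)) -
        ρ (l x)⁻¹ (a - ρ (r y) a) = 0 := by
      rcases hc with hc | hc
      · have e' := key x y z (-a)
        have n : ∀ y, ρ (l x)⁻¹ (-a - ρ (r y) (-a)) = -ρ (l x)⁻¹ (a - ρ (r y) a) := fun y => by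
          rw [← map_neg, map_neg (ρ (r y))]; congr 1; abel
        rw [n, n, n, map_neg, map_neg, map_neg, ← neg_sub', b1, map_neg, ← neg_sub', ← b1] at e'
        apply hc
        linear_combination (norm := abel) -e - e'
      · rw [b1, hc.2]; exact sub_self _
    rw [e0, add_zero] at e
    exact e
  have hi : ∀ x, ρ (r (iv x)) = ρ (l x) := fun x => by
    have := hP x
    rw [Pm, map_mul] at this
    rw [← one_mul (ρ (r (iv x))), ← this, mul_assoc, ← map_mul, inv_mul_cancel, map_one, mul_one]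
  have iL : ∀ x, ρ (l x)⁻¹ * ρ (l x) = 1 := fun x => by rw [← map_mul, inv_mul_cancel, map_one]
  have iR : ∀ x, ρ (l x) * ρ (l x)⁻¹ = 1 := fun x => by rw [← map_mul, mul_inv_cancel, map_one]
  obtain ⟨D, hD⟩ : ∃ D : Q → AddMonoid.End W, ∀ y, ρ (r y) = 1 - D y :=
    ⟨fun y => 1 - ρ (r y), by simp⟩
  have l1 := lin 1
  simp only [l_one, inv_one, map_one, one_mul, mul_one] at l1
  have hE : ∀ y, ρ (l y) = 1 + D y := fun y => by
    have := l1 y (iv y)
    rw [mul_iv, r_one, map_one, hi, hD, sub_self, ← mul_add] at this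
    have h2 := congrArg (ρ (l y)⁻¹ * ·) this
    simp only [← mul_assoc, iL, one_mul, mul_zero] at h2
    linear_combination (norm := abel) h2
  have c1 : ∀ y z, D (y * z) = D y + D z + ⁅D y, D z⁆ := fun y z => by
    have := l1 y z
    simp only [hD, hE, sub_sub_cancel] at this
    rw [this, Ring.lie_def]; noncomm_ring
  have c2 : ∀ x y z, ⁅D x, D y⁆ * D z = ⁅D x, D z⁆ * D y := fun x => by
    have i1 := iL x
    have i2 := iR x
    have c3 : ∀ y z, ⁅D x, D y⁆ * ρ (l x)⁻¹ * D z = ⁅D x, D z⁆ * ρ (l x)⁻¹ * D y := fun y z => by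
      have := lin x y z
      simp only [hD, hE, sub_sub_cancel, c1, Ring.lie_def] at this i1 i2 ⊢
      generalize ρ (l x)⁻¹ = M at *
      linear_combination (norm := noncomm_ring) -(1 + D x) * this + i2 * (D y * D z - D z * D y) -
        D y * i2 * D z + D z * i2 * D y
    have c4 : ∀ y, ⁅D x, D y⁆ * ρ (l x)⁻¹ = ⁅D x, D y⁆ := fun y => by
      have := c3 y x
      rw [lie_self, zero_mul, zero_mul] at this
      rw [hE] at i1
      linear_combination (norm := noncomm_ring) ⁅D x, D y⁆ * i1 - this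
    intro y z
    simpa only [c4] using c3 y z
  have fin : ∃ a : W, a ≠ 0 ∧ ∀ x y, ⁅D x, D y⁆ a = 0 := by
    obtain ⟨a, ha⟩ := exists_ne (0 : W)
    by_cases h1 : ∀ x y, ⁅D x, D y⁆ = 0
    · exact ⟨a, ha, fun x y => by rw [h1]; rfl⟩
    by_cases h2 : ∀ x y z, ⁅D x, D y⁆ * D z = 0
    · have : ∃ z b, D z b ≠ 0 := by
        by_contra hn
        push Not at hn
        refine h1 fun x y => ?_
        rw [show D x = 0 by ext b; exact hn x b, zero_lie]
      obtain ⟨z, b, hb⟩ := this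
      exact ⟨_, hb, fun x y => DFunLike.congr_fun (h2 x y z) b⟩
    have ra : ∀ X ∈ Set.range D, ∀ Y ∈ Set.range D, ∀ Z ∈ Set.range D, ⁅X, Y⁆ * Z = ⁅X, Z⁆ * Y := by
      rintro _ ⟨x, rfl⟩ _ ⟨y, rfl⟩ _ ⟨z, rfl⟩; exact c2 x y z
    rcases hc with hc | hc
    · refine absurd (fun x y z => ?_) h2
      ext b
      exact hc _ (DFunLike.congr_fun (ALK.ring_odd ra ⟨x, rfl⟩ ⟨y, rfl⟩ ⟨z, rfl⟩) b)
    push Not at h2
    obtain ⟨u, w, z, h2⟩ := h2
    obtain ⟨b, hb⟩ := DFunLike.ne_iff.1 h2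
    obtain ⟨s1, s2⟩ := ALK.ring_span (by
      rintro _ ⟨x, rfl⟩ _ ⟨y, rfl⟩; exact ⟨_, c1 x y⟩) ra
    have sc : ∀ x, D x ∈ AddSubgroup.closure (Set.range D) :=
      fun x => AddSubgroup.subset_closure ⟨x, rfl⟩
    refine ⟨_, hb, fun x y => ?_⟩
    have := ALK.ring2 (fun f => by ext b; exact hc.1 _) s1 s2 (sc x) (sc y) (sc u) (sc w) (sc z)
    rw [mul_assoc] at this
    exact DFunLike.congr_fun this b
  obtain ⟨a, ha, h⟩ := fin
  refine ⟨act a 1, fun e => ha (inj _ _ 1 (by rw [e, a0])), fun x y => ?_⟩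
  rw [m1, m2, m2, m1, mo, om]
  congr 1
  have : ρ (r y) * ρ (l x) = ρ (l x) * ρ (r y) + ⁅D x, D y⁆ := by
    rw [hD, hE, Ring.lie_def]; noncomm_ring
  have := DFunLike.congr_fun this a
  rw [ALK.ea, h, add_zero] at this
  exact this

theorem nuc (V : Subgroup (G Q)) [hn : V.Normal] (hV : V ≠ ⊥) (cm : ∀ v ∈ V, ∀ w ∈ V, v * w = w * v)
    (sr : ∀ v ∈ V, ∀ y : Q, v • y = y → v = 1) (hP : ∀ v ∈ V, ∀ x, Pm x * v = v * Pm x)
    (hc : (∀ v ∈ V, v * v = 1 → v = 1) ∨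
      ((∀ v ∈ V, v * v = 1) ∧ ∀ v ∈ V, ∀ w ∈ V, l (v • (1 : Q)) * w = w * l (v • (1 : Q)))) :
    ∃ a : Q, a ≠ 1 ∧ ∀ x y, (x * a) * y = x * (a * y) := by
  let _ : CommGroup V := { (inferInstance : Group V) with
    mul_comm := fun a b => Subtype.ext (cm _ a.2 _ b.2) }
  have := (Subgroup.nontrivial_iff_ne_bot V).2 hV
  let ρ : G Q →* AddMonoid.End (Additive V) :=
    { toFun := fun g => MonoidHom.toAdditive (MulAut.conjNormal g : V ≃* V).toMonoidHom
      map_one' := AddMonoidHom.ext fun a => Subtype.ext (by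
        change 1 * (a.toMul : G Q) * 1⁻¹ = a.toMul; simp)
      map_mul' := fun g h => AddMonoidHom.ext fun a => Subtype.ext (by
        change g * h * (a.toMul : G Q) * (g * h)⁻¹ = g * (h * a.toMul * h⁻¹) * g⁻¹; group) }
  have h0 : ∀ g a, ((ρ g a).toMul : G Q) = g * a.toMul * g⁻¹ := fun _ _ => rfl
  have h1 : ∀ g : G Q, (∀ v ∈ V, g * v = v * g) → ρ g = 1 := fun g hg =>
    AddMonoidHom.ext fun a => Subtype.ext ((h0 g a).trans (by
      rw [hg _ a.toMul.2, mul_inv_cancel_right]; rfl))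
  refine nuc_abs (W := Additive V) (fun a x => (a.toMul : G Q) • x) ρ (by simp)
    (by simp [mul_smul]) (fun g a x => by simp [h0, mul_smul]) (fun a b x e => ?_)
    (fun a => ⟨_, fun _ => rfl⟩) (fun x => h1 _ fun v hv => hP v hv x) (hc.imp
      (fun h a e => Subtype.ext (h _ a.toMul.2 (congrArg Subtype.val e)))
      fun h => ⟨fun a => Subtype.ext (h.1 _ a.toMul.2), fun a => h1 _ (h.2 _ a.toMul.2)⟩)
  have := sr _ (mul_mem (inv_mem b.toMul.2) a.toMul.2) x (by rw [mul_smul, inv_smul_eq_iff]; exact e)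
  exact Subtype.ext (inv_mul_eq_one.1 this).symm

end Pool.Agent.AL
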