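import Pool.Agent.H.MP_20a840_al.S
import Pool.Agent.H.MP_20a840_al.Kz2

set_option autoImplicit false
set_option linter.unusedSectionVars false

namespace Pool.Agent.AL

open Subgroup Equiv

variable {Q : Type} [ALoop Q] [Finite Q]

theorem inv_fix {s : Perm Q} (hs : s * s = 1) (Y : Set Q) (hY : ∀ y ∈ Y, s y ∈ Y) :
    IsPGroup 2 (zpowers s) ∧ ∀ g ∈ zpowers s, ∀ y ∈ Y, g • y ∈ Y := by
  refine ⟨zp_pgroup (j := 1) (by rwa [pow_one, sq]), fun g hg y hy => ?_⟩
  obtain ⟨n, rfl⟩ := (Submonoid.mem_powers_iff _ _).1 (mem_powers_iff_mem_zpowers.2 hg)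
  clear hg
  induction n with
  | zero => simpa
  | succ n ih => rw [pow_succ', mul_smul]; exact hY _ ih

theorem fixJ (h : ¬ 2 ∣ Nat.card Q) {x : Q} (e : iv x = x) : x = 1 := by
  have h1 : Function.Involutive fun y : Q => iv ((l y)⁻¹ • x) := fun y => by
    have : y * (l y)⁻¹ • x = x := smul_inv_smul (l y) x
    have h2 := aaip y ((l y)⁻¹ • x)
    rw [this, e] at h2
    exact (congrArg iv (inv_smul_eq_iff.2 h2)).trans (iv_iv y)
  obtain ⟨a1, a2⟩ := inv_fix (s := h1.toPerm) (Equiv.ext h1) Set.univ (by simp)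
  obtain ⟨y, -, hy⟩ := fix1 a1 _ a2 (by rwa [Set.ncard_univ])
  have h2 : iv ((l y)⁻¹ • x) = y := hy _ (mem_zpowers _)
  have := congrArg iv h2
  rwa [iv_iv, inv_smul_eq_iff, l_smul, mul_iv] at this

theorem Jx_fix (h : ¬ 2 ∣ Nat.card Q) {y a : Q} (e : Jx y a = a) : a = y := by
  obtain ⟨a, rfl⟩ := exl y a
  have : y * iv a = y * a := by
    rw [← e]; exact congrArg (fun z => y * iv z) (inv_smul_smul (l y) a).symm
  rw [fixJ h (lc this), mo]

theorem Jx_self (y : Q) : Jx y y = y := by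
  have : (l y)⁻¹ • y = 1 := by simp [inv_smul_eq_iff]
  exact (congrArg (fun z => y * iv z) this).trans (by simp)

theorem Jx_app (y : Q) : Jx y 1 = y * y := congrArg (y * ·) (iv_iv y)

theorem sq_inj (h : ¬ 2 ∣ Nat.card Q) : Function.Injective fun x : Q => x * x := fun x y e => by
  have jj : ∀ x a : Q, Jx x (Jx x a) = a := fun x a => DFunLike.congr_fun (JxJx x) a
  have h1 : Jx x 1 = Jx y 1 := by rw [Jx_app, Jx_app]; exact e
  have h2 := mul_mem (Jx_ga x) (Jx_ga y) 1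
  rw [Perm.mul_apply, ← h1, jj, Jx_one, mul_inv_eq_iff_eq_mul] at h2
  set F : Set Q := {a | Jx x a = Jx y a}
  have hF : ∀ a, a ∈ F ↔ Jx x (Jx y a) = a := fun a =>
    ⟨fun e => by rw [← e, jj], fun e => by have := congrArg (Jx x) e; rw [jj] at this; exact this.symm⟩
  obtain ⟨a1, a2⟩ := inv_fix JJ F fun a ha => (hF _).2 (by
    have := DFunLike.congr_fun h2 a
    simp only [Perm.mul_apply, (hF a).1 ha] at this
    exact this)
  obtain ⟨b1, b2⟩ := inv_fix (JxJx y) F fun a ha => (hF _).2 (by rw [jj]; exact ha)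
  obtain ⟨a, ha, e2⟩ := fix1 b1 F b2 fun hd => by
    obtain ⟨a, -, a3, a4⟩ := fix2 a1 F a2 hd (y₀ := 1) h1 fun g hg =>
      (inv_fix JJ {1} (by simp)).2 g hg 1 rfl
    exact a3 (fixJ h (a4 _ (mem_zpowers _)))
  have e3 : Jx y a = a := e2 _ (mem_zpowers _)
  exact (Jx_fix h (ha.trans e3)).symm.trans (Jx_fix h e3)

variable (Q) in
/-- The subgroup generated by products of two symmetries. -/
def Nd : Subgroup (G Q) := (Subgroup.closure {s | ∃ x y, s = Jx x * Jx y}).comap (Mlt Q).subtype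

instance : (Nd Q).Normal := ⟨fun u hu g => by
  have : (Mlt Q) ≤ normalizer (closure {s | ∃ x y : Q, s = Jx x * Jx y} : Set (Perm Q)) := by
    rw [le_normalizer_closure_iff]
    rintro h hh _ ⟨x, y, rfl⟩
    exact subset_closure ⟨h x, h y, by rw [← mlt_ga ⟨h, hh⟩ x, ← mlt_ga ⟨h, hh⟩ y]; simp⟩
  exact (this g.2 _).1 hu⟩

theorem Pm_nd (x : Q) : Pm x ∈ Nd Q := by
  change (Pm x).1 ∈ Subgroup.closure _
  rw [Pm_coe, ← Jx_one]
  exact subset_closure ⟨_, _, rfl⟩

theorem nd_tr (h : ¬ 2 ∣ Nat.card Q) (x : Q) : ∃ n ∈ Nd Q, x = n • (1 : Q) := by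
  obtain ⟨y, rfl⟩ := Finite.surjective_of_injective (sq_inj h) x
  exact ⟨_, Pm_nd y, by simpa [sq, mul_smul] using (Pm_pow y 1).symm⟩

theorem nd_p {p k : ℕ} [hp : Fact p.Prime] (h2 : p ≠ 2) (hk : Nat.card Q = p ^ k) :
    IsPGroup p (Nd Q) := by
  classical
  have := Fintype.ofFinite Q
  have h : ¬ 2 ∣ Nat.card Q := fun d => h2 ((Nat.prime_dvd_prime_iff_eq Nat.prime_two hp.out).1
    (Nat.prime_two.dvd_of_dvd_pow (hk ▸ d))).symm
  set Γ := closure (Set.range (Jx (Q := Q)))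
  have := Fintype.ofFinite Γ
  have hΓ : Γ ≤ Ga Q := (closure_le _).2 (by rintro _ ⟨x, rfl⟩; exact Jx_ga x)
  let j : Q → Γ := fun x => ⟨Jx x, subset_closure ⟨x, rfl⟩⟩
  have cj : ∀ (g : Γ) x, g * j x * g⁻¹ = j (g.1 x) := fun g x => Subtype.ext (hΓ g.2 x)
  have jj : ∀ x, j x * j x = 1 := fun x => Subtype.ext (JxJx x)
  set N := closure {g | ∃ x y, g = j x * j y}
  have : N.Normal := ⟨fun u hu g => by
    have : ⊤ ≤ normalizer (N : Set Γ) := by
      rw [le_normalizer_closure_iff]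
      rintro h - _ ⟨x, y, rfl⟩
      exact subset_closure ⟨h.1 x, h.1 y, by rw [← cj h x, ← cj h y]; simp⟩
    exact (this (mem_top g) _).1 hu⟩
  have hi : N.index ∣ 2 := index_dvd_two_iff.2 ⟨j 1, fun ⟨b, hb⟩ => by
    induction hb using closure_induction'' with
    | one => exact .inr (one_mem N)
    | mem x hx => obtain ⟨x, rfl⟩ := hx; exact .inl (subset_closure ⟨x, 1, rfl⟩)
    | inv_mem x hx =>
      obtain ⟨x, rfl⟩ := hx
      exact .inl (subset_closure ⟨x, 1, by rw [← inv_eq_of_mul_eq_one_right (jj x)]; rfl⟩)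
    | mul x y hx hy a b =>
      change (⟨x, hx⟩ * ⟨y, hy⟩ : Γ) * j 1 ∈ N ∨ (⟨x, hx⟩ * ⟨y, hy⟩ : Γ) ∈ N
      generalize (⟨x, hx⟩ : Γ) = x at a ⊢
      generalize (⟨y, hy⟩ : Γ) = y at b ⊢
      have e := inv_eq_of_mul_eq_one_right (jj 1)
      rcases a with a | a <;> rcases b with b | b
      · have := mul_mem a (this.conj_mem _ b (j 1))
        rw [e] at this
        exact .inr (by simpa [mul_assoc, jj, ← mul_assoc (j 1) (j 1)] using this)
      · have := mul_mem a (this.conj_mem _ b (j 1))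
        rw [e] at this
        exact .inl (by simpa [mul_assoc, jj, ← mul_assoc (j 1) (j 1)] using this)
      · exact .inl (by simpa [mul_assoc] using mul_mem a b)
      · exact .inr (mul_mem a b)⟩
  have hN : IsPGroup p N := pgroup_of N fun u hu q hq hne e => ALK.kaz j 1 (jj 1) (fun x => by
      obtain ⟨y, rfl⟩ := Finite.surjective_of_injective (sq_inj h) x
      exact isConj_iff.2 ⟨j y, (cj _ _).trans (congrArg j (Jx_app y))⟩)
    (fun g => ⟨g.1, cj g⟩) hp.out (by rw [← hk, Nat.card_eq_fintype_card]) N rfl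
    (fun d => h2 ((Nat.prime_dvd_prime_iff_eq hp.out Nat.prime_two).1 (d.trans hi))) hq hne hu e
  refine ((hN.map Γ.subtype).to_le ((closure_le _).2 ?_)).comap_of_injective _ Subtype.val_injective
  rintro _ ⟨x, y, rfl⟩
  exact ⟨j x * j y, subset_closure ⟨x, y, rfl⟩, rfl⟩

/-- Automorphic loops of prime power order have a nontrivial middle nucleus. -/
theorem main_nuc {p k : ℕ} (hp : p.Prime) (hk : Nat.card Q = p ^ (k + 1)) :
    ∃ a : Q, a ≠ 1 ∧ ∀ x y, (x * a) * y = x * (a * y) := by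
  by_cases h2 : p = 2
  · subst h2; exact main_two hk
  have := Fact.mk hp
  exact main_odd h2 (by rw [hk]; exact (Nat.one_lt_pow k.succ_ne_zero hp.one_lt).ne') (Nd Q)
    (nd_p h2 hk) (nd_tr fun d => h2 ((Nat.prime_dvd_prime_iff_eq Nat.prime_two hp).1
      (Nat.prime_two.dvd_of_dvd_pow (hk ▸ d))).symm) Pm_nd

end Pool.Agent.AL
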