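import Pool.Agent.H.MP_20a840_al.M
import Pool.Agent.H.MP_20a840_al.N

set_option autoImplicit false
set_option linter.unusedSectionVars false

namespace Pool.Agent.AL

open Subgroup

variable {Q : Type} [ALoop Q] [Finite Q] {A : Set Q}

theorem Solv.ext (h : Nrm A) (s1 : @Solv A h.toSub.loop) (s2 : Solv h.Qt) : Solv Q := by
  let _ := h.toSub.loop
  obtain ⟨n, S, s0, sn, hs⟩ := s1
  obtain ⟨m, T, t0, tm, ht⟩ := s2
  have e : Subtype.val '' S n = h.cl ⁻¹' T 0 := by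
    ext x
    simp only [sn, t0, Set.image_univ, Subtype.range_coe, Set.mem_preimage, Set.mem_singleton_iff]
    rw [← h.mk_one, eq_comm, h.mk_eq, rel_one]
  set U : ℕ → Set Q := fun i => if i ≤ n then Subtype.val '' S i else h.cl ⁻¹' T (i - n)
  have u1 : ∀ i ≤ n, U i = Subtype.val '' S i := fun i hi => if_pos hi
  have u2 : ∀ j, U (n + j) = h.cl ⁻¹' T j := fun j => by
    rcases j with _ | j
    · exact (u1 n le_rfl).trans e
    · simp [U]
  refine ⟨n + m, U, by rw [u1 0 n.zero_le, s0, Set.image_singleton]; rfl, by simp [u2, tm],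
    fun i hi => ?_⟩
  rcases lt_or_ge i n with c | c
  · obtain ⟨a1, a2⟩ := hs i c
    rw [u1 i c.le, u1 (i + 1) c]
    refine ⟨⟨⟨1, a1.one, rfl⟩, ?_⟩, ?_⟩
    · rintro _ _ ⟨a, ha, rfl⟩ ⟨b, hb, rfl⟩
      exact ⟨a * b, a1.mul ha hb, rfl⟩
    · rintro _ ⟨x, hx, rfl⟩ _ ⟨y, hy, rfl⟩ _ ⟨z, hz, rfl⟩
      obtain ⟨⟨m, hm, e⟩, ⟨m', hm', e'⟩⟩ := a2 x hx y hy z hz
      exact ⟨⟨_, ⟨m, hm, rfl⟩, congrArg Subtype.val e⟩, ⟨_, ⟨m', hm', rfl⟩, congrArg Subtype.val e'⟩⟩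
  · obtain ⟨j, rfl⟩ := Nat.exists_eq_add_of_le c
    obtain ⟨a1, a2⟩ := ht j (by omega)
    rw [add_assoc, u2, u2]
    refine ⟨h.pre_sub a1, fun x hx y hy z hz => ?_⟩
    obtain ⟨⟨m, hm, e⟩, ⟨m', hm', e'⟩⟩ := a2 _ hx _ hy _ hz
    obtain ⟨k, hk⟩ := exl (x * (y * z)) (x * y * z)
    obtain ⟨k', hk'⟩ := exl (y * x) (x * y)
    refine ⟨⟨k, ?_, hk.symm⟩, ⟨k', ?_, hk'.symm⟩⟩
    · rwa [Set.mem_preimage, (lc (x := h.cl (x * (y * z))) ((congrArg h.cl hk).trans e) : h.cl k = m)]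
    · rwa [Set.mem_preimage, (lc (x := h.cl (y * x)) ((congrArg h.cl hk').trans e') : h.cl k' = m')]

theorem JgJ (g : G Q) : J * g.1 * J = (g * Pm (g⁻¹ • (1 : Q))).1 := by
  rw [Subgroup.coe_mul, Pm_coe, ← conj_J]; simp [mul_assoc]

/-- The centre of a normal subgroup. -/
def Zc (N : Subgroup (G Q)) : Subgroup (G Q) := N ⊓ centralizer N

instance (N : Subgroup (G Q)) [N.Normal] : (Zc N).Normal := by unfold Zc; infer_instance

theorem zc_ex {p : ℕ} [Fact p.Prime] {N : Subgroup (G Q)} (hN : IsPGroup p N) (h : N ≠ ⊥) :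
    ∃ v ∈ Zc N, v ≠ 1 ∧ v ^ p = 1 := by
  have := (nontrivial_iff_ne_bot N).2 h
  have := hN.center_nontrivial
  obtain ⟨k, k0, hk⟩ := (hN.to_subgroup (center N)).nontrivial_iff_card.1 this
  obtain ⟨v, hv⟩ := exists_prime_orderOf_dvd_card' (G := center N) p (hk ▸ dvd_pow_self p k0.ne')
  refine ⟨v.1.1, ⟨v.1.2, fun n hn => congrArg Subtype.val (mem_center_iff.1 v.2 ⟨n, hn⟩)⟩,
    fun e => ?_, by simpa [hv] using congrArg (fun z : center N => z.1.1) (pow_orderOf_eq_one v)⟩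
  rw [show v = 1 from Subtype.ext (Subtype.ext e), orderOf_one] at hv
  exact (Fact.out : p.Prime).one_lt.ne hv

theorem zc_sr {N : Subgroup (G Q)} (ht : ∀ x : Q, ∃ n ∈ N, x = n • (1 : Q)) {v : G Q}
    (hv : v ∈ Zc N) {y : Q} (e : v • y = y) : v = 1 := gext fun z => by
  obtain ⟨n, hn, rfl⟩ := ht y
  obtain ⟨m, hm, rfl⟩ := ht z
  have := hv.2 _ (mul_mem hm (inv_mem hn))
  have h2 := congrArg (· • n • (1 : Q)) this
  simpa [mul_smul, e] using h2.symm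

theorem v_J {N : Subgroup (G Q)} [hn : N.Normal] (hN : IsPGroup 2 N) (h : N ≠ ⊥)
    (hP : ∀ x, Pm x ∈ N) : ∃ V : Subgroup (G Q), V.Normal ∧ V ≠ ⊥ ∧ V ≤ Zc N ∧
      ∀ v ∈ V, iv (v • (1 : Q)) = v • (1 : Q) := by
  refine ⟨Zc N ⊓ (centralizer {J}).comap (Mlt Q).subtype, ⟨fun v hv g =>
    ⟨Normal.conj_mem inferInstance _ hv.1 g, ?_⟩⟩, fun e => ?_, inf_le_left, fun v hv => ?_⟩
  · have h1 : v.1 * J = J * v.1 := mem_centralizer_singleton_iff.1 hv.2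
    have h2 := congrArg Subtype.val (hv.1.2 _ (hP (g⁻¹ • (1 : Q))))
    rw [Subgroup.coe_mul, Subgroup.coe_mul, Pm_coe, ← conj_J, mul_assoc, ← h1, ← mul_assoc,
      ← mul_assoc, mul_left_inj] at h2
    refine mem_centralizer_singleton_iff.2 ?_
    change g.1 * v.1 * g.1⁻¹ * J = J * (g.1 * v.1 * g.1⁻¹)
    have := congrArg (fun z => g.1 * z * g.1⁻¹) h2
    simpa [mul_assoc] using this.symm
  · obtain ⟨v, hv, v1, v2⟩ := zc_ex hN h
    rw [sq] at v2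
    have vi : v⁻¹ = v := inv_eq_of_mul_eq_one_right v2
    have hJ := JgJ v
    rw [vi] at hJ
    set w := Pm (v • (1 : Q))
    have hw : w.1 = v.1 * (J * v.1 * J) := by
      rw [hJ, ← Subgroup.coe_mul, ← mul_assoc, v2, one_mul]
    have c : v * w = w * v := (hv.2 _ (hP _)).symm
    have w1 : w ∈ Zc N ⊓ (centralizer {J}).comap (Mlt Q).subtype := by
      refine ⟨⟨hP _, fun n hn => Subtype.ext ?_⟩, mem_centralizer_singleton_iff.2 ?_⟩
      · have a1 := congrArg Subtype.val (hv.2 _ hn)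
        have a2 := congrArg Subtype.val (hv.2 _ (mul_mem hn (hP (n⁻¹ • (1 : Q)))))
        simp only [Subgroup.coe_mul] at a1 ⊢
        rw [Subgroup.coe_mul, Subgroup.coe_mul _ v, ← JgJ] at a2
        have a3 := congrArg (fun z => J * z * J) a2
        simp only [← mul_assoc, JJ, one_mul] at a3
        rw [mul_assoc _ J J, JJ, mul_one] at a3
        rw [hw, ← mul_assoc, a1, mul_assoc, ← mul_assoc n.1, ← mul_assoc n.1, a3]
        simp only [mul_assoc]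
      · change w.1 * J = J * w.1
        have a1 := congrArg Subtype.val c
        rw [Subgroup.coe_mul, Subgroup.coe_mul] at a1
        calc w.1 * J = v.1 * J * v.1 := by rw [hw, mul_assoc, mul_assoc, JJ, mul_one, mul_assoc]
          _ = J * (J * v.1 * J) * v.1 := by simp only [← mul_assoc, JJ, one_mul]
          _ = J * w.1 := by
            rw [hJ, Subgroup.coe_mul, a1, mul_assoc, mul_assoc, ← Subgroup.coe_mul, v2]; simp
    rw [e, mem_bot] at w1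
    have : v ∈ Zc N ⊓ (centralizer {J}).comap (Mlt Q).subtype := by
      refine ⟨hv, mem_centralizer_singleton_iff.2 ?_⟩
      rw [w1, mul_one] at hJ
      change v.1 * J = J * v.1
      conv_rhs => rw [← hJ, ← mul_assoc, ← mul_assoc, JJ, one_mul]
    rw [e, mem_bot] at this
    exact v1 this
  · have h1 : v.1 * J = J * v.1 := mem_centralizer_singleton_iff.1 hv.2
    have := DFunLike.congr_fun h1 1
    simpa [coe_app] using this.symm

theorem Nrm.two_le (h : Nrm A) (hn : A ≠ {1}) : 2 ≤ A.ncard := by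
  rw [Nat.succ_le_iff, Set.one_lt_ncard_iff_nontrivial]
  by_contra hc
  exact hn ((Set.not_nontrivial_iff.1 hc).eq_singleton_of_mem h.one)

theorem card_pos' : 0 < Nat.card Q := Nat.card_pos_iff.2 ⟨⟨1⟩, inferInstance⟩

theorem solv2 (n : ℕ) : ∀ (Q : Type) [ALoop Q] [Finite Q], Nat.card Q = n → ∀ k, n = 2 ^ k →
    Solv Q := by
  induction n using Nat.strong_induction_on with
  | _ n ih =>
  intro Q _ _ hn k hk
  by_cases h0 : ∃ A : Set Q, Nrm A ∧ A ≠ {1} ∧ A ≠ Set.univ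
  · obtain ⟨A, h, h1, h2⟩ := h0
    have hc := h.card
    have := h.two_le h1
    have hq := card_pos' (Q := h.Qt)
    obtain ⟨i, -, hi⟩ := (Nat.dvd_prime_pow Nat.prime_two).1
      (hk ▸ hn ▸ hc ▸ dvd_mul_left _ _ : A.ncard ∣ 2 ^ k)
    obtain ⟨j, -, hj⟩ := (Nat.dvd_prime_pow Nat.prime_two).1
      (hk ▸ hn ▸ hc ▸ dvd_mul_right _ _ : Nat.card h.Qt ∣ 2 ^ k)
    refine Solv.ext h (@ih _ ?_ A h.toSub.loop _ rfl i hi) (ih _ (by nlinarith) h.Qt rfl j hj)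
    rw [← hn, ← Set.ncard_univ Q]
    exact Set.ncard_lt_ncard (Set.ssubset_univ_iff.2 h2)
  have hi : ∀ x : Q, iv x = x := by
    have hU : IsPGroup 2 (Us Q) := (clos_two (two_of_card (hn.trans hk))).comap_of_injective _
      Subtype.val_injective
    have sp : ∀ V : Subgroup (G Q), V.Normal → V ≠ ⊥ → ∀ x : Q, ∃ v ∈ V, x = v • (1 : Q) :=
      fun V _ hV x => by
        by_contra hc
        refine h0 ⟨_, orb_nrm V, fun e => hV (eq_bot_iff.2 fun v hv => gext fun y => ?_),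
          fun e => hc (Set.eq_univ_iff_forall.1 e x)⟩
        obtain ⟨a, ha, e2⟩ := (orb_nrm V).mem_ker.1 (orb_ker V hv) y
        rw [e] at ha
        rw [e2, ha, mo, one_smul]
    by_cases h1 : Us Q = ⊥
    · intro x
      have := Pm_us x
      rw [h1, mem_bot, Pm, mul_inv_eq_one] at this
      simpa using (congrArg (· • (1 : Q)) this).symm
    · obtain ⟨V, hV, V1, -, V2⟩ := v_J hU h1 Pm_us
      intro x
      obtain ⟨v, hv, rfl⟩ := sp V hV V1 x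
      exact V2 v hv
  exact solv_e2 (fun x y => by rw [← hi (x * y), aaip, hi, hi]) fun x => by rw [← mul_iv x, hi]

theorem solv_tr {p : ℕ} [hp : Fact p.Prime] (n : ℕ) : ∀ (Q : Type) [ALoop Q] [Finite Q],
    Nat.card Q = n → Solv Q → ∀ k, n = p ^ k → ∃ N : Subgroup (G Q), N.Normal ∧ IsPGroup p N ∧
      ∀ x : Q, ∃ g ∈ N, x = g • (1 : Q) := by
  induction n using Nat.strong_induction_on with
  | _ n ih =>
  intro Q _ _ hn s k hk
  by_cases h0 : (Set.univ : Set Q) = {1}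
  · exact ⟨⊥, inferInstance, IsPGroup.of_bot, fun x => ⟨1, one_mem _, by
      simpa using (h0 ▸ Set.mem_univ x : x ∈ ({1} : Set Q))⟩⟩
  obtain ⟨A, -, h⟩ := exists_min nrm_univ h0
  have ab := s.ab h
  have hc := h.card
  have := h.toNrm.two_le h.ne
  have hq := card_pos' (Q := h.Qt)
  obtain ⟨i, -, hi⟩ := (Nat.dvd_prime_pow hp.out).1
    (hk ▸ hn ▸ hc ▸ dvd_mul_left _ _ : A.ncard ∣ p ^ k)
  obtain ⟨j, -, hj⟩ := (Nat.dvd_prime_pow hp.out).1
    (hk ▸ hn ▸ hc ▸ dvd_mul_right _ _ : Nat.card h.Qt ∣ p ^ k)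
  obtain ⟨N, hN, Np, Nt⟩ := ih _ (by nlinarith) h.Qt rfl (s.qt _) j hj
  set U := N.comap h.pi
  obtain ⟨P⟩ : Nonempty (Sylow p U) := inferInstance
  have hd := sylow_dec (C := h.pi.ker) (U := U) (fun u hu => by
    obtain ⟨j, hj⟩ := Np ⟨_, hu⟩
    exact ⟨j, by rw [MonoidHom.mem_ker, map_pow]; exact congrArg Subtype.val hj⟩) P
  have hC := ct_normal h ab
  have kU : h.pi.ker ≤ U := fun k hk => by
    rw [mem_comap, MonoidHom.mem_ker.1 hk]; exact one_mem _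
  have cP : Ct h.toNrm ab ≤ (P : Subgroup U).map U.subtype := fun c hc =>
    ⟨⟨c, kU hc.1⟩, ((ct_p h.toNrm ab hi).comap_of_injective U.subtype
      Subtype.val_injective).le_sylow_of_normal P hc, rfl⟩
  refine ⟨_, inferInstance, ncl_pgroup (C := (P : Subgroup U).map U.subtype) (K := U)
    (map_subtype_le _) (fun u hu c hc => ?_) (P.isPGroup'.map _), fun x => ?_⟩
  · obtain ⟨k, hk, t, ht, rfl⟩ := hd u hu
    have := mul_mem (cP (ct_cen h ab hk (t * c * t⁻¹))) (mul_mem (mul_mem ht hc) (inv_mem ht))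
    simpa [mul_assoc] using this
  · obtain ⟨g, hg, e⟩ := Nt (h.cl x)
    obtain ⟨g, rfl⟩ := h.pi_surj g
    obtain ⟨k, hk, t, ht, rfl⟩ := hd g hg
    rw [map_mul, MonoidHom.mem_ker.1 hk, one_mul, ← h.mk_one, h.pi_smul, eq_comm, h.mk_eq] at e
    obtain ⟨a, ha, rfl⟩ := e
    exact ⟨r a * t, le_normalClosure (mul_mem (cP (ct_r _ ab ha)) ht), by simp [mul_smul]⟩

theorem ne_bot_of_tr {N : Subgroup (G Q)} (h1 : Nat.card Q ≠ 1)
    (ht : ∀ x : Q, ∃ n ∈ N, x = n • (1 : Q)) : N ≠ ⊥ := fun e => h1 (Nat.card_eq_one_iff_exists.2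
  ⟨1, fun x => by obtain ⟨n, hn, rfl⟩ := ht x; rw [e, mem_bot] at hn; simp [hn]⟩)

theorem main_two {k : ℕ} (hk : Nat.card Q = 2 ^ (k + 1)) :
    ∃ a : Q, a ≠ 1 ∧ ∀ x y, (x * a) * y = x * (a * y) := by
  have s := solv2 _ Q rfl _ hk
  obtain ⟨N0, n0, p0, t0⟩ := solv_tr (p := 2) _ Q rfl s _ hk
  obtain ⟨N, ⟨hN, Np⟩, hm⟩ := (wellFounded_gt (α := Subgroup (G Q))).has_min
    {N | N.Normal ∧ IsPGroup 2 N} ⟨N0, n0, p0⟩
  have mx : ∀ U : Subgroup (G Q), U.Normal → IsPGroup 2 U → U ≤ N := fun U _ hU => by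
    by_contra hc
    exact hm (N ⊔ U) ⟨inferInstance, Np.to_sup_of_normal_left hU⟩ (left_lt_sup.2 hc)
  have ht : ∀ x : Q, ∃ n ∈ N, x = n • (1 : Q) := fun x => (t0 x).imp fun g h => ⟨mx _ n0 p0 h.1, h.2⟩
  have hU := mx (Us Q) inferInstance ((clos_two (two_of_card hk)).comap_of_injective (Mlt Q).subtype
      Subtype.val_injective : IsPGroup 2 (Us Q))
  have hP : ∀ x, Pm x ∈ N := fun x => hU (Pm_us x)
  obtain ⟨V0, hV, V1, V2, V3⟩ := v_J Np (ne_bot_of_tr (by rw [hk, pow_succ]; omega) ht) hP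
  obtain ⟨B, hB, h⟩ := exists_min (orb_nrm V0) fun e => V1 (eq_bot_iff.2 fun v hv =>
    zc_sr ht (V2 hv) (y := 1) (by
      have : v • (1 : Q) ∈ {y : Q | ∃ g ∈ V0, y = g • (1 : Q)} := ⟨v, hv, rfl⟩
      rwa [e] at this))
  have ab := s.ab h
  obtain ⟨i, -, hi⟩ := (Nat.dvd_prime_pow Nat.prime_two).1
    (hk ▸ h.card ▸ dvd_mul_left _ _ : B.ncard ∣ 2 ^ (k + 1))
  have cN := mx _ (ct_normal h ab) (ct_p h.toNrm ab hi)
  have hk' : ∀ v ∈ V0, v • (1 : Q) ∈ B → v ∈ h.pi.ker := fun v hv hb => h.mem_ker.2 fun y => by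
    obtain ⟨g, hg, rfl⟩ := ht y
    rw [← mul_smul, ← (V2 hv).2 g hg, mul_smul]
    exact h.smul g (rel_one.2 hb)
  refine nuc (V0 ⊓ h.pi.ker) (fun e => h.ne (Set.Subset.antisymm (fun b hb => ?_) (by simpa using h.one)))
    (fun v hv w hw => (V2 hw.1).2 _ (V2 hv.1).1) (fun v hv y => zc_sr ht (V2 hv.1))
    (fun v hv x => (V2 hv.1).2 _ (hP x)) (.inr ⟨fun v hv => zc_sr ht (mul_mem (V2 hv.1) (V2 hv.1))
      (y := 1) ?_, fun v hv w hw => (V2 hw.1).2 _ (cN (ct_l _ ab (h.ker_one hv.2)))⟩)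
  · obtain ⟨v, hv, rfl⟩ := hB hb
    have : v ∈ V0 ⊓ h.pi.ker := ⟨hv, hk' v hv hb⟩
    rw [e, mem_bot] at this
    simp [this]
  · have hb := h.ker_one hv.2
    have := congrArg (· • (1 : Q)) ((V2 hv.1).2 _ (cN (ct_l _ ab hb)))
    simp only [mul_smul, l_smul, mo] at this
    rw [mul_smul, ← this]
    simpa only [V3 v hv.1] using mul_iv (v • (1 : Q))

theorem main_odd {p : ℕ} [hp : Fact p.Prime] (h2 : p ≠ 2) (h1 : Nat.card Q ≠ 1)
    (N : Subgroup (G Q)) [N.Normal] (Np : IsPGroup p N) (ht : ∀ x : Q, ∃ n ∈ N, x = n • (1 : Q))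
    (hP : ∀ x, Pm x ∈ N) : ∃ a : Q, a ≠ 1 ∧ ∀ x y, (x * a) * y = x * (a * y) := by
  obtain ⟨v, hv, v1, -⟩ := zc_ex Np (ne_bot_of_tr h1 ht)
  refine nuc (Zc N) (fun e => v1 (by rwa [e] at hv)) (fun v hv w hw => hw.2 _ hv.1)
    (fun v hv y => zc_sr ht hv) (fun v hv x => hv.2 _ (hP x)) (.inl fun v hv e => ?_)
  obtain ⟨j, hj⟩ := Np ⟨v, hv.1⟩
  have a1 : orderOf v ∣ p ^ j := orderOf_dvd_of_pow_eq_one (congrArg Subtype.val hj)
  have a2 : orderOf v ∣ 2 := orderOf_dvd_of_pow_eq_one (by rwa [sq])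
  exact orderOf_eq_one_iff.1 (Nat.eq_one_of_dvd_coprimes
    (((Nat.coprime_primes hp.out Nat.prime_two).2 h2).pow_left j) a1 a2)

end Pool.Agent.AL
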